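import Pool.Agent.Helper11.N1.StB

set_option autoImplicit false

/-!
# Winding numbers
-/

namespace Helper11.N1

namespace WINDaux

theorem step {M : ℕ} [NeZero M] (w w' v : ZMod M) :
    M * (if off w v < off w w' then 1 else 0) + off w v = off w w' + off w' v := by
  have h1 := off_add w w' v
  have h2 := off_lt w v
  have h3 := off_lt w w'
  have h4 := off_lt w' v
  split_ifs with h
  · rw [mul_one]
    omega
  · rw [mul_zero]
    omega

end WINDaux

theorem wind : StWind := by
  intro p M _ _ f c v
  classical
  have h1 : ∀ j : ZMod p, M * (if off (f (j - c)) v < off (f (j - c)) (f j) then 1 else 0) +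
      off (f (j - c)) v = off (f (j - c)) (f j) + off (f j) v := fun j => WINDaux.step _ _ _
  have h2 := Finset.sum_congr (rfl : (Finset.univ : Finset (ZMod p)) = Finset.univ)
    (fun j _ => h1 j)
  rw [Finset.sum_add_distrib, Finset.sum_add_distrib, ← Finset.mul_sum] at h2
  have h3 : ∑ j : ZMod p, off (f (j - c)) v = ∑ j : ZMod p, off (f j) v :=
    Equiv.sum_comp (Equiv.subRight c) (fun j => off (f j) v)
  rw [h3] at h2
  have h4 := Nat.add_right_cancel h2
  rw [← h4, Finset.card_filter]

end Helper11.N1
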