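import Pool.Agent.Helper11.N1.StB

set_option autoImplicit false

/-!
Module GH of project N1: if `u = 1` on all strips, the strips are exactly the set where `u = 1`.
-/

namespace Helper11.N1

namespace GHaux

/-- the jump of the indicator of an arc -/
theorem jump_GH {M : ℕ} [NeZero M] (w w' x : ZMod M) (hne : w ≠ w') :
    (if off (w + 1) (x + 1) < off w w' then (1 : ℤ) else 0) -
      (if off (w + 1) x < off w w' then (1 : ℤ) else 0) =
    (if w = x then (1 : ℤ) else 0) - (if w' = x then (1 : ℤ) else 0) := by
  have hpos : 0 < off w w' := Nat.pos_of_ne_zero fun h => hne (off_eq_zero.1 h)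
  have hlt := off_lt w w'
  have hM2 : 1 < M := by omega
  have h1 : off w (w + 1) = 1 := by
    have h := off_nat w hM2
    rw [Nat.cast_one] at h
    exact h
  rw [off_translate]
  by_cases hx : w = x
  · subst hx
    have h2 : off (w + 1) w = M - 1 := by
      have h3 := off_symm (x := w) (y := w + 1) (by
        intro h4
        rw [← h4, off_self] at h1
        omega)
      omega
    rw [off_self, h2, if_pos hpos, if_neg (by omega), if_pos rfl, if_neg (fun h => hne h.symm)]
  · have h4 : off w x ≠ 0 := fun h => hx (off_eq_zero.1 h)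
    have h5 : off w x = off (w + 1) x + 1 := by
      rcases off_add w (w + 1) x with h6 | h6
      · omega
      · have := off_lt (w + 1) x
        omega
    rw [if_neg hx]
    by_cases h7 : w' = x
    · subst h7
      rw [if_neg (lt_irrefl _), if_pos (by omega), if_pos rfl]
    · rw [if_neg h7]
      have h8 : off w x ≠ off w w' := fun h => h7 (off_inj_left h).symm
      by_cases h9 : off w x < off w w'
      · rw [if_pos h9, if_pos (by omega)]
        norm_num
      · rw [if_neg h9, if_neg (by omega)]

/-- a function on a circle which does not change under a step is constant -/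
theorem const_GH {M : ℕ} [NeZero M] (f : ZMod M → ℤ) (h : ∀ S, f (S + 1) = f S) (S S' : ZMod M) :
    f S' = f S := by
  have h1 : ∀ n : ℕ, f (S + (n : ZMod M)) = f S := by
    intro n
    induction n with
    | zero => rw [Nat.cast_zero, add_zero]
    | succ n ih => rw [Nat.cast_succ, ← add_assoc, h, ih]
  rw [← off_spec S S']
  exact h1 _

/-- the sum of the indicators of a set with exactly one element -/
theorem one_GH {ι : Type*} [Fintype ι] (P : ι → Prop) [DecidablePred P] (i : ι) (hi : P i)
    (hu : ∀ j, P j → j = i) : (∑ j : ι, if P j then (1 : ℤ) else 0) = 1 := by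
  classical
  rw [Finset.sum_eq_single i]
  · rw [if_pos hi]
  · intro j _ hj
    exact if_neg fun h => hj (hu j h)
  · intro h
    exact absurd (Finset.mem_univ i) h

theorem none_GH {ι : Type*} [Fintype ι] (P : ι → Prop) [DecidablePred P]
    (hu : ∀ j, ¬ P j) : (∑ j : ι, if P j then (1 : ℤ) else 0) = 0 :=
  Finset.sum_eq_zero fun j _ => if_neg (hu j)

end GHaux

open GHaux in
/-- module GH -/
theorem gh : StGH := by
  classical
  intro p q a b _ _ hP z hG hD y u hW hU W S
  have hL := hW W
  have ha := hP.ha
  have hb := hP.hb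
  have hab := hP.hab
  have hq := hP.hq
  have hap : (a : ZMod p) ≠ 0 := by
    intro h
    rw [ZMod.natCast_eq_zero_iff] at h
    have := Nat.le_of_dvd (by omega) h
    omega
  have haq : (a : ZMod (p * q)) * (q : ZMod (p * q)) ≠ 0 := by
    intro h
    rw [← Nat.cast_mul, ZMod.natCast_eq_zero_iff] at h
    have h1 := Nat.le_of_dvd (Nat.mul_pos (by omega) hq) h
    have h2 := Nat.le_of_mul_le_mul_right h1 hq
    omega
  have hres : ∀ i j : ZMod p, sc q z i + a * q = sc q z j → False := by
    intro i j h
    have h1 : i = j := by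
      apply gen_res p q hG
      rw [← res_sc p q z i, ← res_sc p q z j, ← h, map_add, res_mul_q, add_zero]
    subst h1
    exact haq (add_eq_left.1 h)
  have hres2 : ∀ i j : ZMod p, sc q z i = sc q z j → i = j := by
    intro i j h
    apply gen_res p q hG
    rw [← res_sc p q z i, ← res_sc p q z j, h]
  -- the jump of the number of strips
  have hg : ∀ S : ZMod (p * q),
      (∑ j : ZMod p, if aB b W j ∧ A q a z j (S + 1 - e p q j) then (1 : ℤ) else 0) -
        (∑ j : ZMod p, if aB b W j ∧ A q a z j (S - e p q j) then (1 : ℤ) else 0) =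
      (∑ j : ZMod p, if aT a b W j ∧ sc q z j + a * q = S then (1 : ℤ) else 0) -
        (∑ j : ZMod p, if aB b W j ∧ sc q z j = S then (1 : ℤ) else 0) := by
    intro S
    rw [← Equiv.sum_comp (Equiv.subRight (a : ZMod p))
      (fun j : ZMod p => if aT a b W j ∧ sc q z j + a * q = S then (1 : ℤ) else 0),
      ← Finset.sum_sub_distrib, ← Finset.sum_sub_distrib]
    refine Finset.sum_congr rfl fun j _ => ?_
    have hne : z (j - a) ≠ z j := by
      intro h
      have h1 : j - a = j := gen_res p q hG (by rw [h])
      exact hap (by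
        have h2 := congrArg (fun t => j - t) h1
        simpa using h2)
    have hT : aT a b W (j - a) ↔ aB b W j := by
      unfold aT aB
      rw [show W - a - 1 - (j - a) = W - 1 - j by ring]
    have h1 : sc q z (j - a) + a * q = S ↔ z (j - a) = S - e p q j := by
      unfold sc
      rw [e_sub, e_natCast]
      push_cast
      constructor
      · intro h
        rw [← h]
        ring
      · intro h
        rw [h]
        ring
    have h2 : sc q z j = S ↔ z j = S - e p q j := by
      unfold sc
      exact eq_sub_iff_add_eq.symm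
    simp only [Equiv.subRight_apply, hT, h1, h2]
    by_cases hB : aB b W j
    · simp only [hB, true_and]
      have h3 := jump_GH (z (j - a)) (z j) (S - e p q j) hne
      unfold A
      rw [show S + 1 - e p q j = S - e p q j + 1 by ring]
      convert h3
    · simp only [hB, false_and, if_false]
  -- the jump of `u`
  have hu : ∀ S : ZMod (p * q), u W (S + 1) - u W S =
      (∑ j : ZMod p, if aT a b W j ∧ sc q z j + a * q = S then (1 : ℤ) else 0) -
        (∑ j : ZMod p, if aB b W j ∧ sc q z j = S then (1 : ℤ) else 0) := by
    intro S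
    by_cases h1 : ∃ j, aB b W j ∧ sc q z j = S
    · obtain ⟨j, hj, hS⟩ := h1
      subst hS
      rw [one_GH (fun i : ZMod p => aB b W i ∧ sc q z i = sc q z j) j ⟨hj, rfl⟩
        (fun i hi => hres2 i j hi.2),
        none_GH (fun i : ZMod p => aT a b W i ∧ sc q z i + a * q = sc q z j)
        (fun i hi => hres i j hi.2), (hL.uB j hj).1, (hL.uB j hj).2]
    · by_cases h2 : ∃ j, aT a b W j ∧ sc q z j + a * q = S
      · obtain ⟨j, hj, hS⟩ := h2
        subst hS
        rw [one_GH (fun i : ZMod p => aT a b W i ∧ sc q z i + a * q = sc q z j + a * q) j ⟨hj, rfl⟩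
          (fun i hi => hres2 i j (add_right_cancel hi.2)),
          none_GH (fun i : ZMod p => aB b W i ∧ sc q z i = sc q z j + a * q)
          (fun i hi => hres j i hi.2.symm), (hL.uT j hj).1, (hL.uT j hj).2]
      · push Not at h1 h2
        rw [none_GH (fun i : ZMod p => aB b W i ∧ sc q z i = S) (fun i hi => h1 i hi.1 hi.2),
          none_GH (fun i : ZMod p => aT a b W i ∧ sc q z i + a * q = S)
          (fun i hi => h2 i hi.1 hi.2), hL.uC S h1 h2, sub_self, sub_self]
  -- the difference is constant
  have hc := const_GH (fun S : ZMod (p * q) =>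
    (∑ j : ZMod p, if aB b W j ∧ A q a z j (S - e p q j) then (1 : ℤ) else 0) - u W S)
    (by
      intro S
      have h1 := hg S
      have h2 := hu S
      show (∑ j : ZMod p, if aB b W j ∧ A q a z j (S + 1 - e p q j) then (1 : ℤ) else 0) -
        u W (S + 1) =
        (∑ j : ZMod p, if aB b W j ∧ A q a z j (S - e p q j) then (1 : ℤ) else 0) - u W S
      linarith) (sc q z (W - 1) + 1) S
  have h0 : aB b W (W - 1) := by
    unfold aB
    rw [sub_self, ZMod.val_zero]
    omega
  have hu0 := (hL.uB (W - 1) h0).2
  have hg0 : (∑ j : ZMod p, if aB b W j ∧ A q a z j (sc q z (W - 1) + 1 - e p q j)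
      then (1 : ℤ) else 0) = 0 := by
    apply none_GH (fun j : ZMod p => aB b W j ∧ A q a z j (sc q z (W - 1) + 1 - e p q j))
    intro j hj
    have h1 := hU j W hj.1 _ hj.2
    rw [hu0] at h1
    exact zero_ne_one h1
  have hfin : (∑ j : ZMod p, if aB b W j ∧ A q a z j (S - e p q j) then (1 : ℤ) else 0) -
      u W S = 0 := by
    have h1 : (∑ j : ZMod p, if aB b W j ∧ A q a z j (S - e p q j) then (1 : ℤ) else 0) -
      u W S = (∑ j : ZMod p, if aB b W j ∧ A q a z j (sc q z (W - 1) + 1 - e p q j)
      then (1 : ℤ) else 0) - u W (sc q z (W - 1) + 1) := hc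
    rw [h1, hg0, hu0, sub_self]
  rw [Finset.card_filter]
  push_cast
  have h9 : u W S =
      ∑ j : ZMod p, if aB b W j ∧ A q a z j (S - e p q j) then (1 : ℤ) else 0 := by
    linarith
  rw [h9]

end Helper11.N1
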