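import Pool.Agent.Helper11.N1.StA

set_option autoImplicit false

namespace Helper11.N1

namespace BLaux

/-- distance as a residue -/
theorem off_cast {M : ℕ} [NeZero M] (x y : ZMod M) {n : ℕ} (hn : n < M)
    (h : y - x = (n : ZMod M)) : off x y = n := by
  unfold off
  rw [h, ZMod.val_natCast, Nat.mod_eq_of_lt hn]

theorem sub_sub_cast {M : ℕ} [NeZero M] {u v : ℕ} (hu : u < M) (hv : v < M) (x : ZMod M)
    (h : x = (u : ZMod M) - (v : ZMod M)) :
    (v ≤ u ∧ x.val = u - v) ∨ (u < v ∧ x.val = M + u - v) := by
  rcases le_or_gt v u with h1 | h1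
  · left
    refine ⟨h1, ?_⟩
    rw [h, ← Nat.cast_sub h1, ZMod.val_natCast, Nat.mod_eq_of_lt (by omega)]
  · right
    refine ⟨h1, ?_⟩
    have h2 : ((u : ZMod M) - (v : ZMod M)) = ((M + u - v : ℕ) : ZMod M) := by
      rw [Nat.cast_sub (by omega), Nat.cast_add, ZMod.natCast_self, zero_add]
    rw [h, h2, ZMod.val_natCast, Nat.mod_eq_of_lt (by omega)]

end BLaux

open BLaux in
theorem bl : StBL := by
  intro p q a b _ _ hpar z W j
  have hq : 1 ≤ q := hpar.hq
  have hp : 0 < p := Nat.pos_of_ne_zero (NeZero.ne p)
  have ha := hpar.ha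
  have hb := hpar.hb
  have hab := hpar.hab
  have hM : a * q + b * q + q ≤ p * q := by
    have h1 : a + b + 1 ≤ p := by omega
    have h2 := Nat.mul_le_mul_right q h1
    calc a * q + b * q + q = (a + b + 1) * q := by ring
      _ ≤ p * q := h2
  have haq : 2 * q ≤ a * q := Nat.mul_le_mul_right q ha
  have hbq : 2 * q ≤ b * q := Nat.mul_le_mul_right q hb
  set d := (W - j).val with hd
  have hdp : d < p := ZMod.val_lt _
  have hdq : d * q + q ≤ p * q := by
    have h1 : d + 1 ≤ p := by omega
    have h2 := Nat.mul_le_mul_right q h1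
    calc d * q + q = (d + 1) * q := by ring
      _ ≤ p * q := h2
  have hda : (d - a) * q = d * q - a * q := Nat.sub_mul _ _ _
  have hdb : (d - b) * q = d * q - b * q := Nat.sub_mul _ _ _
  have heW : e p q W - e p q j = ((d * q : ℕ) : ZMod (p * q)) := by
    rw [← e_sub]
    unfold e
    rw [← hd, Nat.mul_comm q d]
  constructor
  · intro X
    set t := off X (z j) with ht
    have htM : t < p * q := off_lt _ _
    have hz : z j = X + (t : ℕ) := (off_spec X (z j)).symm
    have hval := sub_sub_cast (M := p * q) (u := d * q) (v := t + 1 - 1) (by omega) (by omega)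
      (x := (X + e p q W) - sc q z j) (by
        unfold sc
        rw [hz, Nat.add_sub_cancel, ← heW]
        ring)
    rw [Nat.add_sub_cancel] at hval
    have hbox : box q a b z j X (X + e p q W) ↔
        t < b * q ∧ off (sc q z j + 1) (X + e p q W) < a * q := Iff.rfl
    rw [hbox]
    have hoff : off (sc q z j) (X + e p q W) = ((X + e p q W) - sc q z j).val := rfl
    have h1 : off (sc q z j) (sc q z j + 1) = 1 := by
      have := off_nat (sc q z j) (n := 1) (by omega)
      rw [Nat.cast_one] at this
      exact this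
    have h2 := off_lt (sc q z j + 1) (X + e p q W)
    have h3 := off_lt (sc q z j) (X + e p q W)
    rw [hda]
    rcases off_add (sc q z j) (sc q z j + 1) (X + e p q W) with h4 | h4 <;>
    rcases hval with ⟨h5, h6⟩ | ⟨h5, h6⟩ <;> constructor <;> intro h7 <;> omega
  · intro S
    set s := off (sc q z j) S with hs
    have hsM : s < p * q := off_lt _ _
    have hS : S = sc q z j + (s : ℕ) := (off_spec (sc q z j) S).symm
    have hval := sub_sub_cast (M := p * q) (u := d * q) (v := s) (by omega) (by omega)
      (x := z j - (S - e p q W)) (by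
        rw [hS]
        unfold sc
        rw [← heW]
        ring)
    have hbox : box q a b z j (S - e p q W) S ↔
        off (S - e p q W) (z j) < b * q ∧ off (sc q z j + 1) S < a * q := Iff.rfl
    rw [hbox]
    have hoff : off (S - e p q W) (z j) = (z j - (S - e p q W)).val := rfl
    have h1 : off (sc q z j) (sc q z j + 1) = 1 := by
      have := off_nat (sc q z j) (n := 1) (by omega)
      rw [Nat.cast_one] at this
      exact this
    have h2 := off_lt (sc q z j + 1) S
    have h3 := off_lt (S - e p q W) (z j)
    rw [hdb]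
    rcases off_add (sc q z j) (sc q z j + 1) S with h4 | h4 <;>
    rcases hval with ⟨h5, h6⟩ | ⟨h5, h6⟩ <;> constructor <;> intro h7 <;> omega

end Helper11.N1
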