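import Pool.Agent.Helper11.N1.StB

set_option autoImplicit false
set_option linter.unusedSectionVars false

/-!
Project N1, module YF: the formula for `y` as a height difference.
-/

namespace Helper11.N1.YFaux

open Helper11.N1

/-- a function on `ZMod n` invariant under `x ↦ x + 1` is constant -/
theorem const_of_step {n : ℕ} [NeZero n] (f : ZMod n → ℤ) (h : ∀ x, f (x + 1) = f x) (x : ZMod n) :
    f x = f 0 := by
  have h1 : ∀ k : ℕ, f (k : ZMod n) = f 0 := by
    intro k
    induction k with
    | zero => simp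
    | succ k ih =>
      rw [Nat.cast_succ, h]
      exact ih
  rw [← ZMod.natCast_zmod_val x]
  exact h1 _

section

variable {p q a b : ℕ} [NeZero p] [NeZero q]

theorem natCast_val (n : ℕ) (hn : n < p) : ((n : ℕ) : ZMod p).val = n := by
  rw [ZMod.val_natCast, Nat.mod_eq_of_lt hn]

/-- the value of a difference shifted by one -/
theorem val_pred (hp : 1 < p) (d : ZMod p) :
    (d - 1).val = if d.val = 0 then p - 1 else d.val - 1 := by
  have hd := ZMod.val_lt d
  split_ifs with h
  · have h0 : d = 0 := (ZMod.val_eq_zero _).1 h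
    have h1 : d - 1 = ((p - 1 : ℕ) : ZMod p) := by
      rw [h0, Nat.cast_sub (by omega), ZMod.natCast_self, Nat.cast_one]
    rw [h1, natCast_val _ (by omega)]
  · have h1 : d - 1 = ((d.val - 1 : ℕ) : ZMod p) := by
      rw [Nat.cast_sub (by omega), ZMod.natCast_zmod_val, Nat.cast_one]
    rw [h1, natCast_val _ (by omega)]

variable (q a) in
/-- indicator of an active right side -/
noncomputable def iR (z : ZMod p → ZMod (p * q)) (W : ZMod p) (x : ZMod (p * q)) : ℤ :=
  open Classical in if ∃ j, aR a W j ∧ z j = x then 1 else 0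

variable (q a) in
/-- indicator of the arc -/
noncomputable def iA (z : ZMod p → ZMod (p * q)) (j : ZMod p) (x : ZMod (p * q)) : ℤ :=
  open Classical in if A q a z j x then 1 else 0

theorem Q_eq (z : ZMod p → ZMod (p * q)) (W : ZMod p) (x : ZMod (p * q)) :
    Q q a z W x = ∑ k ∈ Finset.range q, iR q a z W (x + (k : ℕ)) := by
  classical
  unfold Q iR
  refine Finset.sum_congr rfl fun k _ => ?_
  congr

theorem z_inj {z : ZMod p → ZMod (p * q)} (hg : Gen q z) {i j : ZMod p} (h : z i = z j) :
    i = j := by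
  apply hg
  rw [h, sub_self, ZMod.val_zero]
  exact dvd_zero _

/-- the jump of the arc indicator -/
theorem iA_step (hP : Par p q a b) {z : ZMod p → ZMod (p * q)} (hg : Gen q z) (j : ZMod p)
    (x : ZMod (p * q)) : open Classical in
    iA q a z j (x + 1) - iA q a z j x =
      (if x = z (j - a) then 1 else 0) - (if x = z j then 1 else 0) := by
  classical
  have hab := hP.hab
  have ha := hP.ha
  have hq := hP.hq
  have hM : 1 < p * q := by
    have : p * 1 ≤ p * q := Nat.mul_le_mul_left p hq
    omega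
  have hne : z (j - a) ≠ z j := by
    intro h
    have h1 := z_inj hg h
    have h2 : (a : ZMod p) = 0 := by
      have h3 : j - (j - (a : ZMod p)) = 0 := by rw [h1, sub_self]
      rwa [sub_sub_cancel] at h3
    have h4 := natCast_val (p := p) a (by omega)
    rw [h2, ZMod.val_zero] at h4
    omega
  have h1 : off (z (j - a) + 1) (x + 1) = off (z (j - a)) x := off_translate _ _ _
  have hpi : off (z (j - a)) (z j) ≠ 0 := fun h => hne (off_eq_zero.1 h)
  have hpl := off_lt (z (j - a)) (z j)
  have hn := off_lt (z (j - a)) x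
  have h2 : off (z (j - a) + 1) x =
      if off (z (j - a)) x = 0 then p * q - 1 else off (z (j - a)) x - 1 := by
    have h3 : off (z (j - a)) (z (j - a) + 1) = 1 := by
      have := off_nat (z (j - a)) (n := 1) hM
      rwa [Nat.cast_one] at this
    have h4 := off_add (z (j - a)) (z (j - a) + 1) x
    rw [h3] at h4
    have h5 := off_lt (z (j - a) + 1) x
    split_ifs with h6 <;> omega
  have e1 : (x = z (j - a)) ↔ off (z (j - a)) x = 0 := by
    rw [off_eq_zero]
    exact eq_comm
  have e2 : (x = z j) ↔ off (z (j - a)) x = off (z (j - a)) (z j) := by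
    constructor
    · intro h
      rw [h]
    · intro h
      exact off_inj_left h
  have e3 : A q a z j (x + 1) ↔ off (z (j - a)) x < off (z (j - a)) (z j) := by
    unfold A
    rw [h1]
  have e4 : A q a z j x ↔
      (off (z (j - a)) x ≠ 0 ∧ off (z (j - a)) x ≤ off (z (j - a)) (z j)) := by
    unfold A
    rw [h2]
    split_ifs with h6 <;> omega
  unfold iA
  simp only [e1, e2, e3, e4]
  generalize off (z (j - a)) x = n at *
  generalize off (z (j - a)) (z j) = m at *
  by_cases c1 : n = 0
  · have c2 : n < m := by omega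
    have c3 : ¬ (n ≠ 0 ∧ n ≤ m) := by omega
    have c4 : ¬ n = m := by omega
    rw [if_pos c1, if_pos c2, if_neg c3, if_neg c4]
  · by_cases c2 : n < m
    · have c3 : (n ≠ 0 ∧ n ≤ m) := by omega
      have c4 : ¬ n = m := by omega
      rw [if_neg c1, if_pos c2, if_pos c3, if_neg c4]
      norm_num
    · by_cases c4 : n = m
      · have c3 : (n ≠ 0 ∧ n ≤ m) := by omega
        rw [if_neg c1, if_neg c2, if_pos c3, if_pos c4]
      · have c3 : ¬ (n ≠ 0 ∧ n ≤ m) := by omega
        rw [if_neg c1, if_neg c2, if_neg c3, if_neg c4]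

theorem iR_eq {z : ZMod p → ZMod (p * q)} (hg : Gen q z) (W i : ZMod p) :
    open Classical in iR q a z W (z i) = if aR a W i then 1 else 0 := by
  classical
  unfold iR
  have h : (∃ j, aR a W j ∧ z j = z i) ↔ aR a W i := by
    constructor
    · rintro ⟨j, h1, h2⟩
      rw [← z_inj hg h2]
      exact h1
    · intro h1
      exact ⟨i, h1, rfl⟩
  simp only [h]

/-- the jump of the indicator of a right side, as the level changes -/
theorem iR_level (hP : Par p q a b) {z : ZMod p → ZMod (p * q)} (hg : Gen q z) (j : ZMod p)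
    (x : ZMod (p * q)) : open Classical in
    iR q a z (j + 1) x - iR q a z j x =
      (if x = z j then 1 else 0) - (if x = z (j - a) then 1 else 0) := by
  classical
  have hab := hP.hab
  have ha := hP.ha
  by_cases hx : ∃ i, z i = x
  · obtain ⟨i, rfl⟩ := hx
    rw [iR_eq hg, iR_eq hg]
    have h1 : (j + 1 - 1 - i : ZMod p) = j - i := by ring
    have h2 : (j - 1 - i : ZMod p) = (j - i) - 1 := by ring
    have e1 : aR a (j + 1) i ↔ (j - i).val < a := by
      unfold aR
      rw [h1]
    have hlt := ZMod.val_lt (j - i)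
    have e2 : aR a j i ↔ ((j - i).val ≠ 0 ∧ (j - i).val ≤ a) := by
      unfold aR
      rw [h2, val_pred (by omega)]
      split_ifs with h3 <;> omega
    have e3 : z i = z j ↔ (j - i).val = 0 := by
      rw [ZMod.val_eq_zero, sub_eq_zero]
      constructor
      · intro h
        exact (z_inj hg h).symm
      · intro h
        rw [h]
    have e4 : z i = z (j - a) ↔ (j - i).val = a := by
      constructor
      · intro h
        have h3 := z_inj hg h
        rw [h3, sub_sub_cancel]
        exact natCast_val _ (by omega)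
      · intro h
        have h3 : (j - i) = (a : ZMod p) := by
          rw [← h, ZMod.natCast_zmod_val]
        rw [← h3, sub_sub_cancel]
    simp only [e1, e2, e3, e4]
    generalize (j - i).val = n at *
    by_cases c1 : n = 0
    · have c2 : n < a := by omega
      have c3 : ¬ (n ≠ 0 ∧ n ≤ a) := by omega
      have c4 : ¬ n = a := by omega
      rw [if_pos c1, if_pos c2, if_neg c3, if_neg c4]
    · by_cases c2 : n < a
      · have c3 : (n ≠ 0 ∧ n ≤ a) := by omega
        have c4 : ¬ n = a := by omega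
        rw [if_neg c1, if_pos c2, if_pos c3, if_neg c4]
        norm_num
      · by_cases c4 : n = a
        · have c3 : (n ≠ 0 ∧ n ≤ a) := by omega
          rw [if_neg c1, if_neg c2, if_pos c3, if_pos c4]
        · have c3 : ¬ (n ≠ 0 ∧ n ≤ a) := by omega
          rw [if_neg c1, if_neg c2, if_neg c3, if_neg c4]
  · have h1 : ∀ W, iR q a z W x = 0 := by
      intro W
      unfold iR
      rw [if_neg]
      rintro ⟨i, _, h⟩
      exact hx ⟨i, h⟩
    have h2 : ¬ x = z j := fun h => hx ⟨j, h.symm⟩
    have h3 : ¬ x = z (j - a) := fun h => hx ⟨_, h.symm⟩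
    rw [h1, h1, if_neg h2, if_neg h3]

/-- (1), one place -/
theorem step1 (hP : Par p q a b) {z : ZMod p → ZMod (p * q)} (hg : Gen q z) (j : ZMod p)
    (x : ZMod (p * q)) :
    iA q a z j (x + 1) - iA q a z j x = - (iR q a z (j + 1) x - iR q a z j x) := by
  rw [iA_step hP hg, iR_level hP hg]
  ring

/-- (1), summed over `n` consecutive places -/
theorem stepn (hP : Par p q a b) {z : ZMod p → ZMod (p * q)} (hg : Gen q z) (j : ZMod p)
    (x : ZMod (p * q)) (n : ℕ) :
    iA q a z j (x + n) - iA q a z j x =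
      - (∑ k ∈ Finset.range n, iR q a z (j + 1) (x + (k : ℕ)) -
        ∑ k ∈ Finset.range n, iR q a z j (x + (k : ℕ))) := by
  induction n with
  | zero => simp
  | succ n ih =>
    rw [Finset.sum_range_succ, Finset.sum_range_succ]
    have h := step1 hP hg j (x + n)
    have h2 : x + ((n + 1 : ℕ) : ZMod (p * q)) = x + n + 1 := by
      push_cast
      ring
    rw [h2]
    linarith

/-- one step of the sliding sum -/
theorem Q_step (z : ZMod p → ZMod (p * q)) (W : ZMod p) (x : ZMod (p * q)) :
    Q q a z W (x + 1) - Q q a z W x = iR q a z W (x + q) - iR q a z W x := by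
  rw [Q_eq, Q_eq]
  have h1 := Finset.sum_range_succ' (fun k : ℕ => iR q a z W (x + (k : ℕ))) q
  have h2 := Finset.sum_range_succ (fun k : ℕ => iR q a z W (x + (k : ℕ))) q
  have h3 : ∀ k : ℕ, iR q a z W (x + 1 + (k : ℕ)) = iR q a z W (x + ((k + 1 : ℕ) : ZMod (p * q))) := by
    intro k
    congr 1
    push_cast
    ring
  rw [Finset.sum_congr rfl (fun k _ => h3 k)]
  have h4 : iR q a z W (x + ((0 : ℕ) : ZMod (p * q))) = iR q a z W x := by
    rw [Nat.cast_zero, add_zero]
  simp only [h4] at h1
  linarith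

variable (q a b) in
/-- the right side of the formula -/
noncomputable def YY1 (z : ZMod p → ZMod (p * q)) (W : ZMod p) (X : ZMod (p * q)) : ℤ :=
  ∑ i ∈ Finset.range b,
    (iA q a z (W - 1 - (i : ℕ)) (X + (((i + 1) * q : ℕ) : ZMod (p * q))) +
      Q q a z (W - (i : ℕ)) (X + ((i * q : ℕ) : ZMod (p * q))))

/-- (2), the right side -/
theorem YY1_step (hP : Par p q a b) {z : ZMod p → ZMod (p * q)} (hg : Gen q z) (W : ZMod p)
    (X : ZMod (p * q)) :
    YY1 q a b z W (X + 1) - YY1 q a b z W X =
      iR q a z (W - b) (X + b * q) - iR q a z W X := by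
  unfold YY1
  rw [← Finset.sum_sub_distrib]
  have h : ∀ i ∈ Finset.range b,
      (iA q a z (W - 1 - (i : ℕ)) (X + 1 + (((i + 1) * q : ℕ) : ZMod (p * q))) +
      Q q a z (W - (i : ℕ)) (X + 1 + ((i * q : ℕ) : ZMod (p * q)))) -
      (iA q a z (W - 1 - (i : ℕ)) (X + (((i + 1) * q : ℕ) : ZMod (p * q))) +
      Q q a z (W - (i : ℕ)) (X + ((i * q : ℕ) : ZMod (p * q)))) =
      (fun i : ℕ => iR q a z (W - (i : ℕ)) (X + ((i * q : ℕ) : ZMod (p * q)))) (i + 1) -
      (fun i : ℕ => iR q a z (W - (i : ℕ)) (X + ((i * q : ℕ) : ZMod (p * q)))) i := by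
    intro i _
    have h1 := step1 hP hg (W - 1 - (i : ℕ)) (X + (((i + 1) * q : ℕ) : ZMod (p * q)))
    have h2 := Q_step (a := a) z (W - (i : ℕ)) (X + ((i * q : ℕ) : ZMod (p * q)))
    have e1 : X + 1 + (((i + 1) * q : ℕ) : ZMod (p * q)) =
        X + (((i + 1) * q : ℕ) : ZMod (p * q)) + 1 := by ring
    have e2 : X + 1 + ((i * q : ℕ) : ZMod (p * q)) = X + ((i * q : ℕ) : ZMod (p * q)) + 1 := by
      ring
    have e3 : X + ((i * q : ℕ) : ZMod (p * q)) + (q : ZMod (p * q)) =
        X + (((i + 1) * q : ℕ) : ZMod (p * q)) := by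
      push_cast
      ring
    have e4 : W - 1 - ((i : ℕ) : ZMod p) + 1 = W - (i : ℕ) := by ring
    have e5 : W - ((i + 1 : ℕ) : ZMod p) = W - 1 - (i : ℕ) := by
      push_cast
      ring
    rw [e4] at h1
    rw [e3] at h2
    rw [e1, e2]
    simp only [e5]
    linarith
  rw [Finset.sum_congr rfl h, Finset.sum_range_sub
    (fun i : ℕ => iR q a z (W - (i : ℕ)) (X + ((i * q : ℕ) : ZMod (p * q))))]
  have e6 : ((b * q : ℕ) : ZMod (p * q)) = (b : ZMod (p * q)) * q := by push_cast; ring
  simp only [e6, Nat.cast_zero, sub_zero, zero_mul, add_zero]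

/-- (3), the right side -/
theorem YY1_level (hP : Par p q a b) {z : ZMod p → ZMod (p * q)} (hg : Gen q z) (W : ZMod p)
    (X : ZMod (p * q)) :
    YY1 q a b z (W + 1) X - YY1 q a b z W X =
      iA q a z W X - iA q a z (W - b) (X + b * q) := by
  unfold YY1
  rw [← Finset.sum_sub_distrib]
  have h : ∀ i ∈ Finset.range b,
      (iA q a z (W + 1 - 1 - (i : ℕ)) (X + (((i + 1) * q : ℕ) : ZMod (p * q))) +
      Q q a z (W + 1 - (i : ℕ)) (X + ((i * q : ℕ) : ZMod (p * q)))) -
      (iA q a z (W - 1 - (i : ℕ)) (X + (((i + 1) * q : ℕ) : ZMod (p * q))) +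
      Q q a z (W - (i : ℕ)) (X + ((i * q : ℕ) : ZMod (p * q)))) =
      (fun i : ℕ => - iA q a z (W - (i : ℕ)) (X + ((i * q : ℕ) : ZMod (p * q)))) (i + 1) -
      (fun i : ℕ => - iA q a z (W - (i : ℕ)) (X + ((i * q : ℕ) : ZMod (p * q)))) i := by
    intro i _
    have h1 := stepn hP hg (W - (i : ℕ)) (X + ((i * q : ℕ) : ZMod (p * q))) q
    rw [← Q_eq, ← Q_eq] at h1
    have e3 : X + ((i * q : ℕ) : ZMod (p * q)) + (q : ZMod (p * q)) =
        X + (((i + 1) * q : ℕ) : ZMod (p * q)) := by
      push_cast
      ring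
    have e4 : W + 1 - 1 - ((i : ℕ) : ZMod p) = W - (i : ℕ) := by ring
    have e5 : W - ((i + 1 : ℕ) : ZMod p) = W - 1 - (i : ℕ) := by
      push_cast
      ring
    have e6 : W + 1 - ((i : ℕ) : ZMod p) = W - (i : ℕ) + 1 := by ring
    rw [e3] at h1
    rw [e4, e6]
    simp only [e5]
    linarith
  rw [Finset.sum_congr rfl h, Finset.sum_range_sub
    (fun i : ℕ => - iA q a z (W - (i : ℕ)) (X + ((i * q : ℕ) : ZMod (p * q))))]
  have e6 : ((b * q : ℕ) : ZMod (p * q)) = (b : ZMod (p * q)) * q := by push_cast; ring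
  simp only [e6, Nat.cast_zero, sub_zero, zero_mul, add_zero]
  ring

/-- (2), the left side -/
theorem y_step (hP : Par p q a b) {z : ZMod p → ZMod (p * q)} (hg : Gen q z)
    {y u : ZMod p → ZMod (p * q) → ℤ} (hw : World q a b z y u) (W : ZMod p)
    (X : ZMod (p * q)) :
    y W (X + 1) - y W X = iR q a z (W - b) (X + b * q) - iR q a z W X := by
  classical
  have hab := hP.hab
  have hb := hP.hb
  have hq := hP.hq
  have hL := hw W
  have hlt : b * q < p * q := Nat.mul_lt_mul_of_pos_right (by omega) (by omega)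
  have hbq0 : ((b : ZMod (p * q)) * q) ≠ 0 := by
    intro h
    have h1 : (((b * q : ℕ) : ZMod (p * q))).val = b * q := by
      rw [ZMod.val_natCast, Nat.mod_eq_of_lt hlt]
    have h2 : ((b * q : ℕ) : ZMod (p * q)) = 0 := by
      push_cast
      exact h
    rw [h2, ZMod.val_zero] at h1
    have h3 : 1 * 1 ≤ b * q := Nat.mul_le_mul (by omega) hq
    omega
  by_cases h1 : ∃ j, aR a W j ∧ z j = X
  · obtain ⟨j, h2, h3⟩ := h1
    subst h3
    obtain ⟨h4, h5⟩ := hL.yR j h2
    have h6 : iR q a z W (z j) = 1 := by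
      rw [iR_eq hg, if_pos h2]
    have h7 : iR q a z (W - b) (z j + b * q) = 0 := by
      unfold iR
      rw [if_neg]
      rintro ⟨i, _, h8⟩
      have h9 : res p q (z i) = res p q (z j) := by
        rw [h8, map_add, res_mul_q, add_zero]
      have h10 := gen_res p q hg h9
      rw [h10] at h8
      have h11 : z j + (b : ZMod (p * q)) * q = z j + 0 := by rw [← h8, add_zero]
      exact hbq0 (add_left_cancel h11)
    rw [h4, h5, h6, h7]
  · have h6 : iR q a z W X = 0 := by
      unfold iR
      rw [if_neg h1]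
    by_cases h2 : ∃ j : ZMod p, aR a (W - (b : ZMod p)) j ∧ z j = X + b * q
    · obtain ⟨j, h3, h4⟩ := h2
      have h5 : aL a b W j := h3
      obtain ⟨h7, h8⟩ := hL.yL j h5
      have h9 : z j - b * q = X := by rw [h4]; ring
      rw [h9] at h7 h8
      have h10 : iR q a z (W - b) (X + b * q) = 1 := by
        unfold iR
        rw [if_pos ⟨j, h3, h4⟩]
      rw [h6, h7, h8, h10]
    · have h10 : iR q a z (W - b) (X + b * q) = 0 := by
        unfold iR
        rw [if_neg h2]
      have h11 : y W (X + 1) = y W X := by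
        apply hL.yC
        · intro j hj h
          exact h1 ⟨j, hj, h⟩
        · intro j hj h
          apply h2
          refine ⟨j, hj, ?_⟩
          rw [← h]
          ring
      rw [h6, h10, h11]
      ring

end

end Helper11.N1.YFaux

namespace Helper11.N1

open YFaux in
theorem yf : StRow → StYf := by
  intro hRow p q a b _ _ hP z hg hD y u hw
  refine ⟨YY1 q a b z 0 0 - y 0 0, ?_⟩
  have hX : ∀ W X, YY1 q a b z W X - y W X = YY1 q a b z W 0 - y W 0 := by
    intro W X
    refine const_of_step (fun X => YY1 q a b z W X - y W X) ?_ X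
    intro X
    have h1 := YY1_step hP hg W X
    have h2 := y_step hP hg hw W X
    show YY1 q a b z W (X + 1) - y W (X + 1) = YY1 q a b z W X - y W X
    linarith
  have hW : ∀ W, YY1 q a b z W 0 - y W 0 = YY1 q a b z 0 0 - y 0 0 := by
    intro W
    refine const_of_step (fun W : ZMod p => YY1 q a b z W 0 - y W 0) ?_ W
    intro (W : ZMod p)
    have h1 := YY1_level hP hg (W : ZMod p) 0
    have h2 := (hRow p q a b hP z hg hD y u hw W).1 0
    have h3 : y W 0 - y (W + 1) 0 =
        iA q a z (W - (b : ZMod p)) (0 + b * q) - iA q a z W 0 := h2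
    show YY1 q a b z (W + 1) 0 - y (W + 1) 0 = YY1 q a b z W 0 - y W 0
    linarith
  intro W X
  have h := hX W X
  rw [hW W] at h
  have h4 : y W X + (YY1 q a b z 0 0 - y 0 0) = YY1 q a b z W X := by linarith
  exact h4

end Helper11.N1
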