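import Pool.Agent.Helper11.N1.StB

set_option autoImplicit false
set_option linter.unusedSectionVars false

/-!
Project N1, module CI: the case in which `P` comes before `t` in every row is impossible.
-/

namespace Helper11.N1

namespace CIaux

section gen

variable {M : ℕ} [NeZero M]

theorem off_succ (hM : 2 ≤ M) (w x : ZMod M) {L : ℕ} (hL : L < M) :
    off (w + 1) x < L ↔ 1 ≤ off w x ∧ off w x ≤ L := by
  have h1 : off w (w + 1) = 1 := by
    have h := off_nat w (n := 1) (by omega)
    rwa [Nat.cast_one] at h
  have h2 := off_add w (w + 1) x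
  have h3 := off_lt w x
  have h4 := off_lt (w + 1) x
  omega

theorem sub_add_nat (v : ZMod M) {N t : ℕ} (h : t ≤ N) :
    v - (N : ZMod M) + (t : ZMod M) = v - ((N - t : ℕ) : ZMod M) := by
  rw [Nat.cast_sub h]
  ring

end gen

section rows

variable {p q a b : ℕ} [NeZero p] [NeZero q]

theorem two_le (hp : Par p q a b) : 2 ≤ p * q := by
  have h1 := hp.hab
  have h2 := hp.ha
  have h3 := hp.hq
  calc 2 ≤ p := by omega
    _ = p * 1 := (Nat.mul_one p).symm
    _ ≤ p * q := Nat.mul_le_mul_left p h3

theorem bound (hp : Par p q a b) : a * q + b * q + q ≤ p * q := by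
  have h := Nat.mul_le_mul_right q (show a + b + 1 ≤ p from hp.hab)
  have h2 : (a + b + 1) * q = a * q + b * q + q := by ring
  omega

theorem aB_of (hbp : b < p) (j : ZMod p) {n : ℕ} (hn : n < b) :
    aB b (j + (b : ZMod p) - (n : ZMod p)) j := by
  unfold aB
  obtain ⟨m, hm⟩ : ∃ m, b = n + 1 + m := ⟨b - 1 - n, by omega⟩
  have h : (j + (b : ZMod p) - (n : ZMod p) - 1 - j) = ((m : ℕ) : ZMod p) := by
    rw [hm]
    push_cast
    ring
  rw [h, ZMod.val_natCast, Nat.mod_eq_of_lt (by omega)]
  omega

theorem z_inj {z : ZMod p → ZMod (p * q)} (hg : Gen q z) {i j : ZMod p} (h : z i = z j) :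
    i = j := by
  apply hg
  rw [h, sub_self, ZMod.val_zero]
  exact dvd_zero _

theorem sc_inj {z : ZMod p → ZMod (p * q)} (hg : Gen q z) {i j : ZMod p}
    (h : sc q z i = sc q z j) : i = j := by
  apply gen_res p q hg
  rw [← res_sc p q z i, ← res_sc p q z j, h]

theorem a_ne (hp : Par p q a b) (j : ZMod p) : j - (a : ZMod p) ≠ j := by
  intro h
  have h1 : (a : ZMod p) = 0 := by
    have h2 : j - (j - (a : ZMod p)) = 0 := by rw [h, sub_self]
    rwa [sub_sub_cancel] at h2
  have h3 : ((a : ZMod p)).val = 0 := by rw [h1, ZMod.val_zero]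
  have h4 := hp.ha
  have h5 := hp.hab
  rw [ZMod.val_natCast, Nat.mod_eq_of_lt (by omega)] at h3
  omega

theorem x_pos (hp : Par p q a b) {z : ZMod p → ZMod (p * q)} (hg : Gen q z) (j : ZMod p) :
    1 ≤ off (z (j - a)) (z j) := by
  rcases Nat.eq_zero_or_pos (off (z (j - a)) (z j)) with h | h
  · exact absurd (z_inj hg (off_eq_zero.1 h)) (a_ne hp j)
  · exact h

theorem A_iff (hp : Par p q a b) (z : ZMod p → ZMod (p * q)) (j : ZMod p) (x : ZMod (p * q)) :
    A q a z j x ↔ 1 ≤ off (z (j - a)) x ∧ off (z (j - a)) x ≤ off (z (j - a)) (z j) :=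
  off_succ (two_le hp) _ _ (off_lt _ _)

theorem d1 (hp : Par p q a b) (z : ZMod p → ZMod (p * q)) (j : ZMod p)
    (hA : off (z (j - a)) (z j) < off (z (j - a)) (z (j - a - b) - b * q))
    (h4 : off (z (j - a)) (z (j - a - b) - b * q) < off (z (j - a)) (z (j - b) - b * q))
    (x : ZMod (p * q)) (h1 : A q a z j x) (h2 : A q a z (j - b) (x + b * q)) : False := by
  rw [A_iff hp] at h1
  rw [A_iff hp] at h2
  have e1 : j - (b : ZMod p) - (a : ZMod p) = j - a - b := sub_right_comm _ _ _
  rw [e1] at h2
  have e2 : off (z (j - a - b)) (x + (b : ZMod (p * q)) * (q : ZMod (p * q))) =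
      off (z (j - a - b) - (b : ZMod (p * q)) * (q : ZMod (p * q))) x := by
    have h := off_translate (z (j - a - b) - (b : ZMod (p * q)) * (q : ZMod (p * q))) x
      ((b : ZMod (p * q)) * (q : ZMod (p * q)))
    rwa [sub_add_cancel] at h
  have e3 : off (z (j - a - b)) (z (j - b)) =
      off (z (j - a - b) - (b : ZMod (p * q)) * (q : ZMod (p * q)))
        (z (j - b) - (b : ZMod (p * q)) * (q : ZMod (p * q))) :=
    (off_translate_sub _ _ _).symm
  rw [e2, e3] at h2
  have f1 := off_add (z (j - a)) (z (j - a - b) - b * q) x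
  have f2 := off_add (z (j - a)) (z (j - a - b) - b * q) (z (j - b) - b * q)
  have g1 := off_lt (z (j - a)) x
  have g2 := off_lt (z (j - a)) (z (j - b) - b * q)
  have g3 := off_lt (z (j - a - b) - (b : ZMod (p * q)) * (q : ZMod (p * q)))
    (z (j - b) - (b : ZMod (p * q)) * (q : ZMod (p * q)))
  have g4 := off_lt (z (j - a - b) - (b : ZMod (p * q)) * (q : ZMod (p * q))) x
  omega

theorem e_a (j : ZMod p) : e p q (j - (a : ZMod p)) = e p q j - ((a * q : ℕ) : ZMod (p * q)) := by
  rw [e_sub, e_natCast]

theorem sc_step (hp : Par p q a b) (z : ZMod p → ZMod (p * q)) (j : ZMod p)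
    (hl : off (z (j - a)) (z j) + a * b * q ≤ p * q) :
    off (sc q z (j - a)) (sc q z j) = a * q + off (z (j - a)) (z j) := by
  have hb : a * q < a * b * q := by
    have h2 := hp.ha
    have h3 := hp.hb
    have h4 := hp.hq
    have h5 : a * q * 2 ≤ a * q * b := Nat.mul_le_mul_left _ h3
    have h6 : a * b * q = a * q * b := by ring
    have h7 : 0 < a * q := Nat.mul_pos (by omega) (by omega)
    omega
  have h1 : sc q z j = sc q z (j - a) + ((a * q + off (z (j - a)) (z j) : ℕ) : ZMod (p * q)) := by
    unfold sc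
    rw [e_a, Nat.cast_add]
    nth_rw 1 [← off_spec (z (j - a)) (z j)]
    ring
  rw [h1]
  exact off_nat _ (by omega)

end rows

end CIaux

open CIaux in
theorem ci : StRow → StStrip → StWind → StYf → StBand → StLen → StCI := by
  intro hRow hStrip hWind hYf hBand hLen p q a b _ _ hp z hg hd y u hw hA
  classical
  have ha := hp.ha
  have hb := hp.hb
  have hq := hp.hq
  have hM2 := two_le hp
  have hbd := bound hp
  have hab := hp.hab
  have hR := hRow p q a b hp z hg hd y u hw
  have hUU : ∀ j, UU q a b z u j := fun j => (hStrip p q a b hp z hg hd y u hw j).1 (hA j)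
  have hBd := hBand p q a b hp z hg hd y u hw
  have hLn : ∀ j, off (z (j - a)) (z j) + a * b * q ≤ p * q :=
    fun j => hLen p q a b hp z hg hd y u hw j (hUU j)
  have D1 : ∀ j x, A q a z j x → ¬ A q a z (j - b) (x + b * q) :=
    fun j x h1 h2 => d1 hp z j (hA j) (hR j).2.2.2 x h1 h2
  have haB : ∀ (j : ZMod p) (n : ℕ), n < b → aB b (j + (b : ZMod p) - (n : ZMod p)) j :=
    fun j n hn => aB_of (by omega) j hn
  -- row formulas: no side of the strip when nothing changes
  have noA : ∀ W x, y W x = y (W + 1) x → ¬ A q a z W x := by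
    intro W x h hAW
    have r1 := (hR W).1 x
    rw [if_pos hAW, if_neg (D1 W x hAW), h] at r1
    omega
  have D2 : ∀ W j S, aB b W j → aB b (W + 1) j → A q a z j (S - e p q j) →
      ¬ A q a z W (S - e p q W) := by
    intro W j S h1 h2 h hAW
    have u1 := hUU j W h1 S h
    have u2 := hUU j (W + 1) h2 S h
    have r2 := (hR W).2.1 (S - e p q W)
    rw [sub_add_cancel, u1, u2, if_pos hAW, if_neg (D1 W _ hAW)] at r2
    omega
  obtain ⟨C, hC⟩ := hYf p q a b hp z hg hd y u hw
  -- the rows of the sum
  have row1 : ∀ (j : ZMod p) (i : ℕ), j + (b : ZMod p) - 1 - (i : ZMod p) =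
      j + (b : ZMod p) - ((i + 1 : ℕ) : ZMod p) := by
    intro j i
    push_cast
    ring
  have row2 : ∀ (j : ZMod p) (i : ℕ), j + (b : ZMod p) - 1 - (i : ZMod p) + 1 =
      j + (b : ZMod p) - (i : ZMod p) := by
    intro j i
    ring
  have rowlast : ∀ j : ZMod p, j + (b : ZMod p) - 1 - ((b - 1 : ℕ) : ZMod p) = j := by
    intro j
    rw [Nat.cast_sub (by omega), Nat.cast_one]
    ring
  have aB1 : ∀ (j : ZMod p) (i : ℕ), i < b - 1 → aB b (j + (b : ZMod p) - 1 - (i : ZMod p)) j := by
    intro j i hi
    rw [row1]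
    exact haB j (i + 1) (by omega)
  have aB2 : ∀ (j : ZMod p) (i : ℕ), i < b → aB b (j + (b : ZMod p) - 1 - (i : ZMod p) + 1) j := by
    intro j i hi
    rw [row2]
    exact haB j i hi
  have hC0 : C = 0 := by
    have hAj : A q a z (0 : ZMod p) (sc q z 0 - e p q 0) := by
      rw [A_iff hp]
      unfold sc
      rw [add_sub_cancel_right]
      exact ⟨x_pos hp hg 0, le_refl _⟩
    have h := hC (0 + (b : ZMod p)) (sc q z 0 - e p q (0 + (b : ZMod p)))
    have hu : ∀ i : ℕ, i < b → u (0 + (b : ZMod p) - (i : ZMod p)) (sc q z 0) = 1 :=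
      fun i hi => hUU 0 _ (haB 0 i hi) _ hAj
    have hy1 : y (0 + (b : ZMod p)) (sc q z 0 - e p q (0 + (b : ZMod p))) = 1 := by
      have h1 := hu 0 (by omega)
      rw [Nat.cast_zero, sub_zero] at h1
      have h2 := hBd _ _ h1 0 (by omega)
      rwa [Nat.cast_zero, add_zero] at h2
    rw [hy1, Finset.sum_add_distrib] at h
    have place : ∀ i : ℕ, sc q z 0 - e p q (0 + (b : ZMod p)) + (((i * q : ℕ)) : ZMod (p * q)) =
        sc q z 0 - e p q (0 + (b : ZMod p) - (i : ZMod p)) := by
      intro i
      rw [e_sub p q (0 + (b : ZMod p)) (i : ZMod p), e_natCast p q i]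
      ring
    have hQ : (∑ i ∈ Finset.range b, Q q a z (0 + (b : ZMod p) - (i : ℕ))
        (sc q z 0 - e p q (0 + (b : ZMod p)) + ((i * q : ℕ) : ZMod (p * q)))) = 0 := by
      apply Finset.sum_eq_zero
      intro i hi
      rw [Finset.mem_range] at hi
      unfold Q
      apply Finset.sum_eq_zero
      intro k hk
      rw [Finset.mem_range] at hk
      apply if_neg
      rintro ⟨j', hj', hz'⟩
      have h1 := ((hw _).yR j' hj').2
      have h2 := hBd _ _ (hu i hi) (k + 1) (by omega)
      rw [place] at hz'
      rw [hz', add_assoc] at h1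
      rw [Nat.cast_add, Nat.cast_one] at h2
      omega
    have hAs : (∑ i ∈ Finset.range b, if A q a z (0 + (b : ZMod p) - 1 - (i : ℕ))
        (sc q z 0 - e p q (0 + (b : ZMod p)) + (((i + 1) * q : ℕ) : ZMod (p * q))) then (1 : ℤ)
        else 0) = 1 := by
      rw [Finset.sum_eq_single (b - 1)]
      · apply if_pos
        rw [rowlast, Nat.sub_add_cancel (by omega), place, add_sub_cancel_right]
        exact hAj
      · intro i hi hne
        rw [Finset.mem_range] at hi
        apply if_neg
        rw [place, ← row1]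
        exact D2 _ 0 _ (aB1 0 i (by omega)) (aB2 0 i hi) hAj
      · intro h1
        exact absurd (Finset.mem_range.2 (by omega)) h1
    rw [hQ, hAs] at h
    omega
  subst hC0
  -- the points which see the strip of `j` in the box of `m`
  have key : ∀ m j : ZMod p, 0 < off (sc q z (j - a)) (sc q z m) →
      off (sc q z (j - a)) (sc q z m) < off (sc q z (j - a)) (sc q z j) →
      (if off (z (j - a)) (z m) < off (z (j - a)) (z j) then (1 : ℤ) else 0) +
        (if (j - m).val < a then 1 else 0) = 1 := by
    intro m j h0 h1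
    rw [sc_step hp z j (hLn j)] at h1
    have haq : 0 < a * q := Nat.mul_pos (by omega) (by omega)
    have hbq : 0 < b * q := Nat.mul_pos (by omega) (by omega)
    have hx := x_pos hp hg j
    have hln := hLn j
    have hb' : a * q < a * b * q := by
      have h5 : a * q * 2 ≤ a * q * b := Nat.mul_le_mul_left _ hb
      have h6 : a * b * q = a * q * b := by ring
      omega
    obtain ⟨n, hn1, hn2, hn3, hn4⟩ : ∃ n : ℕ, off (sc q z (j - a)) (sc q z m) < n ∧
        a * q < n ∧ n ≤ a * q + off (z (j - a)) (z j) ∧
        n ≤ off (sc q z (j - a)) (sc q z m) + a * q := by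
      rcases le_total (off (sc q z (j - a)) (sc q z m)) (a * q) with h2 | h2
      · exact ⟨a * q + 1, by omega, by omega, by omega, by omega⟩
      · exact ⟨off (sc q z (j - a)) (sc q z m) + 1, by omega, by omega, by omega, by omega⟩
    have hnM : n < p * q := by omega
    have hSA : A q a z j (sc q z (j - a) + (n : ZMod (p * q)) - e p q j) := by
      have h2 : sc q z (j - a) + (n : ZMod (p * q)) - e p q j =
          z (j - a) + ((n - a * q : ℕ) : ZMod (p * q)) := by
        rw [Nat.cast_sub (by omega)]
        unfold sc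
        rw [e_a]
        ring
      rw [h2, A_iff hp, off_nat _ (by omega)]
      omega
    have hSm : off (sc q z m + 1) (sc q z (j - a) + (n : ZMod (p * q))) < a * q := by
      rw [off_succ hM2 _ _ (by omega)]
      have h2 := off_add (sc q z (j - a)) (sc q z m) (sc q z (j - a) + (n : ZMod (p * q)))
      rw [off_nat _ hnM] at h2
      have h3 := off_lt (sc q z m) (sc q z (j - a) + (n : ZMod (p * q)))
      omega
    have hy : ∀ W, aB b W j → ∀ X, off X (z m) < b * q → y W X = 1 :=
      fun W hW X hX => (hw W).flat m X _ ⟨hX, hSm⟩ (hUU j W hW _ hSA)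
    -- positions in the range of the box of `m`
    have hN : ∀ t : ℕ, t ≤ b * q - 1 → off (z m - ((b * q - 1 : ℕ) : ZMod (p * q)) +
        (t : ZMod (p * q))) (z m) < b * q := by
      intro t ht
      rw [sub_add_nat _ ht, off_nat' _ (by omega)]
      omega
    have h := hC (j + (b : ZMod p)) (z m - ((b * q - 1 : ℕ) : ZMod (p * q)))
    have hy1 : y (j + (b : ZMod p)) (z m - ((b * q - 1 : ℕ) : ZMod (p * q))) = 1 := by
      have h2 := haB j 0 (by omega)
      rw [Nat.cast_zero, sub_zero] at h2
      have h3 := hy _ h2 _ (hN 0 (by omega))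
      rwa [Nat.cast_zero, add_zero] at h3
    rw [hy1, Finset.sum_add_distrib] at h
    have hQ : (∑ i ∈ Finset.range b, Q q a z (j + (b : ZMod p) - (i : ℕ))
        (z m - ((b * q - 1 : ℕ) : ZMod (p * q)) + ((i * q : ℕ) : ZMod (p * q)))) =
        if (j - m).val < a then 1 else 0 := by
      have hzero : ∀ i k : ℕ, i < b → k < q → i * q + k < b * q - 1 →
          ¬ ∃ j', aR a (j + (b : ZMod p) - (i : ZMod p)) j' ∧
          z j' = z m - ((b * q - 1 : ℕ) : ZMod (p * q)) + ((i * q : ℕ) : ZMod (p * q)) +
            (k : ZMod (p * q)) := by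
        rintro i k hi hk hik ⟨j', hj', hz'⟩
        have h2 := ((hw _).yR j' hj').2
        have h3 := hy _ (haB j i hi) _ (hN (i * q + k + 1) (by omega))
        have h4 : z j' + 1 = z m - ((b * q - 1 : ℕ) : ZMod (p * q)) +
            ((i * q + k + 1 : ℕ) : ZMod (p * q)) := by
          rw [hz']
          push_cast
          ring
        rw [h4] at h2
        omega
      have hiq : ∀ i : ℕ, i < b - 1 → i * q + q ≤ b * q - q := by
        intro i hi
        have h2 : (i + 1) * q ≤ (b - 1) * q := Nat.mul_le_mul_right q (by omega)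
        have h3 : (i + 1) * q = i * q + q := by ring
        have h4 : (b - 1) * q = b * q - q := by rw [Nat.sub_mul, Nat.one_mul]
        omega
      have hbq1 : (b - 1) * q = b * q - q := by rw [Nat.sub_mul, Nat.one_mul]
      have hqb : q ≤ b * q := Nat.le_mul_of_pos_left q (by omega)
      rw [Finset.sum_eq_single (b - 1)]
      · unfold Q
        rw [Finset.sum_eq_single (q - 1)]
        · have h2 : z m - ((b * q - 1 : ℕ) : ZMod (p * q)) + (((b - 1) * q : ℕ) : ZMod (p * q)) +
              ((q - 1 : ℕ) : ZMod (p * q)) = z m := by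
            have h3 : b * q - 1 = (b - 1) * q + (q - 1) := by omega
            rw [h3, Nat.cast_add]
            ring
          have h5 : j + (b : ZMod p) - ((b - 1 : ℕ) : ZMod p) = j + 1 := by
            rw [Nat.cast_sub (by omega), Nat.cast_one]
            ring
          rw [h2, h5]
          by_cases hjm : (j - m).val < a
          · rw [if_pos hjm]
            apply if_pos
            refine ⟨m, ?_, rfl⟩
            unfold aR
            rwa [add_sub_cancel_right]
          · rw [if_neg hjm]
            apply if_neg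
            rintro ⟨j', hj', hz'⟩
            have h6 := z_inj hg hz'
            rw [h6] at hj'
            unfold aR at hj'
            rw [add_sub_cancel_right] at hj'
            exact hjm hj'
        · intro k hk hne
          rw [Finset.mem_range] at hk
          exact if_neg (hzero (b - 1) k (by omega) hk (by omega))
        · intro h2
          exact absurd (Finset.mem_range.2 (by omega)) h2
      · intro i hi hne
        rw [Finset.mem_range] at hi
        unfold Q
        apply Finset.sum_eq_zero
        intro k hk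
        rw [Finset.mem_range] at hk
        have h2 := hiq i (by omega)
        exact if_neg (hzero i k hi hk (by omega))
      · intro h2
        exact absurd (Finset.mem_range.2 (by omega)) h2
    have hAs : (∑ i ∈ Finset.range b, if A q a z (j + (b : ZMod p) - 1 - (i : ℕ))
        (z m - ((b * q - 1 : ℕ) : ZMod (p * q)) + (((i + 1) * q : ℕ) : ZMod (p * q)))
        then (1 : ℤ) else 0) =
        if off (z (j - a)) (z m) < off (z (j - a)) (z j) then 1 else 0 := by
      rw [Finset.sum_eq_single (b - 1)]
      · apply if_congr _ rfl rfl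
        rw [rowlast, Nat.sub_add_cancel (by omega)]
        have h2 : z m - ((b * q - 1 : ℕ) : ZMod (p * q)) + ((b * q : ℕ) : ZMod (p * q)) =
            z m + 1 := by
          rw [Nat.cast_sub (by omega), Nat.cast_one]
          ring
        rw [h2]
        unfold A
        rw [off_translate]
      · intro i hi hne
        rw [Finset.mem_range] at hi
        apply if_neg
        have h2 : (i + 1) * q ≤ b * q - 1 := by
          have h3 : (i + 1) * q ≤ (b - 1) * q := Nat.mul_le_mul_right q (by omega)
          have h4 : (b - 1) * q = b * q - q := by rw [Nat.sub_mul, Nat.one_mul]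
          have h5 : q ≤ b * q := Nat.le_mul_of_pos_left q (by omega)
          omega
        apply noA
        rw [hy _ (aB1 j i (by omega)) _ (hN _ h2), hy _ (aB2 j i hi) _ (hN _ h2)]
      · intro h2
        exact absurd (Finset.mem_range.2 (by omega)) h2
    rw [hQ, hAs] at h
    omega
  -- counting
  obtain ⟨m, _⟩ : ∃ m : ZMod p, m = 0 := ⟨0, rfl⟩
  have w1 := hWind p (p * q) z (a : ZMod p) (z m)
  have w2 := hWind p (p * q) (sc q z) (a : ZMod p) (sc q z m)
  have hs2 : (∑ j : ZMod p, off (sc q z (j - a)) (sc q z j)) =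
      p * (a * q) + ∑ j : ZMod p, off (z (j - a)) (z j) := by
    rw [Finset.sum_congr rfl (fun j _ => sc_step hp z j (hLn j)), Finset.sum_add_distrib,
      Finset.sum_const, Finset.card_univ, ZMod.card, smul_eq_mul]
  rw [hs2, ← w1] at w2
  set F1 := Finset.univ.filter fun j : ZMod p => off (z (j - a)) (z m) < off (z (j - a)) (z j)
    with hF1
  set F2 := Finset.univ.filter fun j : ZMod p =>
    off (sc q z (j - a)) (sc q z m) < off (sc q z (j - a)) (sc q z j) with hF2
  have hcard : F2.card = a + F1.card := by
    have h2 : (p * q) * F2.card = (p * q) * (a + F1.card) := by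
      calc (p * q) * F2.card = p * (a * q) + (p * q) * F1.card := by convert w2
        _ = (p * q) * (a + F1.card) := by ring
    exact Nat.eq_of_mul_eq_mul_left (by omega) h2
  set G := Finset.univ.filter fun j : ZMod p => (j - m).val < a with hG
  have hmem1 : m + (a : ZMod p) ∈ F1 := by
    rw [hF1, Finset.mem_filter]
    refine ⟨Finset.mem_univ _, ?_⟩
    have h2 := x_pos hp hg (m + (a : ZMod p))
    rw [add_sub_cancel_right] at h2 ⊢
    rw [off_self]
    exact h2
  have hmem2 : m + (a : ZMod p) ∈ F2 := by
    rw [hF2, Finset.mem_filter]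
    refine ⟨Finset.mem_univ _, ?_⟩
    rw [sc_step hp z _ (hLn _)]
    have h2 := x_pos hp hg (m + (a : ZMod p))
    rw [add_sub_cancel_right] at h2 ⊢
    rw [off_self]
    omega
  have hmemG : m ∈ G := by
    rw [hG, Finset.mem_filter]
    refine ⟨Finset.mem_univ _, ?_⟩
    rw [sub_self, ZMod.val_zero]
    omega
  have hcG : G.card ≤ a := by
    have h2 : G ⊆ (Finset.range a).image fun k : ℕ => m + (k : ZMod p) := by
      intro j hj
      rw [hG, Finset.mem_filter] at hj
      rw [Finset.mem_image]
      refine ⟨(j - m).val, Finset.mem_range.2 hj.2, ?_⟩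
      rw [ZMod.natCast_zmod_val]
      ring
    calc G.card ≤ _ := Finset.card_le_card h2
      _ ≤ (Finset.range a).card := Finset.card_image_le
      _ = a := Finset.card_range a
  set E := F2.erase (m + (a : ZMod p)) with hE
  have hcE : E.card = F2.card - 1 := Finset.card_erase_of_mem hmem2
  have hsum : (E.card : ℤ) = ∑ j ∈ E,
      ((if off (z (j - a)) (z m) < off (z (j - a)) (z j) then (1 : ℤ) else 0) +
        (if (j - m).val < a then 1 else 0)) := by
    rw [Finset.sum_congr rfl (g := fun _ => (1 : ℤ))]
    · rw [Finset.sum_const, nsmul_eq_mul, mul_one]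
    · intro j hj
      rw [hE, Finset.mem_erase, hF2, Finset.mem_filter] at hj
      refine key m j ?_ hj.2.2
      rcases Nat.eq_zero_or_pos (off (sc q z (j - a)) (sc q z m)) with h2 | h2
      · exfalso
        apply hj.1
        rw [← sc_inj hg (off_eq_zero.1 h2)]
        ring
      · exact h2
  rw [Finset.sum_add_distrib, Finset.sum_boole, Finset.sum_boole] at hsum
  have hl1 : (E.filter fun j : ZMod p => off (z (j - a)) (z m) < off (z (j - a)) (z j)).card ≤
      F1.card - 1 := by
    rw [← Finset.card_erase_of_mem hmem1]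
    apply Finset.card_le_card
    intro j hj
    rw [Finset.mem_filter, hE, Finset.mem_erase] at hj
    rw [Finset.mem_erase, hF1, Finset.mem_filter]
    exact ⟨hj.1.1, Finset.mem_univ _, hj.2⟩
  have hl2 : (E.filter fun j : ZMod p => (j - m).val < a).card ≤ G.card - 1 := by
    rw [← Finset.card_erase_of_mem hmemG]
    apply Finset.card_le_card
    intro j hj
    rw [Finset.mem_filter, hE, Finset.mem_erase, hF2, Finset.mem_filter] at hj
    rw [Finset.mem_erase, hG, Finset.mem_filter]
    refine ⟨?_, Finset.mem_univ _, hj.2⟩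
    intro h2
    have h3 := hj.1.2.2
    rw [h2] at h3
    exact absurd h3 (lt_irrefl _)
  have hp1 : 0 < F1.card := Finset.card_pos.2 ⟨_, hmem1⟩
  have hpG : 0 < G.card := Finset.card_pos.2 ⟨_, hmemG⟩
  have hsum' : E.card =
      (E.filter fun j : ZMod p => off (z (j - a)) (z m) < off (z (j - a)) (z j)).card +
      (E.filter fun j : ZMod p => (j - m).val < a).card := by
    exact_mod_cast hsum
  omega

end Helper11.N1
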