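import Pool.Agent.Helper11.N1.StB

set_option autoImplicit false
set_option linter.unusedSectionVars false

/-!
Project N1: the mixed case (StCIII).
-/

namespace Helper11.N1

namespace CIIIaux

/-- indicator of a proposition -/
noncomputable def ind (P : Prop) : ℤ := @ite ℤ P (Classical.propDecidable P) 1 0

theorem ite_ind (P : Prop) [hd : Decidable P] : (if P then (1 : ℤ) else 0) = ind P := by
  unfold ind
  congr

theorem ind_and (P Q : Prop) : ind (P ∧ Q) = ind P * ind Q := by
  unfold ind
  by_cases hP : P <;> by_cases hQ : Q <;> simp [hP, hQ]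

theorem ind_congr {P Q : Prop} (h : P ↔ Q) : ind P = ind Q := by
  rw [propext h]

theorem ind_pos {P : Prop} (h : P) : ind P = 1 := by
  unfold ind
  rw [if_pos h]

theorem ind_neg {P : Prop} (h : ¬ P) : ind P = 0 := by
  unfold ind
  rw [if_neg h]

theorem ind_nonneg (P : Prop) : 0 ≤ ind P := by
  by_cases h : P
  · rw [ind_pos h]
    norm_num
  · rw [ind_neg h]

theorem card_ind {α : Type} (s : Finset α) (P : α → Prop) [DecidablePred P] :
    ((s.filter P).card : ℤ) = ∑ x ∈ s, ind (P x) := by
  rw [Finset.card_filter, Nat.cast_sum]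
  apply Finset.sum_congr rfl
  intro x _
  by_cases h : P x
  · rw [ind_pos h, if_pos h, Nat.cast_one]
  · rw [ind_neg h, if_neg h, Nat.cast_zero]

theorem card_val {M : ℕ} [NeZero M] (c : ZMod M) {n : ℕ} (hn : n ≤ M) :
    (Finset.univ.filter fun x : ZMod M => (x - c).val < n).card = n := by
  classical
  have h : (Finset.univ.filter fun x : ZMod M => (x - c).val < n) =
      (Finset.range n).image (fun k : ℕ => c + (k : ZMod M)) := by
    ext x
    simp only [Finset.mem_filter, Finset.mem_univ, true_and, Finset.mem_image, Finset.mem_range]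
    constructor
    · intro hx
      refine ⟨(x - c).val, hx, ?_⟩
      rw [ZMod.natCast_zmod_val]
      ring
    · rintro ⟨k, hk, rfl⟩
      rw [add_sub_cancel_left, ZMod.val_natCast, Nat.mod_eq_of_lt (by omega)]
      exact hk
  rw [h, Finset.card_image_of_injOn, Finset.card_range]
  intro k hk k' hk' he
  simp only [Finset.coe_range, Set.mem_Iio] at hk hk'
  have h1 : ((k : ZMod M)) = (k' : ZMod M) := add_left_cancel he
  have h2 := congrArg ZMod.val h1
  rw [ZMod.val_natCast, ZMod.val_natCast, Nat.mod_eq_of_lt (by omega),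
    Nat.mod_eq_of_lt (by omega)] at h2
  exact h2

theorem sum_val {M : ℕ} [NeZero M] (c : ZMod M) {n : ℕ} (hn : n ≤ M) :
    ∑ x : ZMod M, ind ((x - c).val < n) = n := by
  rw [← card_ind, card_val c hn]

/-- a sum of indicators with at most one true term -/
theorem sum_one {α : Type} (E : Finset α) (P : α → Prop)
    (h : ∀ i ∈ E, ∀ j ∈ E, P i → P j → i = j) :
    (∃ i ∈ E, P i ∧ ∑ j ∈ E, ind (P j) = 1) ∨ ∑ j ∈ E, ind (P j) = 0 := by
  by_cases hE : ∃ i ∈ E, P i
  · obtain ⟨i, hi, hPi⟩ := hE
    left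
    refine ⟨i, hi, hPi, ?_⟩
    rw [Finset.sum_eq_single_of_mem i hi, ind_pos hPi]
    intro j hj hne
    exact ind_neg (fun hPj => hne (h j hj i hi hPj hPi))
  · right
    apply Finset.sum_eq_zero
    intro j hj
    exact ind_neg (fun hPj => hE ⟨j, hj, hPj⟩)

section

variable {p q : ℕ} [NeZero p] [NeZero q]

theorem e_cast (n : ℕ) : e p q (n : ZMod p) = (n : ZMod (p * q)) * q := by
  rw [e_natCast]
  push_cast
  ring

theorem off_succ (s S : ZMod (p * q)) (hM : 1 < p * q) :
    off (s + 1) S + 1 = off s S ∨ (off s S = 0 ∧ off (s + 1) S + 1 = p * q) := by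
  have h1 : off s (s + 1) = 1 := by
    have := off_nat s (n := 1) hM
    rwa [Nat.cast_one] at this
  have h2 := off_add s (s + 1) S
  have h3 := off_lt s S
  have h4 := off_lt (s + 1) S
  omega

/-- the arc in terms of the distance to its end -/
theorem A_iff (a : ℕ) (z : ZMod p → ZMod (p * q)) (hM : 1 < p * q) (j : ZMod p)
    (x : ZMod (p * q)) : A q a z j x ↔ off x (z j) < off (z (j - a)) (z j) := by
  unfold A
  have h1 := off_succ (z (j - a)) x hM
  have h2 := off_add (z (j - a)) x (z j)
  have h3 := off_lt (z (j - a)) x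
  have h4 := off_lt x (z j)
  have h5 := off_lt (z (j - a)) (z j)
  have h6 := off_lt (z (j - a) + 1) x
  omega

theorem strip_iff (a : ℕ) (z : ZMod p → ZMod (p * q)) (hM : 1 < p * q) (j : ZMod p)
    (S : ZMod (p * q)) :
    A q a z j (S - e p q j) ↔ off S (sc q z j) < off (z (j - a)) (z j) := by
  rw [A_iff a z hM]
  have h : off S (sc q z j) = off (S - e p q j) (z j) := by
    rw [← off_translate (S - e p q j) (z j) (e p q j)]
    congr 1
    ring
  rw [h]

/-- the sum of `u` over the circle -/
theorem sumu (a b : ℕ) (z : ZMod p → ZMod (p * q)) (u : ZMod p → ZMod (p * q) → ℤ)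
    (hG : ∀ (W : ZMod p) (S : ZMod (p * q)), open Classical in
      u W S = ((Finset.univ.filter fun j : ZMod p =>
        aB b W j ∧ A q a z j (S - e p q j)).card : ℤ)) (W : ZMod p) :
    ∑ S : ZMod (p * q), u W S =
      ∑ j : ZMod p, ind (aB b W j) * (off (z (j - a)) (z j) : ℤ) := by
  have h1 : ∀ S, u W S = ∑ j : ZMod p, ind (aB b W j) * ind (A q a z j (S - e p q j)) := by
    intro S
    rw [hG W S, card_ind]
    exact Finset.sum_congr rfl (fun j _ => ind_and _ _)
  rw [Finset.sum_congr rfl (fun S _ => h1 S), Finset.sum_comm]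
  apply Finset.sum_congr rfl
  intro j _
  rw [← Finset.mul_sum]
  congr 1
  have h2 : ∀ S : ZMod (p * q), ind (A q a z j (S - e p q j)) =
      ind ((S - (z (j - a) + 1 + e p q j)).val < off (z (j - a)) (z j)) := by
    intro S
    apply ind_congr
    unfold A off
    have : S - e p q j - (z (j - a) + 1) = S - (z (j - a) + 1 + e p q j) := by ring
    rw [this]
  rw [Finset.sum_congr rfl (fun S _ => h2 S)]
  exact sum_val _ (off_lt _ _).le

/-- one level -/
theorem level (hCnt : StCnt) {a b : ℕ} (hpar : Par p q a b) (z : ZMod p → ZMod (p * q))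
    (hd : Disj q a b z) (W : ZMod p) (y u : ZMod (p * q) → ℤ) (hl : Lvl q a b z W y u) :
    ((p * q : ℕ) : ℤ) = ((a * b * q : ℕ) : ℤ) + ∑ S : ZMod (p * q), u S +
      ∑ X : ZMod (p * q), (1 - y X) := by
  have h1 : ∀ X : ZMod (p * q), NN q a b z X (X + e p q W) + u (X + e p q W) + (1 - y X) = 1 := by
    intro X
    by_cases h : ∃ j, box q a b z j X (X + e p q W)
    · obtain ⟨j, hj⟩ := h
      have h2 := hl.inn j X hj
      have h3 : NN q a b z X (X + e p q W) = 1 := by
        unfold NN
        rw [Finset.sum_eq_single_of_mem j (Finset.mem_univ j), if_pos hj]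
        intro i _ hne
        rw [if_neg (fun hi => hne (hd i j _ _ hi hj))]
      rw [h3, h2.1, h2.2]
      norm_num
    · have h2 : ∀ j, ¬ box q a b z j X (X + e p q W) := fun j hj => h ⟨j, hj⟩
      have h3 : NN q a b z X (X + e p q W) = 0 := by
        unfold NN
        apply Finset.sum_eq_zero
        intro j _
        rw [if_neg (h2 j)]
      rw [h3, hl.out X h2]
      ring
  have h2 : ∑ X : ZMod (p * q), (1 : ℤ) = ((p * q : ℕ) : ℤ) := by
    rw [Finset.sum_const, Finset.card_univ, ZMod.card]
    simp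
  have h3 : ∑ X : ZMod (p * q), u (X + e p q W) = ∑ S : ZMod (p * q), u S :=
    Equiv.sum_comp (Equiv.addRight (e p q W)) u
  have h4 := hCnt p q a b hpar z W
  rw [← h2, ← Finset.sum_congr rfl (fun X _ => h1 X), Finset.sum_add_distrib,
    Finset.sum_add_distrib, h3, h4]

/-- one half of the counting -/
theorem half (hWind : StWind) {a b : ℕ} (hpar : Par p q a b) (z : ZMod p → ZMod (p * q))
    (hg : Gen q z) (u : ZMod p → ZMod (p * q) → ℤ)
    (hUU : ∀ j, UU q a b z u j)
    (hZ : ∀ (W f : ZMod p), (W - 1 - f).val < a + b → ∀ S, off (sc q z f + 1) S < a * q →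
      u W S = 0)
    (hG : ∀ (W : ZMod p) (S : ZMod (p * q)), open Classical in
      u W S = ((Finset.univ.filter fun j : ZMod p =>
        aB b W j ∧ A q a z j (S - e p q j)).card : ℤ))
    (hx : ∀ j, off (z (j - a)) (z j) + a * b * q ≤ p * q) (m : ZMod p) :
    ∃ E : Finset (ZMod p),
      ((p * q : ℕ) : ℤ) * ((E.card : ℤ) + 1) =
        p * a * q + ∑ j : ZMod p, (off (z (j - a)) (z j) : ℤ) ∧
      (∀ j ∈ E, ∃ S, A q a z j (S - e p q j) ∧ off (sc q z m + 1) S < a * q) ∧
      (∀ W, ∀ j ∈ E, ∀ j' ∈ E, aB b W j → aB b W j' → j = j') := by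
  classical
  have ha2 := hpar.ha
  have hb2 := hpar.hb
  have hab := hpar.hab
  have hq := hpar.hq
  have haq : 1 ≤ a * q := Nat.mul_pos (by omega) hq
  have habq : 2 * (a * q) ≤ a * b * q := by
    have : a * 2 * q ≤ a * b * q := Nat.mul_le_mul_right q (Nat.mul_le_mul_left a hb2)
    calc 2 * (a * q) = a * 2 * q := by ring
      _ ≤ _ := this
  have hM : 1 < p * q := by
    have := hx 0
    omega
  -- the lengths
  have hapos : ((a : ℕ) : ZMod p) ≠ 0 := by
    intro h0
    rw [ZMod.natCast_eq_zero_iff] at h0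
    have := Nat.le_of_dvd (by omega) h0
    omega
  have hxpos : ∀ j, 1 ≤ off (z (j - a)) (z j) := by
    intro j
    rcases Nat.eq_zero_or_pos (off (z (j - a)) (z j)) with h | h
    · exfalso
      have h1 := off_eq_zero.1 h
      have h2 : j - a = j := gen_res p q hg (by rw [h1])
      exact hapos (by
        have h3 : (a : ZMod p) = j - (j - a) := by ring
        rw [h3, h2, sub_self])
    · exact h
  have hlen : ∀ j, off (sc q z (j - a)) (sc q z j) = a * q + off (z (j - a)) (z j) := by
    intro j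
    have h1 : sc q z j =
        sc q z (j - a) + ((a * q + off (z (j - a)) (z j) : ℕ) : ZMod (p * q)) := by
      unfold sc
      rw [e_sub, e_cast]
      push_cast
      have h2 := off_spec (z (j - a)) (z j)
      linear_combination -h2
    conv_lhs => rw [h1]
    apply off_nat
    have := hx j
    omega
  have hw := hWind p (p * q) (sc q z) (a : ZMod p) (sc q z m)
  set F := (Finset.univ.filter fun j : ZMod p =>
    off (sc q z (j - a)) (sc q z m) < off (sc q z (j - a)) (sc q z j)) with hF
  have hFm : m + a ∈ F := by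
    rw [hF, Finset.mem_filter]
    refine ⟨Finset.mem_univ _, ?_⟩
    rw [hlen]
    have : m + (a : ZMod p) - a = m := by ring
    rw [this, off_self]
    omega
  have hpos : ∀ j ∈ F.erase (m + a), ∃ S, A q a z j (S - e p q j) ∧
      off (sc q z m + 1) S < a * q := by
    intro j hj
    rw [Finset.mem_erase, hF, Finset.mem_filter] at hj
    obtain ⟨hne, -, hlt⟩ := hj
    rw [hlen] at hlt
    have hτ0 : off (sc q z (j - a)) (sc q z m) ≠ 0 := by
      intro h0
      have h1 := off_eq_zero.1 h0
      have h2 : j - a = m := gen_res p q hg (by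
        rw [← res_sc p q z (j - a), ← res_sc p q z m, h1])
      exact hne (by rw [← h2]; ring)
    have hspec := off_spec (sc q z (j - a)) (sc q z m)
    have hxp := hxpos j
    have hxj := hx j
    obtain ⟨τ, hτ⟩ : ∃ τ, τ = off (sc q z (j - a)) (sc q z m) := ⟨_, rfl⟩
    obtain ⟨n, hn⟩ : ∃ n, n = max τ (a * q) + 1 := ⟨_, rfl⟩
    have hn1 : a * q + 1 ≤ n := by
      rw [hn]
      have := le_max_right τ (a * q)
      omega
    have hn2 : τ + 1 ≤ n := by
      rw [hn]
      have := le_max_left τ (a * q)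
      omega
    have hn3 : n ≤ a * q + off (z (j - a)) (z j) := by
      rw [hn]
      rcases max_choice τ (a * q) with h | h <;> rw [h] <;> omega
    have hn4 : n ≤ τ + a * q := by
      rw [hn]
      rcases max_choice τ (a * q) with h | h <;> rw [h] <;> omega
    rw [← hτ] at hspec
    refine ⟨sc q z (j - a) + (n : ZMod (p * q)), ?_, ?_⟩
    · unfold A
      have h1 : sc q z (j - a) + (n : ZMod (p * q)) - e p q j =
          (z (j - a) + 1) + ((n - a * q - 1 : ℕ) : ZMod (p * q)) := by
        rw [Nat.cast_sub (by omega), Nat.cast_sub (by omega)]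
        unfold sc
        rw [e_sub, e_cast]
        push_cast
        ring
      rw [h1, off_nat _ (by omega)]
      omega
    · have h1 : sc q z (j - a) + (n : ZMod (p * q)) =
          (sc q z m + 1) + ((n - τ - 1 : ℕ) : ZMod (p * q)) := by
        rw [Nat.cast_sub (by omega), Nat.cast_sub (by omega), ← hspec]
        push_cast
        ring
      rw [h1, off_nat _ (by omega)]
      omega
  refine ⟨F.erase (m + a), ?_, ?_, ?_⟩
  · -- the cardinality
    have h1 : (F.erase (m + a)).card + 1 = F.card := Finset.card_erase_add_one hFm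
    have h2 : (((F.erase (m + a)).card : ℤ) + 1) = (F.card : ℤ) := by exact_mod_cast h1
    rw [h2]
    have h3 : ((p * q : ℕ) : ℤ) * (F.card : ℤ) =
        ((∑ j : ZMod p, off (sc q z (j - a)) (sc q z j) : ℕ) : ℤ) := by
      rw [← hw]
      push_cast
      rfl
    rw [h3, Finset.sum_congr rfl (fun j _ => hlen j)]
    push_cast
    rw [Finset.sum_add_distrib, Finset.sum_const, Finset.card_univ, ZMod.card]
    simp only [nsmul_eq_mul]
    ring
  · exact hpos
  · -- at most one active strip
    have hasym : ∀ (W j j' : ZMod p) (S1 S2 : ZMod (p * q)), j ≠ j' → aB b W j → aB b W j' →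
        A q a z j (S1 - e p q j) → A q a z j' (S2 - e p q j') →
        off (sc q z m + 1) S1 < a * q → off (sc q z m + 1) S2 < a * q →
        off (sc q z m) S1 ≤ off (sc q z m) S2 → False := by
      intro W j j' S1 S2 hne hB hB' hA hA' h1 h2 hle
      have hxj := hx j
      have s1 := off_succ (sc q z m) S1 hM
      have s2 := off_succ (sc q z m) S2 hM
      have k1 := off_add (sc q z m) S1 S2
      have k2 := off_add S1 S2 (sc q z j)
      have k3 := off_add S1 (sc q z j) S2
      have l1 := off_lt (sc q z m) S1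
      have l2 := off_lt (sc q z m) S2
      have l3 := off_lt S1 S2
      have l4 := off_lt S2 (sc q z j)
      have l5 := off_lt S1 (sc q z j)
      have l6 := off_lt (sc q z j) S2
      have hA1 := (strip_iff a z hM j S1).1 hA
      have hu1 : u W S2 = 1 := hUU j' W hB' S2 hA'
      by_cases hc : off S1 S2 ≤ off S1 (sc q z j)
      · -- both strips contain S2
        have hA2 : A q a z j (S2 - e p q j) := (strip_iff a z hM j S2).2 (by omega)
        have h3 := hG W S2
        rw [card_ind, hu1] at h3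
        have h4 : ∑ i ∈ ({j, j'} : Finset (ZMod p)),
            ind (aB b W i ∧ A q a z i (S2 - e p q i)) ≤
            ∑ i : ZMod p, ind (aB b W i ∧ A q a z i (S2 - e p q i)) :=
          Finset.sum_le_sum_of_subset_of_nonneg (Finset.subset_univ _)
            (fun i _ _ => ind_nonneg _)
        rw [Finset.sum_pair hne, ind_pos ⟨hB, hA2⟩, ind_pos ⟨hB', hA'⟩, ← h3] at h4
        norm_num at h4
      · have s3 := off_succ (sc q z j) S2 hM
        have h3 : off (sc q z j + 1) S2 < a * q := by omega
        have h4 : u W S2 = 0 := by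
          apply hZ W j _ S2 h3
          have : (W - 1 - j).val < b := hB
          omega
        rw [hu1] at h4
        norm_num at h4
    intro W j hj j' hj' hB hB'
    by_contra hne
    obtain ⟨S1, hA1, h1⟩ := hpos j hj
    obtain ⟨S2, hA2, h2⟩ := hpos j' hj'
    rcases le_total (off (sc q z m) S1) (off (sc q z m) S2) with h | h
    · exact hasym W j j' S1 S2 hne hB hB' hA1 hA2 h1 h2 h
    · exact hasym W j' j S2 S1 (Ne.symm hne) hB' hB hA2 hA1 h2 h1 h

end

end CIIIaux

open CIIIaux

/-- CIII. -/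
theorem ciii : StCnt → StRef → StRefB → StWind → StLen → StGH → StZZ → StCIII := by
  intro hCnt hRef hRefB hWind hLen hGH hZZ p q a b _ _ hpar z hg hd y u hw hUU hYY
  have ha2 := hpar.ha
  have hb2 := hpar.hb
  have hab := hpar.hab
  have hq := hpar.hq
  have hpar' : Par p q b a := ⟨hb2, ha2, by omega, hq⟩
  obtain ⟨r1, r2, r3, r4, r5, r6⟩ := hRef p q a b hpar z
  obtain ⟨b1, b2, b3, b4⟩ := hRefB p q a b hpar z hg hd y u hw
  have hg' := r3 hg
  have hd' := r4 hd
  have hUU' : ∀ j, UU q b a (zr q z) (fun W S => 1 - y W (1 - S)) j := fun j => (b2 j).2 (hYY j)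
  have hYY' : ∀ j, YY q b a (zr q z) (fun W X => 1 - u W (1 - X)) j := fun j => (b3 j).2 (hUU j)
  have hx : ∀ j, off (z (j - a)) (z j) + a * b * q ≤ p * q := fun j =>
    hLen p q a b hpar z hg hd y u hw j (hUU j)
  have hx' : ∀ j, off (zr q z (j - b)) (zr q z j) + b * a * q ≤ p * q := fun j =>
    hLen p q b a hpar' (zr q z) hg' hd' _ _ b1 j (hUU' j)
  -- the lengths for StZZ
  have hy1 : ∀ j, off (z j) (z (j - b) - b * q) + a * b * q ≤ p * q := by
    intro j
    have h1 : off (z j) (z (j - b) - b * q) = off (zr q z (j - b)) (zr q z j) := by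
      rw [← off_translate (z j) (z (j - b) - b * q) (e p q j)]
      rw [← off_reflect (z j + e p q j) (z (j - b) - b * q + e p q j) 0]
      unfold zr sc
      rw [e_sub, e_cast]
      congr 1 <;> ring
    have h2 : a * b * q = b * a * q := by ring
    rw [h1, h2]
    exact hx' j
  have hy2 : ∀ j, off (zr q z j) (zr q z (j - a) - a * q) + b * a * q ≤ p * q := by
    intro j
    have h1 : off (zr q z j) (zr q z (j - a) - a * q) = off (z (j - a)) (z j) := by
      rw [← off_translate (z (j - a)) (z j) (e p q j)]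
      rw [← off_reflect (z (j - a) + e p q j) (z j + e p q j) 0]
      unfold zr sc
      rw [e_sub, e_cast]
      congr 1 <;> ring
    have h2 : b * a * q = a * b * q := by ring
    rw [h1, h2]
    exact hx j
  have hZ : ∀ (W f : ZMod p), (W - 1 - f).val < a + b → ∀ S, off (sc q z f + 1) S < a * q →
      u W S = 0 := hZZ p q a b hpar z hg hd y u hw hYY hy1
  have hZ' := hZZ p q b a hpar' (zr q z) hg' hd' _ _ b1 hYY' hy2
  have hG := hGH p q a b hpar z hg hd y u hw hUU
  have hG' := hGH p q b a hpar' (zr q z) hg' hd' _ _ b1 hUU'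
  -- the total count
  have hlev : ∀ W : ZMod p, ((p * q : ℕ) : ℤ) = ((a * b * q : ℕ) : ℤ) +
      ∑ j : ZMod p, ind (aB b W j) * (off (z (j - a)) (z j) : ℤ) +
      ∑ j : ZMod p, ind (aB a W j) * (off (zr q z (j - b)) (zr q z j) : ℤ) := by
    intro W
    have h1 := level hCnt hpar z hd W (y W) (u W) (hw W)
    have h2 := sumu a b z u hG W
    have h3 := sumu b a (zr q z) (fun W S => 1 - y W (1 - S)) hG' W
    have h4 : ∑ S : ZMod (p * q), (1 - y W (1 - S)) = ∑ X : ZMod (p * q), (1 - y W X) :=
      Equiv.sum_comp (Equiv.subLeft (1 : ZMod (p * q))) (fun X => 1 - y W X)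
    rw [h4] at h3
    rw [h1, h2, h3]
  have hcB : ∀ (c : ℕ) (j : ZMod p), c ≤ p → ∑ W : ZMod p, ind (aB c W j) = c := by
    intro c j hc
    rw [← sum_val (1 + j) hc]
    apply Finset.sum_congr rfl
    intro W _
    apply ind_congr
    unfold aB
    have : W - 1 - j = W - (1 + j) := by ring
    rw [this]
  have hswap : ∀ (c : ℕ) (g : ZMod p → ℤ), c ≤ p →
      ∑ W : ZMod p, ∑ j : ZMod p, ind (aB c W j) * g j = c * ∑ j : ZMod p, g j := by
    intro c g hc
    rw [Finset.sum_comm, Finset.mul_sum]
    apply Finset.sum_congr rfl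
    intro j _
    rw [← Finset.sum_mul, hcB c j hc]
  have htot : (p : ℤ) * ((p * q : ℕ) : ℤ) = p * ((a * b * q : ℕ) : ℤ) +
      b * ∑ j : ZMod p, (off (z (j - a)) (z j) : ℤ) +
      a * ∑ j : ZMod p, (off (zr q z (j - b)) (zr q z j) : ℤ) := by
    have h1 : ∑ W : ZMod p, ((p * q : ℕ) : ℤ) = (p : ℤ) * ((p * q : ℕ) : ℤ) := by
      rw [Finset.sum_const, Finset.card_univ, ZMod.card, nsmul_eq_mul]
    have h2 : ∑ W : ZMod p, ((a * b * q : ℕ) : ℤ) = (p : ℤ) * ((a * b * q : ℕ) : ℤ) := by
      rw [Finset.sum_const, Finset.card_univ, ZMod.card, nsmul_eq_mul]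
    rw [← h1, Finset.sum_congr rfl (fun W _ => hlev W), Finset.sum_add_distrib,
      Finset.sum_add_distrib, h2, hswap b _ (by omega), hswap a _ (by omega)]
  -- the two halves
  obtain ⟨E, hE1, hE2, hE3⟩ := half hWind hpar z hg u hUU hZ hG hx 0
  obtain ⟨E', hE1', hE2', hE3'⟩ := half hWind hpar' (zr q z) hg'
    (fun W S => 1 - y W (1 - S)) hUU' hZ' hG' hx' 0
  -- disjointness
  have hdis : ∀ W : ZMod p, ∑ j ∈ E, ind (aB b W j) + ∑ j ∈ E', ind (aB a W j) +
      ind ((W - 1).val < a + b) ≤ 1 := by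
    intro W
    have n1 : ∀ j ∈ E, aB b W j → ¬ (W - 1).val < a + b := by
      intro j hj hB hlt
      obtain ⟨S, hA, hS⟩ := hE2 j hj
      have h1 := hUU j W hB S hA
      have h2 := hZ W 0 (by rw [sub_zero]; exact hlt) S hS
      rw [h1] at h2
      norm_num at h2
    have n2 : ∀ j ∈ E', aB a W j → ¬ (W - 1).val < a + b := by
      intro j hj hB hlt
      obtain ⟨S, hA, hS⟩ := hE2' j hj
      have h1 : 1 - y W (1 - S) = 1 := hUU' j W hB S hA
      have h2 : 1 - y W (1 - S) = 0 := hZ' W 0 (by rw [sub_zero]; omega) S hS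
      rw [h1] at h2
      norm_num at h2
    have n3 : ∀ j ∈ E, ∀ j' ∈ E', aB b W j → ¬ aB a W j' := by
      intro j hj j' hj' hB hB'
      obtain ⟨S, hA, hS⟩ := hE2 j hj
      obtain ⟨S', hA', hS'⟩ := hE2' j' hj'
      have h1 := hUU j W hB S hA
      have h2 : 1 - y W (1 - S') = 1 := hUU' j' W hB' S' hA'
      have h3 : off (1 - S') (z 0) < b * q := by
        rw [r1 0] at hS'
        rw [← off_reflect (1 - S') (z 0) 1]
        have e1 : (1 : ZMod (p * q)) - z 0 = - z 0 + 1 := by ring
        have e2 : (1 : ZMod (p * q)) - (1 - S') = S' := by ring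
        rw [e1, e2]
        exact hS'
      have h4 := (hw W).flat 0 (1 - S') S ⟨h3, hS⟩ h1
      rw [h4] at h2
      norm_num at h2
    rcases sum_one E (fun j => aB b W j) (hE3 W) with ⟨j, hj, hB, h1⟩ | h1
    · rw [h1, ind_neg (n1 j hj hB)]
      have h2 : ∑ j ∈ E', ind (aB a W j) = 0 := by
        apply Finset.sum_eq_zero
        intro j' hj'
        exact ind_neg (n3 j hj j' hj' hB)
      rw [h2]
      norm_num
    · rw [h1]
      rcases sum_one E' (fun j => aB a W j) (hE3' W) with ⟨j', hj', hB', h2⟩ | h2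
      · rw [h2, ind_neg (n2 j' hj' hB')]
        norm_num
      · rw [h2]
        by_cases h3 : (W - 1).val < a + b
        · rw [ind_pos h3]
          norm_num
        · rw [ind_neg h3]
          norm_num
  have hfin : (b : ℤ) * E.card + a * E'.card + (a + b) ≤ p := by
    have h1 : ∑ W : ZMod p, (∑ j ∈ E, ind (aB b W j) + ∑ j ∈ E', ind (aB a W j) +
        ind ((W - 1).val < a + b)) ≤ ∑ W : ZMod p, (1 : ℤ) :=
      Finset.sum_le_sum (fun W _ => hdis W)
    have h2 : ∑ W : ZMod p, (1 : ℤ) = p := by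
      rw [Finset.sum_const, Finset.card_univ, ZMod.card]
      simp
    have h3 : ∑ W : ZMod p, ∑ j ∈ E, ind (aB b W j) = b * E.card := by
      rw [Finset.sum_comm, Finset.sum_congr rfl (fun j _ => hcB b j (by omega)),
        Finset.sum_const, nsmul_eq_mul, mul_comm]
    have h4 : ∑ W : ZMod p, ∑ j ∈ E', ind (aB a W j) = a * E'.card := by
      rw [Finset.sum_comm, Finset.sum_congr rfl (fun j _ => hcB a j (by omega)),
        Finset.sum_const, nsmul_eq_mul, mul_comm]
    have h5 : ∑ W : ZMod p, ind ((W - 1).val < a + b) = ((a + b : ℕ) : ℤ) :=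
      sum_val 1 (by omega)
    rw [Finset.sum_add_distrib, Finset.sum_add_distrib, h2, h3, h4, h5] at h1
    push_cast at h1
    exact h1
  -- arithmetic
  push_cast at hE1 hE1' htot
  have hPq : (0 : ℤ) < (p : ℤ) * q := by
    have h1 : 0 < p * q := Nat.mul_pos (by omega) (by omega)
    exact_mod_cast h1
  have hk := mul_le_mul_of_nonneg_left hfin hPq.le
  have hABQ : (0 : ℤ) < (a : ℤ) * b * (p * q) := by
    have h1 : (0 : ℤ) < a := by exact_mod_cast (by omega : 0 < a)
    have h2 : (0 : ℤ) < b := by exact_mod_cast (by omega : 0 < b)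
    positivity
  have hk2 : (p : ℤ) * q * ((b : ℤ) * E.card + a * E'.card + (a + b)) =
      2 * ((a : ℤ) * b * (p * q)) + b * ∑ j : ZMod p, (off (z (j - a)) (z j) : ℤ) +
      a * ∑ j : ZMod p, (off (zr q z (j - b)) (zr q z j) : ℤ) := by
    linear_combination (b : ℤ) * hE1 + (a : ℤ) * hE1'
  rw [hk2] at hk
  have hk3 : (p : ℤ) * q * p = (a : ℤ) * b * (p * q) +
      b * ∑ j : ZMod p, (off (z (j - a)) (z j) : ℤ) +
      a * ∑ j : ZMod p, (off (zr q z (j - b)) (zr q z j) : ℤ) := by
    linear_combination htot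
  linarith

end Helper11.N1
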