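import Pool.Agent.Helper11.N1.StA

set_option autoImplicit false

/-!
# Module CNT: each line has `a b q` points in boxes
-/

namespace Helper11.N1

namespace CNTaux

open Finset

theorem sum_off {M : ℕ} [NeZero M] (z : ZMod M) (f : ℕ → ℤ) :
    ∑ X : ZMod M, f (off X z) = ∑ t ∈ range M, f t := by
  refine Finset.sum_nbij' (fun X => off X z) (fun t => z - (t : ZMod M)) ?_ ?_ ?_ ?_ ?_
  · intro X _
    exact mem_range.2 (off_lt X z)
  · intro t _
    exact mem_univ _
  · intro X _
    exact off_spec' X z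
  · intro t ht
    exact off_nat' z (mem_range.1 ht)
  · intro X _
    rfl

theorem count {p q a b : ℕ} (hq : 1 ≤ q) (hab : a + b < p) {t : ℕ} (ht : t < b * q) :
    ∑ d ∈ range p, (if (d - a) * q ≤ t ∧ t < b * q ∧ t < d * q then (1 : ℤ) else 0) = a := by
  have h1 : t / q < b := (Nat.div_lt_iff_lt_mul (by omega)).2 ht
  rw [← Finset.sum_filter, Finset.sum_const, nsmul_eq_mul, mul_one]
  have h2 : (range p).filter (fun d => (d - a) * q ≤ t ∧ t < b * q ∧ t < d * q) =
      Finset.Ioc (t / q) (t / q + a) := by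
    ext d
    have e1 : (d - a) * q ≤ t ↔ d - a ≤ t / q := (Nat.le_div_iff_mul_le (by omega)).symm
    have e2 : t < d * q ↔ t / q < d := (Nat.div_lt_iff_lt_mul (by omega)).symm
    rw [mem_filter, mem_range, Finset.mem_Ioc, e1, e2]
    constructor
    · rintro ⟨h3, h4, h5, h6⟩
      exact ⟨h6, by omega⟩
    · rintro ⟨h3, h4⟩
      exact ⟨by omega, Nat.sub_le_iff_le_add.2 h4, ht, h3⟩
  rw [h2, Nat.card_Ioc]
  congr 1
  omega

end CNTaux

open Finset in
theorem cnt : StBL → StCnt := by
  intro hBL p q a b _ _ hP z W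
  have hq := hP.hq
  have hab := hP.hab
  unfold NN
  rw [Finset.sum_comm]
  have h1 : ∀ j : ZMod p, ∑ X : ZMod (p * q),
      (open Classical in if box q a b z j X (X + e p q W) then (1 : ℤ) else 0) =
      ∑ t ∈ range (p * q), (if ((off j W) - a) * q ≤ t ∧ t < b * q ∧ t < (off j W) * q
        then (1 : ℤ) else 0) := by
    intro j
    rw [← CNTaux.sum_off (z j) (fun t => if ((off j W) - a) * q ≤ t ∧ t < b * q ∧
      t < (off j W) * q then (1 : ℤ) else 0)]
    refine Finset.sum_congr rfl fun X _ => ?_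
    have h2 := (hBL p q a b hP z W j).1 X
    by_cases h3 : box q a b z j X (X + e p q W)
    · have h4 : (off j W - a) * q ≤ off X (z j) ∧ off X (z j) < b * q ∧
          off X (z j) < off j W * q := h2.1 h3
      rw [if_pos h3, if_pos h4]
    · have h4 : ¬ ((off j W - a) * q ≤ off X (z j) ∧ off X (z j) < b * q ∧
          off X (z j) < off j W * q) := fun h5 => h3 (h2.2 h5)
      rw [if_neg h3, if_neg h4]
  rw [Finset.sum_congr rfl fun j _ => h1 j]
  rw [CNTaux.sum_off W (fun d => ∑ t ∈ range (p * q), (if (d - a) * q ≤ t ∧ t < b * q ∧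
    t < d * q then (1 : ℤ) else 0))]
  rw [Finset.sum_comm]
  have h5 : b * q ≤ p * q := Nat.mul_le_mul_right q (by omega)
  rw [← Finset.sum_subset (Finset.range_subset_range.2 h5)]
  · rw [Finset.sum_congr rfl fun t ht => CNTaux.count hq hab (mem_range.1 ht)]
    rw [Finset.sum_const, card_range, nsmul_eq_mul]
    push_cast
    ring
  · intro t _ ht
    rw [mem_range] at ht
    refine Finset.sum_eq_zero fun d _ => ?_
    rw [if_neg]
    rintro ⟨_, h6, _⟩
    exact ht h6

end Helper11.N1
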