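import Pool.Agent.Helper11.N1.StA

set_option autoImplicit false

/-!
Project N1: the triangle count is `N` plus a function of `X` plus a function of `S` (StDEC).
-/

namespace Helper11.N1

namespace DECaux

/-- indicator of a proposition -/
noncomputable def ind (P : Prop) : ℤ := @ite ℤ P (Classical.propDecidable P) 1 0

theorem ite_ind (P : Prop) [hd : Decidable P] : (if P then (1 : ℤ) else 0) = ind P := by
  unfold ind
  congr

theorem ind_and (P Q : Prop) : ind (P ∧ Q) = ind P * ind Q := by
  unfold ind
  by_cases hP : P <;> by_cases hQ : Q <;> simp [hP, hQ]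

theorem ind_congr {P Q : Prop} (h : P ↔ Q) : ind P = ind Q := by
  rw [propext h]

theorem ind_pos {P : Prop} (h : P) : ind P = 1 := by
  unfold ind
  rw [if_pos h]

theorem ind_neg {P : Prop} (h : ¬ P) : ind P = 0 := by
  unfold ind
  rw [if_neg h]

section

set_option linter.unusedSectionVars false

variable {p q : ℕ} [NeZero p] [NeZero q]

theorem e_cast (n : ℕ) : e p q (n : ZMod p) = (n : ZMod (p * q)) * q := by
  rw [e_natCast]
  push_cast
  ring

/-- the relation between the two distances of a point -/
theorem sig (X x : ZMod (p * q)) (W i : ZMod p) :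
    off X x + q * (i - W).val = off (X + e p q W) (x + e p q i) ∨
      off X x + q * (i - W).val = off (X + e p q W) (x + e p q i) + p * q := by
  have hq : 1 ≤ q := Nat.one_le_iff_ne_zero.2 (NeZero.ne q)
  have h1 : off (X + e p q W) (x + e p q i) = off X (x + e p q (i - W)) := by
    rw [← off_translate X (x + e p q (i - W)) (e p q W)]
    congr 1
    rw [e_sub]
    ring
  have h2 : off x (x + e p q (i - W)) = q * (i - W).val := by
    unfold off
    rw [add_sub_cancel_left, e_val p q hq]
  rw [h1, ← h2]
  exact off_add X x (x + e p q (i - W))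

theorem tri_ind (X : ZMod (p * q)) (W : ZMod p) (S x : ZMod (p * q)) (i : ZMod p) :
    ind (tri q X W S x i) = ind (q * (i - W).val ≤ off (X + e p q W) (x + e p q i)) *
      ind (off (X + e p q W) (x + e p q i) < off (X + e p q W) S) := by
  rw [← ind_and]
  apply ind_congr
  unfold tri
  have h1 := sig X x W i
  have h2 := off_lt (X + e p q W) S
  have h3 := off_lt X x
  omega

theorem val_shift (w : ZMod p) (b : ℕ) (hb : b < p) :
    (w + b).val = w.val + b ∨ ((w + b).val + p = w.val + b) := by
  have h1 := ZMod.val_lt w
  have h2 : (w + b).val = (w.val + b) % p := by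
    rw [ZMod.val_add, ZMod.val_natCast, Nat.mod_eq_of_lt hb]
  rcases lt_or_ge (w.val + b) p with h | h
  · left
    rw [h2, Nat.mod_eq_of_lt h]
  · right
    rw [h2, Nat.mod_eq_sub_mod h, Nat.mod_eq_of_lt (by omega)]
    omega

theorem val_neg_one (w : ZMod p) : (-1 - w).val + w.val + 1 = p := by
  have h1 := ZMod.val_lt w
  have hp : 0 < p := Nat.pos_of_ne_zero (NeZero.ne p)
  have h2 : (-1 - w) = ((p - 1 - w.val : ℕ) : ZMod p) := by
    rw [Nat.cast_sub (by omega), Nat.cast_sub (by omega), ZMod.natCast_self,
      ZMod.natCast_zmod_val]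
    simp
  rw [h2, ZMod.val_natCast, Nat.mod_eq_of_lt (by omega)]
  omega

theorem two {b : ℕ} (hb : b < p) (X x : ZMod (p * q)) (W i : ZMod p) :
    ind (q * (i - W).val ≤ off (X + e p q W) (x + e p q i)) -
      ind (q * (i + b - W).val ≤ off (X + e p q W) (x + e p q i)) =
    ind (off X x < b * q) - ind ((W - 1 - i).val < b) := by
  have hq : 1 ≤ q := Nat.one_le_iff_ne_zero.2 (NeZero.ne q)
  have h1 := sig X x W i
  have h2 := off_lt (X + e p q W) (x + e p q i)
  have h3 := off_lt X x
  have h4 : (i + b - W) = (i - W) + b := by ring
  have h5 := val_shift (i - W) b hb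
  have h6 : (W - 1 - i) = -1 - (i - W) := by ring
  have h7 := val_neg_one (i - W)
  have h5' := ZMod.val_lt (i - W + (b : ZMod p))
  rw [h4, h6]
  generalize off (X + e p q W) (x + e p q i) = σ at *
  generalize off X x = t at *
  generalize (i - W + (b : ZMod p)).val = w' at *
  generalize (-1 - (i - W)).val = v at *
  generalize (i - W).val = w at *
  rcases h5 with h5 | h5
  · -- no wrap
    subst h5
    have h8 : q * (w + b) = q * w + q * b := by ring
    have h9 : b * q = q * b := by ring
    have h10 : q * w + q * b + q ≤ p * q := by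
      have : (w + b + 1) * q ≤ p * q := Nat.mul_le_mul_right q (by omega)
      nlinarith [this]
    have h11 : ¬ (v < b) := by omega
    rw [ind_neg h11, h8, h9]
    rcases h1 with h1 | h1
    · rw [ind_pos (by omega : q * w ≤ σ)]
      by_cases h12 : t < q * b
      · rw [ind_pos h12, ind_neg (by omega)]
      · rw [ind_neg h12, ind_pos (by omega)]
        norm_num
    · rw [ind_neg (by omega : ¬ q * w ≤ σ), ind_neg (by omega : ¬ q * w + q * b ≤ σ),
        ind_neg (by omega : ¬ t < q * b)]
  · -- wrap
    have h8 : q * w' + p * q = q * w + q * b := by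
      have : q * (w' + p) = q * (w + b) := by rw [h5]
      nlinarith [this]
    have h9 : b * q = q * b := by ring
    have h11 : v < b := by omega
    have h13 : q * b ≤ p * q := by
      rw [Nat.mul_comm q b]
      exact Nat.mul_le_mul_right q hb.le
    rw [ind_pos h11, h9]
    rcases h1 with h1 | h1
    · rw [ind_pos (by omega : q * w ≤ σ), ind_pos (by omega : q * w' ≤ σ),
        ind_pos (by omega : t < q * b)]
    · rw [ind_neg (by omega : ¬ q * w ≤ σ)]
      by_cases h12 : t < q * b
      · rw [ind_pos h12, ind_neg (by omega)]
        norm_num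
      · rw [ind_neg h12, ind_pos (by omega)]

theorem off_succ (s S : ZMod (p * q)) (hM : 1 < p * q) :
    off (s + 1) S + 1 = off s S ∨ (off s S = 0 ∧ off (s + 1) S + 1 = p * q) := by
  have h1 : off s (s + 1) = 1 := by
    have := off_nat s (n := 1) hM
    rwa [Nat.cast_one] at this
  have h2 := off_add s (s + 1) S
  have h3 := off_lt s S
  have h4 := off_lt (s + 1) S
  omega

theorem four {a : ℕ} (ha : 1 ≤ a) (haq : a * q < p * q) (X' s S : ZMod (p * q)) :
    ind (off X' s < off X' S) - ind (off X' (s + a * q) < off X' S) =
      ind (off (s + 1) S < a * q) - ind (off (s + 1) X' < a * q) := by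
  have hq : 1 ≤ q := Nat.one_le_iff_ne_zero.2 (NeZero.ne q)
  have haq1 : 1 ≤ a * q := Nat.mul_pos ha hq
  have hM : 1 < p * q := by omega
  have h1 : off s (s + a * q) = a * q := by
    have := off_nat s (n := a * q) haq
    push_cast at this
    exact this
  have h2 := off_add X' s (s + a * q)
  rw [h1] at h2
  have h3 := off_add X' s S
  have h4 := off_add X' s X'
  rw [off_self] at h4
  have h5 := off_succ s S hM
  have h6 := off_succ s X' hM
  have l1 := off_lt X' s
  have l2 := off_lt X' (s + a * q)
  have l3 := off_lt X' S
  have l4 := off_lt s S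
  have l5 := off_lt s X'
  have l6 := off_lt (s + 1) S
  have l7 := off_lt (s + 1) X'
  generalize off X' s = σ at *
  generalize off X' (s + a * q) = σ' at *
  generalize off X' S = T at *
  generalize off (s + 1) S = u at *
  generalize off (s + 1) X' = v at *
  generalize off s S = u' at *
  generalize off s X' = v' at *
  generalize a * q = A at *
  generalize p * q = M at *
  by_cases c1 : σ < T <;> by_cases c2 : σ' < T <;> by_cases c3 : u < A <;> by_cases c4 : v < A
  all_goals first
    | (exfalso; omega)
    | simp only [ind_pos, ind_neg, c1, c2, c3, c4, not_false_eq_true]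
  all_goals norm_num

theorem five (X' x S : ZMod (p * q)) :
    ind (off X' x < off X' S) = ind (x.val < S.val) - ind (x.val < X'.val) +
      ind (S.val < X'.val) := by
  have h0 : ∀ y : ZMod (p * q), y.val = off 0 y := fun y => by
    unfold off
    rw [sub_zero]
  have h1 := off_add 0 X' x
  have h2 := off_add 0 X' S
  rw [← h0, ← h0] at h1 h2
  have l1 := ZMod.val_lt x
  have l2 := ZMod.val_lt X'
  have l3 := ZMod.val_lt S
  have l4 := off_lt X' x
  have l5 := off_lt X' S
  generalize off X' x = σ at *
  generalize off X' S = T at *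
  generalize x.val = x at *
  generalize X'.val = y at *
  generalize S.val = s at *
  by_cases c1 : σ < T <;> by_cases c2 : x < s <;> by_cases c3 : x < y <;> by_cases c4 : s < y
  all_goals first
    | (exfalso; omega)
    | simp only [ind_pos, ind_neg, c1, c2, c3, c4, not_false_eq_true]
  all_goals norm_num

end

end DECaux

open DECaux

/-- DEC. -/
theorem dec : StDEC := by
  intro p q a b _ _ hpar z X W S
  have hab := hpar.hab
  have ha2 := hpar.ha
  have hb2 := hpar.hb
  have hq := hpar.hq
  have haq : a * q < p * q := Nat.mul_lt_mul_of_pos_right (by omega) (by omega)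
  -- the j-th summand
  have key : ∀ j : ZMod p,
      ind (tri q X W S (z j) j) - ind (tri q X W S (z j) (j + a)) -
        ind (tri q X W S (z j - b * q) (j + b)) +
        ind (tri q X W S (z j - b * q) (j + a + b)) =
      (ind (box q a b z j X S) - ind (box q a b z j X (X + e p q W))) +
        (ind (aT a b W j) * ind ((sc q z j + a * q).val < S.val) -
          ind (aB b W j) * ind ((sc q z j).val < S.val)) -
        (ind (aT a b W j) * ind ((sc q z j + a * q).val < (X + e p q W).val) -
          ind (aB b W j) * ind ((sc q z j).val < (X + e p q W).val)) +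
        (ind (aT a b W j) - ind (aB b W j)) * ind (S.val < (X + e p q W).val) := by
    intro j
    have e1 : z j + e p q j = sc q z j := rfl
    have e2 : z j + e p q (j + a) = sc q z j + a * q := by
      rw [e_add, e_cast, ← e1]
      ring
    have e3 : z j - b * q + e p q (j + b) = sc q z j := by
      rw [e_add, e_cast, ← e1]
      ring
    have e4 : z j - b * q + e p q (j + a + b) = sc q z j + a * q := by
      rw [e_add, e_add, e_cast, e_cast, ← e1]
      ring
    have t1 := tri_ind X W S (z j) j
    have t2 := tri_ind X W S (z j) (j + a)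
    have t3 := tri_ind X W S (z j - b * q) (j + b)
    have t4 := tri_ind X W S (z j - b * q) (j + a + b)
    rw [e1] at t1
    rw [e2] at t2
    rw [e3] at t3
    rw [e4] at t4
    have w1 := two (b := b) (by omega) X (z j) W j
    have w2 := two (b := b) (by omega) X (z j) W (j + a)
    rw [e1] at w1
    rw [e2] at w2
    have w3 : (W - 1 - (j + a)) = W - a - 1 - j := by ring
    rw [w3] at w2
    have f4 := four (a := a) (by omega) haq (X + e p q W) (sc q z j) S
    have g1 := five (X + e p q W) (sc q z j) S
    have g2 := five (X + e p q W) (sc q z j + a * q) S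
    have b1 : ind (box q a b z j X S) =
        ind (off X (z j) < b * q) * ind (off (sc q z j + 1) S < a * q) := by
      unfold box
      exact ind_and _ _
    have b2 : ind (box q a b z j X (X + e p q W)) =
        ind (off X (z j) < b * q) * ind (off (sc q z j + 1) (X + e p q W) < a * q) := by
      unfold box
      exact ind_and _ _
    have a1 : ind (aB b W j) = ind ((W - 1 - j).val < b) := rfl
    have a2 : ind (aT a b W j) = ind ((W - a - 1 - j).val < b) := rfl
    rw [t1, t2, t3, t4, b1, b2, a1, a2]
    generalize ind (q * (j - W).val ≤ off (X + e p q W) (sc q z j)) = u1 at *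
    generalize ind (q * (j + b - W).val ≤ off (X + e p q W) (sc q z j)) = u2 at *
    generalize ind (q * (j + a - W).val ≤ off (X + e p q W) (sc q z j + a * q)) = u3 at *
    generalize ind (q * (j + a + b - W).val ≤ off (X + e p q W) (sc q z j + a * q)) = u4 at *
    generalize ind (off (X + e p q W) (sc q z j) < off (X + e p q W) S) = c1 at *
    generalize ind (off (X + e p q W) (sc q z j + a * q) < off (X + e p q W) S) = c2 at *
    generalize ind (off X (z j) < b * q) = J at *
    generalize ind ((W - 1 - j).val < b) = B at *
    generalize ind ((W - a - 1 - j).val < b) = T at *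
    generalize ind (off (sc q z j + 1) S < a * q) = y1 at *
    generalize ind (off (sc q z j + 1) (X + e p q W) < a * q) = y2 at *
    have h1 : u1 * c1 - u3 * c2 - u2 * c1 + u4 * c2 = (u1 - u2) * c1 - (u3 - u4) * c2 := by ring
    rw [h1, w1, w2]
    have h2 : (J - B) * c1 - (J - T) * c2 = J * (c1 - c2) - B * c1 + T * c2 := by ring
    rw [h2, f4, g1, g2]
    ring
  have hTB : ∑ j : ZMod p, ind (aT a b W j) = ∑ j : ZMod p, ind (aB b W j) := by
    have h := Equiv.sum_comp (Equiv.addRight (a : ZMod p)) (fun j => ind (aB b W j))
    rw [← h]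
    apply Finset.sum_congr rfl
    intro j _
    apply ind_congr
    unfold aT aB
    rw [Equiv.coe_addRight]
    have : W - 1 - (j + (a : ZMod p)) = W - a - 1 - j := by ring
    rw [this]
  unfold FF NN rhoS
  simp only [ite_ind, ind_and]
  rw [Finset.sum_congr rfl (fun j _ => key j)]
  simp only [Finset.sum_add_distrib, Finset.sum_sub_distrib, ← Finset.sum_mul]
  rw [hTB]
  ring

end Helper11.N1
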