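import Pool.Agent.Helper11.N1.StC

set_option autoImplicit false

namespace Helper11.N1

namespace GENAPaux

private theorem res_zap {p q : ℕ} [NeZero p] [NeZero q] (a b : ℕ) (D : ℤ) (j : ZMod p) :
    res p q (zap q a b D j) =
      ((((((j * ((a * b : ℕ) : ZMod p)⁻¹).val : ℕ) : ℤ) * D : ℤ)) : ZMod q) := by
  unfold zap
  rw [map_mul, map_natCast, map_intCast]
  push_cast
  rw [ZMod.natCast_self]
  ring

private theorem val_eq_of_dvd {p q : ℕ} [NeZero p] [NeZero q] (hpq : p ≤ q) (x y : ZMod p)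
    (h : (q : ℤ) ∣ ((x.val : ℤ) - (y.val : ℤ))) : x = y := by
  apply ZMod.val_injective
  have hx : x.val < p := ZMod.val_lt x
  have hy : y.val < p := ZMod.val_lt y
  have h1 : |((x.val : ℤ) - (y.val : ℤ))| < (q : ℤ) := by
    rw [abs_lt]
    constructor
    · have : (y.val : ℤ) < q := by exact_mod_cast lt_of_lt_of_le hy hpq
      have : (0 : ℤ) ≤ (x.val : ℤ) := Int.natCast_nonneg _
      linarith
    · have : (x.val : ℤ) < q := by exact_mod_cast lt_of_lt_of_le hx hpq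
      have : (0 : ℤ) ≤ (y.val : ℤ) := Int.natCast_nonneg _
      linarith
  have h2 := Int.eq_zero_of_abs_lt_dvd h h1
  have h3 : (x.val : ℤ) = (y.val : ℤ) := by linarith
  exact_mod_cast h3

end GENAPaux

open GENAPaux in
theorem genap : StGENAP := by
  intro p q a b _ _ hpq hab D hD i j hij
  have h1 : res p q (zap q a b D i - zap q a b D j) = 0 := (res_eq_zero p q _).2 hij
  rw [map_sub, res_zap, res_zap, ← Int.cast_sub, ← sub_mul,
    ZMod.intCast_zmod_eq_zero_iff_dvd] at h1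
  have h2 : (q : ℤ) ∣ (((i * ((a * b : ℕ) : ZMod p)⁻¹).val : ℕ) : ℤ) -
      (((j * ((a * b : ℕ) : ZMod p)⁻¹).val : ℕ) : ℤ) :=
    hD.symm.dvd_of_dvd_mul_right h1
  have h3 := val_eq_of_dvd hpq _ _ h2
  have h4 : ((a * b : ℕ) : ZMod p) * ((a * b : ℕ) : ZMod p)⁻¹ = 1 :=
    ZMod.coe_mul_inv_eq_one (a * b) hab
  calc i = i * ((a * b : ℕ) : ZMod p)⁻¹ * ((a * b : ℕ) : ZMod p) := by
        rw [mul_assoc, mul_comm (((a * b : ℕ) : ZMod p)⁻¹), h4, mul_one]
    _ = j * ((a * b : ℕ) : ZMod p)⁻¹ * ((a * b : ℕ) : ZMod p) := by rw [h3]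
    _ = j := by rw [mul_assoc, mul_comm (((a * b : ℕ) : ZMod p)⁻¹), h4, mul_one]

end Helper11.N1
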