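import Pool.Agent.Helper11.N1.StA

set_option autoImplicit false

/-!
# Project N1, module LDX: level data exist
-/

namespace Helper11.N1

namespace LDXaux

theorem val_step {M : ℕ} [NeZero M] (hM : 1 < M) (S : ZMod M) :
    (S + 1).val = S.val + 1 ∨ ((S + 1).val = 0 ∧ S.val + 1 = M) := by
  have : Fact (1 < M) := ⟨hM⟩
  have h1 : (S + 1).val = (S.val + 1) % M := by
    rw [ZMod.val_add, ZMod.val_one]
  have h2 := ZMod.val_lt S
  rcases Nat.lt_or_ge (S.val + 1) M with h | h
  · left
    rw [h1, Nat.mod_eq_of_lt h]
  · right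
    have h3 : S.val + 1 = M := by omega
    refine ⟨?_, h3⟩
    rw [h1, h3, Nat.mod_self]

/-- the two kinds of active sides are equally numerous -/
theorem count_eq {p : ℕ} (a b : ℕ) [NeZero p] (W : ZMod p) : open Classical in
    ∑ j : ZMod p, (if aT a b W j then (1 : ℤ) else 0) =
      ∑ j : ZMod p, (if aB b W j then (1 : ℤ) else 0) := by
  classical
  refine Fintype.sum_equiv (Equiv.addRight (a : ZMod p)) _ _ fun j => ?_
  have h : W - a - 1 - j = W - 1 - (j + a) := by ring
  have h2 : aT a b W j ↔ aB b W (Equiv.addRight (a : ZMod p) j) := by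
    unfold aT aB
    rw [Equiv.coe_addRight, h]
  exact if_congr h2 rfl rfl

/-- one step, one family of positions -/
theorem step_sum {p M : ℕ} [NeZero p] [NeZero M] (hM : 1 < M) (P : ZMod p → Prop)
    (x : ZMod p → ZMod M) (S : ZMod M) : open Classical in
    ∑ j : ZMod p, ((if P j ∧ (x j).val < (S + 1).val then (1 : ℤ) else 0) -
      (if P j ∧ (x j).val < S.val then 1 else 0)) =
      ∑ j : ZMod p, (if P j ∧ x j = S then (1 : ℤ) else 0) -
        (if (S + 1).val = 0 then ∑ j : ZMod p, (if P j then (1 : ℤ) else 0) else 0) := by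
  classical
  rcases val_step hM S with h | ⟨h, h'⟩
  · rw [h, if_neg (by omega), sub_zero]
    apply Finset.sum_congr rfl
    intro j _
    by_cases hP : P j
    · by_cases hx : x j = S
      · simp [hP, hx]
      · have hne : (x j).val ≠ S.val := fun h3 => hx (ZMod.val_injective M h3)
        have : (x j).val < S.val + 1 ↔ (x j).val < S.val := by omega
        simp [hP, hx, this]
    · simp [hP]
  · rw [h, if_pos rfl, ← Finset.sum_sub_distrib]
    apply Finset.sum_congr rfl
    intro j _
    by_cases hP : P j
    · by_cases hx : x j = S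
      · simp [hP, hx]
      · have hne : (x j).val ≠ S.val := fun h3 => hx (ZMod.val_injective M h3)
        have h4 := ZMod.val_lt (x j)
        have : (x j).val < S.val := by omega
        simp [hP, hx, this]
    · simp [hP]

theorem rj {p q a b : ℕ} [NeZero p] [NeZero q] (hM : 1 < p * q)
    (z : ZMod p → ZMod (p * q)) (W : ZMod p) (S : ZMod (p * q)) :
    rhoS q a b z W (S + 1) - rhoS q a b z W S =
    (open Classical in ∑ j : ZMod p, if aT a b W j ∧ sc q z j + a * q = S then (1 : ℤ) else 0) -
    (open Classical in ∑ j : ZMod p, if aB b W j ∧ sc q z j = S then (1 : ℤ) else 0) := by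
  classical
  have h1 := step_sum hM (fun j => aT a b W j) (fun j => sc q z j + a * q) S
  have h2 := step_sum hM (fun j => aB b W j) (fun j => sc q z j) S
  have h3 := count_eq (p := p) a b W
  have h4 : rhoS q a b z W (S + 1) - rhoS q a b z W S =
      ∑ j : ZMod p, ((if aT a b W j ∧ (sc q z j + a * q).val < (S + 1).val then (1 : ℤ) else 0) -
        (if aT a b W j ∧ (sc q z j + a * q).val < S.val then 1 else 0)) -
      ∑ j : ZMod p, ((if aB b W j ∧ (sc q z j).val < (S + 1).val then (1 : ℤ) else 0) -
        (if aB b W j ∧ (sc q z j).val < S.val then 1 else 0)) := by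
    unfold rhoS
    rw [← Finset.sum_sub_distrib, ← Finset.sum_sub_distrib]
    apply Finset.sum_congr rfl
    intro j _
    ring
  rw [h4, h1, h2, h3]
  ring

end LDXaux

theorem ldx : StLJ → StDEC → StLDX := by
  intro hLJ hDEC p q a b _ _ hp z W hF
  classical
  have hM : 1 < p * q := by
    have h1 := hp.ha
    have h2 := hp.hb
    have h3 := hp.hab
    have h4 := hp.hq
    calc 1 < p * 1 := by omega
      _ ≤ p * q := Nat.mul_le_mul_left p h4
  refine ⟨fun X => - NN q a b z X (X + e p q W) - rhoS q a b z W (X + e p q W),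
    fun S => rhoS q a b z W S, ?_, ?_, ?_, ?_, ?_⟩
  · intro X
    have h1 := LDXaux.rj (a := a) (b := b) hM z W (X + e p q W)
    have h2 : NN q a b z (X + 1) (X + 1 + e p q W) - NN q a b z X (X + e p q W) =
        (∑ j : ZMod p, if aL a b W j ∧ z j - b * q = X then (1 : ℤ) else 0) -
        (∑ j : ZMod p, if aR a W j ∧ z j = X then (1 : ℤ) else 0) +
        (∑ j : ZMod p, if aB b W j ∧ sc q z j = X + e p q W then (1 : ℤ) else 0) -
        (∑ j : ZMod p, if aT a b W j ∧ sc q z j + a * q = X + e p q W then (1 : ℤ) else 0) := by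
      unfold NN
      rw [← Finset.sum_sub_distrib, ← Finset.sum_sub_distrib, ← Finset.sum_add_distrib,
        ← Finset.sum_sub_distrib]
      apply Finset.sum_congr rfl
      intro j _
      exact hLJ p q a b hp z W j X
    have h3 : X + 1 + e p q W = X + e p q W + 1 := by ring
    rw [h3] at h2
    simp only [h3]
    linarith
  · intro S
    exact LDXaux.rj hM z W S
  · intro X
    ring
  · intro X S
    have h1 := hF X S
    rw [hDEC p q a b hp z X W S, abs_le] at h1
    linarith [h1.2]
  · intro X S
    have h1 := hF X S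
    rw [hDEC p q a b hp z X W S, abs_le] at h1
    linarith [h1.1]

end Helper11.N1
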