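import Pool.Agent.Helper11.N1.StB

set_option autoImplicit false

/-!
# Module LEN: length of a strip
-/

namespace Helper11.N1

namespace LENaux

theorem sum_arc {M : ℕ} [NeZero M] (w c : ZMod M) {L : ℕ} (hL : L ≤ M) :
    ∑ X : ZMod M, (if off w (X + c) < L then (1 : ℤ) else 0) = L := by
  have h1 : ∑ X : ZMod M, (if off w (X + c) < L then (1 : ℤ) else 0) =
      ∑ t ∈ Finset.range M, (if t < L then (1 : ℤ) else 0) := by
    refine Finset.sum_nbij' (fun X => off w (X + c)) (fun t => w + (t : ZMod M) - c) ?_ ?_ ?_ ?_ ?_
    · intro X _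
      exact Finset.mem_range.2 (off_lt _ _)
    · intro t _
      exact Finset.mem_univ _
    · intro X _
      show w + ((off w (X + c) : ℕ) : ZMod M) - c = X
      rw [off_spec]
      ring
    · intro t ht
      show off w (w + (t : ZMod M) - c + c) = t
      rw [sub_add_cancel]
      exact off_nat w (Finset.mem_range.1 ht)
    · intro X _
      rfl
  have h2 : (Finset.range M).filter (fun t => t < L) = Finset.range L := by
    ext t
    rw [Finset.mem_filter, Finset.mem_range, Finset.mem_range]
    constructor
    · exact fun h => h.2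
    · exact fun h => ⟨by omega, h⟩
  rw [h1, ← Finset.sum_filter, h2, Finset.sum_const, Finset.card_range, nsmul_eq_mul, mul_one]

theorem NN_le_one {p q a b : ℕ} [NeZero p] {z : ZMod p → ZMod (p * q)} (hd : Disj q a b z)
    (X S : ZMod (p * q)) : NN q a b z X S ≤ 1 := by
  unfold NN
  by_cases h : ∃ i, box q a b z i X S
  · obtain ⟨i, hi⟩ := h
    rw [Finset.sum_eq_single_of_mem i (Finset.mem_univ i), if_pos hi]
    intro k _ hk
    exact if_neg fun h => hk (hd k i X S h hi)
  · rw [Finset.sum_eq_zero]
    · exact zero_le_one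
    · intro k _
      exact if_neg fun h' => h ⟨k, h'⟩

theorem NN_eq_zero {p q a b : ℕ} [NeZero p] {z : ZMod p → ZMod (p * q)}
    {X S : ZMod (p * q)} (h : ∀ i, ¬ box q a b z i X S) : NN q a b z X S = 0 := by
  unfold NN
  rw [Finset.sum_eq_zero]
  intro k _
  exact if_neg (h k)

end LENaux

theorem len : StCnt → StLen := by
  intro hCnt p q a b _ _ hP z _ hd y u hw j hU
  have hb := hP.hb
  have hB : aB b (j + 1) j := by
    unfold aB
    have : (j + 1 - 1 - j : ZMod p) = 0 := by ring
    rw [this, ZMod.val_zero]
    omega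
  have hc := hCnt p q a b hP z (j + 1)
  have hM : off (z (j - a)) (z j) ≤ p * q := (off_lt _ _).le
  have hs := LENaux.sum_arc (z (j - a) + 1) (e p q (j + 1) - e p q j) hM
  have hle : ∀ X : ZMod (p * q), NN q a b z X (X + e p q (j + 1)) +
      (if off (z (j - a) + 1) (X + (e p q (j + 1) - e p q j)) < off (z (j - a)) (z j)
        then (1 : ℤ) else 0) ≤ 1 := by
    intro X
    split_ifs with h
    · have hA : A q a z j (X + e p q (j + 1) - e p q j) := by
        unfold A
        rw [add_sub_assoc]
        exact h
      have hu := hU (j + 1) hB (X + e p q (j + 1)) hA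
      have h0 : NN q a b z X (X + e p q (j + 1)) = 0 := by
        apply LENaux.NN_eq_zero
        intro i hi
        have := ((hw (j + 1)).inn i X hi).2
        omega
      rw [h0]
      omega
    · have := LENaux.NN_le_one hd X (X + e p q (j + 1))
      omega
  have hsum := Finset.sum_le_sum fun (X : ZMod (p * q)) (_ : X ∈ Finset.univ) => hle X
  rw [Finset.sum_add_distrib, hc, hs, Finset.sum_const, Finset.card_univ, ZMod.card,
    nsmul_eq_mul, mul_one] at hsum
  have h3 : a * b * q + off (z (j - a)) (z j) ≤ p * q := by exact_mod_cast hsum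
  omega

end Helper11.N1
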