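import Pool.Agent.Helper11.N1.StA

set_option autoImplicit false
set_option linter.unusedSectionVars false

/-!
# LEV: the level lemma for `a ≤ b`
-/

namespace Helper11.N1

namespace LEVaux

section

variable {p q a b : ℕ} [NeZero p] [NeZero q] {z : ZMod p → ZMod (p * q)}

theorem NN_one (hD : Disj q a b z) {j : ZMod p} {X S : ZMod (p * q)} (h : box q a b z j X S) :
    NN q a b z X S = 1 := by
  unfold NN
  rw [Finset.sum_eq_single j]
  · rw [if_pos h]
  · intro i _ hi
    rw [if_neg]
    exact fun h' => hi (hD i j X S h' h)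
  · intro h'
    exact absurd (Finset.mem_univ j) h'

theorem NN_zero {X S : ZMod (p * q)} (h : ∀ j, ¬ box q a b z j X S) : NN q a b z X S = 0 := by
  unfold NN
  exact Finset.sum_eq_zero fun i _ => if_neg (h i)

theorem NN_cases (hD : Disj q a b z) (X S : ZMod (p * q)) :
    (NN q a b z X S = 0) ∨ (NN q a b z X S = 1 ∧ ∃ j, box q a b z j X S) := by
  by_cases h : ∃ j, box q a b z j X S
  · obtain ⟨j, hj⟩ := h
    exact Or.inr ⟨NN_one hD hj, j, hj⟩
  · left
    exact NN_zero fun j hj => h ⟨j, hj⟩

theorem sc_inj (hg : Gen q z) {i j : ZMod p} (h : sc q z i = sc q z j) : i = j :=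
  gen_res p q hg (by rw [← res_sc p q z i, ← res_sc p q z j, h])

theorem mul_facts (hP : Par p q a b) : a * q + b * q + q ≤ p * q := by
  have h1 : (a + b + 1) * q ≤ p * q := Nat.mul_le_mul_right q hP.hab
  have h2 : (a + b + 1) * q = a * q + b * q + q := by ring
  omega

/-- the claim: the corridor of a row in `Q` contains all of `Y` -/
theorem claim (hP : Par p q a b) (hg : Gen q z) (hD : Disj q a b z) (j : ZMod p)
    (X : ZMod (p * q))
    (hN : ∀ S, 1 ≤ off (sc q z j) S → off (sc q z j) S ≤ a * q → ∃ f, box q a b z f X S) :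
    off X (z j) < b * q := by
  have hm := mul_facts hP
  have hq := hP.hq
  have haq : 2 * q ≤ a * q := Nat.mul_le_mul_right q hP.ha
  have hbq : 2 * q ≤ b * q := Nat.mul_le_mul_right q hP.hb
  have h1 : off (sc q z j) (sc q z j + 1) = 1 := by
    have := off_nat (M := p * q) (sc q z j) (n := 1) (by omega)
    rwa [Nat.cast_one] at this
  obtain ⟨f, hf1, hf2⟩ := hN (sc q z j + 1) (by omega) (by omega)
  by_cases hfj : f = j
  · rw [← hfj]; exact hf1
  exfalso
  rw [off_translate] at hf2
  have hτ0 : off (sc q z f) (sc q z j) ≠ 0 := fun h => hfj (sc_inj hg (off_eq_zero.1 h))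
  set τ := off (sc q z f) (sc q z j) with hτ
  set S1 : ZMod (p * q) := sc q z f + ((a * q + 1 : ℕ) : ZMod (p * q)) with hS1
  have h2 : off (sc q z f) S1 = a * q + 1 := off_nat _ (by omega)
  have h3 : off (sc q z j) S1 = a * q + 1 - τ := by
    rcases off_add (sc q z f) (sc q z j) S1 with h | h
    · omega
    · have := off_lt (sc q z j) S1
      omega
  obtain ⟨g, hg1, hg2⟩ := hN S1 (by omega) (by omega)
  have h4 : S1 = (sc q z f + 1) + ((a * q : ℕ) : ZMod (p * q)) := by
    rw [hS1]; push_cast; ring
  have h5 : off (sc q z f + 1) S1 = a * q := by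
    rw [h4]; exact off_nat _ (by omega)
  have hgf : g ≠ f := by
    rintro rfl
    omega
  set S2 : ZMod (p * q) := sc q z f + ((a * q : ℕ) : ZMod (p * q)) with hS2
  have h6 : off (sc q z f + 1) S2 = a * q - 1 := by
    have h7 : S2 = (sc q z f + 1) + ((a * q - 1 : ℕ) : ZMod (p * q)) := by
      rw [hS2, Nat.cast_sub (by omega)]; push_cast; ring
    rw [h7]; exact off_nat _ (by omega)
  have hbf : box q a b z f X S2 := ⟨hf1, by omega⟩
  have h8 : S2 + 1 = S1 := by rw [hS1, hS2]; push_cast; ring
  have h9 : off S2 S1 = 1 := by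
    rw [← h8]
    have := off_nat (M := p * q) S2 (n := 1) (by omega)
    rwa [Nat.cast_one] at this
  rcases off_add (sc q z g + 1) S2 S1 with h | h
  · have hbg : box q a b z g X S2 := ⟨hg1, by omega⟩
    exact hgf (hD g f X S2 hbg hbf)
  · have h10 := off_lt (sc q z g + 1) S2
    have h11 : off (sc q z g + 1) S1 = 0 := by omega
    have h12 := off_eq_zero.1 h11
    have h13 : sc q z g = sc q z f + a * q := by
      have : sc q z g + 1 = sc q z f + a * q + 1 := by
        rw [h12, hS1]; push_cast; ring
      exact add_right_cancel this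
    apply hgf
    apply gen_res p q hg
    rw [← res_sc p q z g, ← res_sc p q z f, h13, map_add, res_mul_q, add_zero]

/-- the size of the neighbourhood -/
theorem card_D (X0 : ZMod (p * q)) (n : ℕ) (hn : 1 ≤ n) (D : Finset (ZMod (p * q)))
    (hD : ∀ X ∈ D, off X X0 < n ∨ off X0 X < n) : D.card ≤ 2 * n - 1 := by
  have h1 : D ⊆ (Finset.range (2 * n - 1)).image
      (fun k : ℕ => X0 - ((n - 1 : ℕ) : ZMod (p * q)) + (k : ZMod (p * q))) := by
    intro X hX
    rw [Finset.mem_image]
    rcases hD X hX with h | h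
    · refine ⟨n - 1 - off X X0, ?_, ?_⟩
      · rw [Finset.mem_range]; omega
      · rw [Nat.cast_sub (show off X X0 ≤ n - 1 by omega)]
        have := off_spec' X X0
        calc X0 - ((n - 1 : ℕ) : ZMod (p * q)) + (((n - 1 : ℕ) : ZMod (p * q)) - (off X X0 : ℕ))
            = X0 - (off X X0 : ℕ) := by ring
          _ = X := this
    · refine ⟨n - 1 + off X0 X, ?_, ?_⟩
      · rw [Finset.mem_range]; omega
      · have := off_spec X0 X
        rw [Nat.cast_add]
        calc X0 - ((n - 1 : ℕ) : ZMod (p * q)) + (((n - 1 : ℕ) : ZMod (p * q)) + (off X0 X : ℕ))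
            = X0 + (off X0 X : ℕ) := by ring
          _ = X := this
  calc D.card ≤ _ := Finset.card_le_card h1
    _ ≤ (Finset.range (2 * n - 1)).card := Finset.card_image_le
    _ = 2 * n - 1 := Finset.card_range _

theorem near_of_common {M : ℕ} [NeZero M] {X X0 w : ZMod M} {n : ℕ} (hX : off X w < n)
    (hX0 : off X0 w < n) (hnM : n ≤ M) : off X X0 < n ∨ off X0 X < n := by
  by_cases hXX : X = X0
  · subst hXX
    left
    rw [off_self]
    omega
  · have h1 := off_symm hXX
    rcases off_add X X0 w with h | h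
    · left; omega
    · right; omega

end

end LEVaux

open LEVaux in
theorem lev : StBL → StCnt → StUni → StNb → StLev := by
  intro hBL hCnt hUni hNb p q a b _ _ hP hab z hg hD W lam rho hL
  have hq := hP.hq
  have hm := mul_facts hP
  have haq : 2 * q ≤ a * q := Nat.mul_le_mul_right q hP.ha
  have hbq : 2 * q ≤ b * q := Nat.mul_le_mul_right q hP.hb
  obtain ⟨Xl, hXl⟩ := Finite.exists_min lam
  obtain ⟨Xh, hXh⟩ := Finite.exists_max lam
  obtain ⟨Sl, hSl⟩ := Finite.exists_min rho
  obtain ⟨Sh, hSh⟩ := Finite.exists_max rho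
  obtain ⟨uR, uL, uB, uT, -, -⟩ := hUni p q a b hP z hg W lam rho hL
  have hN01 : ∀ X S, NN q a b z X S = 0 ∨ (NN q a b z X S = 1 ∧ ∃ j, box q a b z j X S) :=
    fun X S => NN_cases hD X S
  -- the range of the levels
  have hW1 : (W - 1 - (W - 1) : ZMod p).val = 0 := by rw [sub_self, ZMod.val_zero]
  have h1 : lam Xl < lam Xh := by
    have h := uR (W - 1) (by unfold aR; rw [hW1]; have := hP.ha; omega)
    have h' := hXl (z (W - 1))
    have h'' := hXh (z (W - 1) + 1)
    omega
  have h2 : rho Sl < rho Sh := by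
    have h := uB (W - 1) (by unfold aB; rw [hW1]; have := hP.hb; omega)
    have h' := hSh (sc q z (W - 1))
    have h'' := hSl (sc q z (W - 1) + 1)
    omega
  have h3 : lam Xh + rho Sh ≤ 1 := by
    have h := hL.up Xh Sh
    rcases hN01 Xh Sh with h' | ⟨h', -⟩ <;> omega
  have h4 : -2 ≤ lam Xl + rho Sl := by
    have h := hL.lo Xl Sl
    rcases hN01 Xl Sl with h' | ⟨h', -⟩ <;> omega
  by_cases h5 : lam Xl + rho Sl = -2
  swap
  · refine ⟨lam Xh, fun X => ?_, fun S => ?_⟩
    · have := hXl X
      have := hXh X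
      omega
    · have := hSl S
      have := hSh S
      omega
  exfalso
  -- the case `r1 = r0 + 1`
  have hline := hL.line
  by_cases h6 : rho Sh = rho Sl + 1
  · have h7 := hline Xl
    have h8 := hSl (Xl + e p q W)
    have h9 := hSh (Xl + e p q W)
    rcases hN01 Xl (Xl + e p q W) with h' | ⟨h', j, hj⟩
    · omega
    · obtain ⟨-, n1, -, -, n4⟩ := hNb p q a b hP z hg hD W lam rho hL j Xl hj
      by_cases hjb : (W - j).val ≤ b
      · obtain ⟨X', -, hX'⟩ := n1 hjb
        have := hSh (X' + e p q W)
        omega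
      · obtain ⟨X', -, hX'⟩ := n4 (by omega)
        have := hSh (X' + e p q W)
        omega
  -- the case `r1 = r0 + 2`, `l1 = l0 + 1`
  have h7 : rho Sh = rho Sl + 2 := by omega
  have h8 : lam Xh = lam Xl + 1 := by omega
  -- the positions where `rho` is minimal
  have F1 : ∀ S, rho S = rho Sl → lam (S - e p q W) = lam Xl + 1 ∧
      ∃ j, box q a b z j (S - e p q W) S ∧ a < (W - j).val ∧ (W - j).val ≤ b := by
    intro S hS
    have hl := hline (S - e p q W)
    rw [sub_add_cancel] at hl
    have g1 := hXl (S - e p q W)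
    have g2 := hXh (S - e p q W)
    rcases hN01 (S - e p q W) S with h' | ⟨h', j, hj⟩
    · omega
    · refine ⟨by omega, j, hj, ?_⟩
      obtain ⟨-, -, n2, n3, -⟩ := hNb p q a b hP z hg hD W lam rho hL j (S - e p q W)
        (by rw [sub_add_cancel]; exact hj)
      constructor
      · by_contra hc
        obtain ⟨X', hX', -⟩ := n3 (by omega)
        have := hXh X'
        omega
      · by_contra hc
        obtain ⟨X', hX', -⟩ := n2 (by omega)
        have := hXh X'
        omega
  -- the whole right side of such a box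
  have F2 : ∀ S, rho S = rho Sl → ∀ j, box q a b z j (S - e p q W) S → a < (W - j).val →
      (W - j).val ≤ b → ∀ S', 1 ≤ off (sc q z j) S' → off (sc q z j) S' ≤ a * q →
      rho S' = rho Sl := by
    intro S hS j hj hja hjb S' hS'1 hS'2
    have hb := ((hBL p q a b hP z W j).2 S').2 ⟨by
        have : (W - j).val - b = 0 := by omega
        rw [this, zero_mul]; omega, hS'2, by
        have := Nat.mul_le_mul_right q hja.le
        omega⟩
    obtain ⟨n0, -⟩ := hNb p q a b hP z hg hD W lam rho hL j (S - e p q W)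
        (by rw [sub_add_cancel]; exact hj)
    have := (n0 (S' - e p q W) (by rw [sub_add_cancel]; exact hb)).2
    rw [sub_add_cancel, sub_add_cancel] at this
    omega
  -- the claim
  have F3 : ∀ S, rho S = rho Sl → ∀ j, box q a b z j (S - e p q W) S → a < (W - j).val →
      (W - j).val ≤ b → ∀ X, lam X = lam Xl → off X (z j) < b * q := by
    intro S hS j hj hja hjb X hX
    apply claim hP hg hD j X
    intro S' h1 h2
    have h9 := F2 S hS j hj hja hjb S' h1 h2
    have h10 := hL.lo X S'
    rcases hN01 X S' with h' | ⟨-, h'⟩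
    · omega
    · exact h'
  classical
  set Y : Finset (ZMod (p * q)) := Finset.univ.filter (fun X => lam X = lam Xl) with hY
  set R : Finset (ZMod (p * q)) := Finset.univ.filter (fun X => rho (X + e p q W) = rho Sl) with hR
  have hdisj : Disjoint Y R := by
    rw [Finset.disjoint_left]
    intro X hX hX'
    rw [hY, Finset.mem_filter] at hX
    rw [hR, Finset.mem_filter] at hX'
    have := (F1 _ hX'.2).1
    rw [add_sub_cancel_right] at this
    omega
  obtain ⟨-, j0, hj0, hj0a, hj0b⟩ := F1 Sl rfl
  have hcard : (Y ∪ R).card ≤ 2 * (b * q) - 1 := by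
    apply card_D Xl (b * q) (by omega)
    intro X hX
    rw [Finset.mem_union] at hX
    rcases hX with hX | hX
    · rw [hY, Finset.mem_filter] at hX
      exact near_of_common (F3 Sl rfl j0 hj0 hj0a hj0b X hX.2) (F3 Sl rfl j0 hj0 hj0a hj0b Xl rfl)
        (by omega)
    · rw [hR, Finset.mem_filter] at hX
      obtain ⟨-, j, hj, hja, hjb⟩ := F1 _ hX.2
      have hj' := hj
      rw [add_sub_cancel_right] at hj'
      exact near_of_common hj'.1 (F3 _ hX.2 j hj hja hjb Xl rfl) (by omega)
  rw [Finset.card_union_of_disjoint hdisj] at hcard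
  -- counting
  have hsum : ((a * b * q : ℕ) : ℤ) ≤ (Y.card : ℤ) + (R.card : ℤ) := by
    rw [← hCnt p q a b hP z W]
    have hY' : (Y.card : ℤ) = ∑ X : ZMod (p * q), if lam X = lam Xl then (1 : ℤ) else 0 := by
      rw [hY, Finset.card_filter]; push_cast; rfl
    have hR' : (R.card : ℤ) =
        ∑ X : ZMod (p * q), if rho (X + e p q W) = rho Sl then (1 : ℤ) else 0 := by
      rw [hR, Finset.card_filter]; push_cast; rfl
    rw [hY', hR', ← Finset.sum_add_distrib]
    apply Finset.sum_le_sum
    intro X _
    have g0 := hline X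
    have g1 := hXl X
    have g2 := hXh X
    have g3 := hSl (X + e p q W)
    split_ifs <;> omega
  have hab2 : 2 * (b * q) ≤ a * b * q := by
    rw [mul_assoc]
    exact Nat.mul_le_mul_right _ hP.ha
  have : (a * b * q : ℕ) ≤ Y.card + R.card := by exact_mod_cast hsum
  omega

end Helper11.N1
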