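import Pool.Agent.Helper11.N1.StA

set_option autoImplicit false
set_option linter.unusedSectionVars false

/-!
# LJ: how the line enters and leaves a box at one step
-/

namespace Helper11.N1

namespace LJaux

section val

variable {p : ℕ} [NeZero p]

/-- the value of `x - n` for a small natural number `n` -/
theorem val_sub_nat (x : ZMod p) (n : ℕ) (hn : n < p) :
    (x - (n : ZMod p)).val = if n ≤ x.val then x.val - n else x.val + p - n := by
  have hx := ZMod.val_lt x
  split_ifs with h
  · have h1 : x - (n : ZMod p) = ((x.val - n : ℕ) : ZMod p) := by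
      rw [Nat.cast_sub h, ZMod.natCast_zmod_val]
    rw [h1, ZMod.val_natCast, Nat.mod_eq_of_lt (by omega)]
  · have h1 : x - (n : ZMod p) = ((x.val + p - n : ℕ) : ZMod p) := by
      rw [Nat.cast_sub (by omega), Nat.cast_add, ZMod.natCast_zmod_val, ZMod.natCast_self,
        add_zero]
    rw [h1, ZMod.val_natCast, Nat.mod_eq_of_lt (by omega)]

end val

section letters

variable {p q a b : ℕ} [NeZero p] [NeZero q]

theorem aR_iff (hP : Par p q a b) (W j : ZMod p) :
    aR a W j ↔ 1 ≤ (W - j).val ∧ (W - j).val ≤ a := by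
  obtain ⟨h1, h2, h3, h4⟩ := hP
  have hd := ZMod.val_lt (W - j)
  unfold aR
  have e1 : W - 1 - j = (W - j) - ((1 : ℕ) : ZMod p) := by push_cast; ring
  rw [e1, val_sub_nat _ 1 (by omega)]
  split_ifs <;> omega

theorem aL_iff (hP : Par p q a b) (W j : ZMod p) :
    aL a b W j ↔ b + 1 ≤ (W - j).val ∧ (W - j).val ≤ a + b := by
  obtain ⟨h1, h2, h3, h4⟩ := hP
  have hd := ZMod.val_lt (W - j)
  unfold aL
  have e1 : W - b - 1 - j = (W - j) - ((b + 1 : ℕ) : ZMod p) := by push_cast; ring
  rw [e1, val_sub_nat _ (b + 1) (by omega)]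
  split_ifs <;> omega

theorem aB_iff (hP : Par p q a b) (W j : ZMod p) :
    aB b W j ↔ 1 ≤ (W - j).val ∧ (W - j).val ≤ b := by
  obtain ⟨h1, h2, h3, h4⟩ := hP
  have hd := ZMod.val_lt (W - j)
  unfold aB
  have e1 : W - 1 - j = (W - j) - ((1 : ℕ) : ZMod p) := by push_cast; ring
  rw [e1, val_sub_nat _ 1 (by omega)]
  split_ifs <;> omega

theorem aT_iff (hP : Par p q a b) (W j : ZMod p) :
    aT a b W j ↔ a + 1 ≤ (W - j).val ∧ (W - j).val ≤ a + b := by
  obtain ⟨h1, h2, h3, h4⟩ := hP
  have hd := ZMod.val_lt (W - j)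
  unfold aT
  have e1 : W - a - 1 - j = (W - j) - ((a + 1 : ℕ) : ZMod p) := by push_cast; ring
  rw [e1, val_sub_nat _ (a + 1) (by omega)]
  split_ifs <;> omega

end letters

section off

variable {M : ℕ} [NeZero M]

/-- the distance is `n` -/
theorem off_eq_iff (x y : ZMod M) {n : ℕ} (hn : n < M) : off x y = n ↔ y = x + (n : ZMod M) := by
  constructor
  · intro h
    rw [← h, off_spec]
  · intro h
    rw [h, off_nat x hn]

theorem off_succ (hM : 1 < M) (x y : ZMod M) :
    (off x y = 0 ∧ off (x + 1) y = M - 1) ∨ (1 ≤ off x y ∧ off (x + 1) y = off x y - 1) := by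
  have h1 : off x (x + 1) = 1 := by
    have := off_nat x (n := 1) hM
    rwa [Nat.cast_one] at this
  have h2 := off_add x (x + 1) y
  have h3 := off_lt x y
  have h4 := off_lt (x + 1) y
  rw [h1] at h2
  omega

end off

end LJaux

open LJaux

theorem lj : StBL → StLJ := by
  intro hBL p q a b _ _ hP z W j X
  classical
  have hb := (hBL p q a b hP z W j).1
  obtain ⟨h1, h2, h3, h4⟩ := id hP
  have : NeZero (p * q) := ⟨Nat.mul_ne_zero (NeZero.ne p) (NeZero.ne q)⟩
  have hd := ZMod.val_lt (W - j)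
  set d := (W - j).val with hdd
  set t := off X (z j) with ht
  -- products
  have hM : a * q + b * q + q ≤ p * q := by
    have : (a + b + 1) * q ≤ p * q := Nat.mul_le_mul_right q (by omega)
    nlinarith [this]
  have hbq : 2 * q ≤ b * q := Nat.mul_le_mul_right q h2
  have haq : 2 * q ≤ a * q := Nat.mul_le_mul_right q h1
  have hdM : d * q + q ≤ p * q := by
    have : (d + 1) * q ≤ p * q := Nat.mul_le_mul_right q (by omega)
    nlinarith [this]
  have hsub : (d - a) * q = d * q - a * q := Nat.sub_mul d a q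
  have hM1 : 1 < p * q := by omega
  -- the letters
  have hzL : (z j - b * q = X) ↔ t = b * q := by
    rw [ht, off_eq_iff X (z j) (n := b * q) (by omega)]
    push_cast
    rw [sub_eq_iff_eq_add]
  have hzR : (z j = X) ↔ t = 0 := by
    rw [ht, off_eq_zero]
    exact eq_comm
  have hEW : e p q W = e p q j + ((d * q : ℕ) : ZMod (p * q)) := by
    have e1 : W = j + (W - j) := by ring
    have e2 : e p q (W - j) = ((d * q : ℕ) : ZMod (p * q)) := by
      unfold e
      rw [← hdd, Nat.mul_comm q d]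
    conv_lhs => rw [e1]
    rw [e_add, e2]
  have hzB : (sc q z j = X + e p q W) ↔ t = d * q := by
    rw [ht, off_eq_iff X (z j) (n := d * q) (by omega), hEW]
    unfold sc
    constructor
    · intro h
      have h5 : z j + e p q j = (X + ((d * q : ℕ) : ZMod (p * q))) + e p q j := by
        rw [h]; ring
      exact add_right_cancel h5
    · intro h
      rw [h]; ring
  have hzT : a ≤ d → ((sc q z j + a * q = X + e p q W) ↔ t = d * q - a * q) := by
    intro hda
    have h6 : a * q ≤ d * q := Nat.mul_le_mul_right q hda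
    rw [ht, off_eq_iff X (z j) (n := d * q - a * q) (by omega), hEW, Nat.cast_sub h6]
    unfold sc
    constructor
    · intro h
      have h5 : z j + (e p q j + (a : ZMod (p * q)) * q) =
          (X + (((d * q : ℕ) : ZMod (p * q)) - ((a * q : ℕ) : ZMod (p * q)))) +
            (e p q j + (a : ZMod (p * q)) * q) := by
        push_cast at h ⊢
        rw [← add_assoc, h]; ring
      exact add_right_cancel h5
    · intro h
      rw [h]; push_cast; ring
  have eL : (aL a b W j ∧ z j - b * q = X) ↔ ((b + 1 ≤ d ∧ d ≤ a + b) ∧ t = b * q) := by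
    rw [aL_iff hP, hzL]
  have eR : (aR a W j ∧ z j = X) ↔ ((1 ≤ d ∧ d ≤ a) ∧ t = 0) := by
    rw [aR_iff hP, hzR]
  have eB : (aB b W j ∧ sc q z j = X + e p q W) ↔ ((1 ≤ d ∧ d ≤ b) ∧ t = d * q) := by
    rw [aB_iff hP, hzB]
  have eT : (aT a b W j ∧ sc q z j + a * q = X + e p q W) ↔
      ((a + 1 ≤ d ∧ d ≤ a + b) ∧ t = d * q - a * q) := by
    rw [aT_iff hP]
    constructor
    · rintro ⟨h5, h6⟩
      exact ⟨h5, (hzT (by omega)).1 h6⟩
    · rintro ⟨h5, h6⟩
      exact ⟨h5, (hzT (by omega)).2 h6⟩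
  have htM := off_lt X (z j)
  rw [← ht] at htM
  have hs := off_succ hM1 X (z j)
  rw [← ht] at hs
  set t' := off (X + 1) (z j) with ht'
  -- comparisons of products
  have c1 : (d = 0 ∧ d * q = 0) ∨ (1 ≤ d ∧ q ≤ d * q) := by
    rcases Nat.eq_zero_or_pos d with h | h
    · left; exact ⟨h, by rw [h, Nat.zero_mul]⟩
    · right; exact ⟨h, Nat.le_mul_of_pos_left q h⟩
  have c2 : (d ≤ a ∧ d * q ≤ a * q) ∨ (a + 1 ≤ d ∧ a * q + q ≤ d * q) := by
    rcases Nat.lt_or_ge a d with h | h
    · right
      refine ⟨h, ?_⟩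
      have : (a + 1) * q ≤ d * q := Nat.mul_le_mul_right q h
      rwa [Nat.add_mul, Nat.one_mul] at this
    · left; exact ⟨h, Nat.mul_le_mul_right q h⟩
  have c3 : (d ≤ b ∧ d * q ≤ b * q) ∨ (b + 1 ≤ d ∧ b * q + q ≤ d * q) := by
    rcases Nat.lt_or_ge b d with h | h
    · right
      refine ⟨h, ?_⟩
      have : (b + 1) * q ≤ d * q := Nat.mul_le_mul_right q h
      rwa [Nat.add_mul, Nat.one_mul] at this
    · left; exact ⟨h, Nat.mul_le_mul_right q h⟩
  have c4 : (d ≤ a + b ∧ d * q ≤ a * q + b * q) ∨ (a + b + 1 ≤ d ∧ a * q + b * q + q ≤ d * q) := by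
    rcases Nat.lt_or_ge (a + b) d with h | h
    · right
      refine ⟨h, ?_⟩
      have : (a + b + 1) * q ≤ d * q := Nat.mul_le_mul_right q h
      rwa [Nat.add_mul, Nat.add_mul, Nat.one_mul] at this
    · left
      refine ⟨h, ?_⟩
      have : d * q ≤ (a + b) * q := Nat.mul_le_mul_right q h
      rwa [Nat.add_mul] at this
  have hb0 := hb X
  have hb1 := hb (X + 1)
  rw [← ht, hsub] at hb0
  rw [← ht', hsub] at hb1
  simp only [hb0, hb1, eL, eR, eB, eT]
  generalize d * q = D at *
  generalize a * q = A at *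
  generalize b * q = B at *
  clear_value t t' d
  clear hb eL eR eB eT hzL hzR hzB hzT hb0 hb1 hEW
  generalize p * q = M at *
  split_ifs <;> omega

end Helper11.N1
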