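import Pool.Agent.Helper11.N1.StC

set_option autoImplicit false

/-!
# LK1: the triangle count at block positions
-/

namespace Helper11.N1

open Pool.Agent.Helper55.FT (G bv av mm)

namespace LK1aux

/-- a distance is determined modulo `M` -/
theorem off_cases {M : ℕ} [NeZero M] (x y : ZMod M) (n : ℕ) (hn : n < 2 * M)
    (h : x + (n : ZMod M) = y) : off x y = n ∨ off x y + M = n := by
  have h1 : ((off x y : ℕ) : ZMod M) = (n : ZMod M) := by
    have h2 := off_spec x y
    rw [← h] at h2 ⊢
    exact add_left_cancel h2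
  have h3 := off_lt x y
  rw [ZMod.natCast_eq_natCast_iff] at h1
  have h4 : off x y % M = off x y := Nat.mod_eq_of_lt h3
  unfold Nat.ModEq at h1
  rw [h4] at h1
  rcases lt_or_ge n M with h5 | h5
  · left
    rw [h1, Nat.mod_eq_of_lt h5]
  · right
    rw [h1, Nat.mod_eq_sub_mod h5, Nat.mod_eq_of_lt (by omega)]
    omega

theorem mmval {p q t w σ : ℕ} {i0 : ℤ} (ht : t < p * q) (hw : w < p)
    (hc : σ = t + q * w ∨ σ + p * q = t + q * w) (htp : (p : ℤ) ∣ t - i0)
    (hcop : Nat.Coprime p q) : mm p q i0 (σ : ℤ) = if σ = t + q * w then 1 else 0 := by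
  have hd : ∀ l : ℕ, l < p → ((p : ℤ) ∣ (σ : ℤ) - i0 - l * q ↔ l = w) := by
    intro l hl
    have e1 : (p : ℤ) ∣ (σ : ℤ) - (t + q * w) := by
      rcases hc with h | h
      · rw [h]
        push_cast
        simp
      · refine ⟨-(q : ℤ), ?_⟩
        have : (σ : ℤ) + p * q = t + q * w := by exact_mod_cast h
        linear_combination this
    constructor
    · intro h
      have h1 : (p : ℤ) ∣ q * ((w : ℤ) - l) := by
        have h2 := (dvd_sub (dvd_sub h e1) htp)
        have e3 : (σ : ℤ) - i0 - l * q - ((σ : ℤ) - (t + q * w)) - (t - i0) = q * ((w : ℤ) - l) := by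
          ring
        rwa [e3] at h2
      have h2 : IsCoprime (p : ℤ) (q : ℤ) := Nat.isCoprime_iff_coprime.2 hcop
      have h3 : (p : ℤ) ∣ (w : ℤ) - l := h2.dvd_of_dvd_mul_left h1
      have h4 : (w : ℤ) - l = 0 := by
        apply Int.eq_zero_of_abs_lt_dvd h3
        rw [abs_lt]
        constructor <;> omega
      omega
    · rintro rfl
      have h2 := dvd_add e1 htp
      have e3 : (σ : ℤ) - (t + q * l) + (t - i0) = (σ : ℤ) - i0 - l * q := by ring
      rwa [e3] at h2
  have hle : ((w : ℤ) * q ≤ σ) ↔ σ = t + q * w := by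
    constructor
    · intro h
      rcases hc with h1 | h1
      · exact h1
      · exfalso
        have h2 : w * q ≤ σ := by exact_mod_cast h
        rw [mul_comm w q] at h2
        omega
    · intro h
      rw [h]
      push_cast
      nlinarith
  unfold mm
  rw [Finset.sum_eq_single w]
  · by_cases h : σ = t + q * w
    · rw [if_pos h, if_pos ⟨hle.2 h, (hd w hw).2 rfl⟩]
    · rw [if_neg h, if_neg fun h2 => h (hle.1 h2.1)]
  · intro l hl hlw
    rw [if_neg]
    intro h
    exact hlw ((hd l (Finset.mem_range.1 hl)).1 h.2)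
  · intro h
    exact absurd (Finset.mem_range.2 hw) h

theorem dvd_val_sub {p q : ℕ} [NeZero p] [NeZero q] (x X : ZMod (p * q)) (c : ℤ)
    (hx : (p : ℤ) ∣ (x.val : ℤ) - c) (hX : (p : ℤ) ∣ (X.val : ℤ)) :
    (p : ℤ) ∣ ((off X x : ℕ) : ℤ) - c := by
  have h1 : ((((off X x : ℕ) : ℤ) + X.val : ℤ) : ZMod (p * q)) = ((x.val : ℤ) : ZMod (p * q)) := by
    push_cast
    rw [ZMod.natCast_zmod_val, ZMod.natCast_zmod_val, add_comm]
    exact off_spec X x
  rw [ZMod.intCast_eq_intCast_iff_dvd_sub] at h1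
  have h2 : (p : ℤ) ∣ ((p * q : ℕ) : ℤ) := by
    push_cast
    exact dvd_mul_right _ _
  have h3 := dvd_sub (dvd_sub hx (h2.trans h1)) hX
  have e : (x.val : ℤ) - c - ((x.val : ℤ) - (((off X x : ℕ) : ℤ) + X.val)) - X.val =
      ((off X x : ℕ) : ℤ) - c := by ring
  rwa [e] at h3

theorem key {p q b : ℕ} [NeZero p] [NeZero q] (hb : p ∣ b * q + 1) (x X : ZMod (p * q))
    (W i : ZMod p) (S : ZMod (p * q)) (hx : p ∣ x.val) (hX : p ∣ X.val)
    {h1 : Decidable (tri q X W S x i)} {h2 : Decidable (tri q X W S (x - b * q) (i + b))} :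
    (@ite ℤ _ h1 1 0) - (@ite ℤ _ h2 1 0) =
      bv p q ((off (X + e p q W) S : ℤ) - 1) (off (X + e p q W) (x + e p q i) : ℤ) := by
  have hq : 1 ≤ q := Nat.one_le_iff_ne_zero.2 (NeZero.ne q)
  have hcop : Nat.Coprime p q := by
    rw [Nat.coprime_comm]
    obtain ⟨c, hc⟩ := hb
    rw [← Nat.isCoprime_iff_coprime]
    refine ⟨-(b : ℤ), c, ?_⟩
    have : (b : ℤ) * q + 1 = p * c := by exact_mod_cast hc
    linear_combination -this
  set X' := X + e p q W with hX'
  set T := off X' S with hT
  set σ := off X' (x + e p q i) with hσ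
  have hσM : σ < p * q := off_lt _ _
  have hTM : T < p * q := off_lt _ _
  -- a general congruence
  have hgen : ∀ (y : ZMod (p * q)) (k : ZMod p), y + e p q k = x + e p q i →
      (σ = off X y + q * (k - W).val ∨ σ + p * q = off X y + q * (k - W).val) := by
    intro y k hyk
    have h3 := off_lt X y
    have h4 : q * (k - W).val < p * q := by
      rw [mul_comm p q]
      exact Nat.mul_lt_mul_of_pos_left (ZMod.val_lt _) hq
    apply off_cases
    · omega
    · push_cast
      have h5 : X + (off X y : ℕ) = y := off_spec X y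
      have h6 : ((q : ZMod (p * q)) * ((k - W).val : ZMod (p * q))) = e p q k - e p q W := by
        rw [← e_sub]
        unfold e
        push_cast
        rfl
      rw [h6, hX', ← hyk]
      calc X + e p q W + (((off X y : ℕ) : ZMod (p * q)) + (e p q k - e p q W)) =
          (X + (off X y : ℕ)) + e p q k := by ring
        _ = y + e p q k := by rw [h5]
  have hXz : (p : ℤ) ∣ (X.val : ℤ) := by exact_mod_cast hX
  have ht0 : (p : ℤ) ∣ ((off X x : ℕ) : ℤ) - 0 := by
    apply dvd_val_sub x X 0 _ hXz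
    rw [sub_zero]
    exact_mod_cast hx
  have ht1 : (p : ℤ) ∣ ((off X (x - b * q) : ℕ) : ℤ) - 1 := by
    apply dvd_val_sub _ X 1 _ hXz
    have h3 : ((((x - b * q : ZMod (p * q)).val : ℤ) + b * q : ℤ) : ZMod (p * q)) =
        ((x.val : ℤ) : ZMod (p * q)) := by
      push_cast
      rw [ZMod.natCast_zmod_val, ZMod.natCast_zmod_val]
      ring
    rw [ZMod.intCast_eq_intCast_iff_dvd_sub] at h3
    have h4 : (p : ℤ) ∣ ((p * q : ℕ) : ℤ) := by
      push_cast
      exact dvd_mul_right _ _
    have h5 : (p : ℤ) ∣ (b : ℤ) * q + 1 := by exact_mod_cast hb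
    have h6 : (p : ℤ) ∣ (x.val : ℤ) := by exact_mod_cast hx
    have h7 := dvd_sub (dvd_sub h6 (h4.trans h3)) h5
    have e3 : (x.val : ℤ) - ((x.val : ℤ) - (((x - b * q : ZMod (p * q)).val : ℤ) + b * q)) -
        ((b : ℤ) * q + 1) = ((x - b * q : ZMod (p * q)).val : ℤ) - 1 := by ring
    rwa [e3] at h7
  have hm0 := mmval (off_lt X x) (ZMod.val_lt (i - W)) (hgen x i rfl) ht0 hcop
  have hyk : (x - b * q) + e p q (i + b) = x + e p q i := by
    rw [e_add, e_natCast]
    push_cast
    ring
  have hm1 := mmval (off_lt X (x - b * q)) (ZMod.val_lt (i + (b : ZMod p) - W))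
    (hgen _ _ hyk) ht1 hcop
  have hmod : ((σ : ℕ) : ℤ) % (p * q) = σ := by
    apply Int.emod_eq_of_lt
    · positivity
    · exact_mod_cast hσM
  unfold bv
  rw [hmod]
  unfold av
  rw [hm0, hm1]
  have hc0 := hgen x i rfl
  have hc1 := hgen _ _ hyk
  have hl0 := off_lt X x
  have hl1 := off_lt X (x - b * q)
  have i0 : (@ite ℤ _ h1 1 0) = if σ < T ∧ σ = off X x + q * (i - W).val then 1 else 0 := by
    refine if_congr ?_ rfl rfl
    unfold tri
    rw [← hX', ← hT]
    constructor
    · intro h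
      omega
    · intro h
      omega
  have i1 : (@ite ℤ _ h2 1 0) =
      if σ < T ∧ σ = off X (x - b * q) + q * (i + b - W).val then 1 else 0 := by
    refine if_congr ?_ rfl rfl
    unfold tri
    rw [← hX', ← hT]
    constructor
    · intro h
      omega
    · intro h
      omega
  rw [i0, i1]
  by_cases hlt : σ < T
  · have h5 : ((σ : ℕ) : ℤ) ≤ (T : ℤ) - 1 := by omega
    rw [if_pos h5]
    simp only [hlt, true_and]
  · have h5 : ¬ ((σ : ℕ) : ℤ) ≤ (T : ℤ) - 1 := by omega
    rw [if_neg h5]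
    simp only [hlt, false_and, if_false, sub_zero]

end LK1aux

open LK1aux in
theorem lk1 : StLK1 := by
  intro p q a b _ _ hb z hz X W S hX
  unfold FF
  refine Finset.sum_congr rfl fun j _ => ?_
  have k0 := key hb (z j) X W j S (hz j) hX
    (h1 := Classical.propDecidable _) (h2 := Classical.propDecidable _)
  have ka := key hb (z j) X W (j + (a : ZMod p)) S (hz j) hX
    (h1 := Classical.propDecidable _) (h2 := Classical.propDecidable _)
  have e1 : z j + e p q j = sc q z j := rfl
  have e2 : z j + e p q (j + (a : ZMod p)) = sc q z j + a * q := by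
    rw [e_add, e_natCast]
    unfold sc
    push_cast
    ring
  rw [e1] at k0
  rw [e2] at ka
  rw [← k0, ← ka]
  ring

end Helper11.N1
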