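import Pool.Agent.Helper11.N1.StC

set_option autoImplicit false

/-!
Project N1, module LK2: the progression configuration gives the sums `G p q D N k`.
-/

namespace Helper11.N1

open Pool.Agent.Helper55.FT (G bv av mm)

namespace LK2aux

theorem p_dvd_val {p q : ℕ} [NeZero p] (x : ZMod (p * q))
    (h : ZMod.castHom (dvd_mul_right p q) (ZMod p) x = 0) [NeZero q] : p ∣ x.val := by
  have h1 : ZMod.castHom (dvd_mul_right p q) (ZMod p) x = ((x.val : ℕ) : ZMod p) := by
    conv_lhs => rw [← ZMod.natCast_zmod_val x]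
    rw [map_natCast]
  rw [h1] at h
  exact (ZMod.natCast_eq_zero_iff _ _).1 h

/-- the unit `a b` -/
theorem ab_inv {p a b : ℕ} (hc : (a * b).Coprime p) (j : ZMod p) :
    ((a * b : ℕ) : ZMod p) * (j * ((a * b : ℕ) : ZMod p)⁻¹) = j := by
  have h := ZMod.coe_mul_inv_eq_one (a * b) hc
  calc ((a * b : ℕ) : ZMod p) * (j * ((a * b : ℕ) : ZMod p)⁻¹)
      = j * (((a * b : ℕ) : ZMod p) * ((a * b : ℕ) : ZMod p)⁻¹) := by ring
    _ = j := by rw [h, mul_one]

theorem sum_val {p : ℕ} [NeZero p] (f : ℕ → ℤ) :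
    ∑ i : ZMod p, f i.val = ∑ n ∈ Finset.range p, f n := by
  refine Finset.sum_nbij' (fun i => i.val) (fun n => (n : ZMod p)) ?_ ?_ ?_ ?_ ?_
  · intro i _
    exact Finset.mem_range.2 (ZMod.val_lt i)
  · intro n _
    exact Finset.mem_univ _
  · intro i _
    exact ZMod.natCast_zmod_val i
  · intro n hn
    rw [ZMod.val_natCast, Nat.mod_eq_of_lt (Finset.mem_range.1 hn)]
  · intro i _
    rfl

theorem sum_row {p a b : ℕ} [NeZero p] (hc : (a * b).Coprime p) (f : ℕ → ℤ) :
    ∑ j : ZMod p, f (j * ((a * b : ℕ) : ZMod p)⁻¹).val = ∑ n ∈ Finset.range p, f n := by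
  rw [← sum_val]
  refine Finset.sum_nbij' (fun j => j * ((a * b : ℕ) : ZMod p)⁻¹)
    (fun i => ((a * b : ℕ) : ZMod p) * i) ?_ ?_ ?_ ?_ ?_
  · intro i _
    exact Finset.mem_univ _
  · intro i _
    exact Finset.mem_univ _
  · intro i _
    exact ab_inv hc i
  · intro i _
    have h := ab_inv hc i
    have h2 := ZMod.coe_mul_inv_eq_one (a * b) hc
    calc ((a * b : ℕ) : ZMod p) * i * ((a * b : ℕ) : ZMod p)⁻¹
        = i * (((a * b : ℕ) : ZMod p) * ((a * b : ℕ) : ZMod p)⁻¹) := by ring
      _ = i := by rw [h2, mul_one]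
  · intro i _
    rfl

end LK2aux

open LK2aux

theorem lk2 : StLK1 → StLK2 := by
  intro hLK1 p q a b _ _ hbq hc D hD hp
  haveI : NeZero (p * q) := ⟨Nat.mul_ne_zero (NeZero.ne p) (NeZero.ne q)⟩
  have hdiv : ∀ j, p ∣ (zap (p := p) q a b D j).val := by
    intro j
    apply p_dvd_val
    unfold zap
    rw [map_mul, map_natCast, map_intCast]
    have h1 : ((D - a * b * q : ℤ) : ZMod p) = 0 := by
      rw [ZMod.intCast_zmod_eq_zero_iff_dvd]
      obtain ⟨c, hc1⟩ := hD
      obtain ⟨d, hd⟩ := hbq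
      refine ⟨c - a * d, ?_⟩
      have hd' : (b : ℤ) * q + 1 = p * d := by exact_mod_cast hd
      have : (D : ℤ) - a * b * q = (D + a) - a * (b * q + 1) := by ring
      rw [this, hc1, hd']
      ring
    rw [h1, mul_zero]
  have hsc : ∀ j : ZMod p, sc q (zap q a b D) j =
      (((j * ((a * b : ℕ) : ZMod p)⁻¹).val : ℕ) : ZMod (p * q)) * ((D : ℤ) : ZMod (p * q)) := by
    intro j
    unfold sc
    have h1 : e p q j =
        ((a * b * (j * ((a * b : ℕ) : ZMod p)⁻¹).val * q : ℕ) : ZMod (p * q)) := by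
      rw [← e_natCast]
      congr 1
      rw [Nat.cast_mul (a * b), ZMod.natCast_zmod_val]
      exact (ab_inv hc j).symm
    rw [h1]
    unfold zap
    push_cast
    ring
  refine ⟨hdiv, hsc, ?_⟩
  intro X W S hX
  have hF := hLK1 p q a b hbq (zap q a b D) hdiv X W S hX
  rcases Nat.eq_zero_or_pos (off (X + e p q W) S) with hT | hT
  · left
    rw [hF]
    refine Finset.sum_eq_zero fun j _ => ?_
    have hb : ∀ y : ℤ, bv p q ((off (X + e p q W) S : ℤ) - 1) y = 0 := by
      intro y
      unfold bv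
      rw [if_neg]
      rw [hT]
      have hpq : (0 : ℤ) < (p : ℤ) * q := by
        have := Nat.pos_of_ne_zero (NeZero.ne (p * q))
        exact_mod_cast this
      have := Int.emod_nonneg y hpq.ne'
      push_cast
      omega
    rw [hb, hb, sub_self]
  · right
    refine ⟨(off (X + e p q W) S : ℤ) - 1, (p - 1) * D - ((X + e p q W).val : ℤ), by omega, ?_, ?_⟩
    · have h := off_lt (X + e p q W) S
      have h' : ((off (X + e p q W) S : ℕ) : ℤ) < (p : ℤ) * q := by exact_mod_cast h
      omega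
    · rw [hF]
      set N : ℤ := (off (X + e p q W) S : ℤ) - 1 with hN
      set Y : ZMod (p * q) := X + e p q W with hY
      have hYv : ((Y.val : ℕ) : ZMod (p * q)) = Y := ZMod.natCast_zmod_val Y
      unfold G
      rw [← Finset.sum_range_reflect]
      rw [← sum_row hc (fun n => bv p q N ((p - 1) * D - (Y.val : ℤ) - ((p - 1 - n : ℕ) : ℤ) * D) -
        bv p q N ((p - 1) * D - (Y.val : ℤ) - ((p - 1 - n : ℕ) : ℤ) * D - q * D))]
      refine Finset.sum_congr rfl fun j _ => ?_
      set n : ℕ := (j * ((a * b : ℕ) : ZMod p)⁻¹).val with hn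
      have hnlt : n < p := ZMod.val_lt _
      have hcast : ((p - 1 - n : ℕ) : ℤ) = p - 1 - n := by omega
      have hoff : ∀ y : ZMod (p * q), ((off Y y : ℕ) : ZMod (p * q)) = y - Y := by
        intro y
        unfold off
        rw [ZMod.natCast_zmod_val]
      have e1 : bv p q N (off Y (sc q (zap q a b D) j) : ℤ) =
          bv p q N ((p - 1) * D - (Y.val : ℤ) - ((p - 1 - n : ℕ) : ℤ) * D) := by
        apply Pool.Agent.Helper55.FT.bv_congr
        rw [← ZMod.intCast_zmod_eq_zero_iff_dvd, hcast]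
        push_cast
        rw [hoff, hsc j, hYv]
        ring
      have e2 : bv p q N (off Y (sc q (zap q a b D) j + a * q) : ℤ) =
          bv p q N ((p - 1) * D - (Y.val : ℤ) - ((p - 1 - n : ℕ) : ℤ) * D - q * D) := by
        apply Pool.Agent.Helper55.FT.bv_congr
        rw [← ZMod.intCast_zmod_eq_zero_iff_dvd, hcast]
        push_cast
        rw [hoff, hsc j, hYv]
        have h0 : ((a : ZMod (p * q)) * q + q * ((D : ℤ) : ZMod (p * q))) = 0 := by
          have h1 : (((q : ℤ) * (D + a) : ℤ) : ZMod (p * q)) = 0 := by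
            rw [ZMod.intCast_zmod_eq_zero_iff_dvd]
            obtain ⟨c, hc1⟩ := hD
            refine ⟨c, ?_⟩
            rw [hc1]
            push_cast
            ring
          have h2 : (((q : ℤ) * (D + a) : ℤ) : ZMod (p * q)) =
              (a : ZMod (p * q)) * q + q * ((D : ℤ) : ZMod (p * q)) := by
            push_cast
            ring
          rw [← h2, h1]
        linear_combination h0
      rw [e1, e2]

end Helper11.N1
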