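import Pool.Agent.Helper11.N1.StC

set_option autoImplicit false

/-!
Module LK3B of project N1: from block positions to all positions, mirrored residues.
-/

namespace Helper11.N1

namespace LK3Baux

/-- the same point cannot lie in the vertical ranges of both boxes -/
theorem range_LK3B {p q a : ℕ} [NeZero p] [NeZero q] (hq : 1 ≤ q) (x y S : ZMod (p * q))
    (k : ℕ) (hk : a < k) (hk2 : k + a ≤ p)
    (h : y = x + ((q * k : ℕ) : ZMod (p * q)) - 1)
    (h1 : off (y + 1) S < a * q) (h2 : off (x + 1) S < a * q) : False := by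
  have h3 : a * q + q ≤ q * k := by
    calc a * q + q = q * (a + 1) := by ring
      _ ≤ q * k := Nat.mul_le_mul_left q hk
  have h4 : q * k + a * q ≤ p * q := by
    calc q * k + a * q = (k + a) * q := by ring
      _ ≤ p * q := Nat.mul_le_mul_right q hk2
  have hk1 : 1 ≤ q * k := by omega
  have e1 : y + 1 = (x + 1) + ((q * k - 1 : ℕ) : ZMod (p * q)) := by
    rw [h, Nat.cast_sub hk1, Nat.cast_one]
    ring
  have e2 : off (x + 1) (y + 1) = q * k - 1 := by
    rw [e1]
    exact off_nat _ (by omega)
  rcases off_add (x + 1) (y + 1) S with h5 | h5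
  · rw [e2] at h5
    omega
  · rw [e2] at h5
    omega

/-- the two sides cannot both be active -/
theorem side_LK3B {p a : ℕ} [NeZero p] (v k : ZMod p) (h1 : (v + k).val < a) (h2 : v.val < a)
    (h3 : a < k.val) (h4 : k.val + a ≤ p) : False := by
  have h5 := ZMod.val_add v k
  have h6 := ZMod.val_lt v
  have h7 := ZMod.val_lt k
  rcases lt_or_ge (v.val + k.val) p with h | h
  · rw [Nat.mod_eq_of_lt h] at h5
    omega
  · rw [Nat.mod_eq_sub_mod h, Nat.mod_eq_of_lt (by omega)] at h5
    omega

end LK3Baux

open LK3Baux in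
/-- module LK3B -/
theorem lk3b : StVJ → StLK3B := by
  classical
  intro hVJ p q a b _ _ hP hc z hz hz1 hnm hb X W S
  obtain ⟨c, hc⟩ := hc
  have ha := hP.ha
  have hb2 := hP.hb
  have hab := hP.hab
  have hq := hP.hq
  haveI : Fact (1 < p) := ⟨by omega⟩
  -- reduction modulo `p`
  set r : ZMod (p * q) →+* ZMod p := ZMod.castHom (dvd_mul_right p q) (ZMod p) with hr
  have hrv : ∀ x : ZMod (p * q), r x = ((x.val : ℕ) : ZMod p) := by
    intro x
    conv_lhs => rw [← ZMod.natCast_zmod_val x]
    rw [map_natCast]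
  have hr0 : ∀ x : ZMod (p * q), r x = 0 → p ∣ x.val := by
    intro x hx
    rw [hrv, ZMod.natCast_eq_zero_iff] at hx
    exact hx
  have hrz : ∀ j, r (z j) = 1 := by
    intro j
    rw [hrv, ← ZMod.natCast_mod, hz1 j, Nat.cast_one]
  have hrb : r ((b : ZMod (p * q)) * (q : ZMod (p * q))) = 1 := by
    rw [map_mul, map_natCast, map_natCast, ← Nat.cast_mul, hc, Nat.cast_add, Nat.cast_mul,
      ZMod.natCast_self, zero_mul, zero_add, Nat.cast_one]
  have hrl : ∀ j, r (z j - b * q) = 0 := by
    intro j
    rw [map_sub, hrz, hrb, sub_self]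
  -- the jumps
  have hJ := fun X : ZMod (p * q) => hVJ p q a b hP z X W S
  have hC1 : ∀ X : ZMod (p * q), (∀ j, z j ≠ X) → (∀ j, z j - b * q ≠ X) →
      FF q a b z (X + 1) W S = FF q a b z X W S := by
    intro X h1 h2
    rw [← sub_eq_zero, hJ X]
    refine Finset.sum_eq_zero fun j _ => ?_
    rw [if_neg (h1 j), if_neg (h2 j), add_zero]
  have hC2 : ∀ (Y : ZMod (p * q)) (m : ZMod p), (∀ j, z j ≠ Y) → z m - b * q = Y →
      FF q a b z (Y + 1) W S - FF q a b z Y W S =
        (if off (sc q z m + 1) S < a * q then (1 : ℤ) else 0) - (if aL a b W m then 1 else 0) := by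
    intro Y m h1 h2
    rw [hJ Y, Finset.sum_eq_single m]
    · rw [if_neg (h1 m), if_pos h2, zero_add]
    · intro j _ hj
      have h3 : z j - b * q ≠ Y := by
        intro h4
        rw [← h2] at h4
        exact hj (hz (sub_left_injective h4))
      rw [if_neg (h1 j), if_neg h3, add_zero]
    · intro h
      exact absurd (Finset.mem_univ m) h
  have hC3 : ∀ (X : ZMod (p * q)) (n : ZMod p), (∀ j, z j - b * q ≠ X) → z n = X →
      FF q a b z (X + 1) W S - FF q a b z X W S =
        (if aR a W n then (1 : ℤ) else 0) - (if off (sc q z n + 1) S < a * q then 1 else 0) := by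
    intro X n h1 h2
    rw [hJ X, Finset.sum_eq_single n]
    · rw [if_neg (h1 n), if_pos h2, add_zero]
    · intro j _ hj
      have h3 : z j ≠ X := by
        intro h4
        rw [← h2] at h4
        exact hj (hz h4)
      rw [if_neg h3, if_neg (h1 j), add_zero]
    · intro h
      exact absurd (Finset.mem_univ n) h
  -- positions which are not `1` modulo `p`
  have hA : ∀ t : ℕ, t + 2 ≤ p → ∀ X : ZMod (p * q), r X = -(t : ZMod p) →
      |FF q a b z X W S| ≤ 1 := by
    intro t
    induction t with
    | zero =>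
      intro _ X hX
      rw [Nat.cast_zero, neg_zero] at hX
      exact hb X W S (hr0 X hX)
    | succ t ih =>
      intro ht X hX
      have h0 : r X ≠ 0 := by
        intro h
        rw [hX, neg_eq_zero, ZMod.natCast_eq_zero_iff] at h
        have := Nat.le_of_dvd (by omega) h
        omega
      have h1 : r X ≠ 1 := by
        intro h
        have h2 : ((t + 2 : ℕ) : ZMod p) = 0 := by
          have h3 : -((t + 1 : ℕ) : ZMod p) = 1 := hX.symm.trans h
          have h4 : ((t + 2 : ℕ) : ZMod p) = 1 - -((t + 1 : ℕ) : ZMod p) := by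
            push_cast
            ring
          rw [h4, h3, sub_self]
        rw [ZMod.natCast_eq_zero_iff] at h2
        have := Nat.le_of_dvd (by omega) h2
        omega
      have hstep := hC1 X (fun j hj => h1 (by rw [← hj]; exact hrz j))
        (fun j hj => h0 (by rw [← hj]; exact hrl j))
      rw [← hstep]
      refine ih (by omega) (X + 1) ?_
      rw [map_add, map_one, hX]
      push_cast
      ring
  have hB : ∀ X : ZMod (p * q), r X ≠ 1 → |FF q a b z X W S| ≤ 1 := by
    intro X hX
    have h1 : (((-r X).val : ℕ) : ZMod p) = -r X := ZMod.natCast_zmod_val _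
    have h2 := ZMod.val_lt (-r X)
    refine hA (-r X).val ?_ X (by rw [h1, neg_neg])
    by_contra h3
    have h4 : (-r X).val + 1 = p := by omega
    have h5 : (((-r X).val + 1 : ℕ) : ZMod p) = 0 := by
      rw [h4, ZMod.natCast_self]
    rw [Nat.cast_add, h1, Nat.cast_one] at h5
    exact hX (by
      have h6 : r X = 1 - (-r X + 1) := by ring
      rw [h6, h5, sub_zero])
  by_cases hX : r X = 1
  swap
  · exact hB X hX
  -- the position `X = Y + 1`
  have hne : (1 : ZMod p) ≠ 0 := one_ne_zero
  have hrY : r (X - 1) = 0 := by rw [map_sub, map_one, hX, sub_self]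
  have hFY : |FF q a b z (X - 1) W S| ≤ 1 := hb _ W S (hr0 _ hrY)
  have hFX1 : |FF q a b z (X + 1) W S| ≤ 1 := by
    apply hB
    rw [map_add, map_one, hX]
    intro h
    exact hne (by simpa using h)
  have hY1 : ∀ j, z j ≠ X - 1 := by
    intro j h
    have h1 := hrz j
    rw [h, hrY] at h1
    exact hne h1.symm
  have hX1 : ∀ j, z j - b * q ≠ X := by
    intro j h
    have h1 := hrl j
    rw [h, hX] at h1
    exact hne h1
  by_cases hm : ∃ m, z m - b * q = X - 1
  swap
  · push Not at hm
    have h1 := hC1 (X - 1) hY1 hm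
    rw [sub_add_cancel] at h1
    rw [h1]
    exact hFY
  by_cases hn : ∃ n, z n = X
  swap
  · push Not at hn
    rw [← hC1 X hn hX1]
    exact hFX1
  obtain ⟨m, hm⟩ := hm
  obtain ⟨n, hn⟩ := hn
  have hjY := hC2 (X - 1) m hY1 hm
  rw [sub_add_cancel] at hjY
  have hjX := hC3 X n hX1 hn
  have hzz : z m - b * q + 1 = z n := by rw [hm, hn, sub_add_cancel]
  obtain ⟨hk1, hk2⟩ := hnm n m hzz
  -- both ranges
  have hranges : off (sc q z m + 1) S < a * q → off (sc q z n + 1) S < a * q → False := by
    intro h1 h2
    refine range_LK3B (p := p) hq (sc q z n) (sc q z m) S (m + b - n).val hk1 hk2 ?_ h1 h2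
    have h3 : ((q * (m + b - n).val : ℕ) : ZMod (p * q)) = e p q (m + b - n) := rfl
    rw [h3, e_sub, e_add, e_natCast, Nat.cast_mul]
    unfold sc
    rw [← hzz]
    ring
  have hsides : aL a b W m → aR a W n → False := by
    intro h1 h2
    unfold aL at h1
    unfold aR at h2
    refine side_LK3B (p := p) (W - b - 1 - m) (m + b - n) ?_ h1 hk1 hk2
    rw [show W - b - 1 - m + (m + b - n) = W - 1 - n by ring]
    exact h2
  rw [abs_le] at hFY hFX1 ⊢
  obtain ⟨hy1, hy2⟩ := hFY
  obtain ⟨hx1, hx2⟩ := hFX1
  by_cases c1 : off (sc q z m + 1) S < a * q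
  · have c2 : ¬ off (sc q z n + 1) S < a * q := fun h => hranges c1 h
    rw [if_pos c1] at hjY
    rw [if_neg c2] at hjX
    by_cases c3 : aL a b W m
    · rw [if_pos c3] at hjY
      constructor <;> linarith
    · rw [if_neg c3] at hjY
      by_cases c4 : aR a W n
      · rw [if_pos c4] at hjX
        constructor <;> linarith
      · rw [if_neg c4] at hjX
        constructor <;> linarith
  · rw [if_neg c1] at hjY
    by_cases c3 : aL a b W m
    · have c4 : ¬ aR a W n := fun h => hsides c3 h
      rw [if_pos c3] at hjY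
      rw [if_neg c4] at hjX
      by_cases c2 : off (sc q z n + 1) S < a * q
      · rw [if_pos c2] at hjX
        constructor <;> linarith
      · rw [if_neg c2] at hjX
        constructor <;> linarith
    · rw [if_neg c3] at hjY
      constructor <;> linarith

end Helper11.N1
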