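import Pool.Agent.Helper11.N1.StA

set_option autoImplicit false
set_option linter.unusedSectionVars false

namespace Helper11.N1

namespace LVLaux

variable {p q a b : ℕ} [NeZero p] [NeZero q]

/-- LEV for all `a`, `b` -/
theorem lev_all (hLev : StLev) (hRef : StRef) (hP : Par p q a b) (z : ZMod p → ZMod (p * q))
    (hg : Gen q z) (hd : Disj q a b z) (W : ZMod p) (lam rho : ZMod (p * q) → ℤ)
    (h : LD q a b z W lam rho) :
    ∃ c : ℤ, (∀ X, lam X = c ∨ lam X = c - 1) ∧ (∀ S, rho S = -c ∨ rho S = -c + 1) := by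
  rcases le_or_gt a b with hab | hab
  · exact hLev p q a b hP hab z hg hd W lam rho h
  · obtain ⟨_, _, r3, r4, r5, _⟩ := hRef p q a b hP z
    have hP' : Par p q b a := ⟨hP.hb, hP.ha, by have := hP.hab; omega, hP.hq⟩
    obtain ⟨c, h1, h2⟩ := hLev p q b a hP' hab.le (zr q z) (r3 hg) (r4 hd) W _ _ (r5 W lam rho h)
    refine ⟨1 - c, fun X => ?_, fun S => ?_⟩
    · have h3 := h2 (1 - X)
      simp only [sub_sub_cancel] at h3
      omega
    · have h3 := h1 (1 - S)
      simp only [sub_sub_cancel] at h3
      omega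

theorem NN_in (z : ZMod p → ZMod (p * q)) (hd : Disj q a b z) {j : ZMod p} {X S : ZMod (p * q)}
    (h : box q a b z j X S) : NN q a b z X S = 1 := by
  unfold NN
  rw [Finset.sum_eq_single j]
  · rw [if_pos h]
  · intro i _ hi
    rw [if_neg]
    intro h'
    exact hi (hd i j X S h' h)
  · intro h'
    exact absurd (Finset.mem_univ j) h'

theorem NN_out (z : ZMod p → ZMod (p * q)) {X S : ZMod (p * q)}
    (h : ∀ j, ¬ box q a b z j X S) : NN q a b z X S = 0 := by
  unfold NN
  apply Finset.sum_eq_zero
  intro j _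
  rw [if_neg (h j)]

end LVLaux

open LVLaux in
/-- LVL -/
theorem lvl : StUni → StLev → StRef → StLvl := by
  intro hUni hLev hRef p q a b _ _ hP z hg hd W lam rho h
  obtain ⟨c, hc1, hc2⟩ := lev_all hLev hRef hP z hg hd W lam rho h
  obtain ⟨u1, u2, u3, u4, u5, u6⟩ := hUni p q a b hP z hg W lam rho h
  refine ⟨fun X => c - lam X, fun S => rho S + c, ?_⟩
  have y01 : ∀ X, c - lam X = 0 ∨ c - lam X = 1 := fun X => by
    have := hc1 X
    omega
  have v01 : ∀ S, rho S + c = 0 ∨ rho S + c = 1 := fun S => by
    have := hc2 S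
    omega
  refine
    { y01 := y01
      u01 := v01
      yR := fun j hj => ?_
      yL := fun j hj => ?_
      yC := fun X h1 h2 => ?_
      uB := fun j hj => ?_
      uT := fun j hj => ?_
      uC := fun S h1 h2 => ?_
      inn := fun j X hX => ?_
      out := fun X hX => ?_
      flat := fun j X S hX hS => ?_ }
  · have h1 := u1 j hj
    have h2 := y01 (z j)
    have h3 := y01 (z j + 1)
    show c - lam (z j) = 1 ∧ c - lam (z j + 1) = 0
    omega
  · have h1 := u2 j hj
    have h2 := y01 (z j - b * q)
    have h3 := y01 (z j - b * q + 1)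
    show c - lam (z j - b * q) = 0 ∧ c - lam (z j - b * q + 1) = 1
    omega
  · have h3 := u5 X h1 h2
    show c - lam (X + 1) = c - lam X
    omega
  · have h1 := u3 j hj
    have h2 := v01 (sc q z j)
    have h3 := v01 (sc q z j + 1)
    show rho (sc q z j) + c = 1 ∧ rho (sc q z j + 1) + c = 0
    omega
  · have h1 := u4 j hj
    have h2 := v01 (sc q z j + a * q)
    have h3 := v01 (sc q z j + a * q + 1)
    show rho (sc q z j + a * q) + c = 0 ∧ rho (sc q z j + a * q + 1) + c = 1
    omega
  · have h3 := u6 S h1 h2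
    show rho (S + 1) + c = rho S + c
    omega
  · have h1 := h.line X
    rw [NN_in z hd hX] at h1
    have h2 := y01 X
    have h3 := v01 (X + e p q W)
    show c - lam X = 1 ∧ rho (X + e p q W) + c = 0
    omega
  · have h1 := h.line X
    rw [NN_out z hX] at h1
    show c - lam X = rho (X + e p q W) + c
    omega
  · have h1 := h.up X S
    rw [NN_in z hd hX] at h1
    have h2 := y01 X
    have hS' : rho S + c = 1 := hS
    show c - lam X = 1
    omega

end Helper11.N1
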