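import Pool.Agent.Helper11.N1.StB

set_option autoImplicit false

namespace Helper11.N1.MAINaux

theorem iter {p : ℕ} [NeZero p] (b : ℕ) (hb : b.Coprime p) (f : ZMod p → Prop)
    (h : ∀ j, f j → f (j + b)) (j0 : ZMod p) (h0 : f j0) : ∀ j, f j := by
  have h1 : ∀ n : ℕ, f (j0 + n * b) := by
    intro n
    induction n with
    | zero => simpa using h0
    | succ n ih =>
      have h2 := h _ ih
      have h3 : j0 + ((n + 1 : ℕ) : ZMod p) * b = j0 + n * b + b := by
        push_cast
        ring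
      rw [h3]
      exact h2
  intro j
  have hu : IsUnit (b : ZMod p) := (ZMod.isUnit_iff_coprime b p).2 hb
  obtain ⟨c, hc⟩ := hu.exists_left_inv
  have h4 := h1 ((j - j0) * c).val
  rw [ZMod.natCast_zmod_val, mul_assoc, hc, mul_one] at h4
  have h5 : j0 + (j - j0) = j := by ring
  rw [h5] at h4
  exact h4

end Helper11.N1.MAINaux

namespace Helper11.N1

theorem main : StLDX → StLvl → StRef → StStrip → StRefB → StCI → StCIII → StMain := by
  intro hLDX hLvl hRef hStrip hRefB hCI hCIII p q a b _ _ hP ha hb z hG hD hF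
  have hlev : ∀ W, ∃ y u, Lvl q a b z W y u := by
    intro W
    obtain ⟨lam, rho, h⟩ := hLDX p q a b hP z W (fun X S => hF X W S)
    exact hLvl p q a b hP z hG hD W lam rho h
  choose y u hw using hlev
  have hW : World q a b z y u := hw
  obtain ⟨hW', hUU, hYY, hord⟩ := hRefB p q a b hP z hG hD y u hW
  obtain ⟨_, _, hG', hD', _, _⟩ := hRef p q a b hP z
  have hP' : Par p q b a := ⟨hP.hb, hP.ha, by have := hP.hab; omega, hP.hq⟩
  by_cases h1 : ∀ j, off (z (j - a)) (z j) < off (z (j - a)) (z (j - a - b) - b * q)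
  · exact hCI p q a b hP z hG hD y u hW h1
  by_cases h2 : ∀ j, ¬ off (z (j - a)) (z j) < off (z (j - a)) (z (j - a - b) - b * q)
  · exact hCI p q b a hP' (zr q z) (hG' hG) (hD' hD) _ _ hW' (fun j => hord j (h2 j))
  obtain ⟨j1, hj1⟩ := not_forall.1 h1
  obtain ⟨j0, hj0⟩ := not_forall.1 h2
  have hj0' := not_not.1 hj0
  have hU : ∀ j, UU q a b z u j :=
    MAINaux.iter b hb (fun j => UU q a b z u j)
      (fun j => (hStrip p q a b hP z hG hD y u hW j).2) j0
      ((hStrip p q a b hP z hG hD y u hW j0).1 hj0')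
  have hV : ∀ j, UU q b a (zr q z) (fun W S => 1 - y W (1 - S)) j :=
    MAINaux.iter a ha (fun j => UU q b a (zr q z) (fun W S => 1 - y W (1 - S)) j)
      (fun j => (hStrip p q b a hP' (zr q z) (hG' hG) (hD' hD) _ _ hW' j).2) j1
      ((hStrip p q b a hP' (zr q z) (hG' hG) (hD' hD) _ _ hW' j1).1 (hord j1 hj1))
  exact hCIII p q a b hP z hG hD y u hW hU (fun j => (hUU j).1 (hV j))

end Helper11.N1
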