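import Pool.Agent.Helper11.N1.StC

set_option autoImplicit false

/-!
Project N1, module MIR: the mirrors `a ↦ p - a` and `b ↦ p - b`.
-/

namespace Helper11.N1

namespace MIRaux

variable {p : ℕ}

theorem sum_shift [NeZero p] (c : ZMod p) (f : ZMod p → ℤ) :
    ∑ j : ZMod p, f j = ∑ j : ZMod p, f (j + c) :=
  (Fintype.sum_equiv (Equiv.addRight c) (fun j => f (j + c)) f fun _ => rfl).symm

theorem cast_sub_p {a : ℕ} (ha : a ≤ p) : ((p - a : ℕ) : ZMod p) = - (a : ZMod p) := by
  rw [Nat.cast_sub ha, ZMod.natCast_self, zero_sub]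

theorem pq_zero (q : ℕ) : ((p : ℕ) : ZMod (p * q)) * ((q : ℕ) : ZMod (p * q)) = 0 := by
  rw [← Nat.cast_mul, ZMod.natCast_self]

theorem cast_sub_pq {q b : ℕ} (hb : b ≤ p) :
    ((p - b : ℕ) : ZMod (p * q)) * ((q : ℕ) : ZMod (p * q)) =
      - ((b : ZMod (p * q)) * (q : ZMod (p * q))) := by
  rw [Nat.cast_sub hb, sub_mul, pq_zero, zero_sub]

end MIRaux

open MIRaux

theorem mir : StMIR := by
  classical
  intro p q a b _ _ z
  refine ⟨?_, ?_, ?_, ?_⟩
  · intro ha X W S
    unfold FF
    rw [sum_shift (a : ZMod p), ← Finset.sum_neg_distrib]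
    refine Finset.sum_congr rfl fun j _ => ?_
    rw [cast_sub_p ha]
    have e1 : j + (a : ZMod p) - (a : ZMod p) = j := by ring
    have e2 : j + (a : ZMod p) + -(a : ZMod p) = j := by ring
    have e3 : j + (a : ZMod p) + (b : ZMod p) = j + a + b := rfl
    have e4 : j + (a : ZMod p) + -(a : ZMod p) + (b : ZMod p) = j + b := by ring
    simp only [e1, e2, e4]
    ring
  · intro hb X W S
    unfold FF
    rw [sum_shift (b : ZMod p), ← Finset.sum_neg_distrib]
    refine Finset.sum_congr rfl fun j _ => ?_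
    rw [cast_sub_p hb, cast_sub_pq hb]
    have e1 : j + (b : ZMod p) - (b : ZMod p) = j := by ring
    have e2 : j + (b : ZMod p) + -(b : ZMod p) = j := by ring
    have e3 : j + (b : ZMod p) + (a : ZMod p) = j + a + b := by ring
    have e4 : j + (b : ZMod p) + (a : ZMod p) + -(b : ZMod p) = j + a := by ring
    have e5 : z j - (b : ZMod (p * q)) * (q : ZMod (p * q)) -
        -((b : ZMod (p * q)) * (q : ZMod (p * q))) = z j := by ring
    have e6 : j + (a : ZMod p) + (b : ZMod p) + -(b : ZMod p) = j + a := by ring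
    simp only [e1, e2, e3, e5, e6]
    ring
  · intro hg i j h
    have h2 := hg _ _ h
    exact sub_left_injective h2
  · intro hg i j h
    have h3 : z (i - (b : ZMod p)) - (b : ZMod (p * q)) * (q : ZMod (p * q)) -
        (z (j - (b : ZMod p)) - (b : ZMod (p * q)) * (q : ZMod (p * q))) =
        z (i - (b : ZMod p)) - z (j - (b : ZMod p)) := by ring
    have h2 : q ∣ (z (i - (b : ZMod p)) - z (j - (b : ZMod p))).val := by
      rw [← h3]
      exact h
    exact sub_left_injective (hg _ _ h2)

end Helper11.N1
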