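import Pool.Agent.Helper11.N1.StA

set_option autoImplicit false
set_option linter.unusedSectionVars false

/-!
# NB: states next to a box on the line
-/

namespace Helper11.N1

namespace NBaux

section val

variable {p : ℕ} [NeZero p]

/-- the value of `x - n` for a small natural number `n` -/
theorem val_sub_nat (x : ZMod p) (n : ℕ) (hn : n < p) :
    (x - (n : ZMod p)).val = if n ≤ x.val then x.val - n else x.val + p - n := by
  have hx := ZMod.val_lt x
  split_ifs with h
  · have h1 : x - (n : ZMod p) = ((x.val - n : ℕ) : ZMod p) := by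
      rw [Nat.cast_sub h, ZMod.natCast_zmod_val]
    rw [h1, ZMod.val_natCast, Nat.mod_eq_of_lt (by omega)]
  · have h1 : x - (n : ZMod p) = ((x.val + p - n : ℕ) : ZMod p) := by
      rw [Nat.cast_sub (by omega), Nat.cast_add, ZMod.natCast_zmod_val, ZMod.natCast_self,
        add_zero]
    rw [h1, ZMod.val_natCast, Nat.mod_eq_of_lt (by omega)]

end val

section letters

variable {p q a b : ℕ} [NeZero p] [NeZero q]

theorem aR_iff (hP : Par p q a b) (W j : ZMod p) :
    aR a W j ↔ 1 ≤ (W - j).val ∧ (W - j).val ≤ a := by
  obtain ⟨h1, h2, h3, h4⟩ := hP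
  have hd := ZMod.val_lt (W - j)
  unfold aR
  have e1 : W - 1 - j = (W - j) - ((1 : ℕ) : ZMod p) := by push_cast; ring
  rw [e1, val_sub_nat _ 1 (by omega)]
  split_ifs <;> omega

theorem aL_iff (hP : Par p q a b) (W j : ZMod p) :
    aL a b W j ↔ b + 1 ≤ (W - j).val ∧ (W - j).val ≤ a + b := by
  obtain ⟨h1, h2, h3, h4⟩ := hP
  have hd := ZMod.val_lt (W - j)
  unfold aL
  have e1 : W - b - 1 - j = (W - j) - ((b + 1 : ℕ) : ZMod p) := by push_cast; ring
  rw [e1, val_sub_nat _ (b + 1) (by omega)]
  split_ifs <;> omega

theorem aB_iff (hP : Par p q a b) (W j : ZMod p) :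
    aB b W j ↔ 1 ≤ (W - j).val ∧ (W - j).val ≤ b := by
  obtain ⟨h1, h2, h3, h4⟩ := hP
  have hd := ZMod.val_lt (W - j)
  unfold aB
  have e1 : W - 1 - j = (W - j) - ((1 : ℕ) : ZMod p) := by push_cast; ring
  rw [e1, val_sub_nat _ 1 (by omega)]
  split_ifs <;> omega

theorem aT_iff (hP : Par p q a b) (W j : ZMod p) :
    aT a b W j ↔ a + 1 ≤ (W - j).val ∧ (W - j).val ≤ a + b := by
  obtain ⟨h1, h2, h3, h4⟩ := hP
  have hd := ZMod.val_lt (W - j)
  unfold aT
  have e1 : W - a - 1 - j = (W - j) - ((a + 1 : ℕ) : ZMod p) := by push_cast; ring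
  rw [e1, val_sub_nat _ (a + 1) (by omega)]
  split_ifs <;> omega

end letters

theorem off_cast {M : ℕ} [NeZero M] (x y : ZMod M) {n : ℕ} (hn : n < M)
    (h : y - x = (n : ZMod M)) : off x y = n := by
  unfold off
  rw [h, ZMod.val_natCast, Nat.mod_eq_of_lt hn]

/-- two small numbers are equal if their casts are -/
theorem cast_inj {M : ℕ} {u v : ℕ} (hu : u < M) (hv : v < M)
    (h : (u : ZMod M) = (v : ZMod M)) : u = v := by
  rw [ZMod.natCast_eq_natCast_iff] at h
  have h1 : u % M = v % M := h
  rwa [Nat.mod_eq_of_lt hu, Nat.mod_eq_of_lt hv] at h1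

section main

variable {p q a b : ℕ} [NeZero p] [NeZero q]

theorem prods (hP : Par p q a b) :
    1 ≤ q ∧ 2 * q ≤ a * q ∧ 2 * q ≤ b * q ∧ a * q + b * q + q ≤ p * q := by
  obtain ⟨h1, h2, h3, h4⟩ := hP
  refine ⟨h4, Nat.mul_le_mul_right q h1, Nat.mul_le_mul_right q h2, ?_⟩
  have h5 : (a + b + 1) * q ≤ p * q := Nat.mul_le_mul_right q (by omega)
  calc a * q + b * q + q = (a + b + 1) * q := by ring
    _ ≤ p * q := h5

/-- the row position of `W` from the one of `j` -/
theorem eW (W j : ZMod p) :
    e p q W = e p q j + (((W - j).val * q : ℕ) : ZMod (p * q)) := by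
  have h := e_sub p q W j
  have h2 : e p q (W - j) = (((W - j).val * q : ℕ) : ZMod (p * q)) := by
    unfold e
    rw [Nat.mul_comm q _]
  rw [← h2, h]
  ring

/-- one step inside a box -/
theorem step (hBL : StBL) (hU : StUni) (hP : Par p q a b) (z : ZMod p → ZMod (p * q))
    (hg : Gen q z) (hD : Disj q a b z) (W : ZMod p) (lam rho : ZMod (p * q) → ℤ)
    (hL : LD q a b z W lam rho) (j : ZMod p) (X : ZMod (p * q))
    (h1 : box q a b z j X (X + e p q W)) (h2 : box q a b z j (X + 1) (X + 1 + e p q W)) :
    lam (X + 1) = lam X ∧ rho (X + 1 + e p q W) = rho (X + e p q W) := by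
  obtain ⟨hq, haq, hbq, hM⟩ := prods hP
  obtain ⟨-, -, -, -, u5, u6⟩ := hU p q a b hP z hg W lam rho hL
  have hM1 : 1 < p * q := by omega
  have hdM : ∀ i : ZMod p, (W - i).val * q + q ≤ p * q := by
    intro i
    have h3 : (W - i).val + 1 ≤ p := ZMod.val_lt (W - i)
    have h4 := Nat.mul_le_mul_right q h3
    calc (W - i).val * q + q = ((W - i).val + 1) * q := by ring
      _ ≤ p * q := h4
  have hone : ∀ i : ZMod p, 1 ≤ (W - i).val → q ≤ (W - i).val * q := by
    intro i hi
    calc q = 1 * q := (one_mul q).symm
      _ ≤ (W - i).val * q := Nat.mul_le_mul_right q hi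
  have hsub : ∀ (i : ZMod p) (c : ℕ), ((W - i).val - c) * q = (W - i).val * q - c * q :=
    fun i c => Nat.sub_mul _ _ _
  have hle : ∀ (i : ZMod p) (c : ℕ), (W - i).val ≤ c → (W - i).val * q ≤ c * q :=
    fun i c h => Nat.mul_le_mul_right q h
  have hlt : ∀ (i : ZMod p) (c : ℕ), c + 1 ≤ (W - i).val → c * q + q ≤ (W - i).val * q := by
    intro i c h
    calc c * q + q = (c + 1) * q := by ring
      _ ≤ _ := Nat.mul_le_mul_right q h
  have hab : (a + b) * q = a * q + b * q := by ring
  have nL : ∀ i, aL a b W i → z i - b * q ≠ X := by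
    intro i hi hX
    rw [aL_iff hP] at hi
    have a1 := hlt i b hi.1
    have a2 := hle i (a + b) hi.2
    rw [hab] at a2
    have hz : z i = X + ((b * q : ℕ) : ZMod (p * q)) := by
      rw [← hX]; push_cast; ring
    have b1 : box q a b z i (X + 1) (X + e p q W) := by
      refine ⟨?_, ?_⟩
      · have : off (X + 1) (z i) = b * q - 1 := off_cast _ _ (by omega) (by
          rw [hz, Nat.cast_sub (by omega)]; push_cast; ring)
        omega
      · have : off (sc q z i + 1) (X + e p q W) = (W - i).val * q - b * q - 1 :=
          off_cast _ _ (by have := hdM i; omega) (by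
            unfold sc
            rw [hz, eW W i, Nat.cast_sub (by omega), Nat.cast_sub (by omega)]
            push_cast
            ring)
        omega
    have b2 : box q a b z j (X + 1) (X + e p q W) := ⟨h2.1, h1.2⟩
    have b3 := hD i j _ _ b1 b2
    subst b3
    have b4 : off X (z i) = b * q := by
      rw [hz]; exact off_nat X (by omega)
    have := h1.1
    omega
  have nR : ∀ i, aR a W i → z i ≠ X := by
    intro i hi hX
    rw [aR_iff hP] at hi
    have a1 := hone i hi.1
    have a2 := hle i a hi.2
    have b0 : off X (z i) = 0 := by rw [hX]; exact off_self X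
    have b1 : box q a b z i X (X + e p q W) := by
      rw [(hBL p q a b hP z W i).1 X, b0, hsub]
      omega
    have b3 := hD i j _ _ b1 h1
    subst b3
    have b4 : off (X + 1) (z i) = p * q - 1 := off_cast _ _ (by omega) (by
      rw [hX, Nat.cast_sub (by omega), ZMod.natCast_self]; push_cast; ring)
    have := h2.1
    omega
  have nB : ∀ i, aB b W i → sc q z i ≠ X + e p q W := by
    intro i hi hX
    rw [aB_iff hP] at hi
    have a1 := hone i hi.1
    have a2 := hle i b hi.2
    have hz : z i = X + (((W - i).val * q : ℕ) : ZMod (p * q)) := by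
      have h3 : z i = sc q z i - e p q i := by unfold sc; ring
      rw [h3, hX, eW W i]; ring
    have b0 : off (X + 1) (z i) = (W - i).val * q - 1 := off_cast _ _ (by
      have := hdM i
      omega) (by
      rw [hz, Nat.cast_sub (by omega)]; push_cast; ring)
    have b1 : box q a b z i (X + 1) (X + 1 + e p q W) := by
      rw [(hBL p q a b hP z W i).1 (X + 1), b0, hsub]
      omega
    have b3 := hD i j _ _ b1 h2
    subst b3
    have b4 : off (sc q z i + 1) (X + e p q W) = p * q - 1 := off_cast _ _ (by omega) (by
      rw [hX, Nat.cast_sub (by omega), ZMod.natCast_self]; push_cast; ring)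
    have := h1.2
    omega
  have nT : ∀ i, aT a b W i → sc q z i + a * q ≠ X + e p q W := by
    intro i hi hX
    rw [aT_iff hP] at hi
    have a1 := hlt i a hi.1
    have a2 := hle i (a + b) hi.2
    rw [hab] at a2
    have hz : z i = X + (((W - i).val * q - a * q : ℕ) : ZMod (p * q)) := by
      have h3 : z i = (sc q z i + a * q) - e p q i - a * q := by unfold sc; ring
      rw [h3, hX, eW W i, Nat.cast_sub (by omega)]
      push_cast
      ring
    have hs : sc q z i = X + e p q W - ((a * q : ℕ) : ZMod (p * q)) := by
      rw [← hX]; push_cast; ring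
    have b1 : box q a b z i (X + 1) (X + e p q W) := by
      refine ⟨?_, ?_⟩
      · have : off (X + 1) (z i) = (W - i).val * q - a * q - 1 := off_cast _ _ (by
          have := hdM i
          omega) (by
          rw [hz, Nat.cast_sub (by omega), Nat.cast_sub (by omega)]
          push_cast
          rw [Nat.cast_sub (by omega)]
          push_cast
          ring)
        omega
      · have : off (sc q z i + 1) (X + e p q W) = a * q - 1 := off_cast _ _ (by omega) (by
          rw [hs, Nat.cast_sub (by omega)]
          push_cast
          ring)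
        omega
    have b2 : box q a b z j (X + 1) (X + e p q W) := ⟨h2.1, h1.2⟩
    have b3 := hD i j _ _ b1 b2
    subst b3
    have b4 : off (sc q z i + 1) (X + 1 + e p q W) = a * q := off_cast _ _ (by omega) (by
      rw [hs]; ring)
    have := h2.2
    omega
  refine ⟨u5 X nR nL, ?_⟩
  have h3 : X + 1 + e p q W = X + e p q W + 1 := by ring
  rw [h3]
  exact u6 (X + e p q W) nB nT

end main

end NBaux

open NBaux

theorem nb : StBL → StUni → StNb := by
  intro hBL hU p q a b _ _ hP z hg hD W lam rho hL j X hX
  obtain ⟨hq, haq, hbq, hM⟩ := prods hP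
  obtain ⟨u1, u2, u3, u4, u5, u6⟩ := hU p q a b hP z hg W lam rho hL
  have hP' := hP
  obtain ⟨ha2, hb2, hab2, -⟩ := hP'
  have hbl := (hBL p q a b hP z W j).1
  have hstep := step hBL hU hP z hg hD W lam rho hL j
  set d := (W - j).val with hd
  have hdp : d < p := ZMod.val_lt _
  have hdM : d * q + q ≤ p * q := by
    have h4 := Nat.mul_le_mul_right q (show d + 1 ≤ p from hdp)
    calc d * q + q = (d + 1) * q := by ring
      _ ≤ p * q := h4
  have heW : e p q W = e p q j + ((d * q : ℕ) : ZMod (p * q)) := eW W j
  have hda : (d - a) * q = d * q - a * q := Nat.sub_mul _ _ _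
  -- the range of `t`
  have hmul : ∀ c c' : ℕ, c ≤ c' → c * q ≤ c' * q := fun c c' h => Nat.mul_le_mul_right q h
  have hmul' : ∀ c c' : ℕ, c < c' → c * q + q ≤ c' * q := by
    intro c c' h
    calc c * q + q = (c + 1) * q := by ring
      _ ≤ _ := Nat.mul_le_mul_right q h
  have hab : (a + b) * q = a * q + b * q := by ring
  have hX' := (hbl X).1 hX
  have hd1 : 1 ≤ d := by
    by_contra h
    have : d = 0 := by omega
    rw [this] at hX'
    omega
  have hd2 : d < a + b := by
    by_contra h
    have h4 := hmul (a + b) d (by omega)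
    omega
  -- points of the box on the line
  have hpt : ∀ t : ℕ, t < p * q →
      (box q a b z j (z j - (t : ZMod (p * q))) (z j - (t : ZMod (p * q)) + e p q W) ↔
        (d - a) * q ≤ t ∧ t < b * q ∧ t < d * q) := by
    intro t ht
    rw [hbl, off_nat' (z j) ht]
  -- constancy
  have hconst : ∀ t n : ℕ, (d - a) * q ≤ t → t + n < b * q → t + n < d * q →
      lam (z j - ((t + n : ℕ) : ZMod (p * q))) = lam (z j - (t : ZMod (p * q))) ∧
      rho (z j - ((t + n : ℕ) : ZMod (p * q)) + e p q W) =
        rho (z j - (t : ZMod (p * q)) + e p q W) := by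
    intro t n h1 h2 h3
    induction n with
    | zero => exact ⟨rfl, rfl⟩
    | succ n ih =>
      have ih' := ih (by omega) (by omega)
      have e1 : z j - ((t + (n + 1) : ℕ) : ZMod (p * q)) + 1 =
          z j - ((t + n : ℕ) : ZMod (p * q)) := by push_cast; ring
      have b1 := (hpt (t + (n + 1)) (by omega)).2 ⟨by omega, by omega, by omega⟩
      have b2 := (hpt (t + n) (by omega)).2 ⟨by omega, by omega, by omega⟩
      have b3 := hstep (z j - ((t + (n + 1) : ℕ) : ZMod (p * q))) b1 (by rw [e1]; exact b2)
      rw [e1] at b3
      exact ⟨b3.1.symm.trans ih'.1, b3.2.symm.trans ih'.2⟩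
  have hall : ∀ t : ℕ, (d - a) * q ≤ t → t < b * q → t < d * q →
      lam (z j - (t : ZMod (p * q))) = lam X ∧
      rho (z j - (t : ZMod (p * q)) + e p q W) = rho (X + e p q W) := by
    intro t h1 h2 h3
    have c1 := hconst ((d - a) * q) (t - (d - a) * q) le_rfl (by omega) (by omega)
    have c2 := hconst ((d - a) * q) (off X (z j) - (d - a) * q) le_rfl (by omega) (by omega)
    have e1 : (d - a) * q + (t - (d - a) * q) = t := by omega
    have e2 : (d - a) * q + (off X (z j) - (d - a) * q) = off X (z j) := by omega
    rw [e1] at c1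
    rw [e2, off_spec'] at c2
    exact ⟨c1.1.trans c2.1.symm, c1.2.trans c2.2.symm⟩
  have hres : ∀ (i : ZMod p) (x : ZMod (p * q)), z i = z j - x → res p q x = 0 → i = j := by
    intro i x h1 h2
    apply gen_res p q hg
    rw [h1, map_sub, h2, sub_zero]
  have hresc : ∀ c : ℕ, res p q ((c * q : ℕ) : ZMod (p * q)) = 0 := by
    intro c
    rw [Nat.cast_mul]
    exact res_mul_q p q _
  refine ⟨?_, ?_, ?_, ?_, ?_⟩
  · intro X' h'
    have h2 := (hbl X').1 h'
    have h3 := hall (off X' (z j)) h2.1 h2.2.1 h2.2.2
    rw [off_spec'] at h3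
    exact h3
  · intro hdb
    -- the letter `B`
    have hdb' := hmul d b hdb
    have hdq : q ≤ d * q := by
      have := hmul 1 d hd1
      omega
    set X' : ZMod (p * q) := z j - ((d * q : ℕ) : ZMod (p * q)) with hX'd
    have e1 : X' + 1 = z j - ((d * q - 1 : ℕ) : ZMod (p * q)) := by
      rw [hX'd, Nat.cast_sub (by omega)]; push_cast; ring
    have e2 : X' + e p q W = sc q z j := by
      rw [hX'd, heW]; unfold sc; ring
    have c1 := hall (d * q - 1) (by omega) (by omega) (by omega)
    rw [← e1] at c1
    have hB : aB b W j := (aB_iff hP W j).2 ⟨hd1, hdb⟩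
    have c2 := u3 j hB
    have c3 : lam (X' + 1) = lam X' := by
      apply u5
      · intro i hi h
        have hij : i = j := hres i _ h (hresc d)
        subst hij
        have h5 : ((d * q : ℕ) : ZMod (p * q)) = ((0 : ℕ) : ZMod (p * q)) := by
          rw [hX'd] at h
          have := sub_eq_self.1 h.symm
          rw [this, Nat.cast_zero]
        have := cast_inj (by omega) (by omega) h5
        omega
      · intro i hi h
        have hij : i = j := by
          apply hres i (((d * q : ℕ) : ZMod (p * q)) - ((b * q : ℕ) : ZMod (p * q)))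
          · have : z i = X' + b * q := by rw [← h]; ring
            rw [this, hX'd]; push_cast; ring
          · rw [map_sub, hresc, hresc, sub_zero]
        subst hij
        have h6 := ((aL_iff hP W i).1 hi).1
        omega
    refine ⟨X', ?_, ?_⟩
    · rw [← c3]; exact c1.1
    · rw [e2]
      have e3 : X' + 1 + e p q W = sc q z j + 1 := by rw [← e2]; ring
      rw [e3] at c1
      rw [← c1.2, c2]
      ring
  · intro hdb
    -- the letter `L`
    have hdb' := hmul' b d hdb
    set X' : ZMod (p * q) := z j - b * q with hX'd
    have e1 : X' + 1 = z j - ((b * q - 1 : ℕ) : ZMod (p * q)) := by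
      rw [hX'd, Nat.cast_sub (by omega)]; push_cast; ring
    have hLt : (d - a) * q < b * q := by
      have := hmul' d (a + b) hd2
      omega
    have c1 := hall (b * q - 1) (by omega) (by omega) (by omega)
    rw [← e1] at c1
    have hLj : aL a b W j := (aL_iff hP W j).2 ⟨by omega, by omega⟩
    have c2 := u2 j hLj
    have c3 : rho (X' + e p q W + 1) = rho (X' + e p q W) := by
      apply u6
      · intro i hi h
        have hij : i = j := by
          apply gen_res p q hg
          have := congrArg (res p q) h
          rw [res_sc, hX'd, map_add, map_sub, res_e, res_mul_q, sub_zero, add_zero] at this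
          exact this
        subst hij
        have h6 := ((aB_iff hP W i).1 hi).2
        omega
      · intro i hi h
        have hij : i = j := by
          apply gen_res p q hg
          have := congrArg (res p q) h
          rw [map_add, res_sc, res_mul_q, hX'd, map_add, map_sub, res_e, res_mul_q, sub_zero,
            add_zero, add_zero] at this
          exact this
        subst hij
        have h5 : (((a + b) * q : ℕ) : ZMod (p * q)) = ((d * q : ℕ) : ZMod (p * q)) := by
          have h7 : ((d * q : ℕ) : ZMod (p * q)) = e p q W - e p q i := by rw [heW]; ring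
          have h8 : e p q W = (sc q z i + a * q) - X' := by rw [h]; ring
          rw [h7, h8, hX'd]
          unfold sc
          push_cast
          ring
        have h9 := cast_inj (by omega) (by omega) h5
        have := hmul' d (a + b) hd2
        omega
    refine ⟨X', ?_, ?_⟩
    · have : lam X' = lam (X' + 1) + 1 := by rw [c2]; ring
      rw [this, c1.1]
    · rw [← c3, ← c1.2]
      congr 1
      ring
  · intro hda'
    -- the letter `R`
    have hda'' := hmul d a hda'
    have hdq : q ≤ d * q := by
      have := hmul 1 d hd1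
      omega
    have c1 := hall 0 (by omega) (by omega) (by omega)
    rw [Nat.cast_zero, sub_zero] at c1
    have hR : aR a W j := (aR_iff hP W j).2 ⟨hd1, hda'⟩
    have c2 := u1 j hR
    have c3 : rho (z j + e p q W + 1) = rho (z j + e p q W) := by
      apply u6
      · intro i hi h
        have hij : i = j := by
          apply gen_res p q hg
          have := congrArg (res p q) h
          rw [res_sc, map_add, res_e, add_zero] at this
          exact this
        subst hij
        have h5 : ((d * q : ℕ) : ZMod (p * q)) = ((0 : ℕ) : ZMod (p * q)) := by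
          have h7 : ((d * q : ℕ) : ZMod (p * q)) = e p q W - e p q i := by rw [heW]; ring
          have h8 : e p q W = sc q z i - z i := by rw [h]; ring
          rw [h7, h8]
          unfold sc
          push_cast
          ring
        have := cast_inj (by omega) (by omega) h5
        omega
      · intro i hi h
        have hij : i = j := by
          apply gen_res p q hg
          have := congrArg (res p q) h
          rw [map_add, res_sc, res_mul_q, map_add, res_e, add_zero, add_zero] at this
          exact this
        subst hij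
        have h6 := ((aT_iff hP W i).1 hi).1
        omega
    refine ⟨z j + 1, ?_, ?_⟩
    · rw [c2, c1.1]
    · rw [← c1.2, ← c3]
      congr 1
      ring
  · intro hda'
    -- the letter `T`
    have hda'' := hmul' a d hda'
    have hLt : (d - a) * q + q ≤ b * q := by
      have := hmul' d (a + b) hd2
      omega
    have hq0 : a * q + (d - a) * q = d * q := by omega
    have c1 := hall ((d - a) * q) (by omega) (by omega) (by omega)
    set X' : ZMod (p * q) := z j - (((d - a) * q : ℕ) : ZMod (p * q)) with hX'd
    have e2 : X' + e p q W = sc q z j + a * q := by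
      rw [hX'd, heW, ← hq0]; unfold sc; push_cast; ring
    have hT : aT a b W j := (aT_iff hP W j).2 ⟨by omega, by omega⟩
    have c2 := u4 j hT
    have c3 : lam (X' + 1) = lam X' := by
      apply u5
      · intro i hi h
        have hij : i = j := hres i _ h (hresc (d - a))
        subst hij
        have h6 := ((aR_iff hP W i).1 hi).2
        omega
      · intro i hi h
        have hij : i = j := by
          apply hres i ((((d - a) * q : ℕ) : ZMod (p * q)) - ((b * q : ℕ) : ZMod (p * q)))
          · have : z i = X' + b * q := by rw [← h]; ring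
            rw [this, hX'd]; push_cast; ring
          · rw [map_sub, hresc, hresc, sub_zero]
        subst hij
        have h5 : ((b * q : ℕ) : ZMod (p * q)) = (((d - a) * q : ℕ) : ZMod (p * q)) := by
          rw [hX'd] at h
          have h7 := sub_right_inj.1 h
          rw [← h7]; push_cast; ring
        have := cast_inj (by omega) (by omega) h5
        omega
    refine ⟨X' + 1, ?_, ?_⟩
    · rw [c3]; exact c1.1
    · have e3 : X' + 1 + e p q W = sc q z j + a * q + 1 := by rw [← e2]; ring
      rw [e3, c2, ← e2, c1.2]

end Helper11.N1
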