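import Pool.Agent.Helper11.N1.StA

set_option autoImplicit false
set_option linter.unusedSectionVars false

namespace Helper11.N1

namespace REFaux

variable {p q a b : ℕ} [NeZero p] [NeZero q]

theorem sc_zr (z : ZMod p → ZMod (p * q)) (j : ZMod p) : sc q (zr q z) j = - z j := by
  unfold zr sc
  ring

theorem box_zr (z : ZMod p → ZMod (p * q)) (j : ZMod p) (X S : ZMod (p * q)) :
    box q b a (zr q z) j X S ↔ box q a b z j (1 - S) (1 - X) := by
  have h1 : off X (zr q z j) = off (sc q z j + 1) (1 - X) := by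
    rw [← off_reflect X (zr q z j) 1]
    congr 1
    unfold zr
    ring
  have h2 : off (sc q (zr q z) j + 1) S = off (1 - S) (z j) := by
    rw [sc_zr, ← off_reflect (- z j + 1) S 1]
    congr 1
    ring
  unfold box
  rw [h1, h2]
  exact and_comm

theorem gen_zr (z : ZMod p → ZMod (p * q)) (hg : Gen q z) : Gen q (zr q z) := by
  intro i j h
  apply gen_res p q hg
  rw [← res_eq_zero] at h
  have h2 : zr q z i - zr q z j = sc q z j - sc q z i := by
    unfold zr
    ring
  rw [h2, map_sub, res_sc, res_sc, sub_eq_zero] at h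
  exact h.symm

theorem disj_zr (z : ZMod p → ZMod (p * q)) (hd : Disj q a b z) : Disj q b a (zr q z) := by
  intro i j X S hi hj
  exact hd i j _ _ ((box_zr z i X S).1 hi) ((box_zr z j X S).1 hj)

theorem NN_zr (z : ZMod p → ZMod (p * q)) (X S : ZMod (p * q)) :
    NN q b a (zr q z) X S = NN q a b z (1 - S) (1 - X) := by
  unfold NN
  apply Finset.sum_congr rfl
  intro j _
  by_cases h : box q b a (zr q z) j X S
  · rw [if_pos h, if_pos ((box_zr z j X S).1 h)]
  · rw [if_neg h, if_neg (fun h' => h ((box_zr z j X S).2 h'))]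

theorem line_pt (X E : ZMod (p * q)) : 1 - (X + E) + E = 1 - X := by ring

theorem sum_congr' (P Q : ZMod p → Prop) [DecidablePred P] [DecidablePred Q]
    (h : ∀ j, P j ↔ Q j) :
    (∑ j : ZMod p, if P j then (1 : ℤ) else 0) = ∑ j : ZMod p, if Q j then (1 : ℤ) else 0 := by
  apply Finset.sum_congr rfl
  intro j _
  by_cases hj : P j
  · rw [if_pos hj, if_pos ((h j).1 hj)]
  · rw [if_neg hj, if_neg (fun h' => hj ((h j).2 h'))]

theorem c1 (z : ZMod p → ZMod (p * q)) (j : ZMod p) (X : ZMod (p * q)) :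
    zr q z j = X ↔ sc q z j = - X := by
  unfold zr
  constructor
  · intro h
    rw [← h, neg_neg]
  · intro h
    rw [h, neg_neg]

theorem c2 (z : ZMod p → ZMod (p * q)) (j : ZMod p) (X c : ZMod (p * q)) :
    zr q z j - c = X ↔ sc q z j + c = - X := by
  unfold zr
  constructor
  · intro h
    rw [← h]
    ring
  · intro h
    rw [← neg_neg X, ← h]
    ring

theorem c3 (z : ZMod p → ZMod (p * q)) (j : ZMod p) (S : ZMod (p * q)) :
    sc q (zr q z) j = S ↔ z j = - S := by
  rw [sc_zr]
  constructor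
  · intro h
    rw [← h, neg_neg]
  · intro h
    rw [h, neg_neg]

theorem c4 (z : ZMod p → ZMod (p * q)) (j : ZMod p) (S c : ZMod (p * q)) :
    sc q (zr q z) j + c = S ↔ z j - c = - S := by
  rw [sc_zr]
  constructor
  · intro h
    rw [← h]
    ring
  · intro h
    rw [← neg_neg S, ← h]
    ring

theorem ld_zr (z : ZMod p → ZMod (p * q)) (W : ZMod p) (lam rho : ZMod (p * q) → ℤ)
    (h : LD q a b z W lam rho) :
    LD q b a (zr q z) W (fun X => rho (1 - X)) (fun S => lam (1 - S)) where
  lj := by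
    intro X
    have h1 := h.rj (-X)
    have e1 : (1 : ZMod (p * q)) - (X + 1) = -X := by ring
    have e2 : (1 : ZMod (p * q)) - X = -X + 1 := by ring
    have s1 : (open Classical in ∑ j : ZMod p, if aR b W j ∧ zr q z j = X then (1 : ℤ) else 0) =
        (open Classical in ∑ j : ZMod p, if aB b W j ∧ sc q z j = -X then (1 : ℤ) else 0) := by
      classical
      exact sum_congr' _ _ (fun j => and_congr Iff.rfl (c1 z j X))
    have s2 : (open Classical in
          ∑ j : ZMod p, if aL b a W j ∧ zr q z j - a * q = X then (1 : ℤ) else 0) =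
        (open Classical in
          ∑ j : ZMod p, if aT a b W j ∧ sc q z j + a * q = -X then (1 : ℤ) else 0) := by
      classical
      exact sum_congr' _ _ (fun j => and_congr Iff.rfl (c2 z j X _))
    show rho (1 - (X + 1)) - rho (1 - X) = _
    rw [e1, e2]
    linarith
  rj := by
    intro S
    have h1 := h.lj (-S)
    have e1 : (1 : ZMod (p * q)) - (S + 1) = -S := by ring
    have e2 : (1 : ZMod (p * q)) - S = -S + 1 := by ring
    have s1 : (open Classical in
          ∑ j : ZMod p, if aT b a W j ∧ sc q (zr q z) j + b * q = S then (1 : ℤ) else 0) =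
        (open Classical in
          ∑ j : ZMod p, if aL a b W j ∧ z j - b * q = -S then (1 : ℤ) else 0) := by
      classical
      exact sum_congr' _ _ (fun j => and_congr Iff.rfl (c4 z j S _))
    have s2 : (open Classical in
          ∑ j : ZMod p, if aB a W j ∧ sc q (zr q z) j = S then (1 : ℤ) else 0) =
        (open Classical in ∑ j : ZMod p, if aR a W j ∧ z j = -S then (1 : ℤ) else 0) := by
      classical
      exact sum_congr' _ _ (fun j => and_congr Iff.rfl (c3 z j S))
    show lam (1 - (S + 1)) - lam (1 - S) = _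
    rw [e1, e2]
    linarith
  line := by
    intro X
    have h1 := h.line (1 - (X + e p q W))
    rw [line_pt] at h1
    show _ + rho (1 - X) + lam (1 - (X + e p q W)) = 0
    rw [NN_zr]
    linarith
  up := by
    intro X S
    have h1 := h.up (1 - S) (1 - X)
    show _ + rho (1 - X) + lam (1 - S) ≤ 1
    rw [NN_zr]
    linarith
  lo := by
    intro X S
    have h1 := h.lo (1 - S) (1 - X)
    show -1 ≤ _ + rho (1 - X) + lam (1 - S)
    rw [NN_zr]
    linarith

theorem lvl_zr (z : ZMod p → ZMod (p * q)) (W : ZMod p) (y u : ZMod (p * q) → ℤ)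
    (h : Lvl q a b z W y u) :
    Lvl q b a (zr q z) W (fun X => 1 - u (1 - X)) (fun S => 1 - y (1 - S)) where
  y01 := by
    intro X
    show 1 - u (1 - X) = 0 ∨ 1 - u (1 - X) = 1
    rcases h.u01 (1 - X) with h1 | h1
    · right; rw [h1]; norm_num
    · left; rw [h1]; norm_num
  u01 := by
    intro S
    show 1 - y (1 - S) = 0 ∨ 1 - y (1 - S) = 1
    rcases h.y01 (1 - S) with h1 | h1
    · right; rw [h1]; norm_num
    · left; rw [h1]; norm_num
  yR := by
    intro j hj
    obtain ⟨h1, h2⟩ := h.uB j hj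
    have e1 : (1 : ZMod (p * q)) - zr q z j = sc q z j + 1 := by unfold zr; ring
    have e2 : (1 : ZMod (p * q)) - (zr q z j + 1) = sc q z j := by unfold zr; ring
    show 1 - u (1 - zr q z j) = 1 ∧ 1 - u (1 - (zr q z j + 1)) = 0
    rw [e1, e2, h1, h2]
    norm_num
  yL := by
    intro j hj
    obtain ⟨h1, h2⟩ := h.uT j hj
    have e1 : (1 : ZMod (p * q)) - (zr q z j - a * q) = sc q z j + a * q + 1 := by unfold zr; ring
    have e2 : (1 : ZMod (p * q)) - (zr q z j - a * q + 1) = sc q z j + a * q := by unfold zr; ring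
    show 1 - u (1 - (zr q z j - a * q)) = 0 ∧ 1 - u (1 - (zr q z j - a * q + 1)) = 1
    rw [e1, e2, h1, h2]
    norm_num
  yC := by
    intro X hR hL
    have h1 := h.uC (-X) (fun j hj h' => hR j hj ((c1 z j X).2 h'))
      (fun j hj h' => hL j hj ((c2 z j X _).2 h'))
    have e1 : (1 : ZMod (p * q)) - (X + 1) = -X := by ring
    have e2 : (1 : ZMod (p * q)) - X = -X + 1 := by ring
    show 1 - u (1 - (X + 1)) = 1 - u (1 - X)
    rw [e1, e2, h1]
  uB := by
    intro j hj
    obtain ⟨h1, h2⟩ := h.yR j hj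
    have e1 : (1 : ZMod (p * q)) - sc q (zr q z) j = z j + 1 := by rw [sc_zr]; ring
    have e2 : (1 : ZMod (p * q)) - (sc q (zr q z) j + 1) = z j := by rw [sc_zr]; ring
    show 1 - y (1 - sc q (zr q z) j) = 1 ∧ 1 - y (1 - (sc q (zr q z) j + 1)) = 0
    rw [e1, e2, h1, h2]
    norm_num
  uT := by
    intro j hj
    obtain ⟨h1, h2⟩ := h.yL j hj
    have e1 : (1 : ZMod (p * q)) - (sc q (zr q z) j + b * q) = z j - b * q + 1 := by
      rw [sc_zr]; ring
    have e2 : (1 : ZMod (p * q)) - (sc q (zr q z) j + b * q + 1) = z j - b * q := by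
      rw [sc_zr]; ring
    show 1 - y (1 - (sc q (zr q z) j + b * q)) = 0 ∧ 1 - y (1 - (sc q (zr q z) j + b * q + 1)) = 1
    rw [e1, e2, h1, h2]
    norm_num
  uC := by
    intro S hB hT
    have h1 := h.yC (-S) (fun j hj h' => hB j hj ((c3 z j S).2 h'))
      (fun j hj h' => hT j hj ((c4 z j S _).2 h'))
    have e1 : (1 : ZMod (p * q)) - (S + 1) = -S := by ring
    have e2 : (1 : ZMod (p * q)) - S = -S + 1 := by ring
    show 1 - y (1 - (S + 1)) = 1 - y (1 - S)
    rw [e1, e2, h1]
  inn := by
    intro j X hX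
    have h0 := (box_zr z j X (X + e p q W)).1 hX
    rw [← line_pt X (e p q W)] at h0
    obtain ⟨h1, h2⟩ := h.inn j _ h0
    rw [line_pt] at h2
    show 1 - u (1 - X) = 1 ∧ 1 - y (1 - (X + e p q W)) = 0
    rw [h1, h2]
    norm_num
  out := by
    intro X hX
    have h1 := h.out (1 - (X + e p q W)) (by
      intro j hj
      rw [line_pt] at hj
      exact hX j ((box_zr z j X (X + e p q W)).2 hj))
    rw [line_pt] at h1
    show 1 - u (1 - X) = 1 - y (1 - (X + e p q W))
    rw [h1]
  flat := by
    intro j X S hX hS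
    have h0 := (box_zr z j X S).1 hX
    have h1 : 1 - y (1 - S) = 1 := hS
    show 1 - u (1 - X) = 1
    rcases h.u01 (1 - X) with h2 | h2
    · rw [h2]; norm_num
    · have h3 := h.flat j _ _ h0 h2
      rw [h3] at h1
      norm_num at h1

end REFaux

open REFaux in
/-- REF -/
theorem ref : StRef := by
  intro p q a b _ _ _ z
  exact ⟨sc_zr z, box_zr z, gen_zr z, disj_zr z, ld_zr z, lvl_zr z⟩

end Helper11.N1
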