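import Pool.Agent.Helper11.N1.StB

set_option autoImplicit false

namespace Helper11.N1

namespace REFBaux

theorem arc {M : ℕ} [NeZero M] (P l X : ZMod M) :
    off X l < off P l ↔ off (P + 1) X < off P l := by
  have hM : 0 < M := Nat.pos_of_ne_zero (NeZero.ne M)
  rcases Nat.eq_zero_or_pos (off P l) with h0 | h0
  · rw [h0]
    constructor <;> intro h <;> exact absurd h (Nat.not_lt_zero _)
  · have h1M : 1 < M := by
      have := off_lt P l
      omega
    have h1 : off P (P + 1) = 1 := by
      have := off_nat P h1M
      rw [Nat.cast_one] at this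
      exact this
    have h2 : off (P + 1) l + 1 = off P l := by
      rcases off_add P (P + 1) l with h | h
      · omega
      · have := off_lt (P + 1) l
        omega
    have h3 := off_lt X l
    have h4 := off_lt (P + 1) X
    rcases off_add (P + 1) X l with h | h <;> omega

variable {p : ℕ} (q a b : ℕ) [NeZero p] [NeZero q] (z : ZMod p → ZMod (p * q))

theorem zr_zr : zr q (zr q z) = z := by
  funext j
  unfold zr sc
  ring

theorem eb (j : ZMod p) (b : ℕ) : e p q (j - b) = e p q j - b * q := by
  rw [e_sub, e_natCast]
  push_cast
  ring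

theorem offPl (j : ZMod p) :
    off (zr q z (j - b)) (zr q z j) = off (z j) (z (j - b) - b * q) := by
  unfold off zr sc
  rw [eb]
  congr 1
  ring

theorem lemA (j : ZMod p) (X : ZMod (p * q)) :
    A q b (zr q z) j (1 - X - e p q j) ↔ H q b z j X := by
  unfold A H
  rw [offPl, ← arc]
  have h : off (zr q z (j - b) + 1) (1 - X - e p q j) = off X (z (j - b) - b * q) := by
    unfold off zr sc
    rw [eb]
    congr 1
    ring
  rw [h]

theorem lem2 (y : ZMod p → ZMod (p * q) → ℤ) (j : ZMod p) :
    UU q b a (zr q z) (fun W S => 1 - y W (1 - S)) j ↔ YY q a b z y j := by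
  unfold UU YY
  constructor
  · intro h W hW X hX
    have h1 := h W hW (1 - X) ((lemA q b z j X).2 hX)
    simp only [sub_sub_cancel] at h1
    omega
  · intro h W hW S hS
    have hS' : A q b (zr q z) j (1 - (1 - S) - e p q j) := by
      rw [sub_sub_cancel]; exact hS
    have h1 := h W hW (1 - S) ((lemA q b z j (1 - S)).1 hS')
    simp only [h1]
    norm_num

end REFBaux

open REFBaux in
theorem refb : StRef → StRow → StRefB := by
  intro hRef hRow p q a b _ _ hpar z hg hd y u hw
  have hr := hRef p q a b hpar z
  refine ⟨fun W => hr.2.2.2.2.2 W (y W) (u W) (hw W), fun j => lem2 q a b z y j, fun j => ?_,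
    fun j hj => ?_⟩
  · have h1 := lem2 q b a (zr q z) (fun W X => 1 - u W (1 - X)) j
    rw [zr_zr] at h1
    simp only [sub_sub_cancel] at h1
    exact h1.symm
  · obtain ⟨_, _, h1, h2⟩ := hRow p q a b hpar z hg hd y u hw j
    have hne : z (j - a - b) - b * q ≠ z j := by
      intro h
      have h3 : res p q (z (j - a - b)) = res p q (z j) := by
        rw [← h, map_sub, res_mul_q, sub_zero]
      have h4 := gen_res p q hg h3
      have h5 : (((a + b : ℕ)) : ZMod p) = 0 := by
        have h6 : ((a : ZMod p) + b) = 0 := by
          have h7 : j - a - b - j = 0 := by rw [h4, sub_self]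
          have h8 : j - a - b - j = - ((a : ZMod p) + b) := by ring
          rw [h8, neg_eq_zero] at h7
          exact h7
        rw [Nat.cast_add]; exact h6
      rw [ZMod.natCast_eq_zero_iff] at h5
      have h6 := Nat.le_of_dvd (by have := hpar.ha; omega) h5
      have := hpar.hab
      omega
    set r := z (j - a) with hrdef
    set t := z (j - a - b) - b * q with htdef
    set l := z (j - b) - b * q with hldef
    have h3 : off r t ≠ off r (z j) := fun h => hne (off_inj_left h)
    have h4 : off (zr q z (j - b)) (zr q z j) = off (z j) l := offPl q b z j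
    have h5 : off (zr q z (j - b)) (zr q z (j - b - a) - a * q) = off t l := by
      have h6 : j - b - a = j - a - b := by ring
      rw [h6, htdef, hldef]
      unfold off zr sc
      rw [eb, show j - a - b = (j - a) - (b : ZMod p) from rfl, eb, eb]
      congr 1
      ring
    rw [h4, h5]
    have h7 := off_lt (z j) l
    have h8 := off_lt t l
    rcases off_add r (z j) l with h9 | h9 <;> rcases off_add r t l with h10 | h10 <;> omega

end Helper11.N1
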