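import Pool.Agent.Helper11.N1.StB

set_option autoImplicit false
set_option linter.unusedSectionVars false

/-!
Module ROW of project N1: the row lemma.
-/

namespace Helper11.N1

namespace ROWaux

open Classical in
/-- moving a window of rows of length `a` by one step -/
theorem window {p : ℕ} [NeZero p] {T : Type*} [DecidableEq T] (g : ZMod p → T) (hg : Function.Injective g)
    (a : ℕ) (ha : 1 ≤ a) (hap : a < p) (j : ZMod p) (x : T) :
    (if ∃ i, (j - i).val < a ∧ g i = x then (1 : ℤ) else 0) -
      (if ∃ i, (j - 1 - i).val < a ∧ g i = x then 1 else 0) =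
    (if x = g j then 1 else 0) - (if x = g (j - a) then 1 else 0) := by
  by_cases hx : ∃ i, g i = x
  · obtain ⟨i, hi⟩ := hx
    have hp : 1 < p := by omega
    have h1 : (∃ i', (j - i').val < a ∧ g i' = x) ↔ (j - i).val < a := by
      constructor
      · rintro ⟨i', h, h'⟩
        have : i' = i := hg (h'.trans hi.symm)
        rw [← this]; exact h
      · intro h
        exact ⟨i, h, hi⟩
    have h2 : (∃ i', (j - 1 - i').val < a ∧ g i' = x) ↔ (j - 1 - i).val < a := by
      constructor
      · rintro ⟨i', h, h'⟩
        have : i' = i := hg (h'.trans hi.symm)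
        rw [← this]; exact h
      · intro h
        exact ⟨i, h, hi⟩
    have h3 : (x = g j) ↔ (j - i).val = 0 := by
      rw [ZMod.val_eq_zero, sub_eq_zero, ← hi]
      constructor
      · intro h; exact (hg h).symm
      · intro h; rw [h]
    have h4 : (x = g (j - a)) ↔ (j - i).val = a := by
      rw [← hi]
      constructor
      · intro h
        have : i = j - a := hg h
        rw [this, sub_sub_cancel, ZMod.val_natCast, Nat.mod_eq_of_lt hap]
      · intro h
        have : j - i = (a : ZMod p) := by rw [← h, ZMod.natCast_zmod_val]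
        have h' : i = j - a := by rw [← this]; ring
        rw [h']
    have h5 : ((j - i).val = 0 ∧ (j - 1 - i).val = p - 1) ∨
        (1 ≤ (j - i).val ∧ (j - 1 - i).val + 1 = (j - i).val) := by
      rcases Nat.eq_zero_or_pos (j - i).val with h | h
      · left
        refine ⟨h, ?_⟩
        have h0 : j - i = 0 := (ZMod.val_eq_zero _).1 h
        have : j - 1 - i = -1 := by
          have : j - 1 - i = (j - i) - 1 := by ring
          rw [this, h0]; ring
        rw [this]
        have hh : ((p - 1 : ℕ) : ZMod p) = -1 := by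
          rw [Nat.cast_sub (by omega)]
          simp
        rw [← hh, ZMod.val_natCast, Nat.mod_eq_of_lt (by omega)]
      · right
        refine ⟨h, ?_⟩
        have hlt := ZMod.val_lt (j - i)
        have : j - 1 - i = (((j - i).val - 1 : ℕ) : ZMod p) := by
          rw [Nat.cast_sub (by omega), ZMod.natCast_zmod_val]
          push_cast; ring
        rw [this, ZMod.val_natCast, Nat.mod_eq_of_lt (by omega)]
        omega
    simp only [h1, h2, h3, h4]
    split_ifs <;> omega
  · have h1 : ¬ (∃ i', (j - i').val < a ∧ g i' = x) := by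
      rintro ⟨i', _, h'⟩; exact hx ⟨i', h'⟩
    have h2 : ¬ (∃ i', (j - 1 - i').val < a ∧ g i' = x) := by
      rintro ⟨i', _, h'⟩; exact hx ⟨i', h'⟩
    have h3 : ¬ (x = g j) := fun h => hx ⟨_, h.symm⟩
    have h4 : ¬ (x = g (j - a)) := fun h => hx ⟨_, h.symm⟩
    simp only [h1, h2, h3, h4, if_false]

section

variable {p q a b : ℕ} [NeZero p] [NeZero q] {z : ZMod p → ZMod (p * q)}

theorem cast_val (n : ℕ) (hn : n < p * q) : ((n : ℕ) : ZMod (p * q)).val = n := by
  rw [ZMod.val_natCast, Nat.mod_eq_of_lt hn]

/-- `b q` is not zero on the circle -/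
theorem bq_ne (hq : 1 ≤ q) (b : ℕ) (hb : 1 ≤ b) (hbp : b < p) :
    ((b : ZMod (p * q)) * (q : ZMod (p * q))) ≠ 0 := by
  intro h
  have h1 : ((b * q : ℕ) : ZMod (p * q)) = 0 := by push_cast; exact h
  have h2 : b * q < p * q := Nat.mul_lt_mul_of_pos_right hbp (by omega)
  have h3 := cast_val (p := p) (q := q) (b * q) h2
  rw [h1, ZMod.val_zero] at h3
  have : 0 < b * q := Nat.mul_pos (by omega) (by omega)
  omega

/-- the residue of a shift by a multiple of `q` -/
theorem res_bq (b : ℕ) : res p q ((b : ZMod (p * q)) * (q : ZMod (p * q))) = 0 := res_mul_q p q _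

theorem res_z_bq (z : ZMod p → ZMod (p * q)) (b : ℕ) (i : ZMod p) :
    res p q (z i - (b : ZMod (p * q)) * q) = res p q (z i) := by
  rw [map_sub, res_bq, sub_zero]

theorem res_sc_aq (z : ZMod p → ZMod (p * q)) (a : ℕ) (i : ZMod p) :
    res p q (sc q z i + (a : ZMod (p * q)) * q) = res p q (z i) := by
  rw [map_add, res_bq, add_zero, res_sc]

theorem e_cast (n : ℕ) : e p q (n : ZMod p) = (n : ZMod (p * q)) * q := by
  rw [e_natCast]; push_cast; ring

open Classical in
/-- jump of `y` -/
theorem jump_y (hpar : Par p q a b) (hg : Gen q z) {y u : ZMod (p * q) → ℤ} {W : ZMod p}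
    (hl : Lvl q a b z W y u) (x : ZMod (p * q)) :
    y (x + 1) - y x = (if ∃ i, aL a b W i ∧ z i - b * q = x then (1 : ℤ) else 0) -
      (if ∃ i, aR a W i ∧ z i = x then 1 else 0) := by
  by_cases h1 : ∃ i, aR a W i ∧ z i = x
  · have h2 : ¬ ∃ i, aL a b W i ∧ z i - b * q = x := by
      rintro ⟨k, _, hk⟩
      obtain ⟨i, _, hi⟩ := h1
      have hki : k = i := by
        apply gen_res p q hg
        rw [hi, ← hk, res_z_bq]
      rw [hki, ← hi] at hk
      apply bq_ne (p := p) hpar.hq b (by have := hpar.hb; omega) (by have := hpar.hab; omega)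
      linear_combination -hk
    rw [if_neg h2, if_pos h1]
    obtain ⟨i, hR, hi⟩ := h1
    have := hl.yR i hR
    rw [← hi, this.1, this.2]
  · rw [if_neg h1]
    by_cases h2 : ∃ i, aL a b W i ∧ z i - b * q = x
    · rw [if_pos h2]
      obtain ⟨i, hL, hi⟩ := h2
      have := hl.yL i hL
      rw [← hi, this.1, this.2]
    · rw [if_neg h2, hl.yC x (fun i hi h => h1 ⟨i, hi, h⟩) (fun i hi h => h2 ⟨i, hi, h⟩)]
      ring

open Classical in
/-- jump of `u` -/
theorem jump_u (hpar : Par p q a b) (hg : Gen q z) {y u : ZMod (p * q) → ℤ} {W : ZMod p}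
    (hl : Lvl q a b z W y u) (S : ZMod (p * q)) :
    u (S + 1) - u S = (if ∃ i, aT a b W i ∧ sc q z i + a * q = S then (1 : ℤ) else 0) -
      (if ∃ i, aB b W i ∧ sc q z i = S then 1 else 0) := by
  by_cases h1 : ∃ i, aB b W i ∧ sc q z i = S
  · have h2 : ¬ ∃ i, aT a b W i ∧ sc q z i + a * q = S := by
      rintro ⟨k, _, hk⟩
      obtain ⟨i, _, hi⟩ := h1
      have hki : k = i := by
        apply gen_res p q hg
        rw [← res_sc_aq z a k, hk, ← hi, res_sc]
      rw [hki, ← hi] at hk
      apply bq_ne (p := p) hpar.hq a (by have := hpar.ha; omega) (by have := hpar.hab; omega)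
      linear_combination hk
    rw [if_neg h2, if_pos h1]
    obtain ⟨i, hB, hi⟩ := h1
    have := hl.uB i hB
    rw [← hi, this.1, this.2]
  · rw [if_neg h1]
    by_cases h2 : ∃ i, aT a b W i ∧ sc q z i + a * q = S
    · rw [if_pos h2]
      obtain ⟨i, hT, hi⟩ := h2
      have := hl.uT i hT
      rw [← hi, this.1, this.2]
    · rw [if_neg h2, hl.uC S (fun i hi h => h1 ⟨i, hi, h⟩) (fun i hi h => h2 ⟨i, hi, h⟩)]
      ring

theorem z_inj (hg : Gen q z) : Function.Injective z := by
  intro i k h
  apply gen_res p q hg
  rw [h]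

open Classical in
/-- step (1) for `y` -/
theorem step_y (hpar : Par p q a b) (hg : Gen q z) {y u : ZMod p → ZMod (p * q) → ℤ}
    (hw : World q a b z y u) (j : ZMod p) (x : ZMod (p * q)) :
    (y j (x + 1) - y (j + 1) (x + 1)) - (y j x - y (j + 1) x) =
      (if x = z j then 1 else 0) + (if x = z (j - a - b) - b * q then 1 else 0) -
      (if x = z (j - a) then 1 else 0) - (if x = z (j - b) - b * q then 1 else 0) := by
  have hp1 := hpar.ha
  have hp2 := hpar.hb
  have hp3 := hpar.hab
  have h1 := jump_y hpar hg (hw j) x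
  have h2 := jump_y hpar hg (hw (j + 1)) x
  have h3 := window z (z_inj hg) a (by omega) (by omega) j x
  have h4 := window (fun i => z i - b * q) (fun i k h => z_inj hg (sub_left_injective h)) a
    (by omega) (by omega) (j - b) x
  have e1 : ∀ i, aR a (j + 1) i ↔ (j - i).val < a := by
    intro i; unfold aR; rw [add_sub_cancel_right]
  have e2 : ∀ i, aR a j i ↔ (j - 1 - i).val < a := fun i => Iff.rfl
  have e3 : ∀ i, aL a b (j + 1) i ↔ (j - b - i).val < a := by
    intro i; unfold aL
    have : j + 1 - (b : ZMod p) - 1 - i = j - b - i := by ring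
    rw [this]
  have e4 : ∀ i, aL a b j i ↔ (j - b - 1 - i).val < a := fun i => Iff.rfl
  simp only [e1, e3] at h2
  simp only [e2, e4] at h1
  have e5 : j - (b : ZMod p) - a = j - a - b := by ring
  simp only [e5] at h4
  linarith

open Classical in
/-- step (1) for `u` -/
theorem step_u (hpar : Par p q a b) (hg : Gen q z) {y u : ZMod p → ZMod (p * q) → ℤ}
    (hw : World q a b z y u) (j : ZMod p) (x : ZMod (p * q)) :
    (u j (x + 1 + e p q j) - u (j + 1) (x + 1 + e p q j)) -
      (u j (x + e p q j) - u (j + 1) (x + e p q j)) =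
      (if x = z j then 1 else 0) + (if x = z (j - a - b) - b * q then 1 else 0) -
      (if x = z (j - a) then 1 else 0) - (if x = z (j - b) - b * q then 1 else 0) := by
  have hp1 := hpar.ha
  have hp2 := hpar.hb
  have hp3 := hpar.hab
  have h1 := jump_u hpar hg (hw j) (x + e p q j)
  have h2 := jump_u hpar hg (hw (j + 1)) (x + e p q j)
  have hsc : Function.Injective (sc q z) := by
    intro i k h
    apply gen_res p q hg
    rw [← res_sc p q z i, ← res_sc p q z k, h]
  have h3 := window (sc q z) hsc b (by omega) (by omega) j (x + e p q j)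
  have h4 := window (fun i => sc q z i + a * q) (fun i k h => hsc (add_left_injective _ h)) b
    (by omega) (by omega) (j - a) (x + e p q j)
  have e1 : ∀ i, aB b (j + 1) i ↔ (j - i).val < b := by
    intro i; unfold aB; rw [add_sub_cancel_right]
  have e2 : ∀ i, aB b j i ↔ (j - 1 - i).val < b := fun i => Iff.rfl
  have e3 : ∀ i, aT a b (j + 1) i ↔ (j - a - i).val < b := by
    intro i; unfold aT
    have : j + 1 - (a : ZMod p) - 1 - i = j - a - i := by ring
    rw [this]
  have e4 : ∀ i, aT a b j i ↔ (j - a - 1 - i).val < b := fun i => Iff.rfl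
  simp only [e1, e3] at h2
  simp only [e2, e4] at h1
  have f1 : (x + e p q j = sc q z j) ↔ x = z j := by
    unfold sc
    exact add_left_inj _
  have f2 : (x + e p q j = sc q z (j - b)) ↔ x = z (j - b) - b * q := by
    unfold sc
    rw [e_sub, e_cast]
    constructor
    · intro h; linear_combination h
    · intro h; linear_combination h
  have f3 : (x + e p q j = sc q z (j - a) + a * q) ↔ x = z (j - a) := by
    unfold sc
    rw [e_sub, e_cast]
    constructor
    · intro h; linear_combination h
    · intro h; linear_combination h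
  have f4 : (x + e p q j = sc q z (j - a - b) + a * q) ↔ x = z (j - a - b) - b * q := by
    unfold sc
    rw [e_sub, e_sub, e_cast, e_cast]
    constructor
    · intro h; linear_combination h
    · intro h; linear_combination h
  simp only [f1, f2] at h3
  simp only [f3, f4] at h4
  have e6 : x + 1 + e p q j = x + e p q j + 1 := by ring
  rw [e6]
  linarith

/-- a function on the circle without jumps is constant -/
theorem const_of_step {M : ℕ} [NeZero M] (f : ZMod M → ℤ) (h : ∀ x, f (x + 1) = f x)
    (x y : ZMod M) : f x = f y := by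
  have h1 : ∀ n : ℕ, f (y + n) = f y := by
    intro n
    induction n with
    | zero => simp
    | succ n ih =>
      have : y + ((n + 1 : ℕ) : ZMod M) = y + n + 1 := by push_cast; ring
      rw [this, h, ih]
  have h2 := off_spec y x
  rw [← h2, h1]

end

end ROWaux

open ROWaux in
theorem row : StBL → StRow := by
  intro hBL p q a b _ _ hpar z hg hd y u hw j
  classical
  have ha := hpar.ha
  have hb := hpar.hb
  have hab := hpar.hab
  have hq := hpar.hq
  have m1 : (a + b) * q + q ≤ p * q := by
    have : (a + b + 1) * q ≤ p * q := Nat.mul_le_mul_right q (by omega)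
    linarith [Nat.succ_mul (a + b) q]
  have m2 : (a + b) * q = a * q + b * q := Nat.add_mul a b q
  have m3 : q + q ≤ a * q := by
    have : 2 * q ≤ a * q := Nat.mul_le_mul_right q ha
    omega
  have m4 : q + q ≤ b * q := by
    have : 2 * q ≤ b * q := Nat.mul_le_mul_right q hb
    omega
  have cbq : ((b * q : ℕ) : ZMod (p * q)) = (b : ZMod (p * q)) * q := by push_cast; ring
  have caq : ((a * q : ℕ) : ZMod (p * q)) = (a : ZMod (p * q)) * q := by push_cast; ring
  -- the four points
  obtain ⟨P, hP⟩ : ∃ P, P = z j := ⟨_, rfl⟩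
  obtain ⟨r, hr⟩ : ∃ r, r = z (j - a) := ⟨_, rfl⟩
  obtain ⟨l, hl⟩ : ∃ l, l = z (j - b) - b * q := ⟨_, rfl⟩
  obtain ⟨t, ht⟩ : ∃ t, t = z (j - a - b) - b * q := ⟨_, rfl⟩
  obtain ⟨c, hc⟩ : ∃ c : ZMod (p * q) → ℤ, ∀ x, c x = y j x - y (j + 1) x := ⟨_, fun _ => rfl⟩
  obtain ⟨c', hc'⟩ : ∃ c' : ZMod (p * q) → ℤ, ∀ x, c' x = u j (x + e p q j) - u (j + 1) (x + e p q j) :=
    ⟨_, fun _ => rfl⟩
  have s1 : ∀ x, c (x + 1) - c x = (if x = P then 1 else 0) + (if x = t then 1 else 0) -
      (if x = r then 1 else 0) - (if x = l then 1 else 0) := by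
    intro x
    rw [hc, hc, hP, hr, hl, ht]
    exact step_y hpar hg hw j x
  have s2 : ∀ x, c' (x + 1) - c' x = (if x = P then 1 else 0) + (if x = t then 1 else 0) -
      (if x = r then 1 else 0) - (if x = l then 1 else 0) := by
    intro x
    rw [hc', hc', hP, hr, hl, ht]
    exact step_u hpar hg hw j x
  -- rows are different
  have cne : ∀ n : ℕ, 0 < n → n < p → (n : ZMod p) ≠ 0 := by
    intro n hn hnp h
    have h1 : ((n : ℕ) : ZMod p).val = n := by rw [ZMod.val_natCast, Nat.mod_eq_of_lt hnp]
    rw [h, ZMod.val_zero] at h1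
    omega
  have resz : ∀ i k : ZMod p, res p q (z i) = res p q (z k) → i = k := fun i k h =>
    gen_res p q hg h
  have resP : res p q P = res p q (z j) := by rw [hP]
  have resr : res p q r = res p q (z (j - a)) := by rw [hr]
  have resl : res p q l = res p q (z (j - b)) := by rw [hl, res_z_bq]
  have rest : res p q t = res p q (z (j - a - b)) := by rw [ht, res_z_bq]
  have nrP : r ≠ P := by
    intro h
    have h1 := resz (j - a) j (by rw [← resr, h, resP])
    exact cne a (by omega) (by omega) (by linear_combination -h1)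
  have nrt : r ≠ t := by
    intro h
    have h1 := resz (j - a) (j - a - b) (by rw [← resr, h, rest])
    exact cne b (by omega) (by omega) (by linear_combination h1)
  have nrl : r ≠ l := by
    intro h
    have h1 := resz (j - a) (j - b) (by rw [← resr, h, resl])
    rw [hr, hl, h1] at h
    exact bq_ne (p := p) hq b (by omega) (by omega) (by linear_combination h)
  -- (2) c = c'
  have nobox : ∀ i, ¬ box q a b z i (z j) (z j + e p q j) := by
    rintro i ⟨h1, h2⟩
    have h2' : off (sc q z i + 1) (sc q z j) < a * q := h2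
    have hlt : off (sc q z i + 1) (sc q z j) + 1 < (p * q) := by omega
    have hadd : off (sc q z i + 1) (sc q z j + 1) = off (sc q z i + 1) (sc q z j) + 1 := by
      have h3 := off_spec (sc q z i + 1) (sc q z j)
      conv_lhs => rw [← h3]
      have h4 : sc q z i + 1 + ((off (sc q z i + 1) (sc q z j) : ℕ) : ZMod (p * q)) + 1 =
        sc q z i + 1 + ((off (sc q z i + 1) (sc q z j) + 1 : ℕ) : ZMod (p * q)) := by push_cast; ring
      rw [h4, off_nat _ hlt]
    have hne : off (sc q z i + 1) (sc q z j) + 1 ≠ a * q := by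
      intro h3
      have h4 := off_spec (sc q z i) (sc q z j)
      have h5 := off_spec (sc q z i + 1) (sc q z j)
      have h6 : sc q z j = sc q z i + ((off (sc q z i + 1) (sc q z j) + 1 : ℕ) : ZMod (p * q)) := by
        conv_lhs => rw [← h5]
        push_cast; ring
      rw [h3, caq] at h6
      have h7 := resz j i (by rw [← res_sc p q z j, h6, res_sc_aq])
      rw [h7] at h6
      exact bq_ne (p := p) hq a (by omega) (by omega) (by linear_combination -h6)
    have h3 : box q a b z i (z j) (sc q z j + 1) := ⟨h1, by omega⟩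
    have h4 : box q a b z j (z j) (sc q z j + 1) := by
      refine ⟨?_, ?_⟩
      · rw [off_self]; omega
      · rw [off_self]; omega
    have h5 := hd _ _ _ _ h3 h4
    rw [h5] at hadd h2'
    rw [off_self] at hadd
    omega
  have cP : c P = c' P := by
    rw [hc, hc', hP]
    have h1 := (hw j).out (z j) nobox
    have h2 := ((hw (j + 1)).yR j (by unfold aR; rw [add_sub_cancel_right, sub_self, ZMod.val_zero]; omega)).1
    have h3 := ((hw (j + 1)).uB j (by unfold aB; rw [add_sub_cancel_right, sub_self, ZMod.val_zero]; omega)).1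
    have h4 : u (j + 1) (z j + e p q j) = 1 := h3
    rw [h1, h2, h4]
  have cc : ∀ x, c x = c' x := by
    intro x
    have h1 := const_of_step (fun x => c x - c' x) (fun x => by
      have h1 := s1 x
      have h2 := s2 x
      linarith) x P
    rw [cP] at h1
    linarith
  -- (3) c l = 1
  have vb : (j - (j - (b : ZMod p))).val = b := by
    rw [sub_sub_cancel, ZMod.val_natCast, Nat.mod_eq_of_lt (by omega)]
  have va : (j - (j - (a : ZMod p))).val = a := by
    rw [sub_sub_cancel, ZMod.val_natCast, Nat.mod_eq_of_lt (by omega)]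
  have cl : c l = 1 := by
    have hoff : off (l + 1) (z (j - b)) = b * q - 1 := by
      have h1 : z (j - b) = l + 1 + ((b * q - 1 : ℕ) : ZMod (p * q)) := by
        rw [Nat.cast_sub (by omega), cbq, hl]
        push_cast; ring
      conv_lhs => rw [h1]
      exact off_nat _ (by omega)
    have hbox : box q a b z (j - b) (l + 1) (l + 1 + e p q j) := by
      rw [(hBL p q a b hpar z j (j - b)).1 (l + 1), hoff, vb]
      have h1 : (b - a) * q ≤ (b - 1) * q := Nat.mul_le_mul_right q (by omega)
      have h2 : (b - 1) * q = b * q - q := by rw [Nat.sub_mul, one_mul]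
      omega
    have h1 := ((hw j).inn (j - b) (l + 1) hbox).1
    have h2 : y j (l + 1) = y j l := by
      apply (hw j).yC l
      · intro i _ h
        have h3 := resz i (j - b) (by rw [h, resl])
        rw [h3, hl] at h
        exact bq_ne (p := p) hq b (by omega) (by omega) (by linear_combination h)
      · intro i hi h
        have h3 := resz i (j - b) (by rw [← resl, ← h, res_z_bq])
        rw [h3] at hi
        unfold aL at hi
        have h4 : j - (b : ZMod p) - 1 - (j - b) = ((p - 1 : ℕ) : ZMod p) := by
          rw [Nat.cast_sub (by omega), ZMod.natCast_self]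
          push_cast; ring
        rw [h4, ZMod.val_natCast, Nat.mod_eq_of_lt (by omega)] at hi
        omega
    have h3 := ((hw (j + 1)).yL (j - b) (by
      unfold aL
      have h4 : j + 1 - (b : ZMod p) - 1 - (j - b) = 0 := by ring
      rw [h4, ZMod.val_zero]; omega)).1
    rw [hc, ← h2, h1, hl, h3]
    norm_num
  -- (4) c r = 0
  have cr : c r = 0 := by
    rw [cc, hc']
    have hbox : box q a b z (j - a) r (r + e p q j) := by
      rw [(hBL p q a b hpar z j (j - a)).1 r, va, hr, off_self]
      refine ⟨?_, by omega, by omega⟩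
      rw [Nat.sub_self, zero_mul]
    have h1 := ((hw j).inn (j - a) r hbox).2
    have h3 := ((hw (j + 1)).uT (j - a) (by
      unfold aT
      have h4 : j + 1 - (a : ZMod p) - 1 - (j - a) = 0 := by ring
      rw [h4, ZMod.val_zero]; omega)).1
    have h5 : sc q z (j - a) + a * q = r + e p q j := by
      unfold sc
      rw [e_sub, e_cast, hr]
      ring
    rw [h5] at h3
    rw [h1, h3]
    norm_num
  -- (5)
  obtain ⟨π, hπ⟩ : ∃ π, π = off r P := ⟨_, rfl⟩
  obtain ⟨τ, hτ⟩ : ∃ τ, τ = off r t := ⟨_, rfl⟩
  obtain ⟨lam, hlam⟩ : ∃ lam, lam = off r l := ⟨_, rfl⟩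
  have π1 : 1 ≤ π := by
    rcases Nat.eq_zero_or_pos π with h | h
    · rw [hπ] at h; exact absurd (off_eq_zero.1 h) nrP
    · exact h
  have τ1 : 1 ≤ τ := by
    rcases Nat.eq_zero_or_pos τ with h | h
    · rw [hτ] at h; exact absurd (off_eq_zero.1 h) nrt
    · exact h
  have lam1 : 1 ≤ lam := by
    rcases Nat.eq_zero_or_pos lam with h | h
    · rw [hlam] at h; exact absurd (off_eq_zero.1 h) nrl
    · exact h
  have πM : π < (p * q) := by rw [hπ]; exact off_lt _ _
  have τM : τ < (p * q) := by rw [hτ]; exact off_lt _ _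
  have lamM : lam < (p * q) := by rw [hlam]; exact off_lt _ _
  have hat : ∀ (w : ZMod (p * q)) (n : ℕ), n < (p * q) → ((r + (n : ZMod (p * q)) = w) ↔ off r w = n) := by
    intro w n hn
    constructor
    · intro h; rw [← h, off_nat _ hn]
    · intro h; rw [← h, off_spec]
  have key : ∀ n : ℕ, 1 ≤ n → n ≤ (p * q) → c (r + n) = -1 + (if π < n then 1 else 0) +
      (if τ < n then 1 else 0) - (if lam < n then 1 else 0) := by
    intro n hn
    induction n, hn using Nat.le_induction with
    | base =>
      intro _
      have h1 := s1 r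
      rw [cr, if_neg nrP, if_neg nrt, if_pos rfl, if_neg nrl] at h1
      rw [if_neg (by omega), if_neg (by omega), if_neg (by omega)]
      push_cast
      linarith
    | succ n hn ih =>
      intro hnM
      have ih' := ih (by omega)
      have h1 := s1 (r + n)
      have e1 : r + ((n + 1 : ℕ) : ZMod (p * q)) = r + n + 1 := by push_cast; ring
      rw [e1]
      simp only [hat _ n (by omega), ← hπ, ← hτ, ← hlam, off_self] at h1
      have h2 : c (r + n + 1) = c (r + n) + ((if π = n then 1 else 0) + (if τ = n then 1 else 0) -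
        (if 0 = n then 1 else 0) - (if lam = n then 1 else 0)) := by linarith
      rw [h2, ih']
      split_ifs <;> omega
  have hlast : π < lam ∧ τ < lam := by
    have h1 := key lam lam1 (by omega)
    have h2 : r + (lam : ZMod (p * q)) = l := by rw [hlam, off_spec]
    rw [h2, cl] at h1
    constructor
    · by_contra h
      rw [if_neg h] at h1
      split_ifs at h1 <;> omega
    · by_contra h
      rw [if_neg h] at h1
      split_ifs at h1 <;> omega
  have hA1 : ∀ x, A q a z j x ↔ off (r + 1) x < π := by
    intro x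
    unfold A
    rw [hπ, hr, hP]
  have htb : z (j - b - a) = t + b * q := by
    rw [ht]
    have : j - (b : ZMod p) - a = j - a - b := by ring
    rw [this]; ring
  have hlb : z (j - b) = l + b * q := by rw [hl]; ring
  have hA2 : ∀ x, A q a z (j - b) (x + b * q) ↔ off (t + 1) x < off t l := by
    intro x
    unfold A
    rw [htb, hlb, off_translate]
    have : t + b * q + 1 = t + 1 + (b : ZMod (p * q)) * q := by ring
    rw [this, off_translate]
  have htl : off t l = lam - τ := by
    have h1 := off_add r t l
    have h2 := off_lt t l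
    rw [← hτ, ← hlam] at h1
    omega
  have hmain : ∀ x, c x = (if A q a z (j - b) (x + b * q) then 1 else 0) -
      (if A q a z j x then 1 else 0) := by
    intro x
    obtain ⟨n, hn⟩ : ∃ n, n = off (r + 1) x := ⟨_, rfl⟩
    obtain ⟨m, hm⟩ : ∃ m, m = off (t + 1) x := ⟨_, rfl⟩
    have hnM : n < (p * q) := by rw [hn]; exact off_lt _ _
    have hmM : m < (p * q) := by rw [hm]; exact off_lt _ _
    have hx : r + ((n + 1 : ℕ) : ZMod (p * q)) = x := by
      have := off_spec (r + 1) x
      rw [← hn] at this
      conv_rhs => rw [← this]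
      push_cast; ring
    have h1 := key (n + 1) (by omega) (by omega)
    rw [hx] at h1
    have h2 : τ + m = n ∨ τ + m = n + (p * q) := by
      have h3 := off_add (r + 1) (t + 1) x
      rw [off_translate, ← hτ, ← hm, ← hn] at h3
      exact h3
    rw [h1]
    simp only [hA1, hA2, ← hn, ← hm, htl]
    obtain ⟨h4, h5⟩ := hlast
    split_ifs <;> omega
  refine ⟨?_, ?_, ?_, ?_⟩
  · intro x
    rw [← hc, hmain]
  · intro x
    rw [← hc', ← cc, hmain]
  · rw [← hr, ← hP, ← hl, ← hπ, ← hlam]
    exact hlast.1
  · rw [← hr, ← ht, ← hl, ← hτ, ← hlam]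
    exact hlast.2

end Helper11.N1
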