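import Pool.Agent.Helper11.N1.StA

set_option autoImplicit false

/-!
# UNI: jumps at single letters
-/

namespace Helper11.N1

namespace UNIaux

theorem sum_one {p : ℕ} [NeZero p] (P : ZMod p → Prop) {inst : DecidablePred P} (j : ZMod p)
    (hj : P j) (hu : ∀ i, P i → i = j) : (∑ i : ZMod p, if P i then (1 : ℤ) else 0) = 1 := by
  rw [Finset.sum_eq_single j]
  · rw [if_pos hj]
  · intro i _ hi
    rw [if_neg]
    exact fun h => hi (hu i h)
  · intro h
    exact absurd (Finset.mem_univ j) h

theorem sum_zero {p : ℕ} [NeZero p] (P : ZMod p → Prop) {inst : DecidablePred P}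
    (h : ∀ i, ¬ P i) : (∑ i : ZMod p, if P i then (1 : ℤ) else 0) = 0 :=
  Finset.sum_eq_zero fun i _ => if_neg (h i)

theorem cq_ne {p q c : ℕ} (hc : 0 < c) (hcp : c < p) (hq : 1 ≤ q) :
    (c * q : ZMod (p * q)) ≠ 0 := by
  intro h
  have h1 : ((c * q : ℕ) : ZMod (p * q)) = 0 := by
    push_cast
    exact h
  rw [ZMod.natCast_eq_zero_iff] at h1
  have h2 := Nat.le_of_dvd (Nat.mul_pos hc hq) h1
  have h3 : c * q < p * q := Nat.mul_lt_mul_of_pos_right hcp hq
  omega

end UNIaux

open UNIaux in
theorem uni : StUni := by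
  intro p q a b _ _ hP z hg W lam rho hL
  obtain ⟨ha, hb, hab, hq⟩ := hP
  have hbq : (b * q : ZMod (p * q)) ≠ 0 := cq_ne (by omega) (by omega) hq
  have haq : (a * q : ZMod (p * q)) ≠ 0 := cq_ne (by omega) (by omega) hq
  have hRR : ∀ i j, z i = z j → i = j := fun i j h => gen_res p q hg (by rw [h])
  have hLL : ∀ i j, z i - b * q = z j - b * q → i = j := fun i j h => hRR i j (sub_left_inj.1 h)
  have hRL : ∀ i j, z i ≠ z j - b * q := by
    intro i j h
    have h1 : i = j := gen_res p q hg (by rw [h, map_sub, res_mul_q, sub_zero])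
    subst h1
    exact hbq (sub_eq_self.1 h.symm)
  have hBB : ∀ i j, sc q z i = sc q z j → i = j := fun i j h =>
    gen_res p q hg (by rw [← res_sc p q z i, ← res_sc p q z j, h])
  have hTT : ∀ i j, sc q z i + a * q = sc q z j + a * q → i = j := fun i j h =>
    hBB i j (add_left_inj _ |>.1 h)
  have hBT : ∀ i j, sc q z i ≠ sc q z j + a * q := by
    intro i j h
    have h1 : i = j := gen_res p q hg (by
      rw [← res_sc p q z i, ← res_sc p q z j, h, map_add, res_mul_q, add_zero])
    subst h1
    exact haq (left_eq_add.1 h)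
  refine ⟨?_, ?_, ?_, ?_, ?_, ?_⟩
  · intro j hj
    have h := hL.lj (z j)
    rw [sum_one (fun i => aR a W i ∧ z i = z j) j ⟨hj, rfl⟩ (fun i hi => hRR i j hi.2),
      sum_zero (fun i => aL a b W i ∧ z i - b * q = z j) (fun i hi => hRL j i hi.2.symm)] at h
    omega
  · intro j hj
    have h := hL.lj (z j - b * q)
    rw [sum_zero (fun i => aR a W i ∧ z i = z j - b * q) (fun i hi => hRL i j hi.2),
      sum_one (fun i => aL a b W i ∧ z i - b * q = z j - b * q) j ⟨hj, rfl⟩
        (fun i hi => hLL i j hi.2)] at h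
    omega
  · intro j hj
    have h := hL.rj (sc q z j)
    rw [sum_zero (fun i => aT a b W i ∧ sc q z i + a * q = sc q z j)
        (fun i hi => hBT j i hi.2.symm),
      sum_one (fun i => aB b W i ∧ sc q z i = sc q z j) j ⟨hj, rfl⟩
        (fun i hi => hBB i j hi.2)] at h
    omega
  · intro j hj
    have h := hL.rj (sc q z j + a * q)
    rw [sum_one (fun i => aT a b W i ∧ sc q z i + a * q = sc q z j + a * q) j ⟨hj, rfl⟩
        (fun i hi => hTT i j hi.2),
      sum_zero (fun i => aB b W i ∧ sc q z i = sc q z j + a * q)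
        (fun i hi => hBT i j hi.2)] at h
    omega
  · intro X h1 h2
    have h := hL.lj X
    rw [sum_zero (fun i => aR a W i ∧ z i = X) (fun i hi => h1 i hi.1 hi.2),
      sum_zero (fun i => aL a b W i ∧ z i - b * q = X) (fun i hi => h2 i hi.1 hi.2)] at h
    omega
  · intro S h1 h2
    have h := hL.rj S
    rw [sum_zero (fun i => aT a b W i ∧ sc q z i + a * q = S) (fun i hi => h2 i hi.1 hi.2),
      sum_zero (fun i => aB b W i ∧ sc q z i = S) (fun i hi => h1 i hi.1 hi.2)] at h
    omega

end Helper11.N1
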