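import Pool.Agent.Helper11.N1.StC
import Pool.Agent.Helper11.N1.M_LDX
import Pool.Agent.Helper11.N1.M_LJ

set_option autoImplicit false
set_option linter.unusedSectionVars false

/-!
# VJ: the vertical jumps of `FF`
-/

namespace Helper11.N1

namespace VJaux

/-- one box indicator: the point moves from `X` to `X + 1` with the same `S` -/
theorem box_step {p q a b : ℕ} [NeZero p] [NeZero q] (hP : Par p q a b)
    (z : ZMod p → ZMod (p * q)) (j : ZMod p) (X S : ZMod (p * q)) : open Classical in
    (if box q a b z j (X + 1) S then (1 : ℤ) else 0) - (if box q a b z j X S then 1 else 0) =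
      (if z j - b * q = X then (if off (sc q z j + 1) S < a * q then (1 : ℤ) else 0) else 0) -
      (if z j = X then (if off (sc q z j + 1) S < a * q then (1 : ℤ) else 0) else 0) := by
  classical
  obtain ⟨h1, h2, h3, h4⟩ := hP
  have : NeZero (p * q) := ⟨Nat.mul_ne_zero (NeZero.ne p) (NeZero.ne q)⟩
  have hM : a * q + b * q + q ≤ p * q := by
    have : (a + b + 1) * q ≤ p * q := Nat.mul_le_mul_right q (by omega)
    nlinarith [this]
  have hbq : 2 * q ≤ b * q := Nat.mul_le_mul_right q h2
  have hM1 : 1 < p * q := by omega
  have hzL : (z j - b * q = X) ↔ off X (z j) = b * q := by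
    rw [LJaux.off_eq_iff X (z j) (n := b * q) (by omega)]
    push_cast
    rw [sub_eq_iff_eq_add]
  have hzR : (z j = X) ↔ off X (z j) = 0 := by
    rw [off_eq_zero]
    exact eq_comm
  have hs := LJaux.off_succ hM1 X (z j)
  have htM := off_lt X (z j)
  unfold box
  simp only [hzL, hzR]
  generalize off X (z j) = t at *
  generalize off (X + 1) (z j) = t' at *
  generalize off (sc q z j + 1) S = s at *
  clear hzL hzR
  generalize a * q = A at *
  generalize b * q = B at *
  generalize p * q = M at *
  by_cases hs' : s < A
  · simp only [hs', and_true, if_true]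
    split_ifs <;> omega
  · simp only [hs', and_false, if_false]
    split_ifs <;> simp

end VJaux

theorem vj : StLJ → StDEC → StVJ := by
  intro hLJ hDEC p q a b _ _ hp z X W S
  classical
  have hM : 1 < p * q := by
    have h1 := hp.ha
    have h2 := hp.hb
    have h3 := hp.hab
    have h4 := hp.hq
    calc 1 < p * 1 := by omega
      _ ≤ p * q := Nat.mul_le_mul_left p h4
  have h1 := LDXaux.rj (a := a) (b := b) hM z W (X + e p q W)
  have h3 : X + 1 + e p q W = X + e p q W + 1 := by ring
  have hA : NN q a b z (X + 1) S - NN q a b z X S =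
      ∑ j : ZMod p, ((if z j - b * q = X then
          (if off (sc q z j + 1) S < a * q then (1 : ℤ) else 0) else 0) -
        (if z j = X then (if off (sc q z j + 1) S < a * q then (1 : ℤ) else 0) else 0)) := by
    unfold NN
    rw [← Finset.sum_sub_distrib]
    exact Finset.sum_congr rfl fun j _ => VJaux.box_step hp z j X S
  have hB : NN q a b z (X + 1) (X + 1 + e p q W) - NN q a b z X (X + e p q W) =
      ∑ j : ZMod p, ((if aL a b W j ∧ z j - b * q = X then (1 : ℤ) else 0) -
        (if aR a W j ∧ z j = X then 1 else 0) +
        (if aB b W j ∧ sc q z j = X + e p q W then 1 else 0) -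
        (if aT a b W j ∧ sc q z j + a * q = X + e p q W then 1 else 0)) := by
    unfold NN
    rw [← Finset.sum_sub_distrib]
    exact Finset.sum_congr rfl fun j _ => hLJ p q a b hp z W j X
  rw [hDEC p q a b hp z (X + 1) W S, hDEC p q a b hp z X W S]
  have hC : NN q a b z (X + 1) S - NN q a b z (X + 1) (X + 1 + e p q W) +
      rhoS q a b z W S - rhoS q a b z W (X + 1 + e p q W) -
      (NN q a b z X S - NN q a b z X (X + e p q W) +
      rhoS q a b z W S - rhoS q a b z W (X + e p q W)) =
      (NN q a b z (X + 1) S - NN q a b z X S) -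
      (NN q a b z (X + 1) (X + 1 + e p q W) - NN q a b z X (X + e p q W)) -
      (rhoS q a b z W (X + e p q W + 1) - rhoS q a b z W (X + e p q W)) := by
    rw [h3]
    ring
  rw [hC, hA, hB, h1, ← Finset.sum_sub_distrib, ← Finset.sum_sub_distrib,
    ← Finset.sum_sub_distrib]
  apply Finset.sum_congr rfl
  intro j _
  have key : ∀ (P1 P2 R L I B T : Prop), 
      (((if P2 then (if I then (1 : ℤ) else 0) else 0) - (if P1 then (if I then 1 else 0) else 0)) -
        ((if L ∧ P2 then (1 : ℤ) else 0) - (if R ∧ P1 then 1 else 0) +
          (if B then 1 else 0) - (if T then 1 else 0))) -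
        ((if T then (1 : ℤ) else 0) - (if B then 1 else 0)) =
      (if P1 then (if R then (1 : ℤ) else 0) - (if I then 1 else 0) else 0) +
      (if P2 then (if I then (1 : ℤ) else 0) - (if L then 1 else 0) else 0) := by
    intro P1 P2 R L I B T
    by_cases hP1 : P1 <;> by_cases hP2 : P2 <;> by_cases hR : R <;> by_cases hL : L <;>
      by_cases hI : I <;> simp only [hP1, hP2, hR, hL, hI, and_true, and_false,
        if_true, if_false] <;> ring
  convert key (z j = X) (z j - b * q = X) (aR a W j) (aL a b W j)
    (off (sc q z j + 1) S < a * q) (aB b W j ∧ sc q z j = X + e p q W)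
    (aT a b W j ∧ sc q z j + a * q = X + e p q W)

end Helper11.N1
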