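import Pool.Agent.Helper11.N1.M_BAND
import Pool.Agent.Helper11.N1.M_BL
import Pool.Agent.Helper11.N1.M_CI
import Pool.Agent.Helper11.N1.M_CIII
import Pool.Agent.Helper11.N1.M_CNT
import Pool.Agent.Helper11.N1.M_DEC
import Pool.Agent.Helper11.N1.M_GENAP
import Pool.Agent.Helper11.N1.M_GH
import Pool.Agent.Helper11.N1.M_LDX
import Pool.Agent.Helper11.N1.M_LEN
import Pool.Agent.Helper11.N1.M_LEV
import Pool.Agent.Helper11.N1.M_LJ
import Pool.Agent.Helper11.N1.M_LK1
import Pool.Agent.Helper11.N1.M_LK2
import Pool.Agent.Helper11.N1.M_LK3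
import Pool.Agent.Helper11.N1.M_LK3B
import Pool.Agent.Helper11.N1.M_LVL
import Pool.Agent.Helper11.N1.M_MAIN
import Pool.Agent.Helper11.N1.M_MIR
import Pool.Agent.Helper11.N1.M_NB
import Pool.Agent.Helper11.N1.M_REF
import Pool.Agent.Helper11.N1.M_REFB
import Pool.Agent.Helper11.N1.M_ROW
import Pool.Agent.Helper11.N1.M_STRIP
import Pool.Agent.Helper11.N1.M_UNI
import Pool.Agent.Helper11.N1.M_VJ
import Pool.Agent.Helper11.N1.M_WIND
import Pool.Agent.Helper11.N1.M_YF
import Pool.Agent.Helper11.N1.M_ZZ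

set_option autoImplicit false

/-!
Project N1, assembly: a generic flat configuration with pairwise disjoint boxes does not exist.
-/

namespace Helper11.N1

theorem aLDX : StLDX := ldx (lj bl) dec

theorem aLVL : StLvl := lvl uni (lev bl (cnt bl) uni (nb bl uni)) ref

theorem aSTRIP : StStrip := strip bl (row bl)

theorem aREFB : StRefB := refb ref (row bl)

theorem aCI : StCI := ci (row bl) aSTRIP wind (yf (row bl)) (band bl) (len (cnt bl))

theorem aCIII : StCIII := ciii (cnt bl) ref aREFB wind (len (cnt bl)) gh (zz bl)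

/-- a generic configuration with pairwise disjoint boxes is not flat -/
theorem star : StMain := main aLDX aLVL ref aSTRIP aREFB aCI aCIII

theorem aVJ : StVJ := vj (lj bl) dec

theorem aLK2 : StLK2 := lk2 lk1

theorem aLK3 : StLK3 := lk3 aVJ

theorem aLK3B : StLK3B := lk3b aVJ

end Helper11.N1
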