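import Pool.Agent.Helper11.N1.Defs

set_option autoImplicit false
set_option linter.unusedSectionVars false

/-!
# Distances on the circle and the row map: basic facts
-/

namespace Helper11.N1

section off

variable {M : ℕ} [NeZero M]

theorem off_lt (x y : ZMod M) : off x y < M := ZMod.val_lt _

theorem off_self (x : ZMod M) : off x x = 0 := by
  unfold off
  rw [sub_self, ZMod.val_zero]

theorem off_spec (x y : ZMod M) : x + (off x y : ℕ) = y := by
  unfold off
  rw [ZMod.natCast_zmod_val]
  ring

theorem off_spec' (x y : ZMod M) : y - (off x y : ℕ) = x := by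
  unfold off
  rw [ZMod.natCast_zmod_val]
  ring

theorem off_nat (x : ZMod M) {n : ℕ} (hn : n < M) : off x (x + n) = n := by
  unfold off
  rw [add_sub_cancel_left, ZMod.val_natCast, Nat.mod_eq_of_lt hn]

theorem off_nat' (x : ZMod M) {n : ℕ} (hn : n < M) : off (x - (n : ZMod M)) x = n := by
  unfold off
  rw [sub_sub_cancel, ZMod.val_natCast, Nat.mod_eq_of_lt hn]

theorem off_eq_zero {x y : ZMod M} : off x y = 0 ↔ x = y := by
  unfold off
  rw [ZMod.val_eq_zero, sub_eq_zero]
  exact eq_comm

theorem off_inj_left {x y y' : ZMod M} (h : off x y = off x y') : y = y' := by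
  rw [← off_spec x y, h, off_spec]

theorem off_inj_right {x x' y : ZMod M} (h : off x y = off x' y) : x = x' := by
  rw [← off_spec' x y, h, off_spec']

/-- going from `x` to `y` and on to `w` -/
theorem off_add (x y w : ZMod M) :
    off x y + off y w = off x w ∨ off x y + off y w = off x w + M := by
  have h1 := off_lt x y
  have h2 := off_lt y w
  have h3 : off x w = (off x y + off y w) % M := by
    have : w - x = ((off x y + off y w : ℕ) : ZMod M) := by
      push_cast
      unfold off
      rw [ZMod.natCast_zmod_val, ZMod.natCast_zmod_val]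
      ring
    unfold off at this ⊢
    rw [this, ZMod.val_natCast]
  rcases lt_or_ge (off x y + off y w) M with h | h
  · left
    rw [h3, Nat.mod_eq_of_lt h]
  · right
    rw [h3, Nat.mod_eq_sub_mod h, Nat.mod_eq_of_lt (by omega)]
    omega

theorem off_add_of_lt {x y w : ZMod M} (h : off x y + off y w < M) :
    off x y + off y w = off x w := by
  rcases off_add x y w with h1 | h1
  · exact h1
  · omega

theorem off_symm {x y : ZMod M} (h : x ≠ y) : off x y + off y x = M := by
  have h1 := off_add x y x
  rw [off_self] at h1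
  have h2 : off x y ≠ 0 := fun h3 => h (off_eq_zero.1 h3)
  omega

/-- translation invariance -/
theorem off_translate (x y c : ZMod M) : off (x + c) (y + c) = off x y := by
  unfold off
  congr 1
  ring

theorem off_translate_sub (x y c : ZMod M) : off (x - c) (y - c) = off x y := by
  unfold off
  congr 1
  ring

/-- reflection -/
theorem off_reflect (x y c : ZMod M) : off (c - y) (c - x) = off x y := by
  unfold off
  congr 1
  ring

end off

section rows

variable (p q : ℕ) [NeZero p]

theorem e_zero : e p q 0 = 0 := by
  unfold e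
  rw [ZMod.val_zero, mul_zero, Nat.cast_zero]

theorem e_natCast (n : ℕ) : e p q (n : ZMod p) = ((n * q : ℕ) : ZMod (p * q)) := by
  unfold e
  rw [ZMod.natCast_eq_natCast_iff, ZMod.val_natCast, mul_comm n q, mul_comm p q]
  exact (Nat.mod_modEq n p).mul_left' q

theorem e_add (i j : ZMod p) : e p q (i + j) = e p q i + e p q j := by
  have h1 : i + j = ((i.val + j.val : ℕ) : ZMod p) := by
    rw [Nat.cast_add, ZMod.natCast_zmod_val, ZMod.natCast_zmod_val]
  rw [h1, e_natCast]
  unfold e
  push_cast
  ring

theorem e_neg (i : ZMod p) : e p q (-i) = - e p q i := by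
  have h := e_add p q i (-i)
  rw [add_neg_cancel, e_zero] at h
  exact (neg_eq_of_add_eq_zero_right h.symm).symm

theorem e_sub (i j : ZMod p) : e p q (i - j) = e p q i - e p q j := by
  rw [sub_eq_add_neg, e_add, e_neg, ← sub_eq_add_neg]

theorem e_val (hq : 1 ≤ q) (j : ZMod p) : (e p q j).val = q * j.val := by
  unfold e
  rw [ZMod.val_natCast, Nat.mod_eq_of_lt]
  have h := ZMod.val_lt j
  calc q * j.val < q * p := Nat.mul_lt_mul_of_pos_left h (by omega)
    _ = p * q := Nat.mul_comm _ _

theorem e_one : e p q 1 = (q : ZMod (p * q)) := by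
  have h := e_natCast p q 1
  rw [one_mul] at h
  rw [← h, Nat.cast_one]

/-- the distance between two row positions -/
theorem off_e (hq : 1 ≤ q) (i j : ZMod p) : off (e p q i) (e p q j) = q * (j - i).val := by
  unfold off
  rw [← e_sub, e_val p q hq]

/-- `e` is injective -/
theorem e_inj (hq : 1 ≤ q) {i j : ZMod p} (h : e p q i = e p q j) : i = j := by
  have h1 : (e p q (i - j)).val = 0 := by rw [e_sub, h, sub_self, ZMod.val_zero]
  rw [e_val p q hq] at h1
  have h2 : (i - j).val = 0 := by
    rcases Nat.mul_eq_zero.1 h1 with h3 | h3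
    · omega
    · exact h3
  exact sub_eq_zero.1 ((ZMod.val_eq_zero _).1 h2)

end rows

section res

variable (p q : ℕ) [NeZero p]

/-- reduction modulo `q` -/
def res : ZMod (p * q) →+* ZMod q := ZMod.castHom (dvd_mul_left q p) (ZMod q)

theorem res_e (j : ZMod p) : res p q (e p q j) = 0 := by
  unfold e
  rw [map_natCast, Nat.cast_mul, ZMod.natCast_self, zero_mul]

theorem res_mul_q (x : ZMod (p * q)) : res p q (x * q) = 0 := by
  rw [map_mul, map_natCast, ZMod.natCast_self, mul_zero]

theorem res_eq_zero [NeZero q] (x : ZMod (p * q)) : res p q x = 0 ↔ q ∣ x.val := by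
  have h1 : res p q x = ((x.val : ℕ) : ZMod q) := by
    conv_lhs => rw [← ZMod.natCast_zmod_val x]
    rw [map_natCast]
  rw [h1, ZMod.natCast_eq_zero_iff]

/-- distinct residues -/
theorem gen_res [NeZero q] {z : ZMod p → ZMod (p * q)} (hg : Gen q z) {i j : ZMod p}
    (h : res p q (z i) = res p q (z j)) : i = j := by
  apply hg
  rw [← res_eq_zero, map_sub, h, sub_self]

theorem res_sc (z : ZMod p → ZMod (p * q)) (j : ZMod p) : res p q (sc q z j) = res p q (z j) := by
  unfold sc
  rw [map_add, res_e, add_zero]

end res

end Helper11.N1
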