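import Mathlib

set_option autoImplicit false

/-!
# Disjoint boxes on the torus: definitions

Rows are elements of `ZMod p`, positions are elements of the circle `ZMod (p * q)`; one row step is
`q` units of the circle.  A configuration is one point `z j` in each row `j`; its second coordinate
is `s j = z j + q j`.  The box of `j` is the set of all pairs `(X, S)` of positions with
`X` in `(z j - b q, z j]` and `S` in `(s j, s j + a q]`.
-/

namespace Helper11.N1

/-- the upward distance from `x` to `y` on a circle -/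
def off {M : ℕ} (x y : ZMod M) : ℕ := (y - x).val

/-- the position `q j` -/
def e (p q : ℕ) (j : ZMod p) : ZMod (p * q) := ((q * j.val : ℕ) : ZMod (p * q))

/-- the parameters -/
structure Par (p q a b : ℕ) : Prop where
  ha : 2 ≤ a
  hb : 2 ≤ b
  hab : a + b < p
  hq : 1 ≤ q

section

variable {p : ℕ} (q a b : ℕ) (z : ZMod p → ZMod (p * q))

/-- second coordinate -/
def sc (j : ZMod p) : ZMod (p * q) := z j + e p q j

/-- `(X, S)` lies in the box of `j` -/
def box (j : ZMod p) (X S : ZMod (p * q)) : Prop :=
  off X (z j) < b * q ∧ off (sc q z j + 1) S < a * q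

/-- number of boxes containing `(X, S)` -/
noncomputable def NN [NeZero p] (X S : ZMod (p * q)) : ℤ :=
  open Classical in ∑ j : ZMod p, if box q a b z j X S then 1 else 0

/-- the boxes are pairwise disjoint -/
def Disj : Prop := ∀ (i j : ZMod p) (X S : ZMod (p * q)),
  box q a b z i X S → box q a b z j X S → i = j

/-- the residues of the `z j` modulo `q` are distinct -/
def Gen : Prop := ∀ i j : ZMod p, (q ∣ (z i - z j).val) → i = j

end

section

variable {p : ℕ} (a b : ℕ)

/-- the right side of box `j` is active at level `W` -/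
def aR (W j : ZMod p) : Prop := (W - 1 - j).val < a

/-- the left side of box `j` is active at level `W` -/
def aL (W j : ZMod p) : Prop := (W - b - 1 - j).val < a

/-- the bottom of box `j` is active at level `W` -/
def aB (W j : ZMod p) : Prop := (W - 1 - j).val < b

/-- the top of box `j` is active at level `W` -/
def aT (W j : ZMod p) : Prop := (W - a - 1 - j).val < b

end

section

variable {p : ℕ} (q a b : ℕ) (z : ZMod p → ZMod (p * q))

/-- the point `(x, j)` (position `x` in row `j`) lies in the triangle of `(X, W, S)` -/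
def tri (X : ZMod (p * q)) (W : ZMod p) (S x : ZMod (p * q)) (j : ZMod p) : Prop :=
  off X x + q * (j - W).val < off (X + e p q W) S

/-- the signed number of points in the triangle of `(X, W, S)` -/
noncomputable def FF [NeZero p] (X : ZMod (p * q)) (W : ZMod p) (S : ZMod (p * q)) : ℤ :=
  open Classical in ∑ j : ZMod p,
    ((if tri q X W S (z j) j then (1 : ℤ) else 0) -
      (if tri q X W S (z j) (j + a) then 1 else 0) -
      (if tri q X W S (z j - b * q) (j + b) then 1 else 0) +
      (if tri q X W S (z j - b * q) (j + a + b) then 1 else 0))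

/-- the data of one level: `F = N + lam + rho` -/
structure LD [NeZero p] (W : ZMod p) (lam rho : ZMod (p * q) → ℤ) : Prop where
  lj : ∀ X, lam (X + 1) - lam X =
    (open Classical in ∑ j : ZMod p, if aR a W j ∧ z j = X then (1 : ℤ) else 0) -
    (open Classical in ∑ j : ZMod p, if aL a b W j ∧ z j - b * q = X then (1 : ℤ) else 0)
  rj : ∀ S, rho (S + 1) - rho S =
    (open Classical in ∑ j : ZMod p, if aT a b W j ∧ sc q z j + a * q = S then (1 : ℤ) else 0) -
    (open Classical in ∑ j : ZMod p, if aB b W j ∧ sc q z j = S then (1 : ℤ) else 0)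
  line : ∀ X, NN q a b z X (X + e p q W) + lam X + rho (X + e p q W) = 0
  up : ∀ X S, NN q a b z X S + lam X + rho S ≤ 1
  lo : ∀ X S, -1 ≤ NN q a b z X S + lam X + rho S

/-- a level in normal form: `F = N - y + u` with `y`, `u` in `{0, 1}` -/
structure Lvl (W : ZMod p) (y u : ZMod (p * q) → ℤ) : Prop where
  y01 : ∀ X, y X = 0 ∨ y X = 1
  u01 : ∀ S, u S = 0 ∨ u S = 1
  yR : ∀ j, aR a W j → y (z j) = 1 ∧ y (z j + 1) = 0
  yL : ∀ j, aL a b W j → y (z j - b * q) = 0 ∧ y (z j - b * q + 1) = 1
  yC : ∀ X, (∀ j, aR a W j → z j ≠ X) → (∀ j, aL a b W j → z j - b * q ≠ X) → y (X + 1) = y X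
  uB : ∀ j, aB b W j → u (sc q z j) = 1 ∧ u (sc q z j + 1) = 0
  uT : ∀ j, aT a b W j → u (sc q z j + a * q) = 0 ∧ u (sc q z j + a * q + 1) = 1
  uC : ∀ S, (∀ j, aB b W j → sc q z j ≠ S) → (∀ j, aT a b W j → sc q z j + a * q ≠ S) →
    u (S + 1) = u S
  inn : ∀ j X, box q a b z j X (X + e p q W) → y X = 1 ∧ u (X + e p q W) = 0
  out : ∀ X, (∀ j, ¬ box q a b z j X (X + e p q W)) → y X = u (X + e p q W)
  flat : ∀ j X S, box q a b z j X S → u S = 1 → y X = 1

/-- all levels in normal form -/
def World (y u : ZMod p → ZMod (p * q) → ℤ) : Prop := ∀ W, Lvl q a b z W (y W) (u W)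

end

end Helper11.N1
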