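import Pool.Agent.Helper11.N1.StB

set_option autoImplicit false
set_option linter.unusedSectionVars false

/-!
# N1, module BAND: the band below the line
-/

namespace Helper11.N1

namespace BANDaux

/-- subtraction of a small number in `ZMod p` -/
theorem val_sub_nat {p : ℕ} [NeZero p] (x : ZMod p) (n : ℕ) (hn : n < p) :
    (n ≤ x.val → (x - (n : ZMod p)).val = x.val - n) ∧
      (x.val < n → (x - (n : ZMod p)).val = x.val + p - n) := by
  have hx := ZMod.val_lt x
  constructor
  · intro h
    have h1 : x - (n : ZMod p) = ((x.val - n : ℕ) : ZMod p) := by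
      rw [Nat.cast_sub h, ZMod.natCast_zmod_val]
    rw [h1, ZMod.val_natCast, Nat.mod_eq_of_lt (by omega)]
  · intro h
    have h1 : x - (n : ZMod p) = ((x.val + p - n : ℕ) : ZMod p) := by
      rw [Nat.cast_sub (by omega), Nat.cast_add, ZMod.natCast_zmod_val, ZMod.natCast_self,
        add_zero]
    rw [h1, ZMod.val_natCast, Nat.mod_eq_of_lt (by omega)]

/-- one step of an arc -/
theorem arc_step {M : ℕ} [NeZero M] (s S : ZMod M) (m : ℕ) (hm : 0 < m) (hM : m < M) :
    open Classical in
    ((if off (s + 1) (S + 1) < m then (1 : ℤ) else 0) - (if off (s + 1) S < m then 1 else 0)) =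
      (if s = S then 1 else 0) - (if s + (m : ZMod M) = S then 1 else 0) := by
  classical
  have h0 : off (s + 1) (S + 1) = off s S := off_translate s S 1
  rw [h0]
  by_cases h1 : s = S
  · subst h1
    have h2 : off s s = 0 := off_self s
    have h3 : off (s + 1) s = M - 1 := by
      have h4 : off s (s + 1) = 1 := by
        have := off_nat s (n := 1) (by omega)
        rwa [Nat.cast_one] at this
      have h5 : s ≠ s + 1 := by
        intro h6
        rw [← h6, off_self] at h4
        omega
      have := off_symm h5
      omega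
    have h7 : ¬ (s + (m : ZMod M) = s) := by
      intro h8
      have := off_nat s (n := m) hM
      rw [h8, off_self] at this
      omega
    rw [h2, h3, if_pos hm, if_neg (by omega), if_pos rfl, if_neg h7]
  · have h2 : off s S = off (s + 1) S + 1 := by
      have h4 : off s (s + 1) = 1 := by
        have := off_nat s (n := 1) (by omega)
        rwa [Nat.cast_one] at this
      have h5 := off_add s (s + 1) S
      have h6 : off s S ≠ 0 := fun h7 => h1 (off_eq_zero.1 h7)
      have h7 := off_lt (s + 1) S
      have h8 := off_lt s S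
      omega
    rw [if_neg h1]
    by_cases h3 : s + (m : ZMod M) = S
    · have h4 : off s S = m := by
        rw [← h3]
        exact off_nat s hM
      rw [if_pos h3, if_neg (by omega), if_pos (by omega)]
    · have h4 : off s S ≠ m := by
        intro h5
        apply h3
        rw [← h5]
        exact off_spec s S
      rw [if_neg h3]
      by_cases h5 : off s S < m
      · rw [if_pos h5, if_pos (by omega)]
        norm_num
      · rw [if_neg h5, if_neg (by omega)]

section

variable {p q a b : ℕ} [NeZero p] [NeZero q]

theorem e_nat (x : ZMod p) : e p q x = ((q * x.val : ℕ) : ZMod (p * q)) := rfl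

/-- basic inequality -/
theorem par_ineq (hP : Par p q a b) : a * q + b * q + q ≤ p * q ∧ 0 < a * q ∧ 0 < b * q := by
  obtain ⟨ha, hb, hab, hq⟩ := hP
  refine ⟨?_, Nat.mul_pos (by omega) (by omega), Nat.mul_pos (by omega) (by omega)⟩
  have h : (a + b + 1) * q ≤ p * q := Nat.mul_le_mul_right q (by omega)
  nlinarith

/-- the bottom side of `j` just below the line -/
theorem bottom (hP : Par p q a b) (z : ZMod p → ZMod (p * q)) (W j : ZMod p)
    (X : ZMod (p * q)) (k : ℕ) (hk : k < q)
    (h : sc q z j = X + e p q W - ((k + 1 : ℕ) : ZMod (p * q))) :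
    off X (z j) < b * q ↔ aB b W j := by
  obtain ⟨h1, h2, h3⟩ := par_ineq hP
  have hab := hP.hab
  have hb := hP.hb
  have ha := hP.ha
  set d := (W - j).val with hd
  have hdp : d < p := ZMod.val_lt _
  have hz : z j - X = e p q (W - j) - ((k + 1 : ℕ) : ZMod (p * q)) := by
    have h4 : z j = sc q z j - e p q j := by
      unfold sc
      ring
    rw [h4, h, e_sub]
    ring
  have hW : W - 1 - j = (W - j) - ((1 : ℕ) : ZMod p) := by
    push_cast
    ring
  have hv := val_sub_nat (W - j) 1 (by omega)
  unfold aB
  rw [hW]
  rcases Nat.eq_zero_or_pos d with hd0 | hd0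
  · have h5 : off X (z j) = p * q - (k + 1) := by
      unfold off
      rw [hz, e_nat, ← hd, hd0, mul_zero, Nat.cast_zero, zero_sub]
      have h6 : -((k + 1 : ℕ) : ZMod (p * q)) = ((p * q - (k + 1) : ℕ) : ZMod (p * q)) := by
        rw [Nat.cast_sub (by omega), ZMod.natCast_self, zero_sub]
      rw [h6, ZMod.val_natCast, Nat.mod_eq_of_lt (by omega)]
    rw [h5, hv.2 (by omega), ← hd, hd0]
    constructor
    · intro h6
      omega
    · intro h6
      omega
  · have h6 : q ≤ q * d := Nat.le_mul_of_pos_right q hd0
    have h7 : q * d < p * q := by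
      calc q * d < q * p := Nat.mul_lt_mul_of_pos_left hdp (by omega)
        _ = p * q := Nat.mul_comm _ _
    have h5 : off X (z j) = q * d - (k + 1) := by
      unfold off
      rw [hz, e_nat, ← hd, ← Nat.cast_sub (by omega), ZMod.val_natCast,
        Nat.mod_eq_of_lt (by omega)]
    rw [h5, hv.1 (by omega), ← hd]
    constructor
    · intro h8
      by_contra h9
      have h10 : (b + 1) * q ≤ d * q := Nat.mul_le_mul_right q (by omega)
      have h11 : (b + 1) * q = b * q + q := by ring
      have h12 : d * q = q * d := Nat.mul_comm _ _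
      omega
    · intro h8
      have h10 : d * q ≤ b * q := Nat.mul_le_mul_right q (by omega)
      have h12 : d * q = q * d := Nat.mul_comm _ _
      omega

/-- the top side of `j` just below the line -/
theorem top (hP : Par p q a b) (z : ZMod p → ZMod (p * q)) (W j : ZMod p)
    (X : ZMod (p * q)) (k : ℕ) (hk : k < q)
    (h : sc q z j + a * q = X + e p q W - ((k + 1 : ℕ) : ZMod (p * q))) :
    off X (z j) < b * q ↔ aT a b W j := by
  obtain ⟨h1, h2, h3⟩ := par_ineq hP
  have hab := hP.hab
  have hb := hP.hb
  have ha := hP.ha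
  set d := (W - j).val with hd
  have hdp : d < p := ZMod.val_lt _
  have hz : z j - X = e p q (W - j) - ((a * q + (k + 1) : ℕ) : ZMod (p * q)) := by
    have h4 : z j = sc q z j + a * q - e p q j - a * q := by
      unfold sc
      ring
    rw [h4, h, e_sub]
    push_cast
    ring
  have hW : W - a - 1 - j = (W - j) - ((a + 1 : ℕ) : ZMod p) := by
    push_cast
    ring
  have hv := val_sub_nat (W - j) (a + 1) (by omega)
  unfold aT
  rw [hW]
  rcases Nat.lt_or_ge a d with hd0 | hd0
  · have h6 : (a + 1) * q ≤ d * q := Nat.mul_le_mul_right q (by omega)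
    have h66 : (a + 1) * q = a * q + q := by ring
    have h12 : d * q = q * d := Nat.mul_comm _ _
    have h7 : q * d < p * q := by
      calc q * d < q * p := Nat.mul_lt_mul_of_pos_left hdp (by omega)
        _ = p * q := Nat.mul_comm _ _
    have h5 : off X (z j) = q * d - (a * q + (k + 1)) := by
      unfold off
      rw [hz, e_nat, ← hd, ← Nat.cast_sub (by omega), ZMod.val_natCast,
        Nat.mod_eq_of_lt (by omega)]
    rw [h5, hv.1 (by omega), ← hd]
    constructor
    · intro h8
      by_contra h9
      have h10 : (a + b + 1) * q ≤ d * q := Nat.mul_le_mul_right q (by omega)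
      have h11 : (a + b + 1) * q = a * q + b * q + q := by ring
      omega
    · intro h8
      have h10 : d * q ≤ (a + b) * q := Nat.mul_le_mul_right q (by omega)
      have h11 : (a + b) * q = a * q + b * q := by ring
      omega
  · have h10 : d * q ≤ a * q := Nat.mul_le_mul_right q hd0
    have h12 : d * q = q * d := Nat.mul_comm _ _
    have h5 : off X (z j) = p * q + q * d - (a * q + (k + 1)) := by
      unfold off
      rw [hz, e_nat, ← hd]
      have h6 : ((q * d : ℕ) : ZMod (p * q)) - ((a * q + (k + 1) : ℕ) : ZMod (p * q)) =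
          ((p * q + q * d - (a * q + (k + 1)) : ℕ) : ZMod (p * q)) := by
        rw [Nat.cast_sub (by omega), Nat.cast_add (p * q) (q * d), ZMod.natCast_self, zero_add]
      rw [h6, ZMod.val_natCast, Nat.mod_eq_of_lt (by omega)]
    rw [h5, hv.2 (by omega), ← hd]
    constructor
    · intro h6
      omega
    · intro h6
      omega

/-- equal second coordinates: equal rows -/
theorem same_of_res {z : ZMod p → ZMod (p * q)} (hg : Gen q z) {i j : ZMod p} {m n : ℕ}
    (h : sc q z i + (m : ZMod (p * q)) * (q : ZMod (p * q)) =
      sc q z j + (n : ZMod (p * q)) * (q : ZMod (p * q))) : i = j := by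
  apply gen_res p q hg
  have h1 := congrArg (res p q) h
  rw [map_add, map_add, res_mul_q, res_mul_q, add_zero, add_zero, res_sc, res_sc] at h1
  exact h1

/-- the jump of `u` as a sum over all rows -/
theorem u_jump (hP : Par p q a b) {z : ZMod p → ZMod (p * q)} (hg : Gen q z) (W : ZMod p)
    {y u : ZMod (p * q) → ℤ} (hL : Lvl q a b z W y u) (S : ZMod (p * q)) : open Classical in
    u S - u (S + 1) = ∑ j : ZMod p, ((if aB b W j ∧ sc q z j = S then (1 : ℤ) else 0) -
      (if aT a b W j ∧ sc q z j + a * q = S then 1 else 0)) := by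
  classical
  obtain ⟨h1, h2, h3⟩ := par_ineq hP
  have hne : ∀ j, sc q z j + a * q ≠ sc q z j := by
    intro j hj
    have h4 := off_nat (sc q z j) (n := a * q) (by omega)
    have h5 : sc q z j + ((a * q : ℕ) : ZMod (p * q)) = sc q z j := by
      rw [Nat.cast_mul]
      exact hj
    rw [h5, off_self] at h4
    omega
  have hBB : ∀ i j, sc q z i = S → sc q z j = S → i = j := by
    intro i j hi hj
    apply same_of_res hg (m := 0) (n := 0)
    rw [hi, hj]
  have hBT : ∀ i j, sc q z i = S → sc q z j + a * q = S → False := by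
    intro i j hi hj
    have h4 : i = j := by
      apply same_of_res hg (m := 0) (n := a)
      rw [hj, Nat.cast_zero, zero_mul, add_zero, hi]
    rw [← h4] at hj
    exact hne i (by rw [hj, hi])
  have hTT : ∀ i j, sc q z i + a * q = S → sc q z j + a * q = S → i = j := by
    intro i j hi hj
    apply same_of_res hg (m := a) (n := a)
    rw [hi, hj]
  rw [Finset.sum_sub_distrib]
  by_cases hB : ∃ j, aB b W j ∧ sc q z j = S
  · obtain ⟨j, hj1, hj2⟩ := hB
    have h4 : (∑ i : ZMod p, if aB b W i ∧ sc q z i = S then (1 : ℤ) else 0) = 1 := by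
      rw [Finset.sum_eq_single j]
      · rw [if_pos ⟨hj1, hj2⟩]
      · intro i _ hi
        rw [if_neg]
        rintro ⟨_, h5⟩
        exact hi (hBB i j h5 hj2)
      · intro h5
        exact absurd (Finset.mem_univ j) h5
    have h5 : (∑ i : ZMod p, if aT a b W i ∧ sc q z i + a * q = S then (1 : ℤ) else 0) = 0 := by
      apply Finset.sum_eq_zero
      intro i _
      rw [if_neg]
      rintro ⟨_, h6⟩
      exact hBT j i hj2 h6
    rw [h4, h5]
    have h6 := hL.uB j hj1
    rw [hj2] at h6
    rw [h6.1, h6.2]
  · have h4 : (∑ i : ZMod p, if aB b W i ∧ sc q z i = S then (1 : ℤ) else 0) = 0 := by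
      apply Finset.sum_eq_zero
      intro i _
      rw [if_neg]
      intro h5
      exact hB ⟨i, h5⟩
    rw [h4]
    by_cases hT : ∃ j, aT a b W j ∧ sc q z j + a * q = S
    · obtain ⟨j, hj1, hj2⟩ := hT
      have h5 : (∑ i : ZMod p, if aT a b W i ∧ sc q z i + a * q = S then (1 : ℤ) else 0) = 1 := by
        rw [Finset.sum_eq_single j]
        · rw [if_pos ⟨hj1, hj2⟩]
        · intro i _ hi
          rw [if_neg]
          rintro ⟨_, h5⟩
          exact hi (hTT i j h5 hj2)
        · intro h5
          exact absurd (Finset.mem_univ j) h5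
      rw [h5]
      have h6 := hL.uT j hj1
      rw [hj2] at h6
      rw [h6.1, h6.2]
    · have h5 : (∑ i : ZMod p, if aT a b W i ∧ sc q z i + a * q = S then (1 : ℤ) else 0) = 0 := by
        apply Finset.sum_eq_zero
        intro i _
        rw [if_neg]
        intro h5
        exact hT ⟨i, h5⟩
      rw [h5]
      have h6 := hL.uC S (fun j hj1 hj2 => hB ⟨j, hj1, hj2⟩) (fun j hj1 hj2 => hT ⟨j, hj1, hj2⟩)
      rw [h6]
      ring

/-- the jump of `NN` just below the line -/
theorem NN_jump (hP : Par p q a b) (z : ZMod p → ZMod (p * q)) (W : ZMod p)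
    (X S : ZMod (p * q)) (k : ℕ) (hk : k < q)
    (hS : S = X + e p q W - ((k + 1 : ℕ) : ZMod (p * q))) : open Classical in
    NN q a b z X (S + 1) - NN q a b z X S =
      ∑ j : ZMod p, ((if aB b W j ∧ sc q z j = S then (1 : ℤ) else 0) -
      (if aT a b W j ∧ sc q z j + a * q = S then 1 else 0)) := by
  classical
  obtain ⟨h1, h2, h3⟩ := par_ineq hP
  unfold NN
  rw [← Finset.sum_sub_distrib]
  apply Finset.sum_congr rfl
  intro j _
  have hst := arc_step (sc q z j) S (a * q) h2 (by omega)
  rw [Nat.cast_mul] at hst
  unfold box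
  by_cases hX : off X (z j) < b * q
  · have h4 : (if aB b W j ∧ sc q z j = S then (1 : ℤ) else 0) =
        if sc q z j = S then 1 else 0 := by
      by_cases h5 : sc q z j = S
      · have h6 := (bottom hP z W j X k hk (by rw [h5, hS])).1 hX
        rw [if_pos ⟨h6, h5⟩, if_pos h5]
      · rw [if_neg (fun h6 => h5 h6.2), if_neg h5]
    have h5 : (if aT a b W j ∧ sc q z j + a * q = S then (1 : ℤ) else 0) =
        if sc q z j + a * q = S then 1 else 0 := by
      by_cases h5 : sc q z j + a * q = S
      · have h6 := (top hP z W j X k hk (by rw [h5, hS])).1 hX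
        rw [if_pos ⟨h6, h5⟩, if_pos h5]
      · rw [if_neg (fun h6 => h5 h6.2), if_neg h5]
    rw [h4, h5, ← hst]
    simp only [hX, true_and]
  · have h4 : (if aB b W j ∧ sc q z j = S then (1 : ℤ) else 0) = 0 := by
      rw [if_neg]
      rintro ⟨h5, h6⟩
      exact hX ((bottom hP z W j X k hk (by rw [h6, hS])).2 h5)
    have h5 : (if aT a b W j ∧ sc q z j + a * q = S then (1 : ℤ) else 0) = 0 := by
      rw [if_neg]
      rintro ⟨h5, h6⟩
      exact hX ((top hP z W j X k hk (by rw [h6, hS])).2 h5)
    rw [h4, h5]
    simp only [hX, false_and, if_false]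

/-- below the line -/
theorem below (hP : Par p q a b) {z : ZMod p → ZMod (p * q)} (hg : Gen q z)
    (hD : Disj q a b z) (W : ZMod p) {y u : ZMod (p * q) → ℤ} (hL : Lvl q a b z W y u)
    (X : ZMod (p * q)) : ∀ k : ℕ, k ≤ q →
    NN q a b z X (X + e p q W - (k : ZMod (p * q))) =
      y X - u (X + e p q W - (k : ZMod (p * q))) := by
  classical
  intro k
  induction k with
  | zero =>
    intro _
    rw [Nat.cast_zero, sub_zero]
    by_cases h : ∃ j, box q a b z j X (X + e p q W)
    · obtain ⟨j, hj⟩ := h
      have h1 := hL.inn j X hj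
      have h2 : NN q a b z X (X + e p q W) = 1 := by
        unfold NN
        rw [Finset.sum_eq_single j]
        · rw [if_pos hj]
        · intro i _ hi
          rw [if_neg]
          intro h3
          exact hi (hD i j _ _ h3 hj)
        · intro h3
          exact absurd (Finset.mem_univ j) h3
      rw [h2, h1.1, h1.2]
      ring
    · have h1 := hL.out X (fun j hj => h ⟨j, hj⟩)
      have h2 : NN q a b z X (X + e p q W) = 0 := by
        unfold NN
        apply Finset.sum_eq_zero
        intro j _
        rw [if_neg]
        intro hj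
        exact h ⟨j, hj⟩
      rw [h2, h1]
      ring
  | succ k ih =>
    intro hk
    have ih' := ih (by omega)
    set S : ZMod (p * q) := X + e p q W - ((k + 1 : ℕ) : ZMod (p * q)) with hS
    have h1 : X + e p q W - (k : ZMod (p * q)) = S + 1 := by
      rw [hS]
      push_cast
      ring
    rw [h1] at ih'
    have h2 := NN_jump hP z W X S k (by omega) hS
    have h3 := u_jump hP hg W hL S
    rw [← h3] at h2
    linarith

end

end BANDaux

/-- BAND -/
theorem band : StBL → StBand := by
  intro _ p q a b _ _ hP z hg hD y u hw W S hu k hk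
  have hL := hw W
  have h1 := BANDaux.below hP hg hD W hL (S - e p q W + k) k hk
  have h2 : S - e p q W + (k : ZMod (p * q)) + e p q W - (k : ZMod (p * q)) = S := by ring
  rw [h2, hu] at h1
  have h3 : 0 ≤ NN q a b z (S - e p q W + (k : ZMod (p * q))) S := by
    classical
    unfold NN
    apply Finset.sum_nonneg
    intro j _
    split_ifs <;> norm_num
  rcases hL.y01 (S - e p q W + (k : ZMod (p * q))) with h4 | h4
  · rw [h4] at h1
    linarith
  · exact h4

end Helper11.N1
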