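import Pool.Agent.Helper11.N1.StC

set_option autoImplicit false

/-!
# Project N1, module LK3: bounds at block positions give bounds everywhere
-/

namespace Helper11.N1

namespace LK3aux

/-- reduction modulo `p` -/
def rp (p q : ℕ) : ZMod (p * q) →+* ZMod p := ZMod.castHom (dvd_mul_right p q) (ZMod p)

theorem rp_eq_zero (p q : ℕ) [NeZero p] [NeZero q] (x : ZMod (p * q)) :
    rp p q x = 0 ↔ p ∣ x.val := by
  have h1 : rp p q x = ((x.val : ℕ) : ZMod p) := by
    conv_lhs => rw [← ZMod.natCast_zmod_val x]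
    rw [map_natCast]
  rw [h1, ZMod.natCast_eq_zero_iff]

theorem rp_left {p q b : ℕ} (h : p ∣ b * q + 1) (x : ZMod (p * q)) (hx : rp p q x = 0) :
    rp p q (x - b * q) = 1 := by
  have h1 : ((b * q + 1 : ℕ) : ZMod p) = 0 := (ZMod.natCast_eq_zero_iff _ _).2 h
  push_cast at h1
  rw [map_sub, map_mul, map_natCast, map_natCast, hx]
  linear_combination -h1

/-- from positions `≡ 0` to positions not `≡ 1` -/
theorem spread {p q : ℕ} [NeZero p] (F : ZMod (p * q) → ℤ)
    (h0 : ∀ X, rp p q X = 0 → |F X| ≤ 1)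
    (hs : ∀ X, rp p q X ≠ 0 → rp p q X ≠ 1 → F (X + 1) = F X) :
    ∀ X, rp p q X ≠ 1 → |F X| ≤ 1 := by
  have key : ∀ k : ℕ, k + 2 ≤ p → ∀ Y, rp p q Y = 0 → |F (Y - k)| ≤ 1 := by
    intro k
    induction k with
    | zero =>
      intro _ Y hY
      rw [Nat.cast_zero, sub_zero]
      exact h0 Y hY
    | succ k ih =>
      intro hk Y hY
      have h1 := ih (by omega) Y hY
      have h2 : rp p q (Y - ((k + 1 : ℕ) : ZMod (p * q))) = -((k + 1 : ℕ) : ZMod p) := by
        rw [map_sub, map_natCast, hY, zero_sub]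
      have h3 : rp p q (Y - ((k + 1 : ℕ) : ZMod (p * q))) ≠ 0 := by
        rw [h2]
        intro h
        rw [neg_eq_zero, ZMod.natCast_eq_zero_iff] at h
        have := Nat.le_of_dvd (by omega) h
        omega
      have h4 : rp p q (Y - ((k + 1 : ℕ) : ZMod (p * q))) ≠ 1 := by
        rw [h2]
        intro h
        have h5 : ((k + 2 : ℕ) : ZMod p) = 0 := by
          push_cast at h ⊢
          linear_combination -h
        rw [ZMod.natCast_eq_zero_iff] at h5
        have := Nat.le_of_dvd (by omega) h5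
        omega
      have h5 := hs _ h3 h4
      have h6 : Y - ((k + 1 : ℕ) : ZMod (p * q)) + 1 = Y - (k : ZMod (p * q)) := by
        push_cast
        ring
      rw [h6] at h5
      rw [← h5]
      exact h1
  intro X hX
  have h1 := ZMod.val_lt (-(rp p q X))
  have h2 : rp p q (X + (((-(rp p q X)).val : ℕ) : ZMod (p * q))) = 0 := by
    rw [map_add, map_natCast, ZMod.natCast_zmod_val]
    ring
  have h3 : (-(rp p q X)).val + 2 ≤ p := by
    by_contra hc
    apply hX
    have h4 : (-(rp p q X)).val + 1 = p := by omega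
    have h5 : (((-(rp p q X)).val + 1 : ℕ) : ZMod p) = 0 := by
      rw [h4, ZMod.natCast_self]
    rw [Nat.cast_add, ZMod.natCast_zmod_val, Nat.cast_one] at h5
    linear_combination -h5
  have h4 := key _ h3 _ h2
  rw [add_sub_cancel_right] at h4
  exact h4

/-- both sides active is impossible -/
theorem not_both {p a b : ℕ} [NeZero p] (W n m : ZMod p)
    (h1 : a ≤ (m + b - n).val) (h2 : (m + b - n).val + a < p)
    (hR : aR a W n) (hL : aL a b W m) : False := by
  unfold aR at hR
  unfold aL at hL
  have h3 : W - 1 - n = (W - b - 1 - m) + (m + b - n) := by ring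
  rw [h3, ZMod.val_add_of_lt (by omega)] at hR
  omega

/-- `S` in both ranges is impossible -/
theorem not_range {p q a b : ℕ} [NeZero p] [NeZero q] (z : ZMod p → ZMod (p * q))
    (n m : ZMod p) (S : ZMod (p * q)) (hz : z m - b * q = z n + 1)
    (h1 : a ≤ (m + b - n).val) (h2 : (m + b - n).val + a < p)
    (hn : off (sc q z n + 1) S < a * q) (hm : off (sc q z m + 1) S < a * q) : False := by
  have hq : 1 ≤ q := Nat.one_le_iff_ne_zero.2 (NeZero.ne q)
  have h3 : sc q z m + 1 = (sc q z n + 1) + ((q * (m + b - n).val + 1 : ℕ) : ZMod (p * q)) := by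
    have h4 : e p q (m + b - n) = ((q * (m + b - n).val : ℕ) : ZMod (p * q)) := rfl
    rw [Nat.cast_add, ← h4, e_sub, e_add, e_natCast]
    unfold sc
    push_cast
    linear_combination hz
  have h5 : q * ((m + b - n).val + a) ≤ q * (p - 1) := Nat.mul_le_mul_left q (by omega)
  have h6 : q * (p - 1) + q = p * q := by
    rw [← Nat.mul_succ, Nat.succ_eq_add_one, Nat.sub_add_cancel (by omega), Nat.mul_comm]
  have h7 : q * a ≤ q * (m + b - n).val := Nat.mul_le_mul_left q h1
  have h8 : q * ((m + b - n).val + a) = q * (m + b - n).val + q * a := Nat.mul_add _ _ _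
  have h9 : a * q = q * a := Nat.mul_comm _ _
  have h10 : off (sc q z n + 1) (sc q z m + 1) = q * (m + b - n).val + 1 := by
    rw [h3]
    apply off_nat
    have : 0 < q * a := by
      rw [← h9]
      omega
    omega
  have h11 := off_add (sc q z n + 1) (sc q z m + 1) S
  rw [h10] at h11
  omega

end LK3aux

open LK3aux in
theorem lk3 : StVJ → StLK3 := by
  intro hVJ p q a b _ _ hp hpb z hinj hzp hκ hblk X W S
  classical
  have hp1 : 1 < p := by
    have h1 := hp.ha
    have h2 := hp.hab
    omega
  have : Fact (1 < p) := ⟨hp1⟩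
  have h01 : (0 : ZMod p) ≠ 1 := zero_ne_one
  have hz0 : ∀ j, rp p q (z j) = 0 := fun j => (rp_eq_zero p q _).2 (hzp j)
  have hz1 : ∀ j, rp p q (z j - b * q) = 1 := fun j => rp_left hpb _ (hz0 j)
  have hJ := fun X => hVJ p q a b hp z X W S
  have hB0 : ∀ X, rp p q X = 0 → |FF q a b z X W S| ≤ 1 := fun X hX =>
    hblk X W S ((rp_eq_zero p q _).1 hX)
  have hstep : ∀ X, rp p q X ≠ 0 → rp p q X ≠ 1 →
      FF q a b z (X + 1) W S = FF q a b z X W S := by
    intro X h0 h1
    have h2 := hJ X
    rw [Finset.sum_eq_zero] at h2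
    · linarith
    · intro j _
      have h3 : z j ≠ X := fun h => h0 (h ▸ hz0 j)
      have h4 : z j - b * q ≠ X := fun h => h1 (h ▸ hz1 j)
      rw [if_neg h3, if_neg h4, add_zero]
  have hB1 := spread (fun X => FF q a b z X W S) hB0 hstep
  by_cases hX : rp p q X = 1
  · obtain ⟨Y, rfl⟩ : ∃ Y, X = Y + 1 := ⟨X - 1, by ring⟩
    have hY : rp p q Y = 0 := by
      rw [map_add, map_one] at hX
      linear_combination hX
    have hbY := hB0 Y hY
    have hX2 : rp p q (Y + 1 + 1) ≠ 1 := by
      rw [map_add, hX, map_one]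
      intro h
      apply h01
      linear_combination -h
    have hbX := hB1 (Y + 1 + 1) hX2
    have hJ1 := hJ Y
    have hJ2 := hJ (Y + 1)
    have hzX : ∀ j, z j ≠ Y + 1 := by
      intro j h
      apply h01
      rw [← hX, ← h, hz0]
    have hlY : ∀ j, z j - b * q ≠ Y := by
      intro j h
      apply h01
      rw [← hY, ← h, hz1]
    have hJ1' : FF q a b z (Y + 1) W S - FF q a b z Y W S = ∑ j : ZMod p,
        (if z j = Y then (if aR a W j then (1 : ℤ) else 0) -
          (if off (sc q z j + 1) S < a * q then 1 else 0) else 0) := by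
      rw [hJ1]
      apply Finset.sum_congr rfl
      intro j _
      rw [if_neg (hlY j), add_zero]
    have hJ2' : FF q a b z (Y + 1 + 1) W S - FF q a b z (Y + 1) W S = ∑ j : ZMod p,
        (if z j - b * q = Y + 1 then (if off (sc q z j + 1) S < a * q then (1 : ℤ) else 0) -
          (if aL a b W j then 1 else 0) else 0) := by
      rw [hJ2]
      apply Finset.sum_congr rfl
      intro j _
      rw [if_neg (hzX j), zero_add]
    by_cases hn : ∃ n, z n = Y
    · by_cases hm : ∃ m, z m - b * q = Y + 1
      · obtain ⟨n, hn⟩ := hn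
        obtain ⟨m, hm⟩ := hm
        have h1 : ∀ j, z j = Y ↔ j = n := fun j =>
          ⟨fun h => hinj (h.trans hn.symm), fun h => h ▸ hn⟩
        have h2 : ∀ j, z j - b * q = Y + 1 ↔ j = m := fun j =>
          ⟨fun h => hinj (sub_left_inj.1 (h.trans hm.symm)), fun h => h ▸ hm⟩
        simp only [h1, Finset.sum_ite_eq', Finset.mem_univ, if_true] at hJ1'
        simp only [h2, Finset.sum_ite_eq', Finset.mem_univ, if_true] at hJ2'
        have hk := hκ n m (by rw [hm, hn])
        have hA := not_both W n m hk.1 hk.2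
        have hR := not_range (a := a) z n m S (by rw [hm, hn]) hk.1 hk.2
        change |FF q a b z (Y + 1 + 1) W S| ≤ 1 at hbX
        rw [abs_le] at hbY hbX ⊢
        split_ifs at hJ1' hJ2' <;> first | exact absurd ‹_› (fun h => hA ‹_› h) | exact absurd ‹_› (fun h => hR ‹_› h) | (constructor <;> linarith [hbY.1, hbY.2, hbX.1, hbX.2])
      · rw [Finset.sum_eq_zero] at hJ2'
        · have h5 : FF q a b z (Y + 1) W S = FF q a b z (Y + 1 + 1) W S := by linarith
          rw [h5]
          exact hbX
        · intro j _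
          exact if_neg (fun h => hm ⟨j, h⟩)
    · rw [Finset.sum_eq_zero] at hJ1'
      · have h5 : FF q a b z (Y + 1) W S = FF q a b z Y W S := by linarith
        rw [h5]
        exact hbY
      · intro j _
        exact if_neg (fun h => hn ⟨j, h⟩)
  · exact hB1 X hX

end Helper11.N1
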