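import Pool.Agent.Helper11.N1.StB

set_option autoImplicit false

/-!
Module ZZ: `u` vanishes on the box range of every box near the line.
-/

namespace Helper11.N1

namespace ZZaux

/-- the row value of a shifted row -/
theorem valRow {p : ℕ} [NeZero p] (f : ZMod p) {d : ℕ} (hd : d < p) :
    (f + (d : ℕ) - f).val = d := by
  rw [add_sub_cancel_left, ZMod.val_natCast, Nat.mod_eq_of_lt hd]

theorem valRow1 {p : ℕ} [NeZero p] (f : ZMod p) {d : ℕ} (h1 : 1 ≤ d) (hd : d < p) :
    (f + (d : ℕ) - 1 - f).val = d - 1 := by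
  have h : f + (d : ZMod p) - 1 - f = ((d - 1 : ℕ) : ZMod p) := by
    rw [Nat.cast_sub h1]
    push_cast
    ring
  rw [h, ZMod.val_natCast, Nat.mod_eq_of_lt (by omega)]

/-- the bottom side of the box of `f - b` -/
theorem scShift {p q b : ℕ} [NeZero p] [NeZero q] (z : ZMod p → ZMod (p * q)) (f : ZMod p) :
    off (sc q z f) (sc q z (f - (b : ℕ))) =
      off (z f) (z (f - (b : ℕ)) - (b : ℕ) * (q : ℕ)) := by
  unfold off sc
  congr 1
  rw [e_sub, e_natCast]
  push_cast
  ring

section main

variable {p q a b : ℕ} [NeZero p] [NeZero q]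

/-- over `H f` -/
theorem hl (hpar : Par p q a b) (z : ZMod p → ZMod (p * q))
    (y u : ZMod p → ZMod (p * q) → ℤ) (hw : World q a b z y u) (hy : ∀ j, YY q a b z y j)
    (f : ZMod p) (d : ℕ) (h1 : 1 ≤ d) (h2 : d ≤ a) (S : ZMod (p * q))
    (h3 : d * q < off (sc q z f) S)
    (h4 : off (sc q z f) S ≤ d * q + off (z f) (z (f - (b : ℕ)) - (b : ℕ) * (q : ℕ))) :
    u (f + (d : ℕ)) S = 0 := by
  have hab := hpar.hab
  have hdp : d < p := by omega
  have hM := off_lt (sc q z f) S
  set W : ZMod p := f + (d : ℕ) with hW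
  have ha : aR a W f := by
    unfold aR
    rw [hW, valRow1 f h1 hdp]
    omega
  set X : ZMod (p * q) := S - e p q W with hX
  have hXS : X + e p q W = S := by rw [hX]; ring
  set n : ℕ := off (sc q z f) S - d * q - 1 with hn
  have hn1 : n + 1 + d * q = off (sc q z f) S := by omega
  have hXz : X = z f + 1 + (n : ℕ) := by
    have hs : S = sc q z f + (off (sc q z f) S : ℕ) := (off_spec _ _).symm
    rw [← hn1] at hs
    rw [hX, hs, hW, e_add, e_natCast]
    unfold sc
    push_cast
    ring
  have hH : H q b z f X := by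
    unfold H
    rw [hXz, off_nat _ (by omega)]
    omega
  have hy0 : y W X = 0 := hy f W ha X hH
  have hout : ∀ j, ¬ box q a b z j X (X + e p q W) := by
    intro j hj
    have := ((hw W).inn j X hj).1
    omega
  have h5 := (hw W).out X hout
  rw [hXS] at h5
  omega

/-- inside the box -/
theorem inb (hBL : StBL) (hpar : Par p q a b) (z : ZMod p → ZMod (p * q))
    (y u : ZMod p → ZMod (p * q) → ℤ) (hw : World q a b z y u)
    (f : ZMod p) (d : ℕ) (hd : d < p) (S : ZMod (p * q))
    (h3 : (d - b) * q < off (sc q z f) S) (h4 : off (sc q z f) S ≤ a * q)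
    (h5 : off (sc q z f) S ≤ d * q) : u (f + (d : ℕ)) S = 0 := by
  have h := (hBL p q a b hpar z (f + (d : ℕ)) f).2 S
  rw [valRow f hd] at h
  have hb := h.2 ⟨h3, h4, h5⟩
  have hXS : S - e p q (f + (d : ℕ)) + e p q (f + (d : ℕ)) = S := by ring
  have h6 := (hw (f + (d : ℕ))).inn f (S - e p q (f + (d : ℕ))) (by rw [hXS]; exact hb)
  rw [hXS] at h6
  exact h6.2

/-- `UP` -/
theorem up (hBL : StBL) (hpar : Par p q a b) (z : ZMod p → ZMod (p * q))
    (y u : ZMod p → ZMod (p * q) → ℤ) (hw : World q a b z y u) (hy : ∀ j, YY q a b z y j) :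
    ∀ n d : ℕ, a - d ≤ n → 1 ≤ d → d < a + b → ∀ (f : ZMod p) (S : ZMod (p * q)),
    (d - b) * q < off (sc q z f) S → off (sc q z f) S ≤ a * q → u (f + (d : ℕ)) S = 0 := by
  have hab := hpar.hab
  have hb2 := hpar.hb
  intro n
  induction n with
  | zero =>
    intro d h0 h1 h2 f S h3 h4
    apply inb hBL hpar z y u hw f d (by omega) S h3 h4
    have : a * q ≤ d * q := Nat.mul_le_mul_right q (by omega)
    omega
  | succ n ih =>
    intro d h0 h1 h2 f S h3 h4
    rcases le_or_gt (off (sc q z f) S) (d * q) with h5 | h5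
    · exact inb hBL hpar z y u hw f d (by omega) S h3 h4 h5
    have hda : d < a := by
      by_contra hc
      have : a * q ≤ d * q := Nat.mul_le_mul_right q (by omega)
      omega
    rcases le_or_gt (off (sc q z f) S)
      (d * q + off (z f) (z (f - (b : ℕ)) - (b : ℕ) * (q : ℕ))) with h6 | h6
    · exact hl hpar z y u hw hy f d h1 hda.le S h5 h6
    have h7 := scShift (b := b) z f
    have h8 := off_add (sc q z f) (sc q z (f - (b : ℕ))) S
    have h9 := off_lt (sc q z (f - (b : ℕ))) S
    rw [h7] at h8
    have h10 : off (z f) (z (f - (b : ℕ)) - (b : ℕ) * (q : ℕ)) + off (sc q z (f - (b : ℕ))) S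
        = off (sc q z f) S := by omega
    have h11 := ih (d + b) (by omega) (by omega) (by omega) (f - (b : ℕ)) S
      (by rw [Nat.add_sub_cancel]; omega) (by omega)
    have h12 : f - (b : ℕ) + ((d + b : ℕ) : ZMod p) = f + (d : ℕ) := by
      push_cast
      ring
    rw [h12] at h11
    exact h11

/-- the claim by induction on the distance -/
theorem all (hBL : StBL) (hpar : Par p q a b) (z : ZMod p → ZMod (p * q))
    (y u : ZMod p → ZMod (p * q) → ℤ) (hw : World q a b z y u) (hy : ∀ j, YY q a b z y j)
    (hlen : ∀ j : ZMod p, off (z j) (z (j - (b : ℕ)) - (b : ℕ) * (q : ℕ)) + a * q < p * q) :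
    ∀ n d : ℕ, d ≤ n → 1 ≤ d → d ≤ a + b → ∀ (f : ZMod p) (S : ZMod (p * q)),
    1 ≤ off (sc q z f) S → off (sc q z f) S ≤ a * q → u (f + (d : ℕ)) S = 0 := by
  have hab := hpar.hab
  have hb2 := hpar.hb
  intro n
  induction n with
  | zero =>
    intro d h0 h1
    omega
  | succ n ih =>
    intro d h0 h1 h2 f S h3 h4
    rcases lt_or_ge ((d - b) * q) (off (sc q z f) S) with h5 | h5
    · have h6 : d < a + b := by
        by_contra hc
        have h7 : d - b = a := by omega
        rw [h7] at h5
        omega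
      exact up hBL hpar z y u hw hy (a - d) d le_rfl h1 h6 f S h5 h4
    · have hdb : b < d := by
        by_contra hc
        have h7 : d - b = 0 := by omega
        rw [h7, Nat.zero_mul] at h5
        omega
      have hg := scShift (b := b) z (f + (b : ℕ))
      rw [add_sub_cancel_right] at hg
      have h8 := off_add (sc q z (f + (b : ℕ))) (sc q z f) S
      have h9 := hlen (f + (b : ℕ))
      rw [add_sub_cancel_right] at h9
      have h10 := off_lt (sc q z (f + (b : ℕ))) S
      rw [hg] at h8
      have h11 : off (z (f + (b : ℕ))) (z f - (b : ℕ) * (q : ℕ)) + off (sc q z f) S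
        = off (sc q z (f + (b : ℕ))) S := by omega
      have h12 : f + (b : ℕ) + ((d - b : ℕ) : ZMod p) = f + (d : ℕ) := by
        rw [Nat.cast_sub hdb.le]
        ring
      have h13 : (d - b) * q ≤ a * q := Nat.mul_le_mul_right q (by omega)
      rcases lt_or_ge ((d - b) * q) (off (sc q z (f + (b : ℕ))) S) with h14 | h14
      · have h15 := hl hpar z y u hw hy (f + (b : ℕ)) (d - b) (by omega) (by omega) S h14
          (by rw [add_sub_cancel_right]; omega)
        rw [h12] at h15
        exact h15
      · have h15 := ih (d - b) (by omega) (by omega) (by omega) (f + (b : ℕ)) S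
          (by omega) (by omega)
        rw [h12] at h15
        exact h15

end main

end ZZaux

open ZZaux in
theorem zz : StBL → StZZ := by
  intro hBL p q a b _ _ hpar z hG hD y u hw hy hlen W f hWf S hS
  have hab := hpar.hab
  have ha2 := hpar.ha
  have hb2 := hpar.hb
  have hq1 := hpar.hq
  have hlen' : ∀ j : ZMod p,
      off (z j) (z (j - (b : ℕ)) - (b : ℕ) * (q : ℕ)) + a * q < p * q := by
    intro j
    have h1 := hlen j
    have h2 : a * q * 2 ≤ a * b * q := by
      have : a * q * 2 ≤ a * q * b := Nat.mul_le_mul_left _ hb2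
      calc a * q * 2 ≤ a * q * b := this
        _ = a * b * q := by ring
    have h3 : 1 ≤ a * q := Nat.one_le_iff_ne_zero.2 (Nat.mul_ne_zero (by omega) (by omega))
    omega
  set n : ℕ := (W - 1 - f).val with hn
  have hW : f + ((n + 1 : ℕ) : ZMod p) = W := by
    rw [Nat.cast_add, hn, ZMod.natCast_zmod_val]
    push_cast
    ring
  have haq : a * q + 1 < p * q := by
    have h1 : (a + 2) * q ≤ p * q := Nat.mul_le_mul_right q (by omega)
    have h2 : (a + 2) * q = a * q + 2 * q := by ring
    omega
  have h1 : off (sc q z f) (sc q z f + 1) = 1 := by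
    have := off_nat (M := p * q) (sc q z f) (n := 1) (by omega)
    rwa [Nat.cast_one] at this
  have h2 := off_add_of_lt (x := sc q z f) (y := sc q z f + 1) (w := S) (by omega)
  rw [h1] at h2
  have h3 := all hBL hpar z y u hw hy hlen' (n + 1) (n + 1) le_rfl (by omega) (by omega) f S
    (by omega) (by omega)
  rw [hW] at h3
  exact h3

end Helper11.N1
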