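import Pool.Agent.Helper11.N1.Api

set_option autoImplicit false

/-!
Project N1 (MP_0a4b47_nt, flat ternary cyclotomic polynomials: a flat configuration with disjoint
boxes is impossible).  Statements of part 1 (one level), with complete proofs in the docstrings.
Definitions in `Defs.lean`, elementary facts (distances `off`, row map `e`, residues `res`) proved
in `Api.lean`.

A module proves `theorem x : StX` or `theorem x : StY → StZ → StX` as said in its docstring.

Conventions: `M = p q`, `X, S` positions in `ZMod M`, `W, j` rows in `ZMod p`.  The line of level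
`W` is the set of the pairs `(X, X + e W)`.  A letter at `X` is an active side `R` (`z j = X`),
`L` (`z j - b q = X`), `B` (`sc j = X + e W`) or `T` (`sc j + a q = X + e W`).  For distances use
`off_add`: going from `x` to `y` to `w` costs `off x w` or `off x w + M`; then `omega` (multiply
out products such as `(a + b) * q` first and treat `a * q`, `b * q`, `p * q` as atoms;
`Par.hab` gives `a * q + b * q + q ≤ p * q`).
-/

namespace Helper11.N1

/-- BL (no dependence).  The part of the line inside a box.

PROOF.  Let `d = (W - j).val`, `t = off X (z j)`, so `z j = X + t`.  For `S = X + e W`: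
`S - (sc j + 1) = e (W - j) - t - 1`, whose `val` is `d q - t - 1` if `t < d q` and
`M + d q - t - 1` otherwise.  In the second case with `t < b q` this is at least `M - b q ≥ a q`,
so the point is not in the box; in the first case `d q - t - 1 < a q` iff `(d - a) q ≤ t`
(truncated subtraction; if `d ≤ a` both are true).
The second form: `σ = off (sc j) S`, `X = S - e W`, `z j - X = e (W - j) - σ`, so `t = d q - σ` if
`σ ≤ d q` and `t = M + d q - σ` otherwise; in the second case `t < b q` means
`σ > M + d q - b q ≥ M - b q > a q`.  And `off (sc j + 1) S < a q` iff `1 ≤ σ ≤ a q`. -/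
def StBL : Prop := ∀ (p q a b : ℕ) [NeZero p] [NeZero q], Par p q a b →
  ∀ (z : ZMod p → ZMod (p * q)) (W j : ZMod p),
  (∀ X : ZMod (p * q), box q a b z j X (X + e p q W) ↔
    ((W - j).val - a) * q ≤ off X (z j) ∧ off X (z j) < b * q ∧ off X (z j) < (W - j).val * q) ∧
  (∀ S : ZMod (p * q), box q a b z j (S - e p q W) S ↔
    ((W - j).val - b) * q < off (sc q z j) S ∧ off (sc q z j) S ≤ a * q ∧
      off (sc q z j) S ≤ (W - j).val * q)

/-- LJ (to prove: `theorem lj : StBL → StLJ`).  How the membership of the line in the box `j`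
changes at one step.

PROOF.  `d = (W - j).val`, `t = off X (z j)`.  By BL the point of `X` is in the box iff
`(d - a) q ≤ t`, `t < b q`, `t < d q`.  If `t ≥ 1` then `off (X + 1) (z j) = t - 1`; if `t = 0` then
`off (X + 1) (z j) = M - 1`, and the point of `X + 1` is not in the box (`b q < M`).
Entering (`X` outside, `X + 1` inside): `t = min (b, d) q` and `(d - a) q < t`; this is the letter
`B` (`t = d q`, i.e. `sc j = X + e W`) if `d ≤ b`, and `B` is active iff `1 ≤ d ≤ b`
(`(W - 1 - j).val = d - 1` for `d ≥ 1`, `= p - 1` for `d = 0`); it is the letter `L` if `d > b`,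
and `L` is active iff `b + 1 ≤ d ≤ a + b` (`(W - b - 1 - j).val = d - b - 1` if `d > b`,
`= d + p - b - 1 ≥ a` if `d ≤ b`).
Leaving: `t = (d - a) q`; this is `R` (`t = 0`) if `d ≤ a`, active iff `1 ≤ d ≤ a`; it is `T` if
`d > a`, active iff `a + 1 ≤ d ≤ a + b`.  For `d = a + b` the letters `L` and `T` sit at the same
`X` (`t = b q`) and cancel, and the line does not meet the box. -/
def StLJ : Prop := ∀ (p q a b : ℕ) [NeZero p] [NeZero q], Par p q a b →
  ∀ (z : ZMod p → ZMod (p * q)) (W j : ZMod p) (X : ZMod (p * q)), open Classical in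
  (if box q a b z j (X + 1) (X + 1 + e p q W) then (1 : ℤ) else 0) -
    (if box q a b z j X (X + e p q W) then 1 else 0) =
  (if aL a b W j ∧ z j - b * q = X then 1 else 0) - (if aR a W j ∧ z j = X then 1 else 0) +
    (if aB b W j ∧ sc q z j = X + e p q W then 1 else 0) -
    (if aT a b W j ∧ sc q z j + a * q = X + e p q W then 1 else 0)

/-- the signed counting function of the active horizontal sides below `S` -/
noncomputable def rhoS {p : ℕ} (q a b : ℕ) (z : ZMod p → ZMod (p * q)) [NeZero p] (W : ZMod p)
    (S : ZMod (p * q)) : ℤ :=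
  open Classical in ∑ j : ZMod p,
    ((if aT a b W j ∧ (sc q z j + a * q).val < S.val then (1 : ℤ) else 0) -
      (if aB b W j ∧ (sc q z j).val < S.val then 1 else 0))

/-- DEC (no dependence).  The triangle count is `N` plus a function of `X` plus a function of `S`.

PROOF.  Put `X' = X + e W`, `T = off X' S < M`, and `c x = 1` if `off X' x < T`, else `0`
(the indicator of `x` in the arc from `X'` (included) to `S` (excluded)).
(1) For any point `(x, i)` (position `x`, row `i`) put `t = off X x`, `w = (i - W).val`,
`σ = off X' (x + e i)`; then `σ = t + q w` or `t + q w - M`, and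
`(t + q w < T) ↔ (q w ≤ σ ∧ σ < T)` (if `t + q w ≥ M` then `σ < q w`).
(2) The points `(z j, j)` and `(z j - b q, j + b)` have the same `x + e i = sc j`; let `w`, `w'` be
their row distances, `w' = w + b` or `w + b - p`, the second iff `aB b W j` (since
`(W - 1 - j).val = p - 1 - w`).  Claim: `[q w ≤ σ] - [q w' ≤ σ] = [off X (z j) < b q] - [aB b W j]`.
If `w' = w + b`: the left side is `[q w ≤ σ < q w + b q]`; for `t + q w < M` this is `[t < b q]`;
for `t + q w ≥ M` it is `0` and `t ≥ M - q w > b q`.  If `w' = w + b - p`: for `t + q w < M` both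
indicators are `1` and `t < M - q w ≤ b q`; for `t + q w ≥ M`, `σ = t + q w - M < q w`, and the left
side is `-[q w + b q - M ≤ σ] = -[b q ≤ t]`.
(3) The same for `(z j, j + a)` and `(z j - b q, j + a + b)` with `sc j + a q` and `aT`.
So the `j`-th summand of `FF` is `([J] - [B]) c (sc j) - ([J] - [T]) c (sc j + a q)`, where `[J]` is
`1` iff `off X (z j) < b q`.
(4) `c s - c (s + a q) = [off (s + 1) S < a q] - [off (s + 1) X' < a q]`: let `σ = off X' s`.  If
`σ + a q < M` then the left side is `[σ < T ≤ σ + a q]`, the first term on the right is the same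
and the second is `0`.  If `σ + a q ≥ M` then with `σ' = σ + a q - M` the left side is
`-[σ' < T ≤ σ]`, the last term is `1` and the first on the right is `[T > σ] + [T ≤ σ']`.
(5) `c x = [x.val < S.val] - [x.val < X'.val] + [S.val < X'.val]`.
(6) There are exactly `b` rows `j` with `aB b W j` and `b` rows with `aT a b W j`, so the last
terms of (5) cancel in the sum over `j`.  Sum up. -/
def StDEC : Prop := ∀ (p q a b : ℕ) [NeZero p] [NeZero q], Par p q a b →
  ∀ (z : ZMod p → ZMod (p * q)) (X : ZMod (p * q)) (W : ZMod p) (S : ZMod (p * q)),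
  FF q a b z X W S = NN q a b z X S - NN q a b z X (X + e p q W) +
    rhoS q a b z W S - rhoS q a b z W (X + e p q W)

/-- LDX (to prove: `theorem ldx : StLJ → StDEC → StLDX`).

PROOF.  `rho S := rhoS W S`, `lam X := - NN X (X + e W) - rho (X + e W)`.  `line` is clear, `up` and
`lo` are `|FF| ≤ 1` by DEC.  `rj`: for each `j`, `[x.val < (S+1).val] - [x.val < S.val]` is
`[x = S]` if `(S + 1).val = S.val + 1`; if `S + 1 = 0` it is `- [x.val < M - 1] = [x = S] - 1`; in
the second case the terms `- 1` cancel since there are `b` rows with `aT` and `b` rows with `aB`.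
`lj`: `lam (X+1) - lam X = - (NN (X+1) (X+1+e W) - NN X (X+e W)) - (rho (X+1+e W) - rho (X + e W))`;
insert LJ (summed over `j`) and `rj` with `S = X + e W`. -/
def StLDX : Prop := ∀ (p q a b : ℕ) [NeZero p] [NeZero q], Par p q a b →
  ∀ (z : ZMod p → ZMod (p * q)) (W : ZMod p),
  (∀ X S, |FF q a b z X W S| ≤ 1) → ∃ lam rho : ZMod (p * q) → ℤ, LD q a b z W lam rho

/-- CNT (to prove: `theorem cnt : StBL → StCnt`).  Each line has `a b q` points in boxes.

PROOF.  Exchange the sums: for fixed `j` with `d = (W - j).val` the number of `X` whose line point is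
in the box is, by BL, the number of `t < M` with `(d - a) q ≤ t < b q`, `t < d q` (the map
`X ↦ off X (z j)` is a bijection onto `{0..M-1}`).  Sum over `j`, i.e. over `d = 0..p-1`, and exchange
again: for every `t < b q` the number of `d < p` with `(d - a) q ≤ t < d q` is the number of `d` with
`t / q < d ≤ t / q + a`, which is `a` because `t / q + a ≤ b - 1 + a < p`.  Total `b q * a`. -/
def StCnt : Prop := ∀ (p q a b : ℕ) [NeZero p] [NeZero q], Par p q a b →
  ∀ (z : ZMod p → ZMod (p * q)) (W : ZMod p),
  ∑ X : ZMod (p * q), NN q a b z X (X + e p q W) = (a * b * q : ℕ)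

/-- UNI (no dependence).  Jumps at single letters.

PROOF.  In the sums of `LD.lj` and `LD.rj` at most one `j` contributes: two letters at the same place
belong to clusters with the same residue modulo `q` (`res (z j)`, since `res (b q) = 0`,
`res (e j) = 0`), so they belong to the same `j` (`gen_res`); and `z j = X = z j - b q` is impossible
since `0 < b q < M`; `sc j = S = sc j + a q` likewise.  So each of the two sums is `0` or `1`
(`Finset.sum_eq_single`), and if one is `1` the other is `0`. -/
def StUni : Prop := ∀ (p q a b : ℕ) [NeZero p] [NeZero q], Par p q a b →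
  ∀ (z : ZMod p → ZMod (p * q)), Gen q z → ∀ (W : ZMod p) (lam rho : ZMod (p * q) → ℤ),
  LD q a b z W lam rho →
  (∀ j, aR a W j → lam (z j + 1) = lam (z j) + 1) ∧
  (∀ j, aL a b W j → lam (z j - b * q + 1) = lam (z j - b * q) - 1) ∧
  (∀ j, aB b W j → rho (sc q z j + 1) = rho (sc q z j) - 1) ∧
  (∀ j, aT a b W j → rho (sc q z j + a * q + 1) = rho (sc q z j + a * q) + 1) ∧
  (∀ X, (∀ j, aR a W j → z j ≠ X) → (∀ j, aL a b W j → z j - b * q ≠ X) → lam (X + 1) = lam X) ∧
  (∀ S, (∀ j, aB b W j → sc q z j ≠ S) → (∀ j, aT a b W j → sc q z j + a * q ≠ S) →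
    rho (S + 1) = rho S)

/-- NB (to prove: `theorem nb : StBL → StUni → StNb`).  States next to a box on the line.

PROOF.  Fix `j`, `d = (W - j).val`; by BL the line points of the box are the `X = z j - t` with
`lo ≤ t < hi`, `lo = (d - a) q`, `hi = min b d * q`; if there is one then `1 ≤ d ≤ a + b - 1`.
(1) `lam` and `rho (· + e W)` are constant on these points: let `X`, `X + 1` both be such points.
There is no letter at `X`: if `R` of `i` is active and `z i = X` then by BL (`1 ≤ (W - i).val ≤ a`,
`t = 0`) the line point of `X` is in the box `i`, so `i = j` by disjointness, and then the point of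
`X + 1` is not in the box `j`.  If `L` of `i` is active and `z i - b q = X`: the point
`(X + 1, X + e W)` is in the box `i` (`off (X+1) (z i) = b q - 1`;
`off (sc i + 1) (X + e W) = ((W - i).val - b) q - 1 < a q`) and in the box `j` (first coordinate from
the point of `X + 1`, second from the point of `X`), so `i = j`, but then `off X (z j) = b q`,
contradiction.  If `B` of `i` is active and `sc i = X + e W` then `(W - i).val` is between `1` and
`b`, the point `(X, X + e W + 1)` is in the box `i` (`off X (z i) = (W - i).val q` could be `b q`;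
use instead the point `(X + 1, X + 1 + e W)`, which is in the box `i` and in the box `j`), so
`i = j`, but `off (sc j + 1) (X + e W) = M - 1`, contradiction.  If `T` of `i` is active and
`sc i + a q = X + e W`: the point `(X + 1, X + e W)` is in the box `i`
(`off (X+1) (z i) = ((W - i).val - a) q - 1 < b q`, `off (sc i + 1) (X + e W) = a q - 1`) and in the
box `j`, so `i = j`, but the point of `X + 1` is then not in the box `j`.  By StUni nothing changes.
Hence by induction `lam`, `rho` are the same at all line points of the box.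
(2) At the first point (`t = hi - 1`) the previous step is the letter `B` if `d ≤ b`
(`X' = z j - d q`, `X' + e W = sc j`, `rho` drops by one, and `lam` does not change at `X'`: a letter
`R` or `L` at `X'` has the residue of `z j`, so it belongs to `j`; `R` of `j` is at `z j ≠ X'`; `L` of
`j` is at `z j - b q`, equal to `X'` only for `d = b`, when `L` of `j` is not active); if `d > b` it is
the letter `L` (`X' = z j - b q`, `lam` drops by one, `rho` does not change: `B` of `j` is not active
for `d > b`, `T` of `j` is at `X' + e W` only for `d = a + b`).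
(3) After the last point (`t = lo`): `R` if `d ≤ a` (`lam` rises by one at `z j`, `rho` does not
change: `T` of `j` is not active, `B` of `j` is at `sc j ≠ z j + e W` as `d ≥ 1`); `T` if `d > a`
(`rho` rises by one at `X = z j - (d - a) q`; `lam` does not change: `R` of `j` is not active,
`L` of `j` is at `z j - b q ≠ X`). -/
def StNb : Prop := ∀ (p q a b : ℕ) [NeZero p] [NeZero q], Par p q a b →
  ∀ (z : ZMod p → ZMod (p * q)), Gen q z → Disj q a b z →
  ∀ (W : ZMod p) (lam rho : ZMod (p * q) → ℤ), LD q a b z W lam rho →
  ∀ (j : ZMod p) (X : ZMod (p * q)), box q a b z j X (X + e p q W) →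
  (∀ X', box q a b z j X' (X' + e p q W) → lam X' = lam X ∧
    rho (X' + e p q W) = rho (X + e p q W)) ∧
  ((W - j).val ≤ b → ∃ X', lam X' = lam X ∧ rho (X' + e p q W) = rho (X + e p q W) + 1) ∧
  (b < (W - j).val → ∃ X', lam X' = lam X + 1 ∧ rho (X' + e p q W) = rho (X + e p q W)) ∧
  ((W - j).val ≤ a → ∃ X', lam X' = lam X + 1 ∧ rho (X' + e p q W) = rho (X + e p q W)) ∧
  (a < (W - j).val → ∃ X', lam X' = lam X ∧ rho (X' + e p q W) = rho (X + e p q W) + 1)

/-- LEV (to prove: `theorem lev : StBL → StCnt → StUni → StNb → StLev`).  For `a ≤ b` every level is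
in normal form.

PROOF.  By disjointness `NN` is `0` or `1` (it is `1` iff the point is in some box).  Let
`l0 ≤ l1` be the minimum and maximum of `lam`, `r0 ≤ r1` those of `rho` (finite type).
(a) `l1 + r1 ≤ 1` and `l0 + r0 ≥ -2` (from `up`, `lo` and `0 ≤ NN ≤ 1`).  `l0 < l1`, `r0 < r1`: with
`j = W - 1` the sides `R` and `B` of `j` are active, use StUni.  So
`(l1 - l0, r1 - r0)` is `(1,1)`, `(2,1)` or `(1,2)` (sum at most `3`), and in the last two cases
`l0 + r0 = -2`; in the first case `l0 + r0` is `-1` (then we are done with `c = l1 = - r0`) or `-2`.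
Write `i = lam X - l0`, `k = rho (X + e W) - r0` for the state of the line at `X`.  If
`l0 + r0 = -2` then `NN = 2 - i - k` on the line.
(b) `(1,1)` and `-2`: `j = W - 1`, the line point of `X = z j` is in the box `j` (BL, `d = 1`,
`t = 0`).  By NB (`1 ≤ a`) there is a state `(i + 1, k)`, so `i = 0`; `NN = 1` gives `k = 1`; by NB
(`1 ≤ b`) there is a state with `k + 1 = 2`, contradiction.
(c) `(2,1)` and `-2`: take `X` with `i = 0`; `NN = 2 - k ≤ 1` gives `k = 1` and `NN = 1`, so the
point is in a box `j`.  If `(W - j).val ≤ b` NB gives a state with `k + 1 = 2`, otherwise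
`a ≤ b < (W - j).val` and NB gives the same.  Contradiction to `k ≤ 1`.
(d) `(1,2)` and `-2`.  Let `S0` be a position with `rho S0 = r0`.  For any `S` with `rho S = r0` (line
point `X = S - e W`): `NN = 2 - i ≤ 1` gives `i = 1`, `NN = 1`, box `j`; if `(W - j).val > b` or
`(W - j).val ≤ a` NB gives a state with `i + 1 = 2`, contradiction; so `a < (W - j).val ≤ b`, and by
BL (second form) every `S'` with `1 ≤ off (sc j) S' ≤ a q` is a line point of the box `j`, so
`rho S' = r0` and `i = 1` there (NB, first part).  Let `Q` be the set of the rows `j` arising in this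
way; it is not empty, and `{S : rho S = r0}` is the disjoint union of the sets
`I j = {S' : 1 ≤ off (sc j) S' ≤ a q}`, `j ∈ Q` (disjoint because a line point is in at most one box),
so it has `a q |Q|` elements.  Let `Y = {X : lam X = l0}`.
Claim: `X ∈ Y`, `j ∈ Q` imply `off X (z j) < b q`.  For `S ∈ I j`, `lo` gives
`NN X S + l0 + r0 ≥ -1`, so `NN X S = 1`.  Let `f` be the box containing `(X, sc j + 1)`; if `f = j`
we are done.  Otherwise `τ = off (sc f) (sc j)` satisfies `1 ≤ τ < a q` (`τ ≠ 0` by residues,
`off (sc f + 1) (sc j + 1) = τ < a q`).  The position `S1 = sc f + a q + 1` is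
`sc j + (a q - τ + 1)`, in `I j`; let `g` be the box containing `(X, S1)`.  `g ≠ f` since
`off (sc f + 1) S1 = a q`.  The position `S1 - 1` is in the range of `f`; if it were in the range of
`g` then `f = g` by disjointness; so `S1 = sc g + 1`, `sc g = sc f + a q`, equal residues, `g = f`,
contradiction.
Fix `X0 ∈ Y`.  For `j ∈ Q` the line positions `X` with `X + e W ∈ I j` satisfy `off X (z j) < b q`
(box `j`), and `off X0 (z j) < b q`; so they lie in the set
`D = {X : off X X0 < b q or off X0 X < b q}`, which has at most `2 b q - 1` elements; also `Y ⊆ D`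
(take one `j ∈ Q`).  These line positions have `i = 1`, so they are not in `Y`.  Hence
`|Y| + a q |Q| ≤ 2 b q - 1`.
On the other hand sum `NN = 2 - i - k` over the line: `a b q = 2 M - (M - |Y|) - Σ k` and
`Σ k = M - |{k = 0}| + |{k = 2}|`, so `|Y| + a q |Q| = a b q + |{k = 2}| ≥ a b q ≥ 2 b q`.
Contradiction. -/
def StLev : Prop := ∀ (p q a b : ℕ) [NeZero p] [NeZero q], Par p q a b → a ≤ b →
  ∀ (z : ZMod p → ZMod (p * q)), Gen q z → Disj q a b z →
  ∀ (W : ZMod p) (lam rho : ZMod (p * q) → ℤ), LD q a b z W lam rho →
  ∃ c : ℤ, (∀ X, lam X = c ∨ lam X = c - 1) ∧ (∀ S, rho S = -c ∨ rho S = -c + 1)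

/-- the reflected configuration -/
def zr {p : ℕ} (q : ℕ) (z : ZMod p → ZMod (p * q)) (j : ZMod p) : ZMod (p * q) := - sc q z j

/-- REF (no dependence).  The reflection `(X, S) ↦ (1 - S, 1 - X)` exchanges `a` and `b`.

PROOF.  `sc (zr z) j = - z j` and `zr (zr z) = z`.  `off X (- sc j) = off (sc j + 1) (1 - X)` and
`off (- z j + 1) S = off (1 - S) (z j)` (`off_reflect`), so `box q b a (zr q z) j X S` is
`box q a b z j (1 - S) (1 - X)`.  With `X' = 1 - (X + e W)` one has `X' + e W = 1 - X`, so line points
go to line points of the same level.  `aR b W j` is the same as `aB b W j` (definitional up to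
unfolding), `aL b a W j` the same as `aT a b W j`, and conversely.  `Gen`: `res (- sc i) = - res (z i)`
(or directly: the residue of `zr i - zr j = sc j - sc i`).  `NN`: sum of the box indicators.
LD: `lam' X = rho (1 - X)`, `rho' S = lam (1 - S)`;
`lam' (X + 1) - lam' X = rho (-X) - rho (-X + 1) = [B at -X] - [T at -X]`, and `sc j = - X` iff
`zr j = X`, `sc j + a q = - X` iff `zr j - a q = X`.
Lvl: `y' X = 1 - u (1 - X)`, `u' S = 1 - y (1 - S)`.  For example `yR` for `y'`: `aR b W j` is
`aB b W j`; `y' (zr j) = 1 - u (1 + sc j) = 1`, `y' (zr j + 1) = 1 - u (sc j) = 0`. -/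
def StRef : Prop := ∀ (p q a b : ℕ) [NeZero p] [NeZero q], Par p q a b →
  ∀ (z : ZMod p → ZMod (p * q)),
  (∀ j, sc q (zr q z) j = - z j) ∧
  (∀ j X S, box q b a (zr q z) j X S ↔ box q a b z j (1 - S) (1 - X)) ∧
  (Gen q z → Gen q (zr q z)) ∧
  (Disj q a b z → Disj q b a (zr q z)) ∧
  (∀ (W : ZMod p) (lam rho : ZMod (p * q) → ℤ), LD q a b z W lam rho →
    LD q b a (zr q z) W (fun X => rho (1 - X)) (fun S => lam (1 - S))) ∧
  (∀ (W : ZMod p) (y u : ZMod (p * q) → ℤ), Lvl q a b z W y u →
    Lvl q b a (zr q z) W (fun X => 1 - u (1 - X)) (fun S => 1 - y (1 - S)))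

/-- LVL (to prove: `theorem lvl : StUni → StLev → StRef → StLvl`).

PROOF.  First the conclusion of LEV for all `a`, `b`: if `b < a` apply LEV to the reflected data
(REF): `rho (1 - X) ∈ {c, c - 1}`, `lam (1 - S) ∈ {-c, -c + 1}`; so LEV holds with `c' = 1 - c`.
Put `y = c - lam`, `u = rho + c`, both with values in `{0, 1}`.  The sides: if `aR a W j` then
`lam (z j + 1) = lam (z j) + 1` (UNI), so `y (z j) = y (z j + 1) + 1`, hence `y (z j) = 1` and
`y (z j + 1) = 0`; in the same way `yL`, `uB`, `uT`; `yC`, `uC` from UNI.  Line: `NN` is `1` in a box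
(exactly one term by disjointness) and `0` outside all boxes; `NN = y - u` on the line.  So in a box
`y = 1`, `u = 0`, and outside `y = u`.  `flat`: `up` gives `1 - y + u ≤ 1` in a box. -/
def StLvl : Prop := ∀ (p q a b : ℕ) [NeZero p] [NeZero q], Par p q a b →
  ∀ (z : ZMod p → ZMod (p * q)), Gen q z → Disj q a b z →
  ∀ (W : ZMod p) (lam rho : ZMod (p * q) → ℤ), LD q a b z W lam rho →
  ∃ y u : ZMod (p * q) → ℤ, Lvl q a b z W y u

end Helper11.N1
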