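import Pool.Agent.Helper11.N1.StA

set_option autoImplicit false

/-!
Project N1, statements of part 2 (the world of all levels in normal form leads to a contradiction),
with complete proofs in the docstrings.  Conventions as in `StA.lean`.

Row `j` carries four points: `P = z j`, `r = z (j - a)`, `l = z (j - b) - b q`,
`t = z (j - a - b) - b q`.  Passing from level `j` to level `j + 1` adds the sides `R`, `B` of `j`
(at `P`), `L` of `j - b` (at `l`), `T` of `j - a` (at `r`) and removes `R` of `j - a` (at `r`), `B` of
`j - b` (at `l`), `L` and `T` of `j - a - b` (at `t`); here the place of a horizontal side at `S` in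
row `j` is `S - e j`.  The arc `A j` is `r + 1, ..., P`; the arc `t + 1, ..., l` is
`{x : A (j - b) (x + b q)}`.
-/

namespace Helper11.N1

section defs

variable {p : ℕ} (q a b : ℕ) (z : ZMod p → ZMod (p * q))

/-- `x` lies in the arc `r + 1, ..., P` of row `j` -/
def A (j : ZMod p) (x : ZMod (p * q)) : Prop := off (z (j - a) + 1) x < off (z (j - a)) (z j)

/-- `x` lies in the arc `P + 1, ..., l` of row `j` -/
def H (j : ZMod p) (x : ZMod (p * q)) : Prop :=
  off (z j + 1) x < off (z j) (z (j - b) - b * q)

/-- `u = 1` on the strip of `j` at all its levels -/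
def UU (u : ZMod p → ZMod (p * q) → ℤ) (j : ZMod p) : Prop :=
  ∀ W, aB b W j → ∀ S, A q a z j (S - e p q j) → u W S = 1

/-- `y = 0` on the arc `H j` at all its levels -/
def YY (y : ZMod p → ZMod (p * q) → ℤ) (j : ZMod p) : Prop :=
  ∀ W, aR a W j → ∀ X, H q b z j X → y W X = 0

end defs

/-- ROW (to prove: `theorem row : StBL → StRow`).

PROOF.  Put `c x = y j x - y (j+1) x`, `c' x = u j (x + e j) - u (j+1) (x + e j)`,
`P, r, l, t` as in the header.  They are different: `P`, `t` and `{r, l}` belong to different
clusters (rows `j`, `j - a - b`, `j - a`, `j - b`; use residues), and `r ≠ l` also if `a = b`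
(`z (j - a) ≠ z (j - a) - a q`).
(1) `c (x+1) - c x = [x = P] + [x = t] - [x = r] - [x = l]`, the same for `c'`.  The sides active at
exactly one of the two levels are those of the header (for instance `aR a (j+1) i` is
`(j - i).val < a`, `aR a j i` is `(j - i - 1).val < a`; they differ only for `i = j` and
`i = j - a`); at any place `x` only sides of one cluster occur (residues).  Each side changes `y` or
`u` as in `yR, yL, uB, uT`, and without side nothing changes (`yC`, `uC`).
(2) `c = c'`: by (1) the difference is constant; at `P`: the point `(P, P + e j)` (line of level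
`j`) is in no box: if it is in the box `i` then `i ≠ j` (`off (sc j + 1) (sc j) = M - 1`), and the
point `(z j, sc j + 1)` is in the box `j` and in the box `i` (`off (sc i + 1) (sc j) + 1 < a q`
because `= a q` would give `sc j = sc i + a q`, equal residues), contradiction.  So
`y j P = u j (P + e j)` (`out`), and `y (j+1) P = 1 = u (j+1) (sc j)` (`yR`, `uB` at level `j + 1`).
(3) `c l = 1`: the point of `l + 1` on the line of level `j` is in the box `j - b` (BL: `d = b`,
`t = b q - 1`), so `y j (l + 1) = 1`, and `y j l = y j (l + 1)` (`yC`: at `l` only sides of the cluster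
`j - b` can occur, `R` is at another place, `L` is not active at level `j`); `y (j+1) l = 0` (`yL`).
(4) `c r = c' r = 0`: the point of `r` on the line of level `j` is in the box `j - a` (BL: `d = a`,
`t = 0`), so `u j (r + e j) = 0`; `u (j+1) (r + e j) = 0` (`uT`).
(5) Let `π = off r P`, `τ = off r t`, `λ = off r l`.  By (1), (4): for `1 ≤ n ≤ M`
`c (r + n) = -1 + [π < n] + [τ < n] - [λ < n]`.  At `n = λ` this is `1`, so `π < λ`, `τ < λ`.  Hence
`c (r + n) = [τ < n ≤ λ] - [n ≤ π]`, and `A j (r + n)` iff `n ≤ π`,
`A (j - b) (r + n + b q)` iff `τ < n ≤ λ` (translate by `b q`: the arc `t + 1, ..., l`). -/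
def StRow : Prop := ∀ (p q a b : ℕ) [NeZero p] [NeZero q], Par p q a b →
  ∀ (z : ZMod p → ZMod (p * q)), Gen q z → Disj q a b z →
  ∀ (y u : ZMod p → ZMod (p * q) → ℤ), World q a b z y u → ∀ j : ZMod p, open Classical in
  (∀ x, y j x - y (j + 1) x = (if A q a z (j - b) (x + b * q) then 1 else 0) -
    (if A q a z j x then 1 else 0)) ∧
  (∀ x, u j (x + e p q j) - u (j + 1) (x + e p q j) =
    (if A q a z (j - b) (x + b * q) then 1 else 0) - (if A q a z j x then 1 else 0)) ∧
  off (z (j - a)) (z j) < off (z (j - a)) (z (j - b) - b * q) ∧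
  off (z (j - a)) (z (j - a - b) - b * q) < off (z (j - a)) (z (j - b) - b * q)

/-- STRIP (to prove: `theorem strip : StBL → StRow → StStrip`).

PROOF.  (1) Suppose `u (j+1) S = 1` for all `S` with `A j (S - e j)`.  Show by induction on `n < b`
that `u W S = 1` for these `S` and `W = j + 1 + n`.  Step `W → W + 1` (`n + 1 < b`): the `S` in
question are `S i = r + e j + 1 + i`, `0 ≤ i < off r P`, the last one is `sc j`, where
`u (W+1) (sc j) = 1` by `uB`.  Going down: let `u (W+1) (S + 1) = 1`, `S` in the strip, and suppose
`u (W+1) S = 0`.  By `uC` there is a `B` or `T` side at `S` active at level `W + 1`; not `B` (`uB`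
gives `u (W+1) S = 1`); so `T` of some `k`, `sc k + a q = S`.  `T` of `k` is not active at level
`W` (`uT` would give `u W S = 0`).  So `k = W - a`, and the point `S` on the line of level `W`
(`X = S - e W = z (W - a)`) is in the box `W - a` (BL: `d = a`, `t = 0`), so `u W S = 0`,
contradiction.
(2) First claim: `off r P < off r t` implies `UU j`: for `x = S - e j` with `A j x` one has not
`A (j - b) (x + b q)` (this is the arc `t + 1, ..., l`, and `r, P, t, l` are in this order), so
StRow gives `u j (x + e j) - u (j+1) (x + e j) = -1`, `u (j+1) S = 1`; use (1).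
(3) Second claim: `UU j → UU (j + b)`: put `W = j + b`; `aB b W j` holds.  For `S` with
`A W (S - e W)`, `x = S - e W`: `u W S - u (W+1) S = [A j (x + b q)] - 1` and
`x + b q = S - e j`.  If `A j (S - e j)` then `u W S = 1` by `UU j` and the right side is `0`;
otherwise the right side is `-1`.  In both cases `u (W+1) S = 1`; use (1). -/
def StStrip : Prop := ∀ (p q a b : ℕ) [NeZero p] [NeZero q], Par p q a b →
  ∀ (z : ZMod p → ZMod (p * q)), Gen q z → Disj q a b z →
  ∀ (y u : ZMod p → ZMod (p * q) → ℤ), World q a b z y u → ∀ j : ZMod p,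
  (off (z (j - a)) (z j) < off (z (j - a)) (z (j - a - b) - b * q) → UU q a b z u j) ∧
  (UU q a b z u j → UU q a b z u (j + b))

/-- REFB (to prove: `theorem refb : StRef → StRow → StRefB`).  The reflection exchanges `UU` and
`YY`, and reverses the order of `P` and `t`.

PROOF.  `World` reflects by StRef.  `zr (j - b) = - sc (j - b)`,
`off (zr (j-b) + 1) (1 - X - e j) = (z (j - b) - b q - X).val = off X l` and
`off (zr (j-b)) (zr j) = off (sc j) (sc (j-b)) = off P l`; so `A q b (zr q z) j (1 - X - e j)` is
`off X l < off P l`, which is the same as `off (P + 1) X < off P l`, that is `H j X`.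
`aB a W j` is `aR a W j`.  So `UU` for the reflected world (`u' W S = 1 - y W (1 - S)`) says
`y W X = 0` for `H j X`: this is `YY j`.  By symmetry (`zr (zr z) = z`) `YY` of the reflected world
is `UU`: here `A j (S - e j)` is `off S (sc j) < off (r + e j) (sc j)`.
Order: if not `off r P < off r t` then `off r t < off r P` (`t ≠ P`), and `r, t, P, l` are in this
order (StRow), so `off P l < off t l`.  The reflected quantities are
`off (zr (j-b)) (zr j) = off P l` and `off (zr (j-b)) (zr (j-b-a) - a q) = off t l`. -/
def StRefB : Prop := ∀ (p q a b : ℕ) [NeZero p] [NeZero q], Par p q a b →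
  ∀ (z : ZMod p → ZMod (p * q)), Gen q z → Disj q a b z →
  ∀ (y u : ZMod p → ZMod (p * q) → ℤ), World q a b z y u →
  World q b a (zr q z) (fun W X => 1 - u W (1 - X)) (fun W S => 1 - y W (1 - S)) ∧
  (∀ j, UU q b a (zr q z) (fun W S => 1 - y W (1 - S)) j ↔ YY q a b z y j) ∧
  (∀ j, YY q b a (zr q z) (fun W X => 1 - u W (1 - X)) j ↔ UU q a b z u j) ∧
  (∀ j, ¬ off (z (j - a)) (z j) < off (z (j - a)) (z (j - a - b) - b * q) →
    off (zr q z (j - b)) (zr q z j) < off (zr q z (j - b)) (zr q z (j - b - a) - a * q))

/-- WIND (no dependence).  Winding numbers.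

PROOF.  For an arc from `w` to `w'` with `ℓ = off w w'`: `off w v + off v w' = ℓ` or `ℓ + M`
(`off_add`).  If `off w v < ℓ` then `v ≠ w'` and `off v w'` is `ℓ - off w v`; so
`M [off w v < ℓ] = M + ℓ - ...`; in all cases
`M * [off w v < ℓ] = ℓ + off w' v - off w v` (as integers): if `off w v < ℓ` then
`off w' v = off w v - ℓ + M`, otherwise `off w' v = off w v - ℓ`.  Sum over `j` with `w = f (j - c)`,
`w' = f j`; the sums of `off (f j) v` and `off (f (j - c)) v` are equal. -/
def StWind : Prop := ∀ (p M : ℕ) [NeZero p] [NeZero M] (f : ZMod p → ZMod M) (c : ZMod p)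
  (v : ZMod M), open Classical in
  M * (Finset.univ.filter fun j : ZMod p => off (f (j - c)) v < off (f (j - c)) (f j)).card =
    ∑ j : ZMod p, off (f (j - c)) (f j)

/-- the number of active right sides at the positions `x, ..., x + q - 1` -/
noncomputable def Q {p : ℕ} (q a : ℕ) (z : ZMod p → ZMod (p * q)) (W : ZMod p)
    (x : ZMod (p * q)) : ℤ :=
  open Classical in ∑ k ∈ Finset.range q, if ∃ j, aR a W j ∧ z j = x + (k : ℕ) then 1 else 0

/-- YF (to prove: `theorem yf : StRow → StYf`).  The formula for `y` as a height difference.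

PROOF.  Let `Y W X` be the right side of the formula.
(1) `[A j (x+1)] - [A j x] = -([R at x, level j+1] - [R at x, level j])`, where `[R at x, level W]`
is the indicator of `∃ j, aR a W j ∧ z j = x` (`= Σ_j` by injectivity of `z`): both sides are
`[x = r] - [x = P]`.  Summing over `q` consecutive places:
`[A j (x+q)] - [A j x] = -(Q (j+1) x - Q j x)`.
(2) `Y W (X+1) - Y W X = [R at X + b q, level W - b] - [R at X, level W]` (telescoping sum by (1):
the `i`-th term changes by `-[R at x_i, level W-i] + [R at x_i, level W-1-i] + [R at x_i, level W-i]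
- [R at x_i - q, level W-i]` with `x_i = X + (i+1) q`), and this is `y W (X+1) - y W X` by `yR`,
`yL`, `yC`, because `L` of `f` is active at level `W` iff `R` of `f` is active at level `W - b`,
and sits at `X` iff `z f = X + b q` (only one cluster at each place).
(3) `Y (W+1) X - Y W X = [A W X] - [A (W-b) (X + b q)]`, by reindexing and (1); this is
`y (W+1) X - y W X` by StRow.
So `Y - y` is constant. -/
def StYf : Prop := ∀ (p q a b : ℕ) [NeZero p] [NeZero q], Par p q a b →
  ∀ (z : ZMod p → ZMod (p * q)), Gen q z → Disj q a b z →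
  ∀ (y u : ZMod p → ZMod (p * q) → ℤ), World q a b z y u → ∃ C : ℤ, ∀ W X, open Classical in
  y W X + C = ∑ i ∈ Finset.range b,
    ((if A q a z (W - 1 - (i : ℕ)) (X + (((i + 1) * q : ℕ) : ZMod (p * q))) then (1 : ℤ) else 0) +
      Q q a z (W - (i : ℕ)) (X + ((i * q : ℕ) : ZMod (p * q))))

/-- BAND (to prove: `theorem band : StBL → StBand`).

PROOF.  Show by induction on `k ≤ q`, with `X` fixed and `S = X + e W - k`: `NN X S = y X - u S`.
`k = 0`: the line (`inn`, `out`; `NN` is `1` in a box and `0` outside by disjointness).  Step: let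
`S' = S + 1 = X + e W - k` with `k < q`, `S = X + e W - (k + 1)`.  Then
`NN X S' - NN X S = u S - u S'`: for a cluster `f` with `sc f = S` one has
`z f - X = e (W - f) - (k + 1)`, so `off X (z f) = d q - (k+1)` with `d = (W - f).val ≥ 1`
(for `d = 0`: `M - (k+1) ≥ b q`), which is `< b q` iff `d ≤ b`, iff `aB b W f`; so `S'` enters the
box `f` over `X` iff `B` of `f` is active, and then `u` drops by one (`uB`).  For `f` with
`sc f + a q = S`: `z f - X = e (W - f) - a q - (k+1)`, `off X (z f) = (d - a) q - (k + 1)` if
`d > a` and `≥ M - a q - q ≥ b q` otherwise; it is `< b q` iff `a < d ≤ a + b` iff `aT a b W f`;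
so `S'` leaves the box `f` over `X` iff `T` of `f` is active, and then `u` rises by one.  At most one
cluster has a side at `S` (residues); if there is none, neither side changes.
Finally `u S = 1` implies `y X = 1` since `NN ≥ 0`, for `X = S - e W + k`. -/
def StBand : Prop := ∀ (p q a b : ℕ) [NeZero p] [NeZero q], Par p q a b →
  ∀ (z : ZMod p → ZMod (p * q)), Gen q z → Disj q a b z →
  ∀ (y u : ZMod p → ZMod (p * q) → ℤ), World q a b z y u → ∀ (W : ZMod p) (S : ZMod (p * q)),
  u W S = 1 → ∀ k : ℕ, k ≤ q → y W (S - e p q W + k) = 1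

/-- LEN (to prove: `theorem len : StCnt → StLen`).

PROOF.  Level `W = j + 1` (`aB b W j`).  The `off r P` positions `S` with `A j (S - e j)` have
`u W S = 1`, so they are not line points of boxes (`inn`).  The line has `a b q` points in boxes
(StCnt; `NN` is `0` or `1` by disjointness), and `M` points. -/
def StLen : Prop := ∀ (p q a b : ℕ) [NeZero p] [NeZero q], Par p q a b →
  ∀ (z : ZMod p → ZMod (p * q)), Gen q z → Disj q a b z →
  ∀ (y u : ZMod p → ZMod (p * q) → ℤ), World q a b z y u → ∀ j : ZMod p, UU q a b z u j →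
  off (z (j - a)) (z j) + a * b * q ≤ p * q

/-- CI (to prove: `theorem ci : StRow → StStrip → StWind → StYf → StBand → StLen → StCI`).  The case
in which `P` comes before `t` in every row.

PROOF.  Write `x j = off (z (j-a)) (z j)`, `Al j` for the assumption.
(D1) `A j x` excludes `A (j - b) (x + b q)` (the arcs `r+1..P` and `t+1..l` with the order
`r, P, t, l`, StRow).  All `UU j` hold (StStrip).
(D2) Let `aB b W j` and `aB b (W+1) j`, `A j (S - e j)`.  Then `u W S = u (W+1) S = 1`, so by StRow
and (D1) not `A W (S - e W)`.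
(C) The constant `C` of StYf is `0`: take any `j`, `S = sc j` (`A j (z j)` holds since
`x j ≥ 1`), `W = j + b`, `X = S - e W`.  `y W X = 1` (StBand, `k = 0`).  In the sum the `A`-terms
are `[A W' (S - e W')]` with `W' = W - 1 - i`; for `i < b - 1` they vanish by (D2), for `i = b - 1`
it is `[A j (S - e j)] = 1`.  The `Q`-terms are at level `W'' = W - i`, `aB b W'' j`, positions
`S - e W'' + k`, `k < q`: since `u W'' S = 1`, StBand gives `y W'' = 1` at `S - e W'' + k` for all
`k ≤ q`, so no active `R` is there (`yR` gives `y = 0` at the next position).  So `1 + C = 1`.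
(E) Fix `m`.  Let `E` be the set of the `j` with
`0 < off (sc (j-a)) (sc m) < off (sc (j-a)) (sc j)`.  By StLen, `a q + x j < M`, so
`off (sc (j-a)) (sc j) = a q + x j`.  For `j ∈ E` the strip of `j` (the positions
`sc (j-a) + a q + 1, ..., sc (j-a) + a q + x j = sc j`) meets `sc m + 1, ..., sc m + a q`, say in
`S`; for `aB b W j` we have `u W S = 1`, so `y W X = 1` for all `X` with `off X (z m) < b q`
(`flat`).  Use StYf with `C = 0`, `W = j + b`, `X = z m - b q + 1`: left side `1`.  `Q`-terms: level
`W'' = W - i`, positions `x = X + i q + k`, `i q + k < b q`; if `i q + k < b q - 1` then `x` and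
`x + 1` are in the range of the box `m`, `y W'' = 1` at both, so no active `R`; for `x = z m`
(`i = b - 1`, `k = q - 1`, level `j + 1`) it is `[(j - m).val < a]` (`z` is injective).  `A`-terms:
for `i < b - 1`, row `W' = W - 1 - i`, `x = X + (i+1) q` in the range of box `m`,
`y W' x = y (W'+1) x = 1`, so by StRow and (D1) `A W' x` fails; for `i = b - 1` it is
`[A j (z m + 1)] = [off (z (j-a)) (z m) < x j]`.  Hence for all `j ∈ E`
`[off (z (j-a)) (z m) < x j] + [(j - m).val < a] = 1`.
(F) Count.  StWind for `z` and for `sc` with `c = a`: let `n1` be the number of `j` with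
`off (z (j-a)) (z m) < x j`, `n2` the number of `j` with
`off (sc (j-a)) (sc m) < a q + x j`; `M n1 = Σ x j`, `M n2 = p a q + Σ x j`, so `n2 = a + n1`.
The row `j = m + a` is counted in both (distance `0`), so `|E| = a + n1 - 1`, and
`Σ_{j ∈ E} [off (z (j-a)) (z m) < x j] ≤ n1 - 1`.  `m ∉ E` (the distance is the full length), so
`Σ_{j ∈ E} [(j - m).val < a] ≤ a - 1`.  So `a + n1 - 1 ≤ n1 - 1 + a - 1`, contradiction. -/
def StCI : Prop := ∀ (p q a b : ℕ) [NeZero p] [NeZero q], Par p q a b →
  ∀ (z : ZMod p → ZMod (p * q)), Gen q z → Disj q a b z →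
  ∀ (y u : ZMod p → ZMod (p * q) → ℤ), World q a b z y u →
  (∀ j, off (z (j - a)) (z j) < off (z (j - a)) (z (j - a - b) - b * q)) → False

/-- GH (no dependence).  In the mixed case the strips are exactly the set where `u = 1`.

PROOF.  Let `g S` be the number of the `j` with `aB b W j` and `A j (S - e j)`.  `g (S+1) - g S` is
the sum over the `j` with `aB b W j` of `[S = r_j + e j] - [S = sc j]`
(`A j (x+1) - A j x = [x = r] - [x = P]`, `0 < off r P < M`), and `r_j + e j = sc (j-a) + a q`,
`aB b W j` iff `aT a b W (j - a)`; so it is `[T at S] - [B at S]`, equal to `u (S+1) - u S`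
(`uB`, `uT`, `uC`, one cluster at each place).  So `g - u` is constant.  At `S0 = sc (W-1) + 1`,
`u S0 = 0` (`uB`), and `g S0 = 0` since otherwise `UU` gives `u S0 = 1`.  So `g = u`. -/
def StGH : Prop := ∀ (p q a b : ℕ) [NeZero p] [NeZero q], Par p q a b →
  ∀ (z : ZMod p → ZMod (p * q)), Gen q z → Disj q a b z →
  ∀ (y u : ZMod p → ZMod (p * q) → ℤ), World q a b z y u → (∀ j, UU q a b z u j) →
  ∀ (W : ZMod p) (S : ZMod (p * q)), open Classical in
  u W S = ((Finset.univ.filter fun j : ZMod p => aB b W j ∧ A q a z j (S - e p q j)).card : ℤ)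

/-- ZZ (to prove: `theorem zz : StBL → StZZ`).

PROOF.  Write `h f = off (z f) (z (f - b) - b q)` (length of `H f`); so
`sc (f - b) = sc f + h f` (as `z (f-b) + e (f-b) = z (f-b) - b q + e f`).  Let `d = (W - f).val`,
`σ = off (sc f) S`, `1 ≤ d ≤ a + b`, `1 ≤ σ ≤ a q`.
(HL) If `aR a W f` (`1 ≤ d ≤ a`) then `u W S = 0` for the line points over `H f`, that is for
`σ = d q + 1, ..., d q + h f`: there `y = 0` (`YY`), so the point is in no box (`inn`) and `u = y`.
(UP) For `d ≤ a + b - 1` and `σ > (d - b) q`: `u W S = 0`.  Induction on `a - d`.  If `σ ≤ d q` the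
point is a line point of the box `f` (BL, second form), `u = 0`.  Otherwise `d < a` and
`d q < σ ≤ a q`.  If `σ ≤ d q + h f` use (HL).  Otherwise use (UP) for `f - b`, `d + b ≤ a + b - 1`:
`off (sc (f-b)) S = σ - h f`, which is `> d q = (d + b - b) q` and `≤ a q`.
(DOWN) For `σ ≤ (d - b) q` (so `d > b`): let `g = f + b`, `(W - g).val = d - b ∈ [1, a]`,
`sc f = sc g + h g`, `off (sc g) S = h g + σ` if this is `< M`.  The line points over `H g` are those
with distance `(d-b) q + 1, ..., (d-b) q + h g` from `sc g`; as `σ ≤ (d-b) q` the distance `h g + σ`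
is `≤ (d-b) q + h g`, so if it is `> (d-b) q` we are done by (HL).  Otherwise it is
`≤ (d-b) q ≤ a q` and the claim for `g` (induction on `d`, both parts) gives `u W S = 0`.
(`h g + a q < M`, so no wrapping: this is the hypothesis on the lengths.) -/
def StZZ : Prop := ∀ (p q a b : ℕ) [NeZero p] [NeZero q], Par p q a b →
  ∀ (z : ZMod p → ZMod (p * q)), Gen q z → Disj q a b z →
  ∀ (y u : ZMod p → ZMod (p * q) → ℤ), World q a b z y u → (∀ j, YY q a b z y j) →
  (∀ j, off (z j) (z (j - b) - b * q) + a * b * q ≤ p * q) →
  ∀ (W f : ZMod p), (W - 1 - f).val < a + b → ∀ S, off (sc q z f + 1) S < a * q → u W S = 0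

/-- CIII (to prove:
`theorem ciii : StCnt → StRef → StRefB → StWind → StLen → StGH → StZZ → StCIII`).  The mixed case.

PROOF.  `x j = off (z (j-a)) (z j)`, `h j = off (z j) (z (j-b) - b q)`.  StLen gives
`x j + a b q ≤ M`, and for the reflected world (StRefB) `h j + a b q ≤ M`
(`off (zr (j-b)) (zr j) = h j`).  StGH: `u W S` is the number of active strips containing `S`;
for the reflected world: `1 - y W X` is the number of the `j` with `aR a W j`, `H j X`.
StZZ: (Z1) `u W = 0` on `sc m + 1, ..., sc m + a q` whenever `(W - 1 - m).val < a + b`; for the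
reflected world (Z2) `y W = 1` on `z m - b q + 1, ..., z m`.
(1) For every `W`: `M = a b q + Σ_{aB b W j} x j + Σ_{aR a W j} h j`: each line point is in exactly
one box, or `y = u = 1` (in exactly one active strip), or `y = u = 0` (in exactly one active `H`);
count.  Sum over `W`: `p M = p a b q + b Σ x j + a Σ h j`.
(2) Fix `m = 0`.  `E` = set of the `j` with `0 < off (sc (j-a)) (sc m) < off (sc (j-a)) (sc j)`, where
the last distance is `a q + x j < M`; `E'` = set of the `j` with
`0 < off (z j) (z m) < off (z j) (z (j-b))`, the last distance is `h j + b q < M`.  By StWind (for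
`sc` with `c = a`; for `z` composed with `j ↦ -j`, or reflected) `M (|E| + 1) = p a q + Σ x j`,
`M (|E'| + 1) = p b q + Σ h j` (the element with distance `0` is `m + a`, resp. `m`).
(3) For `j ∈ E` some position `S` with `A j (S - e j)` has `off (sc m + 1) S < a q`; for `j ∈ E'` some
`X` with `H j X` has `off X (z m) < b q` (intersection of two arcs).
(4) The sets `{W : aB b W j}` (`j ∈ E`, `b` elements each), `{W : aR a W j}` (`j ∈ E'`, `a` elements
each) and `{W : (W - 1 - m).val < a + b}` are pairwise disjoint: strip against the last set: (Z1)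
against `UU`; `H` against the last set: (Z2) against `YY`; `j ∈ E` against `j' ∈ E'`: `u W S = 1`,
`y W X = 0` in the box `m` contradicts `flat`; `j ≠ j'` in `E` both active at `W`: let `S1`, `S2` be
the positions in the box range of `m`; the two strips are disjoint (StGH, `u ≤ 1`); say
`σ1 = off (sc m) S1 < σ2 = off (sc m) S2`; the strip of `j` ends at `sc j`, and does not contain `S2`,
so `sc j = S1 + δ` with `δ < σ2 - σ1`, so `off (sc j) S2 = σ2 - σ1 - δ` is between `1` and
`a q - 1`, and (Z1) for `j` (active `B`, so `(W - 1 - j).val < b`) gives `u W S2 = 0`, contradiction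
to `UU j'`.  For `j ≠ j'` in `E'`: the same for the reflected world.
(5) So `b |E| + a |E'| + a + b ≤ p`.  Multiply by `M` and insert (2), (1):
`b (p a q + Σ x - M) + a (p b q + Σ h - M) + (a + b) M ≤ p M = p a b q + b Σ x + a Σ h`, so
`a b p q ≤ 0`, contradiction. -/
def StCIII : Prop := ∀ (p q a b : ℕ) [NeZero p] [NeZero q], Par p q a b →
  ∀ (z : ZMod p → ZMod (p * q)), Gen q z → Disj q a b z →
  ∀ (y u : ZMod p → ZMod (p * q) → ℤ), World q a b z y u →
  (∀ j, UU q a b z u j) → (∀ j, YY q a b z y j) → False

/-- MAIN (to prove: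
`theorem main : StLDX → StLvl → StRef → StStrip → StRefB → StCI → StCIII → StMain`).

PROOF.  StLDX and StLvl give `World` (choose `y W`, `u W`).  If all rows satisfy
`off r P < off r t`: StCI.  If none does: the reflected world (StRefB, `Gen` and `Disj` of the
reflected configuration from StRef) satisfies it in all rows: StCI for
`(b, a)`.  Otherwise there is a row with and a row without it.  The first gives `UU j0`, hence
`UU (j0 + n b)` for all `n`, so all `UU j` since `b` is a unit modulo `p`.  The second gives
`UU j1` for the reflected world, hence all `UU j` for the reflected world (`a` is a unit), that is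
all `YY j`.  StCIII. -/
def StMain : Prop := ∀ (p q a b : ℕ) [NeZero p] [NeZero q], Par p q a b →
  a.Coprime p → b.Coprime p →
  ∀ (z : ZMod p → ZMod (p * q)), Gen q z → Disj q a b z →
  (∀ X W S, |FF q a b z X W S| ≤ 1) → False

end Helper11.N1
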