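import Pool.Agent.Helper11.N1.StB
import Pool.Agent.Helper55.FT.Def

set_option autoImplicit false

/-!
Project N1, statements of part 3: from the progression sums `G p q D N k` (helper55, `FT/Def.lean`)
to the triangle counts `FF`, and the mirrors `a ↦ p - a`, `b ↦ p - b`.  Conventions as in
`StA.lean`.  Complete proofs in the docstrings.
-/

namespace Helper11.N1

open Pool.Agent.Helper55.FT (G bv av mm)

/-- VJ (to prove: `theorem vj : StLJ → StDEC → StVJ`).  The jump of `FF` between `X` and `X + 1`.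

PROOF.  By DEC, `FF (X+1) W S - FF X W S` is `NN (X+1) S - NN X S` minus
`NN (X+1) (X+1+e W) - NN X (X+e W)` minus `rhoS W (X+1+e W) - rhoS W (X+e W)`.  The first
difference is `Σ_j ([z j - b q = X] - [z j = X]) [off (sc j + 1) S < a q]`
(`off (X+1) (z j) < b q` and `off X (z j) < b q` differ exactly if `z j = X` or `z j - b q = X`,
`0 < b q < M`).  The second is given by LJ, summed over `j`.  The third: with `S' = X + e W`,
`rhoS W (S'+1) - rhoS W S' = Σ_j ([aT ∧ sc j + a q = S'] - [aB ∧ sc j = S'])`: if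
`(S'+1).val = S'.val + 1` this is clear; if `S' + 1 = 0` every term of `rhoS W 0` is `0` and
`x.val < M - 1` fails only for `x = S'`, so the difference is
`Σ_j (-[aT] + [aT ∧ .. = S'] + [aB] - [aB ∧ .. = S'])` and there are exactly `b` rows with `aT` and
`b` rows with `aB`.  (This computation is also in module LDX.)  The `B` and `T` terms cancel. -/
def StVJ : Prop := ∀ (p q a b : ℕ) [NeZero p] [NeZero q], Par p q a b →
  ∀ (z : ZMod p → ZMod (p * q)) (X : ZMod (p * q)) (W : ZMod p) (S : ZMod (p * q)),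
  open Classical in
  FF q a b z (X + 1) W S - FF q a b z X W S = ∑ j : ZMod p,
    ((if z j = X then (if aR a W j then (1 : ℤ) else 0) -
        (if off (sc q z j + 1) S < a * q then 1 else 0) else 0) +
      (if z j - b * q = X then (if off (sc q z j + 1) S < a * q then (1 : ℤ) else 0) -
        (if aL a b W j then 1 else 0) else 0))

/-- LK1 (no dependence).  At block positions the triangle count is a sum of truncated coefficients.

PROOF.  Let `X' = X + e W`, `T = off X' S`.  Claim: for every `c` (a natural number, `0` or `a`) and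
`i = j + c`, `σ = off X' (sc j + c q)`:
`[tri X W S (z j) i] - [tri X W S (z j - b q) (i + b)] = bv p q (T - 1) σ`.
`e i = e j + c q`, so `z j + e i = sc j + c q = (z j - b q) + e (i + b)` (`e_add`, `e_natCast`).
Let `w = (i - W).val`, `t = off X (z j)`, a multiple of `p` (as `p ∣ X.val`, `p ∣ (z j).val`,
`p ∣ M`), `w' = (i + b - W).val`, `t' = off X (z j - b q)`, `t' ≡ 1 (mod p)` since
`p ∣ b q + 1`.  `σ` is `t + q w` or `t + q w - M`, and also `t' + q w'` or `t' + q w' - M`;
`0 ≤ σ < M`.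
`mm p q 0 σ` counts the `l < p` with `l q ≤ σ`, `p ∣ σ - l q`.  `q` is a unit modulo `p`, and
`σ ≡ q w (mod p)`, so only `l = w` is possible, and `w q ≤ σ` iff `σ = t + q w` (`t < M`).  So
`mm p q 0 σ = [t + q w < M]`, and `[t + q w < T] = [σ ≤ T - 1] * mm p q 0 σ` (`T < M`; if
`t + q w ≥ M` both are `0`).
`mm p q 1 σ` counts the `l < p` with `l q ≤ σ`, `p ∣ σ - 1 - l q`; `σ - 1 ≡ q w'`, so only
`l = w'`, and `w' q ≤ σ` iff `σ = t' + q w'`; `[t' + q w' < T] = [σ ≤ T - 1] * mm p q 1 σ`.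
`σ % (p q) = σ`.  Subtract: `bv`.
The sum over `j` of the claims for `c = 0` minus those for `c = a` is `FF`. -/
def StLK1 : Prop := ∀ (p q a b : ℕ) [NeZero p] [NeZero q], p ∣ b * q + 1 →
  ∀ (z : ZMod p → ZMod (p * q)), (∀ j, p ∣ (z j).val) →
  ∀ (X : ZMod (p * q)) (W : ZMod p) (S : ZMod (p * q)), p ∣ X.val →
  FF q a b z X W S = ∑ j : ZMod p,
    (bv p q ((off (X + e p q W) S : ℤ) - 1) (off (X + e p q W) (sc q z j) : ℤ) -
      bv p q ((off (X + e p q W) S : ℤ) - 1) (off (X + e p q W) (sc q z j + a * q) : ℤ))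

/-- the progression: the row `a b n` carries the position `n (D - a b q)`, `0 ≤ n < p` -/
def zap {p : ℕ} (q a b : ℕ) (D : ℤ) (j : ZMod p) : ZMod (p * q) :=
  (((j * ((a * b : ℕ) : ZMod p)⁻¹).val : ℕ) : ZMod (p * q)) *
    ((D - a * b * q : ℤ) : ZMod (p * q))

/-- LK2 (to prove: `theorem lk2 : StLK1 → StLK2`).  The progression gives `G`.

PROOF.  `n = (j (ab)⁻¹).val`, so `j = a b n` in `ZMod p`, `e j = a b n q` (`e_natCast`), hence
`sc (zap) j = n D` in `ZMod (p q)`.  `p ∣ (zap j).val`: `D - a b q ≡ -a - a (b q) ≡ 0 (mod p)`.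
LK1 applies.  With `N = T - 1`, `T = off (X + e W) S`, `k = (p - 1) D - (X + e W).val`: the map
`j ↦ p - 1 - n` is a bijection onto `range p`; `off (X + e W) (sc j) ≡ n D - (X + e W).val =
k - (p - 1 - n) D (mod p q)` and `off (X + e W) (sc j + a q) ≡ k - (p - 1 - n) D - q D`, because
`a q + q D` is divisible by `p q`; use `bv_congr`.  If `T = 0` then `FF = 0` (all `tri` fail). -/
def StLK2 : Prop := ∀ (p q a b : ℕ) [NeZero p] [NeZero q], p ∣ b * q + 1 → (a * b).Coprime p →
  ∀ D : ℤ, (p : ℤ) ∣ D + a → 1 < p →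
  (∀ j, p ∣ (zap (p := p) q a b D j).val) ∧
  (∀ j : ZMod p, sc q (zap q a b D) j =
    (((j * ((a * b : ℕ) : ZMod p)⁻¹).val : ℕ) : ZMod (p * q)) * ((D : ℤ) : ZMod (p * q))) ∧
  ∀ (X : ZMod (p * q)) (W : ZMod p) (S : ZMod (p * q)), p ∣ X.val →
    FF q a b (zap q a b D) X W S = 0 ∨
    ∃ N k : ℤ, 0 ≤ N ∧ N < p * q ∧ FF q a b (zap q a b D) X W S = G p q D N k

/-- GENAP (no dependence).

PROOF.  `res` of `zap j` is `n_j D` (`q ∣ a b q`).  If `q ∣ (zap i - zap j).val` then
`q ∣ (n_i - n_j) D`, so `q ∣ n_i - n_j`, `|n_i - n_j| < p ≤ q`, so `n_i = n_j`, and `i = j` since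
`a b` is a unit modulo `p`. -/
def StGENAP : Prop := ∀ (p q a b : ℕ) [NeZero p] [NeZero q], p ≤ q → (a * b).Coprime p →
  ∀ D : ℤ, IsCoprime D (q : ℤ) → Gen q (zap (p := p) q a b D)

/-- LK3 (to prove: `theorem lk3 : StVJ → StLK3`).  From block positions to all positions, the sides
`R` at positions `≡ 0` and the sides `L` at positions `≡ 1` modulo `p`.

PROOF.  Write `F X = FF X W S`.  By StVJ, `F (X+1) = F X` unless `z j = X` (then `p ∣ X.val`) or
`z j - b q = X` (then `X.val ≡ 1 (mod p)` since `p ∣ b q + 1`) for some `j`.  So for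
`X.val ≡ 2, ..., p - 1` the value `F X` equals `F` at the next position divisible by `p` (induction);
it is bounded.  Let `X.val ≡ 1`, `X = Y + 1`, `p ∣ Y.val`; `F Y` and `F (X + 1)` are bounded (`p ≥ 3`).
If no `j` has `z j = Y` then `F X = F Y`; if no `j` has `z j - b q = X` then `F (X+1) = F X`.
Otherwise let `z n = Y`, `z m - b q = X` (unique, `z` injective), `κ = (m + b - n).val`,
`F X - F Y = [aR n] - [S ∈ I n]`, `F (X+1) - F X = [S ∈ I m] - [aL m]`, where `S ∈ I j` means
`off (sc j + 1) S < a q`.  If one of these is `0`, or both have the same sign, `F X` is bounded.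
`+1, -1`: `aR n` and `aL m`: `u = (W - 1 - n).val < a`, `v = (W - b - 1 - m).val < a`,
`u = v + κ` or `u = v + κ - p`, so `κ < a` or `κ > p - a`, excluded.  `-1, +1`: `S ∈ I n` and
`S ∈ I m`: `sc m = sc n + q κ + 1` so `off (sc n) S` is in `[1, a q]` and equals `q κ + 1` plus a
number in `[1, a q]` modulo `M`; as `a ≤ κ` and `κ + a < p` this is impossible. -/
def StLK3 : Prop := ∀ (p q a b : ℕ) [NeZero p] [NeZero q], Par p q a b → p ∣ b * q + 1 →
  ∀ (z : ZMod p → ZMod (p * q)), Function.Injective z → (∀ j, p ∣ (z j).val) →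
  (∀ n m, z m - b * q = z n + 1 → a ≤ (m + b - n).val ∧ (m + b - n).val + a < p) →
  (∀ (X : ZMod (p * q)) W S, p ∣ X.val → |FF q a b z X W S| ≤ 1) →
  ∀ X W S, |FF q a b z X W S| ≤ 1

/-- LK3B (to prove: `theorem lk3b : StVJ → StLK3B`).  The same with the sides `R` at positions
`≡ 1` and the sides `L` at positions `≡ 0` modulo `p`.

PROOF.  As for LK3.  `F (X+1) = F X` unless `z j = X` (then `X.val ≡ 1`) or `z j - b q = X` (then
`p ∣ X.val`, because `(z j).val ≡ 1` and `b q ≡ 1 (mod p)`).  Let `X.val ≡ 1`, `X = Y + 1`.  The case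
to exclude: `z m - b q = Y`, `z n = X`, `F X - F Y = [S ∈ I m] - [aL m]`,
`F (X+1) - F X = [aR n] - [S ∈ I n]` of different sign: both sides active, or `S` in both ranges.
Now `z n = z m - b q + 1`, `sc m = sc n + q κ - 1` with `κ = (m + b - n).val`; both active is
excluded as before (`a ≤ κ`, `κ + a ≤ p`), and `off (sc n) S ∈ [1, a q]` would be `q κ - 1` plus
a number in `[1, a q]` modulo `M`, impossible as `q κ - 1 ≥ a q` (`κ > a`) and
`q κ - 1 + a q ≤ M - 1`. -/
def StLK3B : Prop := ∀ (p q a b : ℕ) [NeZero p] [NeZero q], Par p q a b →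
  (∃ c : ℕ, b * q = p * c + 1) →
  ∀ (z : ZMod p → ZMod (p * q)), Function.Injective z → (∀ j, (z j).val % p = 1) →
  (∀ n m, z m - b * q + 1 = z n → a < (m + b - n).val ∧ (m + b - n).val + a ≤ p) →
  (∀ (X : ZMod (p * q)) W S, p ∣ X.val → |FF q a b z X W S| ≤ 1) →
  ∀ X W S, |FF q a b z X W S| ≤ 1

/-- MIR (no dependence).  The mirrors.

PROOF.  `a ↦ p - a`: the configuration `z' j = z (j - a)`.  For `j' = j + a`, `z' j' = z j` and
`j' + (p - a) = j` in `ZMod p`; the four terms of `j'` in `FF q (p - a) b z'` are the indicators of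
`(z j, j + a)`, `(z j, j)`, `(z j - b q, j + a + b)`, `(z j - b q, j + b)` with signs `+, -, -, +`.
Reindex the sum by `j ↦ j + a`.
`b ↦ p - b`: `z'' j = z (j - b) - b q`.  For `j' = j + b`: `z'' j' = z j - b q`,
`z'' j' - (p - b) q = z j` (`p q = 0` in `ZMod (p q)`), `j' + (p - b) = j`; the four terms are the
indicators of `(z j - b q, j + b)`, `(z j - b q, j + a + b)`, `(z j, j)`, `(z j, j + a)` with
signs `+, -, -, +`. -/
def StMIR : Prop := ∀ (p q a b : ℕ) [NeZero p] [NeZero q] (z : ZMod p → ZMod (p * q)),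
  (a ≤ p → ∀ X W S, FF q (p - a) b (fun j : ZMod p => z (j - (a : ZMod p))) X W S =
    - FF q a b z X W S) ∧
  (b ≤ p → ∀ X W S, FF q a (p - b) (fun j : ZMod p => z (j - (b : ZMod p)) - b * q) X W S =
    - FF q a b z X W S) ∧
  (Gen q z → Gen q (fun j : ZMod p => z (j - (a : ZMod p)))) ∧
  (Gen q z → Gen q (fun j : ZMod p => z (j - (b : ZMod p)) - b * q))

end Helper11.N1
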